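import Pool.Agent.H97G.Defs

/-!
# Rank lemmas used in the pieces LA, LC3
-/

set_option autoImplicit false

namespace Pool.Agent.H97G.B66

open Finset

section rank
variable {V : Type} [DecidableEq V] (R : RG V)

theorem cl_of_le {S : Finset V} {v : V} (h : R.rk (insert v S) ≤ R.rk S) : Cl R.rk S v :=
  le_antisymm h (R.mono _ _ (Finset.subset_insert v S))

theorem cl_mem {S : Finset V} {v : V} (h : v ∈ S) : Cl R.rk S v := by
  unfold Cl
  rw [Finset.insert_eq_self.2 h]

theorem cl_mono {S T : Finset V} {v : V} (h : S ⊆ T) (hv : Cl R.rk S v) : Cl R.rk T v := by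
  apply cl_of_le
  have h1 := R.submod T (insert v S)
  have h2 : R.rk S ≤ R.rk (T ∩ insert v S) := R.mono _ _ (by
    intro x hx
    simp [h hx, hx])
  have h3 : T ∪ insert v S = insert v T := by
    rw [Finset.union_insert, Finset.union_eq_left.2 h]
  rw [h3] at h1
  unfold Cl at hv
  omega

theorem rk_union_of_cl {S T : Finset V} (h : ∀ t ∈ T, Cl R.rk S t) : R.rk (S ∪ T) = R.rk S := by
  induction T using Finset.induction_on with
  | empty => simp
  | insert a T ha ih =>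
    have h1 : R.rk (S ∪ T) = R.rk S := ih fun t ht => h t (Finset.mem_insert_of_mem ht)
    have h2 : Cl R.rk (S ∪ T) a := cl_mono R Finset.subset_union_left
      (h a (Finset.mem_insert_self a T))
    unfold Cl at h2
    rw [Finset.union_insert, h2, h1]

theorem rk_le_of_cl {S T : Finset V} (h : ∀ t ∈ T, Cl R.rk S t) : R.rk T ≤ R.rk S := by
  rw [← rk_union_of_cl R h]
  exact R.mono _ _ Finset.subset_union_right

theorem rk_eq_of_cl {S T : Finset V} (hST : S ⊆ T) (h : ∀ t ∈ T, Cl R.rk S t) :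
    R.rk T = R.rk S :=
  le_antisymm (rk_le_of_cl R h) (R.mono _ _ hST)

theorem cl_trans {S T : Finset V} {v : V} (h : ∀ t ∈ T, Cl R.rk S t) (hv : Cl R.rk T v) :
    Cl R.rk S v := by
  apply cl_of_le
  have h1 : Cl R.rk (S ∪ T) v := cl_mono R Finset.subset_union_right hv
  have h2 := rk_union_of_cl R h
  unfold Cl at h1
  have h3 : R.rk (insert v S) ≤ R.rk (insert v (S ∪ T)) :=
    R.mono _ _ (Finset.insert_subset_insert v Finset.subset_union_left)
  omega

/-- if `rk` does not grow, everything is in the closure -/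
theorem cl_of_rk_le {S T : Finset V} (hST : S ⊆ T) (h : R.rk T ≤ R.rk S) {v : V} (hv : v ∈ T) :
    Cl R.rk S v := by
  apply cl_of_le
  exact (R.mono _ _ (Finset.insert_subset hv hST)).trans h

theorem step_of_not_cl {S : Finset V} {a b : V} (ha : a ∈ S) (hab : R.G.Adj a b)
    (h : ¬ Cl R.rk S b) : R.rk (insert b S) = R.rk S + 1 := by
  have h1 := R.edge S a b ha hab
  have h2 := R.mono _ _ (Finset.subset_insert b S)
  unfold Cl at h
  omega

theorem not_cl_of_step {S : Finset V} {b : V} (h : R.rk (insert b S) = R.rk S + 1) :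
    ¬ Cl R.rk S b := by
  unfold Cl
  omega

/-- (I) -/
theorem inter {S F P : Finset V} {v : V} {r : ℕ} (hSF : S ⊆ F)
    (h1 : R.rk (F ∪ P) = R.rk F + r) (h2 : R.rk (S ∪ P) ≤ R.rk S + r)
    (h3 : Cl R.rk (S ∪ P) v) (h4 : Cl R.rk F v) : Cl R.rk S v := by
  apply cl_of_le
  have h5 := R.submod (insert v (S ∪ P)) (insert v F)
  have h6 : R.rk (F ∪ P) ≤ R.rk (insert v (S ∪ P) ∪ insert v F) := R.mono _ _ (by
    intro x hx
    simp only [Finset.mem_union, Finset.mem_insert] at hx ⊢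
    tauto)
  have h7 : R.rk (insert v S) ≤ R.rk (insert v (S ∪ P) ∩ insert v F) := R.mono _ _ (by
    intro x hx
    simp only [Finset.mem_union, Finset.mem_insert, Finset.mem_inter] at hx ⊢
    rcases hx with hx | hx
    · tauto
    · exact ⟨Or.inr (Or.inl hx), Or.inr (hSF hx)⟩)
  unfold Cl at h3 h4
  omega

/-- (I) for one vertex -/
theorem inter1 {S F : Finset V} {a y v : V} (hSF : S ⊆ F) (ha : a ∈ S) (hay : R.G.Adj a y)
    (hy : ¬ Cl R.rk F y) (h3 : Cl R.rk (insert y S) v) (h4 : Cl R.rk F v) : Cl R.rk S v := by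
  have e1 : ∀ X : Finset V, X ∪ {y} = insert y X := fun X => by
    rw [Finset.union_comm, Finset.insert_eq]
  refine inter R (P := {y}) (r := 1) hSF ?_ ?_ ?_ h4
  · rw [e1]
    exact step_of_not_cl R (hSF ha) hay hy
  · rw [e1]
    exact R.edge S a y ha hay
  · rw [e1]
    exact h3

/-- segments -/
def sg (p : ℕ → V) (i j : ℕ) : Finset V := (Finset.Icc i j).image p

omit R in
theorem mem_sg {p : ℕ → V} {i j : ℕ} {x : V} : x ∈ sg p i j ↔ ∃ t, i ≤ t ∧ t ≤ j ∧ p t = x := by
  unfold sg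
  simp [and_assoc]

omit R in
theorem mem_vs {p : ℕ → V} {n : ℕ} {x : V} : x ∈ vs p n ↔ ∃ t, t ≤ n ∧ p t = x := by
  unfold vs
  simp

omit R in
theorem vs_eq_sg (p : ℕ → V) (n : ℕ) : vs p n = sg p 0 n := by
  ext x
  rw [mem_sg, mem_vs]
  simp

omit R in
theorem sg_self (p : ℕ → V) (i : ℕ) : sg p i i = {p i} := by
  unfold sg
  simp

omit R in
theorem sg_subset (p : ℕ → V) {i j i' j' : ℕ} (h1 : i' ≤ i) (h2 : j ≤ j') :
    sg p i j ⊆ sg p i' j' := by
  intro x hx
  rw [mem_sg] at hx ⊢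
  obtain ⟨t, ht1, ht2, rfl⟩ := hx
  exact ⟨t, h1.trans ht1, ht2.trans h2, rfl⟩

omit R in
theorem sg_succ (p : ℕ → V) {i j : ℕ} (h : i ≤ j + 1) :
    sg p i (j + 1) = insert (p (j + 1)) (sg p i j) := by
  ext x
  rw [Finset.mem_insert, mem_sg, mem_sg]
  constructor
  · rintro ⟨t, h1, h2, rfl⟩
    rcases Nat.lt_or_ge j t with h3 | h3
    · left
      rw [show t = j + 1 by omega]
    · exact Or.inr ⟨t, h1, h3, rfl⟩
  · rintro (rfl | ⟨t, h1, h2, rfl⟩)
    · exact ⟨j + 1, h, le_rfl, rfl⟩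
    · exact ⟨t, h1, by omega, rfl⟩

omit R in
theorem sg_pred (p : ℕ → V) {i j : ℕ} (h : i ≤ j) :
    sg p i j = insert (p i) (sg p (i + 1) j) := by
  ext x
  rw [Finset.mem_insert, mem_sg, mem_sg]
  constructor
  · rintro ⟨t, h1, h2, rfl⟩
    rcases Nat.lt_or_ge i t with h3 | h3
    · exact Or.inr ⟨t, h3, h2, rfl⟩
    · left
      rw [show t = i by omega]
  · rintro (rfl | ⟨t, h1, h2, rfl⟩)
    · exact ⟨i, le_rfl, h, rfl⟩
    · exact ⟨t, by omega, h2, rfl⟩

omit R in
theorem left_mem_sg (p : ℕ → V) {i j : ℕ} (h : i ≤ j) : p i ∈ sg p i j :=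
  mem_sg.2 ⟨i, le_rfl, h, rfl⟩

omit R in
theorem right_mem_sg (p : ℕ → V) {i j : ℕ} (h : i ≤ j) : p j ∈ sg p i j :=
  mem_sg.2 ⟨j, h, le_rfl, rfl⟩

theorem rk_sg_right {p : ℕ → V} {n : ℕ} (hp : Wk R.G p n) {i j : ℕ} (hij : i ≤ j) (d : ℕ)
    (hd : j + d ≤ n) : R.rk (sg p i (j + d)) ≤ R.rk (sg p i j) + d := by
  induction d with
  | zero => simp
  | succ d ih =>
    have h1 := ih (by omega)
    rw [← add_assoc, sg_succ p (by omega)]
    have h2 := R.edge (sg p i (j + d)) (p (j + d)) (p (j + d + 1)) (right_mem_sg p (by omega))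
      (hp _ (by omega))
    omega

theorem rk_sg_left {p : ℕ → V} {n : ℕ} (hp : Wk R.G p n) {i j : ℕ} (hij : i ≤ j) (hj : j ≤ n)
    (d : ℕ) (hd : d ≤ i) : R.rk (sg p (i - d) j) ≤ R.rk (sg p i j) + d := by
  induction d with
  | zero => simp
  | succ d ih =>
    have h1 := ih (by omega)
    rw [sg_pred p (show i - (d + 1) ≤ j by omega)]
    have e1 : i - (d + 1) + 1 = i - d := by omega
    rw [e1]
    have h3 := (hp (i - (d + 1)) (by omega)).symm
    rw [e1] at h3
    have h2 := R.edge (sg p (i - d) j) (p (i - d)) (p (i - (d + 1))) (left_mem_sg p (by omega)) h3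
    omega

/-- the rank of a longer segment -/
theorem rk_sg {p : ℕ → V} {n : ℕ} (hp : Wk R.G p n) {i j i' j' : ℕ} (h1 : i ≤ i') (h2 : i' ≤ j')
    (h3 : j' ≤ j) (h4 : j ≤ n) : R.rk (sg p i j) ≤ R.rk (sg p i' j') + (i' - i) + (j - j') := by
  have e1 := rk_sg_right R hp h2 (j - j') (by omega)
  have e2 := rk_sg_left R hp (h2.trans h3) h4 (i' - i) (by omega)
  rw [show j' + (j - j') = j by omega] at e1
  rw [show i' - (i' - i) = i by omega] at e2
  omega

theorem rk_sg_le {p : ℕ → V} {n : ℕ} (hp : Wk R.G p n) {i j : ℕ} (h1 : i ≤ j) (h4 : j ≤ n) :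
    R.rk (sg p i j) ≤ R.m + (j - i) := by
  have e1 := rk_sg R hp (le_refl i) (le_refl i) h1 h4
  rw [sg_self] at e1
  have := R.vert (p i)
  omega

omit R in
theorem wk_shift {G : SimpleGraph V} {p : ℕ → V} {n i j : ℕ} (hp : Wk G p n) (hj : j ≤ n) :
    Wk G (fun t => p (i + t)) (j - i) := by
  intro t ht
  exact hp (i + t) (by omega)

omit R in
theorem vs_shift {p : ℕ → V} {i j : ℕ} (hij : i ≤ j) :
    vs (fun t => p (i + t)) (j - i) = sg p i j := by
  ext x
  rw [mem_vs, mem_sg]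
  constructor
  · rintro ⟨t, ht, rfl⟩
    exact ⟨i + t, by omega, by omega, rfl⟩
  · rintro ⟨t, h1, h2, rfl⟩
    exact ⟨t - i, by omega, by rw [show i + (t - i) = t by omega]⟩

omit R in
theorem wk_rev {G : SimpleGraph V} {p : ℕ → V} {n : ℕ} (hp : Wk G p n) :
    Wk G (fun t => p (n - t)) n := by
  intro t ht
  have h := (hp (n - (t + 1)) (by omega)).symm
  rw [show n - (t + 1) + 1 = n - t by omega] at h
  exact h

omit R in
theorem vs_rev (p : ℕ → V) (n : ℕ) : vs (fun t => p (n - t)) n = vs p n := by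
  ext x
  rw [mem_vs, mem_vs]
  constructor
  · rintro ⟨t, ht, rfl⟩
    exact ⟨n - t, by omega, rfl⟩
  · rintro ⟨t, ht, rfl⟩
    exact ⟨n - t, by omega, by rw [show n - (n - t) = t by omega]⟩

/-- subsegments of generic paths -/
theorem gen_sg {p : ℕ → V} {n : ℕ} (hp : Gen R p n) {i j : ℕ} (h1 : i ≤ j) (h2 : j ≤ n) :
    R.rk (sg p i j) = R.m + (j - i) := by
  have h3 := hp.2
  rw [vs_eq_sg] at h3
  have h4 := rk_sg R hp.1 (Nat.zero_le i) h1 h2 le_rfl
  have h5 := rk_sg_le R hp.1 h1 h2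
  omega

theorem gen_shift {p : ℕ → V} {n : ℕ} (hp : Gen R p n) {i j : ℕ} (h1 : i ≤ j) (h2 : j ≤ n) :
    Gen R (fun t => p (i + t)) (j - i) :=
  ⟨wk_shift hp.1 h2, by rw [vs_shift h1]; exact gen_sg R hp h1 h2⟩

theorem gen_rev {p : ℕ → V} {n : ℕ} (hp : Gen R p n) : Gen R (fun t => p (n - t)) n :=
  ⟨wk_rev hp.1, by rw [vs_rev]; exact hp.2⟩

theorem gen_take {p : ℕ → V} {n : ℕ} (hp : Gen R p n) {j : ℕ} (h2 : j ≤ n) : Gen R p j :=
  ⟨fun i hi => hp.1 i (by omega), by
    rw [vs_eq_sg, gen_sg R hp (Nat.zero_le j) h2]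
    omega⟩

theorem gen_inj {p : ℕ → V} {n : ℕ} (hp : Gen R p n) : Set.InjOn p (Set.Iic n) := by
  have key : ∀ i j, i < j → j ≤ n → p i ≠ p j := by
    intro i j hij hj he
    have h1 := gen_sg R hp (Nat.zero_le j) hj
    have h2 := gen_sg R hp (Nat.zero_le (j - 1)) (by omega)
    have h3 : sg p 0 j = sg p 0 (j - 1) := by
      have h4 := sg_succ p (Nat.zero_le (j - 1 + 1))
      rw [show j - 1 + 1 = j by omega] at h4
      rw [h4, ← he]
      exact Finset.insert_eq_self.2 (mem_sg.2 ⟨i, Nat.zero_le i, by omega, rfl⟩)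
    rw [h3] at h1
    omega
  intro i hi j hj he
  rcases Nat.lt_trichotomy i j with h | h | h
  · exact absurd he (key i j h hj)
  · exact h
  · exact absurd he.symm (key j i h hi)

/-- all the vertices of a generic path are in the closure of its ends -/
theorem gen_cl {N : ℕ} (hA : ∀ j, 2 ≤ j → j ≤ N → ¬ AA R j) : ∀ n, n ≤ N → ∀ p : ℕ → V,
    Gen R p n → ∀ i, i ≤ n → Cl R.rk {p 0, p n} (p i) := by
  intro n
  induction n with
  | zero =>
    intro _ p _ i hi
    obtain rfl : i = 0 := by omega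
    exact cl_mem R (by simp)
  | succ n ih =>
    intro hn p hp i hi
    rcases Nat.lt_or_ge n i with h | h
    · obtain rfl : i = n + 1 := by omega
      exact cl_mem R (by simp)
    rcases Nat.eq_zero_or_pos n with h0 | h0
    · subst h0
      obtain rfl : i = 0 := by omega
      exact cl_mem R (by simp)
    have h1 : Cl R.rk {p 0, p (n + 1)} (p n) := by
      by_contra hc
      exact hA (n + 1) (by omega) hn ⟨p, hp, hc⟩
    have h2 := ih (by omega) p (gen_take R hp (by omega)) i h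
    refine cl_trans R ?_ h2
    intro t ht
    rw [Finset.mem_insert, Finset.mem_singleton] at ht
    rcases ht with rfl | rfl
    · exact cl_mem R (by simp)
    · exact h1

theorem gen_rk_ends {N : ℕ} (hA : ∀ j, 2 ≤ j → j ≤ N → ¬ AA R j) {n : ℕ} (hn : n ≤ N)
    {p : ℕ → V} (hp : Gen R p n) : R.rk {p 0, p n} = R.m + n := by
  rw [← hp.2]
  symm
  apply rk_eq_of_cl R
  · intro x hx
    rw [Finset.mem_insert, Finset.mem_singleton] at hx
    rw [mem_vs]
    rcases hx with rfl | rfl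
    · exact ⟨0, by omega, rfl⟩
    · exact ⟨n, le_rfl, rfl⟩
  · intro x hx
    rw [mem_vs] at hx
    obtain ⟨t, ht, rfl⟩ := hx
    exact gen_cl R hA n hn p hp t ht

/-- the closure is preserved by rank preserving maps -/
theorem cl_map {T : Finset V} {e : V → V} (he : ∀ W : Finset V, W ⊆ T → R.rk (W.image e) = R.rk W)
    {S : Finset V} {v : V} (hS : insert v S ⊆ T) :
    Cl R.rk (S.image e) (e v) ↔ Cl R.rk S v := by
  unfold Cl
  rw [← Finset.image_insert, he _ hS, he S ((Finset.subset_insert v S).trans hS)]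

end rank

end Pool.Agent.H97G.B66
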