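import Pool.Agent.H97G.Defs

/-!
# Elementary lemmas on ranked graphs
-/

set_option autoImplicit false

namespace Pool.Agent.H97G

section Basic

variable {V : Type} [DecidableEq V]

/-! ### vertices of walks -/

theorem mem_vs {p : ℕ → V} {n : ℕ} {x : V} : x ∈ vs p n ↔ ∃ i, i ≤ n ∧ p i = x := by
  unfold vs
  simp only [Finset.mem_image, Finset.mem_range, Nat.lt_succ_iff]

theorem mem_vs_of {p : ℕ → V} {n i : ℕ} (h : i ≤ n) : p i ∈ vs p n := mem_vs.2 ⟨i, h, rfl⟩

theorem vs_zero (p : ℕ → V) : vs p 0 = {p 0} := by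
  ext x
  simp [mem_vs, eq_comm]

theorem vs_succ (p : ℕ → V) (n : ℕ) : vs p (n + 1) = insert (p (n + 1)) (vs p n) := by
  ext x
  simp only [mem_vs, Finset.mem_insert]
  constructor
  · rintro ⟨i, hi, rfl⟩
    rcases Nat.lt_or_ge n i with h | h
    · left; congr 1; omega
    · right; exact ⟨i, h, rfl⟩
  · rintro (rfl | ⟨i, hi, rfl⟩)
    · exact ⟨n + 1, le_rfl, rfl⟩
    · exact ⟨i, by omega, rfl⟩

theorem vs_mono (p : ℕ → V) {a b : ℕ} (h : a ≤ b) : vs p a ⊆ vs p b := by
  intro x hx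
  obtain ⟨i, hi, rfl⟩ := mem_vs.1 hx
  exact mem_vs_of (hi.trans h)

theorem vs_congr {p q : ℕ → V} {n : ℕ} (h : ∀ i, i ≤ n → p i = q i) : vs p n = vs q n := by
  ext x
  simp only [mem_vs]
  constructor
  · rintro ⟨i, hi, rfl⟩; exact ⟨i, hi, (h i hi).symm⟩
  · rintro ⟨i, hi, rfl⟩; exact ⟨i, hi, h i hi⟩

theorem vs_comp (e : V → V) (p : ℕ → V) (n : ℕ) : vs (fun i => e (p i)) n = (vs p n).image e := by
  ext x
  simp only [mem_vs, Finset.mem_image]
  constructor
  · rintro ⟨i, hi, rfl⟩; exact ⟨p i, ⟨i, hi, rfl⟩, rfl⟩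
  · rintro ⟨y, ⟨i, hi, rfl⟩, rfl⟩; exact ⟨i, hi, rfl⟩

theorem vs_rev (p : ℕ → V) (n : ℕ) : vs (fun i => p (n - i)) n = vs p n := by
  ext x
  simp only [mem_vs]
  constructor
  · rintro ⟨i, hi, rfl⟩; exact ⟨n - i, by omega, rfl⟩
  · rintro ⟨i, hi, rfl⟩
    refine ⟨n - i, by omega, ?_⟩
    congr 1; omega

/-! ### walks -/

theorem Wk.mono {G : SimpleGraph V} {p : ℕ → V} {n : ℕ} (h : Wk G p n) {j : ℕ} (hj : j ≤ n) :
    Wk G p j := fun i hi => h i (by omega)

theorem Wk.shift {G : SimpleGraph V} {p : ℕ → V} {n : ℕ} (h : Wk G p n) {a j : ℕ}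
    (hj : a + j ≤ n) : Wk G (fun i => p (a + i)) j := fun i hi => by
  have := h (a + i) (by omega)
  simpa [add_assoc] using this

theorem Wk.rev {G : SimpleGraph V} {p : ℕ → V} {n : ℕ} (h : Wk G p n) :
    Wk G (fun i => p (n - i)) n := fun i hi => by
  have := (h (n - (i + 1)) (by omega)).symm
  have e : n - (i + 1) + 1 = n - i := by omega
  rw [e] at this
  exact this

theorem Wk.congr {G : SimpleGraph V} {p q : ℕ → V} {n : ℕ} (h : Wk G p n)
    (hpq : ∀ i, i ≤ n → p i = q i) : Wk G q n := fun i hi => by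
  rw [← hpq i (by omega), ← hpq (i + 1) (by omega)]
  exact h i hi

/-- change of a walk from an index on -/
def glue (p : ℕ → V) (n : ℕ) (q : ℕ → V) : ℕ → V := fun i => if i ≤ n then p i else q (i - n)

theorem glue_le {p q : ℕ → V} {n i : ℕ} (h : i ≤ n) : glue p n q i = p i := if_pos h

theorem glue_add {p q : ℕ → V} {n : ℕ} (h : p n = q 0) (i : ℕ) : glue p n q (n + i) = q i := by
  unfold glue
  rcases Nat.eq_zero_or_pos i with rfl | hi
  · rw [if_pos (by omega)]; exact h
  · rw [if_neg (by omega)]; congr 1; omega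

theorem Wk.glue {G : SimpleGraph V} {p q : ℕ → V} {n m : ℕ} (hp : Wk G p n) (hq : Wk G q m)
    (h : p n = q 0) : Wk G (glue p n q) (n + m) := by
  intro i hi
  rcases Nat.lt_or_ge i n with h1 | h1
  · rw [glue_le h1.le, glue_le (by omega : i + 1 ≤ n)]
    exact hp i h1
  · obtain ⟨j, rfl⟩ : ∃ j, i = n + j := ⟨i - n, by omega⟩
    rw [glue_add h, add_assoc, glue_add h]
    exact hq j (by omega)

/-! ### the closure -/

variable (R : RG V)

theorem cl_iff {S : Finset V} {v : V} : Cl R.rk S v ↔ R.rk (insert v S) ≤ R.rk S :=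
  ⟨fun h => le_of_eq h, fun h => le_antisymm h (R.mono _ _ (Finset.subset_insert _ _))⟩

theorem not_cl_iff {S : Finset V} {v : V} : ¬ Cl R.rk S v ↔ R.rk S + 1 ≤ R.rk (insert v S) := by
  rw [cl_iff]; omega

theorem cl_of_mem {S : Finset V} {v : V} (h : v ∈ S) : Cl R.rk S v := by
  unfold Cl; rw [Finset.insert_eq_of_mem h]

theorem cl_mono {S T : Finset V} {v : V} (hST : S ⊆ T) (h : Cl R.rk S v) : Cl R.rk T v := by
  rw [cl_iff]
  have h1 := R.submod (insert v S) T
  have h2 : insert v S ∪ T = insert v T := by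
    ext x; simp only [Finset.mem_union, Finset.mem_insert]
    constructor
    · rintro ((h | h) | h)
      · exact Or.inl h
      · exact Or.inr (hST h)
      · exact Or.inr h
    · rintro (h | h)
      · exact Or.inl (Or.inl h)
      · exact Or.inr h
  have h3 : R.rk S ≤ R.rk (insert v S ∩ T) := R.mono _ _ fun x hx =>
    Finset.mem_inter.2 ⟨Finset.mem_insert_of_mem hx, hST hx⟩
  have h4 : R.rk (insert v S) = R.rk S := h
  rw [h2] at h1
  omega

theorem cl_union {S T : Finset V} (h : ∀ t ∈ T, Cl R.rk S t) : R.rk (S ∪ T) = R.rk S := by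
  induction T using Finset.induction_on with
  | empty => simp
  | insert a T ha ih =>
    have h1 := ih fun t ht => h t (Finset.mem_insert_of_mem ht)
    have h2 : Cl R.rk (S ∪ T) a := cl_mono R Finset.subset_union_left (h a (Finset.mem_insert_self _ _))
    have h3 : S ∪ insert a T = insert a (S ∪ T) := by
      ext x; simp only [Finset.mem_union, Finset.mem_insert]; tauto
    rw [h3, ← h1]
    exact h2

theorem rk_eq_of_cl {S T : Finset V} (hST : S ⊆ T) (h : ∀ t ∈ T, Cl R.rk S t) :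
    R.rk T = R.rk S := by
  rw [← cl_union R h, Finset.union_eq_right.2 hST]

theorem cl_of_rk_eq {S T : Finset V} (hST : S ⊆ T) (h : R.rk T = R.rk S) {v : V} (hv : v ∈ T) :
    Cl R.rk S v := by
  rw [cl_iff, ← h]
  refine R.mono _ _ fun x hx => ?_
  rcases Finset.mem_insert.1 hx with rfl | hx
  · exact hv
  · exact hST hx

/-- transitivity -/
theorem cl_trans {S T : Finset V} {v : V} (h : ∀ t ∈ T, Cl R.rk S t) (hv : Cl R.rk T v) :
    Cl R.rk S v := by
  have h1 := cl_union R h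
  have h2 : Cl R.rk (S ∪ T) v := cl_mono R Finset.subset_union_right hv
  have h3 : R.rk (insert v (S ∪ T)) = R.rk (S ∪ T) := h2
  rw [cl_iff, ← h1, ← h3]
  refine R.mono _ _ fun x hx => ?_
  rcases Finset.mem_insert.1 hx with rfl | hx
  · exact Finset.mem_insert_self _ _
  · exact Finset.mem_insert_of_mem (Finset.mem_union_left _ hx)

theorem cl_insert {S : Finset V} {u v : V} (hu : Cl R.rk S u) (hv : Cl R.rk (insert u S) v) :
    Cl R.rk S v := by
  refine cl_trans R (T := insert u S) ?_ hv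
  intro t ht
  rcases Finset.mem_insert.1 ht with rfl | ht
  · exact hu
  · exact cl_of_mem R ht

theorem rk_insert_of_adj {S : Finset V} {v w : V} (hv : v ∈ S) (h : R.G.Adj v w)
    (hw : ¬ Cl R.rk S w) : R.rk (insert w S) = R.rk S + 1 := by
  have h1 := R.edge S v w hv h
  rw [not_cl_iff] at hw
  omega

theorem not_cl_of_rk {S : Finset V} {w : V} (h : R.rk (insert w S) = R.rk S + 1) :
    ¬ Cl R.rk S w := by
  rw [not_cl_iff]; omega

/-- a generic neighbour -/
theorem exists_gen (S : Finset V) (v : V) : ∃ w, R.G.Adj v w ∧ ¬ Cl R.rk (insert v S) w := by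
  obtain ⟨w, h1, h2⟩ := R.ext (insert v S) v (Finset.mem_insert_self _ _)
  exact ⟨w, h1, not_cl_of_rk R h2⟩

theorem exists_gen' {S : Finset V} {v : V} (hv : v ∈ S) : ∃ w, R.G.Adj v w ∧ ¬ Cl R.rk S w := by
  obtain ⟨w, h1, h2⟩ := R.ext S v hv
  exact ⟨w, h1, not_cl_of_rk R h2⟩

/-- (I) -/
theorem indep {S F P : Finset V} {r : ℕ} {v : V} (hSF : S ⊆ F) (hF : R.rk (F ∪ P) = R.rk F + r)
    (hS : R.rk (S ∪ P) ≤ R.rk S + r) (h1 : Cl R.rk (S ∪ P) v) (h2 : Cl R.rk F v) :
    Cl R.rk S v := by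
  rw [cl_iff]
  have g1 := R.submod (insert v (S ∪ P)) (insert v F)
  have g2 : R.rk (insert v S) ≤ R.rk (insert v (S ∪ P) ∩ insert v F) := by
    refine R.mono _ _ fun x hx => ?_
    rcases Finset.mem_insert.1 hx with rfl | hx
    · simp
    · simp only [Finset.mem_inter, Finset.mem_insert, Finset.mem_union]
      exact ⟨Or.inr (Or.inl hx), Or.inr (hSF hx)⟩
  have g3 : R.rk (F ∪ P) ≤ R.rk (insert v (S ∪ P) ∪ insert v F) := by
    refine R.mono _ _ fun x hx => ?_
    simp only [Finset.mem_insert, Finset.mem_union] at hx ⊢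
    tauto
  have g4 : R.rk (insert v (S ∪ P)) = R.rk (S ∪ P) := h1
  have g5 : R.rk (insert v F) = R.rk F := h2
  omega

/-- (I) for one generic neighbour -/
theorem indep1 {S F : Finset V} {a y v : V} (hSF : S ⊆ F) (ha : a ∈ S) (hay : R.G.Adj a y)
    (hy : ¬ Cl R.rk F y) (h1 : Cl R.rk (insert y S) v) (h2 : Cl R.rk F v) : Cl R.rk S v := by
  have e : ∀ S : Finset V, S ∪ {y} = insert y S := fun S => by
    ext x; simp only [Finset.mem_union, Finset.mem_insert, Finset.mem_singleton]; tauto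
  refine indep R (P := {y}) (r := 1) hSF ?_ ?_ ?_ h2
  · rw [e]; exact rk_insert_of_adj R (hSF ha) hay hy
  · rw [e]; exact R.edge S a y ha hay
  · rw [e]; exact h1

/-- exchange -/
theorem exch {S : Finset V} {a y v : V} (ha : a ∈ S) (hay : R.G.Adj a y) (hv : ¬ Cl R.rk S v)
    (h1 : Cl R.rk (insert y S) v) : Cl R.rk (insert v S) y := by
  have g1 := R.edge S a y ha hay
  have g2 : R.rk (insert v (insert y S)) = R.rk (insert y S) := h1
  rw [not_cl_iff] at hv
  rw [cl_iff, Finset.insert_comm]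
  omega

/-! ### ranks of walks -/

theorem rk_vs_succ {p : ℕ → V} {n : ℕ} (h : R.G.Adj (p n) (p (n + 1))) :
    R.rk (vs p (n + 1)) ≤ R.rk (vs p n) + 1 := by
  rw [vs_succ]
  exact R.edge _ (p n) _ (mem_vs_of le_rfl) h

theorem rk_vs_add {p : ℕ → V} {n j : ℕ} (h : Wk R.G p (n + j)) :
    R.rk (vs p (n + j)) ≤ R.rk (vs p n) + j := by
  induction j with
  | zero => exact le_rfl
  | succ j ih =>
    have h1 := ih (h.mono (by omega))
    have h2 := rk_vs_succ R (h (n + j) (by omega))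
    rw [← add_assoc]
    omega

theorem rk_vs_le {p : ℕ → V} {n : ℕ} (h : Wk R.G p n) : R.rk (vs p n) ≤ R.m + n := by
  have h1 := rk_vs_add R (n := 0) (j := n) (p := p) (by simpa using h)
  have h2 := R.vert (p 0)
  rw [vs_zero] at h1
  simp only [zero_add] at h1
  omega

/-- the part from `a` on -/
theorem rk_vs_tail {p : ℕ → V} {n a : ℕ} (h : Wk R.G p (a + n)) :
    R.rk (vs p (a + n)) ≤ R.rk (vs (fun i => p (a + i)) n) + a := by
  have h1 := rk_vs_add R (n := n) (j := a) (p := fun i => p (a + n - i)) (by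
    have := h.rev
    rwa [add_comm a n] at this ⊢)
  have e1 : vs (fun i => p (a + n - i)) (n + a) = vs p (a + n) := by
    rw [add_comm n a]; exact vs_rev p (a + n)
  have e2 : vs (fun i => p (a + n - i)) n = vs (fun i => p (a + i)) n := by
    rw [← vs_rev (fun i => p (a + i)) n]
    refine vs_congr fun i hi => ?_
    congr 1; omega
  rw [e1, e2] at h1
  exact h1

/-- a part -/
theorem rk_vs_part {p : ℕ → V} {n a j : ℕ} (h : Wk R.G p n) (hj : a + j ≤ n) :
    R.rk (vs p n) ≤ R.rk (vs (fun i => p (a + i)) j) + (n - j) := by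
  obtain ⟨c, rfl⟩ : ∃ c, n = a + j + c := ⟨n - (a + j), by omega⟩
  have h1 := rk_vs_add R h
  have h2 := rk_vs_tail R (h.mono (by omega : a + j ≤ a + j + c))
  omega

/-! ### generic paths -/

variable {R}

theorem Gen.part {p : ℕ → V} {n a j : ℕ} (h : Gen R p n) (hj : a + j ≤ n) :
    Gen R (fun i => p (a + i)) j := by
  have h1 := rk_vs_part R h.1 hj
  have h2 := rk_vs_le R (h.1.shift hj)
  refine ⟨h.1.shift hj, ?_⟩
  have := h.2
  omega

theorem Gen.init {p : ℕ → V} {n j : ℕ} (h : Gen R p n) (hj : j ≤ n) : Gen R p j := by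
  have := h.part (a := 0) (j := j) (by omega)
  simpa using this

theorem Gen.rev {p : ℕ → V} {n : ℕ} (h : Gen R p n) : Gen R (fun i => p (n - i)) n :=
  ⟨h.1.rev, by rw [vs_rev]; exact h.2⟩

theorem Gen.congr {p q : ℕ → V} {n : ℕ} (h : Gen R p n) (hpq : ∀ i, i ≤ n → p i = q i) :
    Gen R q n := ⟨h.1.congr hpq, by rw [← vs_congr hpq]; exact h.2⟩

theorem Gen.vert {p : ℕ → V} {n i : ℕ} (h : Gen R p n) (hi : i ≤ n) : R.rk {p i} = R.m := by
  have h1 := (h.part (a := i) (j := 0) (by omega)).2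
  rw [vs_zero] at h1
  simpa using h1

theorem Gen.not_cl {p : ℕ → V} {n j : ℕ} (h : Gen R p n) (hj : j + 1 ≤ n) :
    ¬ Cl R.rk (vs p j) (p (j + 1)) := by
  rw [not_cl_iff, ← vs_succ, (h.init hj).2, (h.init (by omega : j ≤ n)).2]
  omega

theorem Gen.inj {p : ℕ → V} {n : ℕ} (h : Gen R p n) : Set.InjOn p (Set.Iic n) := by
  have key : ∀ i j, i < j → j ≤ n → p i ≠ p j := by
    intro i j hij hj he
    obtain ⟨c, rfl⟩ : ∃ c, j = c + 1 := ⟨j - 1, by omega⟩
    refine h.not_cl hj (cl_of_mem R ?_)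
    rw [← he]
    exact mem_vs_of (by omega)
  intro i hi j hj he
  simp only [Set.mem_Iic] at hi hj
  by_contra hne
  rcases Nat.lt_or_gt_of_ne hne with h1 | h1
  · exact key i j h1 hj he
  · exact key j i h1 hi he.symm

theorem Gen.of_edge {p : ℕ → V} {n : ℕ} (h : Gen R p n) {y : V} (ha : R.G.Adj (p n) y)
    (hy : ¬ Cl R.rk (vs p n) y) : Gen R (fun i => if i ≤ n then p i else y) (n + 1) := by
  have e : ∀ i, i ≤ n → p i = (fun i => if i ≤ n then p i else y) i := fun i hi => by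
    simp [hi]
  have hv : vs (fun i => if i ≤ n then p i else y) (n + 1) = insert y (vs p n) := by
    rw [vs_succ, ← vs_congr e]
    simp
  refine ⟨?_, ?_⟩
  · intro i hi
    rcases Nat.lt_or_ge i n with h1 | h1
    · simp only [h1.le, if_true, (by omega : i + 1 ≤ n)]
      exact h.1 i h1
    · have : i = n := by omega
      subst this
      simpa using ha
  · rw [hv, rk_insert_of_adj R (mem_vs_of le_rfl) ha hy, h.2]
    omega

/-- generic paths do not move between their ends -/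
theorem Gen.cl {k : ℕ} (hA : ∀ j, 2 ≤ j → j ≤ k → ¬ AA R j) {p : ℕ → V} {n : ℕ} (hn : n ≤ k)
    (h : Gen R p n) : ∀ i, i ≤ n → Cl R.rk {p 0, p n} (p i) := by
  induction n with
  | zero =>
    intro i hi
    have : i = 0 := by omega
    subst this
    exact cl_of_mem R (by simp)
  | succ n ih =>
    intro i hi
    rcases Nat.eq_zero_or_pos n with rfl | hn0
    · rcases Nat.le_one_iff_eq_zero_or_eq_one.1 hi with rfl | rfl
      · exact cl_of_mem R (by simp)
      · exact cl_of_mem R (by simp)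
    rcases Nat.lt_or_ge n i with h1 | h1
    · have : i = n + 1 := by omega
      subst this
      exact cl_of_mem R (by simp)
    have h2 : Cl R.rk {p 0, p (n + 1)} (p n) := by
      by_contra hcon
      exact hA (n + 1) (by omega) hn ⟨p, h, by simpa using hcon⟩
    refine cl_trans R (T := {p 0, p n}) ?_ (ih (by omega) (h.init (by omega)) i h1)
    intro t ht
    simp only [Finset.mem_insert, Finset.mem_singleton] at ht
    rcases ht with rfl | rfl
    · exact cl_of_mem R (by simp)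
    · exact h2

theorem Gen.rk_ends {k : ℕ} (hA : ∀ j, 2 ≤ j → j ≤ k → ¬ AA R j) {p : ℕ → V} {n : ℕ}
    (hn : n ≤ k) (h : Gen R p n) : R.rk {p 0, p n} = R.m + n := by
  rw [← h.2]
  symm
  refine rk_eq_of_cl R ?_ ?_
  · intro x hx
    simp only [Finset.mem_insert, Finset.mem_singleton] at hx
    rcases hx with rfl | rfl
    · exact mem_vs_of (Nat.zero_le _)
    · exact mem_vs_of le_rfl
  · intro t ht
    obtain ⟨i, hi, rfl⟩ := mem_vs.1 ht
    exact h.cl hA hn i hi

theorem Gen.rk_zero {k : ℕ} (hA : ∀ j, 2 ≤ j → j ≤ k → ¬ AA R j) {p : ℕ → V} {n i : ℕ}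
    (hn : n ≤ k) (h : Gen R p n) (hi : i ≤ n) : R.rk {p 0, p i} = R.m + i :=
  (h.init hi).rk_ends hA (hi.trans hn)

/-! ### images of walks -/

theorem Wk.image {G : SimpleGraph V} {p : ℕ → V} {n : ℕ} {T : Finset V} {e : V → V}
    (h : Wk G p n) (hT : vs p n ⊆ T) (he : ∀ x ∈ T, ∀ y ∈ T, G.Adj x y → G.Adj (e x) (e y)) :
    Wk G (fun i => e (p i)) n := fun i hi =>
  he _ (hT (mem_vs_of (by omega))) _ (hT (mem_vs_of (by omega))) (h i hi)

theorem UP.gen {p : ℕ → V} {n : ℕ} (h : UP R p n) : Gen R p (n - 1) :=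
  ⟨h.1.mono (by omega), h.2.2.1⟩

/-- images of `U`-paths -/
theorem UP.image {p : ℕ → V} {n : ℕ} {T : Finset V} {e : V → V} (h : UP R p n)
    (hT : vs p n ⊆ T) (hi : Set.InjOn e (T : Set V))
    (he : ∀ x ∈ T, ∀ y ∈ T, R.G.Adj x y → R.G.Adj (e x) (e y))
    (hr : ∀ W : Finset V, W ⊆ T → R.rk (W.image e) = R.rk W) : UP R (fun i => e (p i)) n := by
  have hm : ∀ i, i ≤ n → p i ∈ T := fun i hi => hT (mem_vs_of hi)
  refine ⟨h.1.image hT he, ?_, ?_, ?_⟩
  · intro i hi' j hj' hij
    exact h.2.1 hi' hj' (hi (hm i hi') (hm j hj') hij)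
  · rw [vs_comp, hr _ ((vs_mono p (Nat.sub_le _ _)).trans hT)]
    exact h.2.2.1
  · intro hc
    apply h.2.2.2
    have e1 : ({e (p 0), e (p n)} : Finset V) = ({p 0, p n} : Finset V).image e := by
      simp [Finset.image_insert]
    have e2 : (insert (e (p (n - 1))) {e (p 0), e (p n)} : Finset V) =
        (insert (p (n - 1)) {p 0, p n} : Finset V).image e := by
      simp [Finset.image_insert]
    unfold Cl at hc ⊢
    rw [e2, e1, hr _ ?_, hr _ ?_] at hc
    · exact hc
    · intro x hx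
      simp only [Finset.mem_insert, Finset.mem_singleton] at hx
      rcases hx with rfl | rfl
      · exact hm 0 (by omega)
      · exact hm n le_rfl
    · intro x hx
      simp only [Finset.mem_insert, Finset.mem_singleton] at hx
      rcases hx with rfl | rfl | rfl
      · exact hm _ (by omega)
      · exact hm 0 (by omega)
      · exact hm n le_rfl

end Basic

end Pool.Agent.H97G
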