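import Pool.Agent.H97G.Defs

/-!
# Cycles and theta graphs given by functions (pieces CY1, CY2, TH)
-/

set_option autoImplicit false

namespace Pool.Agent.H97G

namespace Cyc

/-- the difference of two residues is one -/
theorem val_of_sub {n : ℕ} {u v : Fin (n + 3)} (h : v - u = 1) :
    (v : ℕ) = (u : ℕ) + 1 ∨ ((u : ℕ) = n + 2 ∧ (v : ℕ) = 0) := by
  have h1 : v = u + 1 := sub_eq_iff_eq_add'.1 h
  have h2 := Fin.val_add_one (u : Fin (n + 2 + 1))
  rw [h1]
  split_ifs at h2 with h3
  · right
    refine ⟨by rw [h3]; rfl, h2⟩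
  · left; exact h2

theorem sub_of_val {n : ℕ} {u v : Fin (n + 3)}
    (h : (v : ℕ) = (u : ℕ) + 1 ∨ ((u : ℕ) = n + 2 ∧ (v : ℕ) = 0)) : v - u = 1 := by
  have h1 : v = u + 1 := by
    apply Fin.ext
    have h2 := Fin.val_add_one (u : Fin (n + 2 + 1))
    rw [h2]
    have hv := v.isLt
    split_ifs with h3
    · have h4 : (u : ℕ) = n + 2 := by rw [h3]; rfl
      omega
    · rcases h with h | ⟨h, -⟩
      · exact h
      · exact absurd (Fin.ext h) h3
  rw [h1, add_sub_cancel_left]

end Cyc

theorem lcyc : LCyc := by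
  intro V G N hN
  obtain ⟨n, rfl⟩ : ∃ n, N = n + 3 := ⟨N - 3, by omega⟩
  constructor
  · rintro ⟨c, hinj, hadj, hlast⟩
    have key : ∀ u v : Fin (n + 3), v - u = 1 → G.Adj (c u) (c v) := by
      intro u v h
      rcases Cyc.val_of_sub h with h | ⟨h1, h2⟩
      · rw [h]
        exact hadj _ (by have := v.isLt; omega)
      · rw [h1, h2]
        exact hlast
    refine ⟨⟨⟨fun i => c i, ?_⟩, ?_⟩⟩
    · intro u v huv
      rw [SimpleGraph.cycleGraph_adj] at huv
      rcases huv with h | h
      · exact (key v u h).symm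
      · exact key u v h
    · intro u v huv
      exact Fin.ext (hinj (Set.mem_Iio.2 u.isLt) (Set.mem_Iio.2 v.isLt) huv)
  · rintro ⟨f⟩
    have hadj : ∀ u v : Fin (n + 3), v - u = 1 → G.Adj (f u) (f v) := fun u v h =>
      f.toHom.map_adj (SimpleGraph.cycleGraph_adj.2 (Or.inr h))
    refine ⟨fun i => f ⟨i % (n + 3), Nat.mod_lt _ (by omega)⟩, ?_, ?_, ?_⟩
    · intro i hi j hj hij
      have h1 := f.injective hij
      have h2 : i % (n + 3) = j % (n + 3) := congrArg Fin.val h1
      rwa [Nat.mod_eq_of_lt hi, Nat.mod_eq_of_lt hj] at h2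
    · intro i hi
      apply hadj
      apply Cyc.sub_of_val
      left
      show (i + 1) % (n + 3) = i % (n + 3) + 1
      rw [Nat.mod_eq_of_lt hi, Nat.mod_eq_of_lt (by omega)]
    · apply hadj
      apply Cyc.sub_of_val
      right
      refine ⟨?_, ?_⟩
      · show (n + 3 - 1) % (n + 3) = n + 2
        rw [Nat.mod_eq_of_lt (by omega)]
        rfl
      · show 0 % (n + 3) = 0
        exact Nat.zero_mod _

theorem ltwo : LTwo := by
  intro V G a b p q ha hb hab hp hq hpi hqi h0 h1 hne
  refine ⟨fun i => if i ≤ a then p i else q (a + b - i), ?_, ?_, ?_⟩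
  · intro i hi j hj hij
    simp only [Set.mem_Iio] at hi hj
    simp only at hij
    split_ifs at hij with h2 h3 h3
    · exact hpi h2 h3 hij
    · exact absurd hij (hne i _ (by omega) (by omega) h2)
    · exact absurd hij.symm (hne j _ (by omega) (by omega) h3)
    · have := hqi (Set.mem_Iic.2 (by omega : a + b - i ≤ b))
        (Set.mem_Iic.2 (by omega : a + b - j ≤ b)) hij
      omega
  · intro i hi
    simp only
    rcases Nat.lt_trichotomy i a with h2 | h2 | h2
    · rw [if_pos h2.le, if_pos (by omega : i + 1 ≤ a)]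
      exact hp i h2
    · rw [if_pos h2.le, if_neg (by omega : ¬ i + 1 ≤ a), h2, h1]
      have h3 := (hq (b - 1) (by omega)).symm
      have e1 : b - 1 + 1 = b := by omega
      have e2 : a + b - (a + 1) = b - 1 := by omega
      rw [e1] at h3
      rw [e2]
      exact h3
    · rw [if_neg (by omega), if_neg (by omega)]
      have h3 := (hq (a + b - (i + 1)) (by omega)).symm
      have e1 : a + b - (i + 1) + 1 = a + b - i := by omega
      rw [e1] at h3
      exact h3
  · simp only
    rw [if_pos (Nat.zero_le a)]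
    split_ifs with h2
    · have hb1 : b = 1 := by omega
      subst hb1
      have h3 := (hq 0 (by omega)).symm
      rw [h0]
      have e1 : a + 1 - 1 = a := by omega
      rw [e1, h1]
      exact h3
    · have e1 : a + b - (a + b - 1) = 1 := by omega
      rw [e1, h0]
      exact (hq 0 (by omega)).symm

theorem ltheta : LTheta := by
  rintro V G r ℓ hr ⟨x, y, p, hxy, h1, h2, h3⟩
  let f : Bool ⊕ (Fin ℓ × Fin (r - 1)) → V := fun z => match z with
    | Sum.inl b => if b then y else x
    | Sum.inr (i, a) => p i ((a : ℕ) + 1)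
  have key : ∀ u v : Bool ⊕ (Fin ℓ × Fin (r - 1)),
      (match u, v with
      | Sum.inl b, Sum.inr (_, a) => if b then (a : ℕ) + 2 = r else (a : ℕ) = 0
      | Sum.inr (i, a), Sum.inr (j, b) => i = j ∧ (a : ℕ) + 1 = b
      | _, _ => False : Prop) → G.Adj (f u) (f v) := by
    rintro (b | ⟨i, a⟩) (b' | ⟨j, b'⟩) h
    · exact h.elim
    · cases b
      · have h' : (b' : ℕ) = 0 := by simpa using h
        have h4 := (h1 j j.isLt).2.2 0 (by omega)
        rw [(h1 j j.isLt).1] at h4
        show G.Adj x (p j ((b' : ℕ) + 1))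
        rw [h']
        exact h4
      · have h' : (b' : ℕ) + 2 = r := by simpa using h
        have h4 := (h1 j j.isLt).2.2 ((b' : ℕ) + 1) (by omega)
        have e : (b' : ℕ) + 1 + 1 = r := by omega
        rw [e, (h1 j j.isLt).2.1] at h4
        show G.Adj y (p j ((b' : ℕ) + 1))
        exact h4.symm
    · exact h.elim
    · obtain ⟨rfl, h⟩ := h
      have hb := b'.isLt
      have h4 := (h1 i i.isLt).2.2 ((a : ℕ) + 1) (by omega)
      show G.Adj (p i ((a : ℕ) + 1)) (p i ((b' : ℕ) + 1))
      rw [← h]
      exact h4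
  refine ⟨⟨⟨f, ?_⟩, ?_⟩⟩
  · intro u v huv
    unfold thetaGraph at huv
    rw [SimpleGraph.fromRel_adj] at huv
    rcases huv.2 with h | h
    · exact key u v h
    · exact (key v u h).symm
  · rintro (b | ⟨i, a⟩) (b' | ⟨j, b'⟩) h
    · have h' : (if b then y else x) = (if b' then y else x) := h
      cases b <;> cases b'
      · rfl
      · exact absurd (by simpa using h') hxy
      · exact absurd (by simpa using h'.symm) hxy
      · rfl
    · have h' : (if b then y else x) = p j ((b' : ℕ) + 1) := h
      have hb := b'.isLt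
      have h4 := h2 j ((b' : ℕ) + 1) j.isLt (by omega) (by omega)
      cases b
      · exact absurd (by simpa using h'.symm) h4.1
      · exact absurd (by simpa using h'.symm) h4.2
    · have h' : p i ((a : ℕ) + 1) = (if b' then y else x) := h
      have ha := a.isLt
      have h4 := h2 i ((a : ℕ) + 1) i.isLt (by omega) (by omega)
      cases b'
      · exact absurd (by simpa using h') h4.1
      · exact absurd (by simpa using h') h4.2
    · have h' : p i ((a : ℕ) + 1) = p j ((b' : ℕ) + 1) := h
      have ha := a.isLt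
      have hb := b'.isLt
      have h4 := h3 i j _ _ i.isLt j.isLt (by omega : 0 < (a : ℕ) + 1) (by omega)
        (by omega : 0 < (b' : ℕ) + 1) (by omega) h'
      have e1 : i = j := Fin.ext h4.1
      have e2 : a = b' := Fin.ext (by omega)
      rw [e1, e2]

end Pool.Agent.H97G
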