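import Mathlib

/-!
# Theta graphs
-/

set_option autoImplicit false

namespace Pool.Agent.H97G

/-- The theta graph: `ℓ` paths of length `r` between `inl false` and `inl true` which have no inner
vertices in common; the inner vertices of the path `i` are the `inr (i, a)`. -/
def thetaGraph (r ℓ : ℕ) : SimpleGraph (Bool ⊕ (Fin ℓ × Fin (r - 1))) :=
  SimpleGraph.fromRel fun x y => match x, y with
    | Sum.inl b, Sum.inr (_, a) => if b then (a : ℕ) + 2 = r else (a : ℕ) = 0
    | Sum.inr (i, a), Sum.inr (j, b) => i = j ∧ (a : ℕ) + 1 = b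
    | _, _ => False

end Pool.Agent.H97G
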