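import Mathlib
import Pool.Agent.H97F.Defs
import Pool.Agent.H97G.Theta

/-!
# Algebraically defined graphs without cycles of length `2 k`: definitions and statements
-/

set_option autoImplicit false

namespace Pool.Agent.H97G

open MvPolynomial Pool.Agent.H97F

/-! ### Cycles and theta graphs -/

/-- `G` has a cycle with the `N` vertices `c 0, ..., c (N - 1)` -/
def HasCyc {V : Type} (G : SimpleGraph V) (N : ℕ) : Prop :=
  ∃ c : ℕ → V, Set.InjOn c (Set.Iio N) ∧ (∀ i, i + 1 < N → G.Adj (c i) (c (i + 1))) ∧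
    G.Adj (c (N - 1)) (c 0)

/-- (CY1) -/
def LCyc : Prop := ∀ (V : Type) (G : SimpleGraph V) (N : ℕ), 3 ≤ N →
  (HasCyc G N ↔ (SimpleGraph.cycleGraph N).IsContained G)

/-- (CY2) two paths with the same ends without common inner vertices form a cycle -/
def LTwo : Prop := ∀ (V : Type) (G : SimpleGraph V) (a b : ℕ) (p q : ℕ → V), 1 ≤ a → 1 ≤ b →
  3 ≤ a + b → (∀ i, i < a → G.Adj (p i) (p (i + 1))) → (∀ i, i < b → G.Adj (q i) (q (i + 1))) →
  Set.InjOn p (Set.Iic a) → Set.InjOn q (Set.Iic b) → p 0 = q 0 → p a = q b →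
  (∀ i j, 0 < j → j < b → i ≤ a → p i ≠ q j) → HasCyc G (a + b)

/-- the same as functions -/
def HasTheta {V : Type} (G : SimpleGraph V) (r ℓ : ℕ) : Prop :=
  ∃ (x y : V) (p : ℕ → ℕ → V), x ≠ y ∧
    (∀ i, i < ℓ → p i 0 = x ∧ p i r = y ∧ ∀ a, a < r → G.Adj (p i a) (p i (a + 1))) ∧
    (∀ i a, i < ℓ → 0 < a → a < r → p i a ≠ x ∧ p i a ≠ y) ∧
    (∀ i j a b, i < ℓ → j < ℓ → 0 < a → a < r → 0 < b → b < r → p i a = p j b → i = j ∧ a = b)

/-- (TH) -/
def LTheta : Prop := ∀ (V : Type) (G : SimpleGraph V) (r ℓ : ℕ), 2 ≤ r →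
  HasTheta G r ℓ → (thetaGraph r ℓ).IsContained G

/-! ### Ranked graphs -/

section Rank

variable {V : Type} [DecidableEq V]

/-- the vertices `p 0, ..., p n` -/
def vs (p : ℕ → V) (n : ℕ) : Finset V := (Finset.range (n + 1)).image p

/-- `v` is in the closure of `S` -/
def Cl (rk : Finset V → ℕ) (S : Finset V) (v : V) : Prop := rk (insert v S) = rk S

/-- `p 0, ..., p n` is a walk -/
def Wk (G : SimpleGraph V) (p : ℕ → V) (n : ℕ) : Prop := ∀ i, i < n → G.Adj (p i) (p (i + 1))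

/-- A bipartite graph with a rank function which behaves like the transcendence degree. -/
structure RG (V : Type) [DecidableEq V] where
  /-- the graph -/
  G : SimpleGraph V
  /-- the colours -/
  col : V → Bool
  /-- the rank of a generic vertex -/
  m : ℕ
  /-- the rank function -/
  rk : Finset V → ℕ
  bip : ∀ v w, G.Adj v w → col w = !col v
  mono : ∀ S T : Finset V, S ⊆ T → rk S ≤ rk T
  submod : ∀ S T : Finset V, rk (S ∪ T) + rk (S ∩ T) ≤ rk S + rk T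
  vert : ∀ v, rk {v} ≤ m
  edge : ∀ (S : Finset V) (v w : V), v ∈ S → G.Adj v w → rk (insert w S) ≤ rk S + 1
  ext : ∀ (S : Finset V) (v : V), v ∈ S → ∃ w, G.Adj v w ∧ rk (insert w S) = rk S + 1
  gen : ∀ c : Bool, ∃ v, col v = c ∧ rk {v} = m
  /-- homogeneity over a finite set -/
  hom : ∀ (S T : Finset V) (a b b' : V), a ∈ S → G.Adj a b → G.Adj a b' →
    rk (insert b S) = rk S + 1 → rk (insert b' S) = rk S + 1 → insert b S ⊆ T →
    rk T = rk S + 1 →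
    ∃ e : V → V, (∀ s ∈ S, e s = s) ∧ e b = b' ∧ Set.InjOn e (T : Set V) ∧
      (∀ x ∈ T, ∀ y ∈ T, G.Adj x y → G.Adj (e x) (e y)) ∧
      ∀ W : Finset V, W ⊆ T → rk (W.image e) = rk W
  /-- homogeneity of generic paths -/
  homp : ∀ (n : ℕ) (p p' : ℕ → V) (T : Finset V), Wk G p n → Wk G p' n → col (p 0) = col (p' 0) →
    rk (vs p n) = m + n → rk (vs p' n) = m + n → vs p n ⊆ T → rk T = m + n →
    ∃ e : V → V, (∀ i, i ≤ n → e (p i) = p' i) ∧ Set.InjOn e (T : Set V) ∧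
      (∀ x ∈ T, ∀ y ∈ T, G.Adj x y → G.Adj (e x) (e y)) ∧
      ∀ W : Finset V, W ⊆ T → rk (W.image e) = rk W

/-- `p` is a generic path of length `n` (it is automatically injective) -/
def Gen (R : RG V) (p : ℕ → V) (n : ℕ) : Prop := Wk R.G p n ∧ R.rk (vs p n) = R.m + n

/-- `A n`: there is a generic path of length `n` which moves between its ends -/
def AA (R : RG V) (n : ℕ) : Prop := ∃ p, Gen R p n ∧ ¬ Cl R.rk {p 0, p n} (p (n - 1))

/-- a `U`-path -/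
def UP (R : RG V) (p : ℕ → V) (n : ℕ) : Prop := Wk R.G p n ∧ Set.InjOn p (Set.Iic n) ∧
  R.rk (vs p (n - 1)) = R.m + (n - 1) ∧ ¬ Cl R.rk {p 0, p n} (p (n - 1))

/-- `n` is the smallest length of a `U`-path and it is at least `3`; generic paths of length at most
`k` do not move between their ends -/
structure UMin (R : RG V) (k n : ℕ) : Prop where
  m_eq : R.m = k
  three_le : 3 ≤ n
  le : n ≤ k
  nonA : ∀ j, 2 ≤ j → j ≤ k → ¬ AA R j
  nonU : ∀ j, 2 ≤ j → j < n → ∀ p, ¬ UP R p j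

end Rank

/-- (U1) the facts on `U`-paths -/
def LU1 : Prop := ∀ (V : Type) [DecidableEq V] (R : RG V) (k n : ℕ), UMin R k n →
  ∀ w : ℕ → V, UP R w n →
    (∀ i, 0 < i → i < n → ¬ Cl R.rk {w 0, w n} (w i)) ∧
    (∀ i, 0 < i → i ≤ n → Cl R.rk {w 1, w n} (w i)) ∧
    ¬ Cl R.rk (vs w (n - 2)) (w n) ∧
    R.rk (vs w n) = k + n - 1 ∧ R.rk {w 0, w n} = k + n - 2 ∧
    R.rk ((Finset.Icc 1 n).image w) = k + n - 1 ∧
    UP R (fun i => w (n - i)) n

/-- (U2) a `U`-path moves between its ends -/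
def LU2 : Prop := ∀ (V : Type) [DecidableEq V] (R : RG V) (k n : ℕ), UMin R k n →
  ∀ w : ℕ → V, UP R w n → ∀ y, R.G.Adj (w 0) y → ¬ Cl R.rk {w 0, w n} y →
    ∃ w' : ℕ → V, UP R w' n ∧ w' 0 = w 0 ∧ w' n = w n ∧ w' 1 = y ∧
      ∀ F : Finset V, w 0 ∈ F → w n ∈ F → ¬ Cl R.rk F y → ∀ i, 0 < i → i < n →
        ¬ Cl R.rk F (w' i)

/-- (U3) the end of a `U`-path moves -/
def LU3 : Prop := ∀ (V : Type) [DecidableEq V] (R : RG V) (k n : ℕ), UMin R k n →
  ∀ w : ℕ → V, UP R w n → ∀ (F : Finset V) (b : ℕ), b + 2 ≤ n → vs w b ⊆ F →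
    ∃ w' : ℕ → V, UP R w' n ∧ (∀ i, i ≤ b → w' i = w i) ∧
      ∀ i, b < i → i ≤ n → ¬ Cl R.rk F (w' i)

/-- (CA) -/
def LA : Prop := ∀ (V : Type) [DecidableEq V] (R : RG V) (k n : ℕ), 2 ≤ n → n ≤ k → AA R n →
  HasCyc R.G (2 * k)

/-- (CB0, CB1) -/
def LB1 : Prop := ∀ (V : Type) [DecidableEq V] (R : RG V) (k n : ℕ), UMin R k n →
  (∃ p, UP R p n) → (k = n ∨ (4 ≤ n ∧ n + 2 ≤ k) ∨ (n = 3 ∧ Odd k)) → HasCyc R.G (2 * k)

/-- (CB2) -/
def LB2 : Prop := ∀ (V : Type) [DecidableEq V] (R : RG V) (k : ℕ), UMin R k 3 →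
  (∃ p, UP R p 3) → Even k → HasCyc R.G (2 * k)

/-- (CB3) -/
def LB3 : Prop := ∀ (V : Type) [DecidableEq V] (R : RG V) (k n : ℕ), UMin R k n →
  (∃ p, UP R p n) → Odd n → k = n + 1 → HasCyc R.G (2 * k)

/-- (CB4) -/
def LB4 : Prop := ∀ (V : Type) [DecidableEq V] (R : RG V) (k n : ℕ), UMin R k n →
  (∃ p, UP R p n) → ∀ ℓ, HasTheta R.G n ℓ

/-- (C2) uniqueness of generic paths -/
def LC2 : Prop := ∀ (V : Type) [DecidableEq V] (R : RG V) (k : ℕ), 2 ≤ k → R.m = k →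
  (∀ j, 2 ≤ j → j ≤ k → ¬ AA R j) → (∀ j, 2 ≤ j → j ≤ k → ∀ p, ¬ UP R p j) →
  ¬ HasCyc R.G (2 * k) →
  ∀ (p q : ℕ → V) (n : ℕ), 1 ≤ n → n ≤ k → Gen R p n → Gen R q n → p 0 = q 0 → p n = q n →
    ∀ i, i ≤ n → p i = q i

/-- (C3) paths of defect one do not move -/
def LC3 : Prop := ∀ (V : Type) [DecidableEq V] (R : RG V) (k : ℕ), 2 ≤ k → R.m = k →
  (∀ j, 2 ≤ j → j ≤ k → ¬ AA R j) → (∀ j, 2 ≤ j → j ≤ k → ∀ p, ¬ UP R p j) →
  (∀ a b, R.G.Adj a b → R.rk {a} = k - 1 → R.rk {b} = k - 1 → R.rk {a, b} ≠ k) →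
  ∀ p : ℕ → V, Wk R.G p k → (∀ i, i + 2 ≤ k → p i ≠ p (i + 2)) → R.rk (vs p k) = 2 * k - 1 →
    R.rk {p 0, p k} = 2 * k - 1

/-! ### Algebra -/

/-- the rank (transcendence degree over `K` of the field generated by the elements) -/
noncomputable def trk (K : Type) {Ω : Type} [Field K] [Field Ω] [Algebra K Ω] (X : Set Ω) : ℕ :=
  ((AlgebraicIndependent.matroid K Ω).eRk X).toNat

/-- the extension is algebraically closed and of infinite transcendence degree -/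
structure Big (K Ω : Type) [Field K] [Field Ω] [Algebra K Ω] : Prop where
  closed : IsAlgClosed Ω
  inf : ∃ t : ℕ → Ω, AlgebraicIndependent K t

/-- (B) -/
def LBig : Prop := ∀ (K : Type) [Field K], ∃ (Ω : Type) (_ : Field Ω) (_ : Algebra K Ω), Big K Ω

/-- the vertices -/
abbrev Vx (k : ℕ) (F : Type) : Type := (Fin k → F) ⊕ (Fin k → F)

/-- the coordinates of a finite set of vertices -/
def cds {k : ℕ} {F : Type} (S : Finset (Vx k F)) : Set F :=
  {x | ∃ v ∈ S, ∃ i, x = Sum.elim id id v i}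

/-- the graph over an extension -/
noncomputable abbrev grph {k : ℕ} {K : Type} [Field K] (A : ADG k K) (Ω : Type) [Field Ω]
    [Algebra K Ω] : SimpleGraph (Vx k Ω) := (A.map (algebraMap K Ω)).graph

/-- (G1) the ranked graph of an algebraically defined graph -/
def LRk : Prop := ∀ (K : Type) [Field K] [IsAlgClosed K] [CharZero K] (Ω : Type) [Field Ω]
  [Algebra K Ω] (k : ℕ) [DecidableEq (Vx k Ω)], Big K Ω → 1 ≤ k →
  ∀ A : ADG k K, ∃ R : RG (Vx k Ω), R.G = grph A Ω ∧ R.m = k ∧ (∀ v, R.col v = v.isRight) ∧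
    ∀ S, R.rk S = trk K (cds S)

/-- (G0) a common zero of two polynomials without common factor has rank at most the number of the
variables minus two -/
def LCop : Prop := ∀ (K : Type) [Field K] (Ω : Type) [Field Ω] [Algebra K Ω] (ι : Type) [Fintype ι]
  (r g : MvPolynomial ι K), IsRelPrime r g → ∀ y : ι → Ω, aeval y r = 0 → aeval y g = 0 →
  trk K (Set.range y) + 2 ≤ Fintype.card ι

/-- (G2) purity -/
def LPure : Prop := LCop → ∀ (K : Type) [Field K] [IsAlgClosed K] [CharZero K] (Ω : Type) [Field Ω]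
  [Algebra K Ω], Big K Ω → ∀ (ι : Type) [Fintype ι] (A : ι → MvPolynomial ι K)
  (h : MvPolynomial ι K),
  (∃ a : ι → Ω, AlgebraicIndependent K a ∧ AlgebraicIndependent K (fun i => aeval a (A i)) ∧
    ∀ b : ι → Ω, AlgebraicIndependent K b → (∀ i, aeval b (A i) = aeval a (A i)) → b = a) →
  (∃ a₁ a₂ : ι → K, eval a₁ h ≠ 0 ∧ eval a₂ h ≠ 0 ∧ (∀ i, eval a₁ (A i) = eval a₂ (A i)) ∧
    a₁ ≠ a₂) →
  ∃ a : ι → Ω, aeval a h ≠ 0 ∧ trk K (Set.range a) + 1 = Fintype.card ι ∧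
    trk K (Set.range fun i => aeval a (A i)) + 2 ≤ Fintype.card ι

/-- (G3) no edges of special vertices -/
def LZ : Prop := LCop → ∀ (K : Type) [Field K] [IsAlgClosed K] [CharZero K] (Ω : Type) [Field Ω]
  [Algebra K Ω] (k : ℕ) [DecidableEq (Vx k Ω)], Big K Ω → 2 ≤ k → ∀ (A : ADG k K)
  (R : RG (Vx k Ω)), R.G = grph A Ω → R.m = k → (∀ v, R.col v = v.isRight) →
  (∀ S, R.rk S = trk K (cds S)) → (∀ j, 2 ≤ j → j ≤ k → ¬ AA R j) →
  ∀ a b, R.G.Adj a b → R.rk {a} = k - 1 → R.rk {b} = k - 1 → R.rk {a, b} ≠ k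

/-- (G4) polynomial decomposition -/
def LDec : Prop := ∀ (K : Type) [Field K] [IsAlgClosed K] [CharZero K] (Ω : Type) [Field Ω]
  [Algebra K Ω] (Λ : Set (Polynomial K)) (x x' : Ω), Transcendental K x → x ≠ x' →
  (∀ l ∈ Λ, Polynomial.aeval x l = Polynomial.aeval x' l) → (∃ l ∈ Λ, 0 < l.natDegree) →
  ∃ h : Polynomial K, 2 ≤ h.natDegree ∧ ∀ l ∈ Λ, ∃ g : Polynomial K, l = g.comp h

/-- (G5) removal of the twins -/
def LTwin : Prop := LDec → ∀ (K : Type) [Field K] [IsAlgClosed K] [CharZero K] (Ω : Type) [Field Ω]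
  [Algebra K Ω] (k : ℕ) [DecidableEq (Vx k Ω)], Big K Ω → 2 ≤ k → ∃ μ : ADG k K → ℕ,
  ∀ (A : ADG k K) (R : RG (Vx k Ω)), R.G = grph A Ω → R.m = k → (∀ v, R.col v = v.isRight) →
  (∀ S, R.rk S = trk K (cds S)) → (∀ j, 2 ≤ j → j ≤ k → ¬ AA R j) → (∃ p, UP R p 2) →
  ∃ A' : ADG k K, μ A' < μ A ∧ A'.graph.IsContained A.graph

/-- (G6) finite configurations over `Ω` exist over `K` -/
def LDown : Prop := ∀ (K : Type) [Field K] [IsAlgClosed K] (Ω : Type) [Field Ω]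
  [Algebra K Ω] (k : ℕ) (A : ADG k K) (W : Finset (Vx k Ω)), ∃ e : Vx k Ω → Vx k K,
  Set.InjOn e (W : Set (Vx k Ω)) ∧
  ∀ x ∈ W, ∀ y ∈ W, (grph A Ω).Adj x y → A.graph.Adj (e x) (e y)

/-- (G7) the chart of the paths of length `k` which start at a point: the variables `inl` are the
coordinates of the first vertex, `inr i` is the first coordinate of the vertex `i + 1` -/
def LChart : Prop := ∀ (K : Type) [Field K] [Infinite K] (k : ℕ), 2 ≤ k → ∀ A : ADG k K,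
  ∃ (B : (Fin k ⊕ Fin k) → MvPolynomial (Fin k ⊕ Fin k) K) (h : MvPolynomial (Fin k ⊕ Fin k) K),
  ∀ (F : Type) [Field F] [Algebra K F], ∃ P : ((Fin k ⊕ Fin k) → F) → ℕ → Vx k F,
    (∀ a, Wk (grph A F) (P a) k ∧ P a 0 = Sum.inl (fun i => a (Sum.inl i)) ∧
      (∀ i, aeval a (B (Sum.inl i)) = a (Sum.inl i)) ∧
      (∀ i, aeval a (B (Sum.inr i)) = Sum.elim id id (P a k) i) ∧
      (aeval a h ≠ 0 ↔ ∀ i, i + 2 ≤ k → P a i ≠ P a (i + 2)) ∧
      (∀ i : Fin k, Sum.elim id id (P a (i + 1)) ⟨0, by have := i.isLt; omega⟩ = a (Sum.inr i)) ∧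
      (∀ j ≤ k, ∀ i, Sum.elim id id (P a j) i ∈ Algebra.adjoin K (Set.range a))) ∧
    (∀ p : ℕ → Vx k F, Wk (grph A F) p k → (p 0).isRight = false → ∃ a, ∀ i, i ≤ k → P a i = p i)

/-- (G9) the conclusion for finite fields -/
def LFin : Prop := ∀ (α β : Type) [Finite α] [Finite β] (H₁ : SimpleGraph α) (H₂ : SimpleGraph β)
  (k : ℕ), (∀ (K : Type) [Field K] [IsAlgClosed K] [CharZero K] (A : ADG k K),
    H₁.IsContained A.graph ∨ H₂.IsContained A.graph) →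
  ∀ D : ℕ, ∃ M : ℕ, 0 < M ∧ ∀ (K : Type) [Field K] [Finite K], M ≤ ringChar K → ∀ A : ADG k K,
    (∀ i, (A.f i).totalDegree ≤ D) → ∀ (L : Type) [Field L] [Finite L] [Algebra K L],
      M ∣ Module.finrank K L →
      H₁.IsContained (A.map (algebraMap K L)).graph ∨ H₂.IsContained (A.map (algebraMap K L)).graph

/-- (GC) if there is a cycle of length `2 j`, `j ≤ k`, then there are two different walks of length
`k` without turning back with the same ends -/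
def LCW : Prop := ∀ (V : Type) (G : SimpleGraph V) (col : V → Bool) (k j : ℕ),
  (∀ v w, G.Adj v w → col w = !col v) → (∀ v, {w | G.Adj v w}.Infinite) → 2 ≤ j → j ≤ k →
  HasCyc G (2 * j) → ∃ p q : ℕ → V, Wk G p k ∧ Wk G q k ∧ col (p 0) = false ∧ p 0 = q 0 ∧
    p k = q k ∧ p 1 ≠ q 1 ∧ (∀ i, i + 2 ≤ k → p i ≠ p (i + 2)) ∧ (∀ i, i + 2 ≤ k → q i ≠ q (i + 2))

/-- the main statement for algebraically closed fields -/
def LMain : Prop := ∀ (K : Type) [Field K] [IsAlgClosed K] [CharZero K] (k : ℕ), 4 ≤ k → k ≠ 5 →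
  ∀ A : ADG k K, HasCyc A.graph (2 * k) ∨ (Odd k ∧ ∀ ℓ, HasTheta A.graph (k - 1) ℓ)

end Pool.Agent.H97G
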