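import Pool.Agent.H97G.B66

/-!
# Piece LA: generic paths which move between their ends give a cycle of length `2 k`
-/

set_option autoImplicit false

namespace Pool.Agent.H97G

open Finset B66

namespace LAx

section
variable {V : Type} [DecidableEq V] (R : RG V)

/-- a generic path which moves between its ends -/
def GP (w : ℕ → V) (n : ℕ) : Prop := Gen R w n ∧ ¬ Cl R.rk {w 0, w n} (w (n - 1))

variable {R}

/-- (a) -/
theorem not_cl {n : ℕ} (hn : 2 ≤ n) (hA : ∀ j, 2 ≤ j → j < n → ¬ AA R j) {w : ℕ → V}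
    (hw : GP R w n) : ∀ i, 0 < i → i < n → ¬ Cl R.rk {w 0, w n} (w i) := by
  intro i h0 hi hc
  apply hw.2
  rcases Nat.lt_or_ge (i + 1) n with h | h
  · have h1 : Gen R (fun t => w (i + t)) (n - i) := gen_shift R hw.1 hi.le le_rfl
    have h2 : Cl R.rk {w i, w n} (w (n - 1)) := by
      by_contra hcc
      apply hA (n - i) (by omega) (by omega)
      refine ⟨_, h1, ?_⟩
      simp only [add_zero]
      rw [show i + (n - i) = n by omega, show i + (n - i - 1) = n - 1 by omega]
      exact hcc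
    refine cl_trans R ?_ h2
    intro t ht
    rw [Finset.mem_insert, Finset.mem_singleton] at ht
    rcases ht with rfl | rfl
    · exact hc
    · exact cl_mem R (by simp)
  · rw [show n - 1 = i by omega]
    exact hc

/-- (b) -/
theorem cl_b {n : ℕ} (hn : 2 ≤ n) (hA : ∀ j, 2 ≤ j → j < n → ¬ AA R j) {w : ℕ → V}
    (hw : GP R w n) : ∀ i, 0 < i → i ≤ n → Cl R.rk {w 1, w n} (w i) := by
  intro i h0 hi
  have h1 : Gen R (fun t => w (1 + t)) (n - 1) := gen_shift R hw.1 (by omega) le_rfl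
  have h2 := gen_cl R (N := n - 1) (fun j hj hj2 => hA j hj (by omega)) (n - 1) le_rfl _ h1
    (i - 1) (by omega)
  simp only [add_zero] at h2
  rw [show 1 + (n - 1) = n by omega, show 1 + (i - 1) = i by omega] at h2
  exact h2

theorem exists_fresh {S : Finset V} {v : V} (hv : v ∈ S) : ∃ y, R.G.Adj v y ∧ ¬ Cl R.rk S y := by
  obtain ⟨y, h1, h2⟩ := R.ext S v hv
  exact ⟨y, h1, not_cl_of_step R h2⟩

/-- the move -/
theorem move {n : ℕ} (hn : 2 ≤ n) (hA : ∀ j, 2 ≤ j → j < n → ¬ AA R j) {w : ℕ → V}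
    (hw : GP R w n) (F : Finset V) (h0 : w 0 ∈ F) (hnF : w n ∈ F) :
    ∃ w' : ℕ → V, GP R w' n ∧ w' 0 = w 0 ∧ w' n = w n ∧ ∀ i, 0 < i → i < n → ¬ Cl R.rk F (w' i) := by
  obtain ⟨y, hy1, hy2⟩ := exists_fresh (R := R) h0
  have hSF : ({w 0, w n} : Finset V) ⊆ F := by
    intro x hx
    rw [Finset.mem_insert, Finset.mem_singleton] at hx
    rcases hx with rfl | rfl
    · exact h0
    · exact hnF
  have hyS : ¬ Cl R.rk {w 0, w n} y := fun h => hy2 (cl_mono R hSF h)
  have h01 : R.G.Adj (w 0) (w 1) := hw.1.1 0 (by omega)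
  have hs : ∀ x ∈ insert (w 1) ({w 0, w n} : Finset V), x ∈ vs w n := by
    intro x hx
    rw [Finset.mem_insert, Finset.mem_insert, Finset.mem_singleton] at hx
    rw [mem_vs]
    rcases hx with rfl | rfl | rfl
    · exact ⟨1, by omega, rfl⟩
    · exact ⟨0, by omega, rfl⟩
    · exact ⟨n, by omega, rfl⟩
  have hcl : ∀ t ∈ vs w n, Cl R.rk (insert (w 1) {w 0, w n}) t := by
    intro t ht
    rw [mem_vs] at ht
    obtain ⟨i, hi, rfl⟩ := ht
    rcases Nat.eq_zero_or_pos i with h | h
    · subst h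
      exact cl_mem R (by simp)
    · refine cl_mono R ?_ (cl_b hn hA hw i h hi)
      intro x hx
      rw [Finset.mem_insert, Finset.mem_singleton] at hx
      rcases hx with rfl | rfl <;> simp
  have e1 := step_of_not_cl R (S := {w 0, w n}) (by simp) h01 (not_cl hn hA hw 1 (by omega) (by omega))
  have e2 := step_of_not_cl R (S := {w 0, w n}) (by simp) hy1 hyS
  obtain ⟨e, he1, he2, he3, he4, he5⟩ := R.hom {w 0, w n} (vs w n) (w 0) (w 1) y (by simp) h01 hy1
    e1 e2 (fun x hx => hs x hx) (by rw [← e1]; exact rk_eq_of_cl R (fun x hx => hs x hx) hcl)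
  have hmem : ∀ i, i ≤ n → w i ∈ vs w n := fun i hi => mem_vs.2 ⟨i, hi, rfl⟩
  have ew0 : e (w 0) = w 0 := he1 _ (by simp)
  have ewn : e (w n) = w n := he1 _ (by simp)
  have him : ({w 0, w n} : Finset V).image e = {w 0, w n} := by
    rw [Finset.image_insert, Finset.image_singleton, ew0, ewn]
  have hnc : ∀ i, 0 < i → i < n → ¬ Cl R.rk {w 0, w n} (e (w i)) := by
    intro i hi1 hi2 hc
    apply not_cl hn hA hw i hi1 hi2
    rw [← cl_map R he5 (S := {w 0, w n}) (v := w i), him]
    · exact hc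
    · refine Finset.insert_subset (hmem i hi2.le) ?_
      exact (Finset.subset_insert _ _).trans (fun x hx => hs x hx)
  have hwk : Wk R.G (fun i => e (w i)) n := fun i hi =>
    he4 _ (hmem i hi.le) _ (hmem (i + 1) hi) (hw.1.1 i hi)
  have hvs : vs (fun i => e (w i)) n = (vs w n).image e := by
    unfold vs
    rw [Finset.image_image]
    rfl
  refine ⟨fun i => e (w i), ⟨⟨hwk, ?_⟩, ?_⟩, ew0, ewn, ?_⟩
  · rw [hvs, he5 _ (Finset.Subset.refl _)]
    exact hw.1.2
  · simp only [ew0, ewn]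
    exact hnc (n - 1) (by omega) (by omega)
  · intro i hi1 hi2 hc
    apply hnc i hi1 hi2
    refine inter1 R hSF (a := w 0) (by simp) hy1 hy2 ?_ hc
    have h3 := (cl_map R he5 (S := insert (w 1) {w 0, w n}) (v := w i)
      (Finset.insert_subset (hmem i hi2.le) (fun x hx => hs x hx))).2 (hcl _ (hmem i hi2.le))
    rw [Finset.image_insert, him, he2] at h3
    exact h3

/-- change the last vertex -/
theorem turn {n : ℕ} (hn : 2 ≤ n) {w : ℕ → V}
    (hw : GP R w n) (F : Finset V) (hF : vs w (n - 1) ⊆ F) {x : V} (hx : R.G.Adj (w (n - 1)) x)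
    (hxF : ¬ Cl R.rk F x) : GP R (fun i => if i < n then w i else x) n := by
  have hx1 : ¬ Cl R.rk (vs w (n - 1)) x := fun h => hxF (cl_mono R hF h)
  have hm1 : w (n - 1) ∈ vs w (n - 1) := mem_vs.2 ⟨n - 1, le_rfl, rfl⟩
  have hadj : R.G.Adj (w (n - 1)) (w n) := by
    have := hw.1.1 (n - 1) (by omega)
    rwa [show n - 1 + 1 = n by omega] at this
  have hins : insert (w n) (vs w (n - 1)) = vs w n := by
    have h := sg_succ w (Nat.zero_le (n - 1 + 1))
    rw [show n - 1 + 1 = n by omega] at h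
    rw [vs_eq_sg, vs_eq_sg, h]
  have r1 : R.rk (vs w (n - 1)) = R.m + (n - 1) := (gen_take R hw.1 (by omega)).2
  have e1 : R.rk (insert (w n) (vs w (n - 1))) = R.rk (vs w (n - 1)) + 1 := by
    rw [hins, r1, hw.1.2]
    omega
  have e2 := step_of_not_cl R hm1 hx hx1
  obtain ⟨e, he1, he2, he3, he4, he5⟩ := R.hom (vs w (n - 1)) (insert (w n) (vs w (n - 1)))
    (w (n - 1)) (w n) x hm1 hadj hx e1 e2 (Finset.Subset.refl _) e1
  have hew : ∀ i, i ≤ n → e (w i) = if i < n then w i else x := by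
    intro i hi
    by_cases h : i < n
    · rw [if_pos h]
      exact he1 _ (mem_vs.2 ⟨i, by omega, rfl⟩)
    · rw [if_neg h]
      obtain rfl : i = n := by omega
      exact he2
  have hmem : ∀ i, i ≤ n → w i ∈ insert (w n) (vs w (n - 1)) := fun i hi => by
    rw [hins]
    exact mem_vs.2 ⟨i, hi, rfl⟩
  have hvs : vs (fun i => if i < n then w i else x) n = (vs w n).image e := by
    ext z
    rw [mem_vs, Finset.mem_image]
    constructor
    · rintro ⟨t, ht, rfl⟩
      exact ⟨w t, mem_vs.2 ⟨t, ht, rfl⟩, hew t ht⟩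
    · rintro ⟨y, hy, rfl⟩
      rw [mem_vs] at hy
      obtain ⟨t, ht, rfl⟩ := hy
      exact ⟨t, ht, (hew t ht).symm⟩
  refine ⟨⟨?_, ?_⟩, ?_⟩
  · intro i hi
    have h := he4 _ (hmem i hi.le) _ (hmem (i + 1) hi) (hw.1.1 i hi)
    rw [hew i hi.le, hew (i + 1) hi] at h
    exact h
  · rw [hvs, he5 _ (by rw [hins]), hw.1.2]
  · intro hc
    apply hw.2
    rw [← cl_map R he5 (S := {w 0, w n}) (v := w (n - 1))]
    · rw [Finset.image_insert, Finset.image_singleton, hew 0 (by omega), hew n le_rfl,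
        hew (n - 1) (by omega)]
      exact hc
    · refine Finset.insert_subset (hmem (n - 1) (by omega)) (Finset.insert_subset
        (hmem 0 (by omega)) ?_)
      rw [Finset.singleton_subset_iff]
      exact hmem n le_rfl

/-- long paths -/
theorem long {n : ℕ} (hn : 2 ≤ n) (hA : ∀ j, 2 ≤ j → j < n → ¬ AA R j) {w : ℕ → V}
    (hw : GP R w n) (s : ℕ) : ∃ (p w : ℕ → V), Wk R.G p (n + 2 * s) ∧
      Set.InjOn p (Set.Iic (n + 2 * s)) ∧ GP R w n ∧ w 0 = p 0 ∧ w n = p (n + 2 * s) := by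
  induction s with
  | zero => exact ⟨w, w, hw.1.1, gen_inj R hw.1, hw, rfl, rfl⟩
  | succ s ih =>
    obtain ⟨p, w, hp1, hp2, hw, h0, h1⟩ := ih
    obtain ⟨w', hw', e0, en, hnc⟩ := move hn hA hw (vs p (n + 2 * s)) (mem_vs.2 ⟨0, by omega, h0.symm⟩)
      (mem_vs.2 ⟨n + 2 * s, le_rfl, h1.symm⟩)
    have hm : w' (n - 1) ∈ vs p (n + 2 * s) ∪ vs w' n :=
      Finset.mem_union_right _ (mem_vs.2 ⟨n - 1, by omega, rfl⟩)
    obtain ⟨x, hx1, hx2⟩ := exists_fresh (R := R) hm
    have ht := turn hn hw' (vs p (n + 2 * s) ∪ vs w' n) (by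
      intro z hz
      rw [mem_vs] at hz
      obtain ⟨t, ht, rfl⟩ := hz
      exact Finset.mem_union_right _ (mem_vs.2 ⟨t, by omega, rfl⟩)) hx1 hx2
    let q : ℕ → V := fun i => if i ≤ n + 2 * s then p i else if i = n + 2 * s + 1 then w' (n - 1)
      else x
    have q1 : ∀ i, i ≤ n + 2 * s → q i = p i := fun i hi => if_pos hi
    have q2 : q (n + 2 * s + 1) = w' (n - 1) :=
      (if_neg (by omega)).trans (if_pos rfl)
    have q3 : q (n + 2 * s + 2) = x :=
      (if_neg (by omega)).trans (if_neg (by omega))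
    have hn1 : ∀ i, i ≤ n + 2 * s → p i ≠ w' (n - 1) := by
      intro i hi he
      apply hnc (n - 1) (by omega) (by omega)
      rw [← he]
      exact cl_mem R (mem_vs.2 ⟨i, hi, rfl⟩)
    have hn2 : ∀ i, i ≤ n + 2 * s → p i ≠ x := by
      intro i hi he
      apply hx2
      rw [← he]
      exact cl_mem R (Finset.mem_union_left _ (mem_vs.2 ⟨i, hi, rfl⟩))
    have hn3 : w' (n - 1) ≠ x := fun he => hx2 (he ▸ cl_mem R hm)
    refine ⟨q, _, ?_, ?_, ht, ?_, ?_⟩
    · intro i hi
      rcases Nat.lt_trichotomy i (n + 2 * s) with h | h | h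
      · rw [q1 i h.le, q1 (i + 1) h]
        exact hp1 i h
      · subst h
        rw [q1 _ le_rfl, q2, ← h1, ← en]
        have := hw'.1.1 (n - 1) (by omega)
        rw [show n - 1 + 1 = n by omega] at this
        exact this.symm
      · obtain rfl : i = n + 2 * s + 1 := by omega
        rw [q2, q3]
        exact hx1
    · have key : ∀ i j, i < j → j ≤ n + 2 * (s + 1) → q i ≠ q j := by
        intro i j hij hj
        rcases Nat.lt_or_ge (n + 2 * s) j with h | h
        · rcases Nat.eq_or_lt_of_le h with h' | h'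
          · rw [← h', q2, q1 i (by omega)]
            exact hn1 i (by omega)
          · obtain rfl : j = n + 2 * s + 2 := by omega
            rw [q3]
            rcases Nat.lt_or_ge (n + 2 * s) i with h'' | h''
            · obtain rfl : i = n + 2 * s + 1 := by omega
              rw [q2]
              exact hn3
            · rw [q1 i h'']
              exact hn2 i h''
        · rw [q1 i (by omega), q1 j h]
          intro he
          have := hp2 (show i ∈ Set.Iic (n + 2 * s) by simp; omega)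
            (show j ∈ Set.Iic (n + 2 * s) from h) he
          omega
      intro i hi j hj he
      rcases Nat.lt_trichotomy i j with h | h | h
      · exact absurd he (key i j h hj)
      · exact h
      · exact absurd he.symm (key j i h hi)
    · rw [if_pos (by omega), e0, h0, q1 0 (by omega)]
    · rw [if_neg (lt_irrefl n), show n + 2 * (s + 1) = n + 2 * s + 2 by ring, q3]

end

end LAx

open LAx in
theorem la (hT : LTwo) : LA := by
  classical
  intro V _ R k n hn hnk hAA
  -- the minimal length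
  have hex : ∃ n, 2 ≤ n ∧ AA R n := ⟨n, hn, hAA⟩
  let n0 := Nat.find hex
  obtain ⟨h2, w, hw1, hw2⟩ : 2 ≤ n0 ∧ AA R n0 := Nat.find_spec hex
  have hle : n0 ≤ n := Nat.find_min' hex ⟨hn, hAA⟩
  have hA : ∀ j, 2 ≤ j → j < n0 → ¬ AA R j := fun j hj hj2 hc => Nat.find_min hex hj2 ⟨hj, hc⟩
  obtain ⟨p, w, hp1, hp2, hw, e0, e1⟩ := long h2 hA ⟨hw1, hw2⟩ (k - n0)
  obtain ⟨w', hw', f0, f1, hnc⟩ := move h2 hA hw (vs p (n0 + 2 * (k - n0)))
    (mem_vs.2 ⟨0, by omega, e0.symm⟩) (mem_vs.2 ⟨n0 + 2 * (k - n0), le_rfl, e1.symm⟩)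
  have h := hT V R.G (n0 + 2 * (k - n0)) n0 p w' (by omega) (by omega) (by omega) hp1 hw'.1.1 hp2
    (gen_inj R hw'.1) (by rw [f0, e0]) (by rw [f1, e1]) (by
      intro i j hj0 hj hi he
      apply hnc j hj0 hj
      rw [← he]
      exact cl_mem R (mem_vs.2 ⟨i, hi, rfl⟩))
  rw [show n0 + 2 * (k - n0) + n0 = 2 * k by omega] at h
  exact h

end Pool.Agent.H97G
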