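import Pool.Agent.H97G.Basic

/-!
# Cycles and theta graphs from `U`-paths: (LB1) and (LB4)
-/

set_option autoImplicit false

namespace Pool.Agent.H97G

namespace B1

variable {V : Type} [DecidableEq V]

/-- the composition of two injective walks -/
theorem glue_inj {p q : ℕ → V} {n m : ℕ} (hp : Set.InjOn p (Set.Iic n))
    (hq : Set.InjOn q (Set.Iic m)) (h : ∀ i j, i ≤ n → 0 < j → j ≤ m → p i ≠ q j)
    (h0 : p n = q 0) : Set.InjOn (glue p n q) (Set.Iic (n + m)) := by
  intro i hi j hj he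
  simp only [Set.mem_Iic] at hi hj
  rcases Nat.lt_or_ge n i with h1 | h1
  · obtain ⟨a, rfl⟩ : ∃ a, i = n + a := ⟨i - n, by omega⟩
    rw [glue_add h0] at he
    rcases Nat.lt_or_ge n j with h2 | h2
    · obtain ⟨b, rfl⟩ : ∃ b, j = n + b := ⟨j - n, by omega⟩
      rw [glue_add h0] at he
      have := hq (by simp only [Set.mem_Iic]; omega : a ∈ Set.Iic m)
        (by simp only [Set.mem_Iic]; omega : b ∈ Set.Iic m) he
      omega
    · rw [glue_le h2] at he
      exact absurd he.symm (h j a h2 (by omega) (by omega))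
  · rw [glue_le h1] at he
    rcases Nat.lt_or_ge n j with h2 | h2
    · obtain ⟨b, rfl⟩ : ∃ b, j = n + b := ⟨j - n, by omega⟩
      rw [glue_add h0] at he
      exact absurd he (h i b h1 (by omega) (by omega))
    · rw [glue_le h2] at he
      exact hp h1 h2 he

/-- an injective walk `p` of length `N` with the same ends as a `U`-path `w` -/
structure PS (R : RG V) (n N : ℕ) (p w : ℕ → V) : Prop where
  wk : Wk R.G p N
  inj : Set.InjOn p (Set.Iic N)
  up : UP R w n
  zero : w 0 = p 0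
  last : w n = p N
  rk01 : R.rk {p 0, p 1} = R.m + 1

theorem PS.start {R : RG V} {n : ℕ} {w : ℕ → V} (hn : 2 ≤ n) (h : UP R w n) : PS R n n w w where
  wk := h.1
  inj := h.2.1
  up := h
  zero := rfl
  last := rfl
  rk01 := by
    have h1 := (h.gen.init (j := 1) (by omega)).2
    rw [vs_succ, vs_zero] at h1
    rw [Finset.pair_comm]
    simpa using h1

/-- the two `U`-paths of the step -/
theorem PS.two {R : RG V} {k n N : ℕ} {p w : ℕ → V} (h2 : LU2) (h3 : LU3) (hk : UMin R k n)
    (h : PS R n N p w) {b : ℕ} (hb : b + 2 ≤ n) :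
    ∃ w' w'' : ℕ → V, UP R w' n ∧ UP R w'' n ∧ w' 0 = p 0 ∧ w' n = p N ∧
      (∀ i, 0 < i → i < n → ¬ Cl R.rk (vs p N) (w' i)) ∧ (∀ i, i ≤ b → w'' i = w' i) ∧
      (∀ i, b < i → i ≤ n → ¬ Cl R.rk (vs p N ∪ vs w' n) (w'' i)) := by
  have hF0 : w 0 ∈ vs p N := by rw [h.zero]; exact mem_vs_of (Nat.zero_le _)
  have hFn : w n ∈ vs p N := by rw [h.last]; exact mem_vs_of le_rfl
  obtain ⟨y, hy1, hy2⟩ := exists_gen' R hF0
  have hsub : ({w 0, w n} : Finset V) ⊆ vs p N := by
    intro x hx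
    simp only [Finset.mem_insert, Finset.mem_singleton] at hx
    rcases hx with rfl | rfl
    · exact hF0
    · exact hFn
  obtain ⟨w', u1, u2, u3, u4, u5⟩ := h2 V R k n hk w h.up y hy1 (fun hc => hy2 (cl_mono R hsub hc))
  obtain ⟨w'', v1, v2, v3⟩ := h3 V R k n hk w' u1 (vs p N ∪ vs w' n) b hb
    ((vs_mono w' (by omega)).trans Finset.subset_union_right)
  exact ⟨w', w'', u1, v1, u2.trans h.zero, u3.trans h.last, u5 _ hF0 hFn hy2, v2, v3⟩

/-- the composed walk -/
def comp (p w' w'' : ℕ → V) (n N b : ℕ) : ℕ → V :=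
  glue (glue p N (fun i => w' (n - i))) (N + (n - b)) (fun i => w'' (b + i))

theorem PS.comp {R : RG V} {n N b : ℕ} {p w w' w'' : ℕ → V} (h : PS R n N p w) (hN : 1 ≤ N)
    (hb1 : 1 ≤ b) (hb : b + 2 ≤ n) (u1 : UP R w' n) (v1 : UP R w'' n) (u2 : w' 0 = p 0)
    (u3 : w' n = p N) (u5 : ∀ i, 0 < i → i < n → ¬ Cl R.rk (vs p N) (w' i))
    (v2 : ∀ i, i ≤ b → w'' i = w' i)
    (v3 : ∀ i, b < i → i ≤ n → ¬ Cl R.rk (vs p N ∪ vs w' n) (w'' i)) :
    PS R n (N + (n - b) + (n - b)) (B1.comp p w' w'' n N b) w'' := by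
  have e0 : p N = (fun i => w' (n - i)) 0 := by simp [u3]
  have e1 : glue p N (fun i => w' (n - i)) (N + (n - b)) = (fun i => w'' (b + i)) 0 := by
    rw [glue_add e0]
    simp only [add_zero]
    rw [v2 b le_rfl]
    congr 1; omega
  have hw : Wk R.G (glue p N (fun i => w' (n - i))) (N + (n - b)) :=
    h.wk.glue (u1.1.rev.mono (by omega)) e0
  have hc0 : ∀ i, i ≤ N → B1.comp p w' w'' n N b i = p i := by
    intro i hi
    unfold B1.comp
    rw [glue_le (by omega), glue_le hi]
  have hmem : ∀ i, i ≤ N + (n - b) → glue p N (fun i => w' (n - i)) i ∈ vs p N ∪ vs w' n := by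
    intro i hi
    rcases Nat.lt_or_ge N i with h1 | h1
    · obtain ⟨a, rfl⟩ : ∃ a, i = N + a := ⟨i - N, by omega⟩
      rw [glue_add e0]
      exact Finset.mem_union_right _ (mem_vs_of (by omega))
    · rw [glue_le h1]
      exact Finset.mem_union_left _ (mem_vs_of h1)
  refine ⟨?_, ?_, v1, ?_, ?_, ?_⟩
  · refine hw.glue (Wk.shift v1.1 (by omega)) e1
  · refine glue_inj ?_ ?_ ?_ e1
    · refine glue_inj h.inj ?_ ?_ e0
      · intro i hi j hj he
        simp only [Set.mem_Iic] at hi hj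
        have := u1.2.1 (by simp : n - i ∈ Set.Iic n) (by simp : n - j ∈ Set.Iic n) he
        omega
      · intro i j hi hj hj' he
        apply u5 (n - j) (by omega) (by omega)
        rw [← he]
        exact cl_of_mem R (mem_vs_of hi)
    · intro i hi j hj he
      simp only [Set.mem_Iic] at hi hj
      have := v1.2.1 (by simp only [Set.mem_Iic]; omega : b + i ∈ Set.Iic n)
        (by simp only [Set.mem_Iic]; omega : b + j ∈ Set.Iic n) he
      omega
    · intro i j hi hj hj' he
      apply v3 (b + j) (by omega) (by omega)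
      rw [← he]
      exact cl_of_mem R (hmem i hi)
  · rw [hc0 0 (Nat.zero_le _), v2 0 (Nat.zero_le _), u2]
  · unfold B1.comp
    rw [glue_add e1]
    congr 1; omega
  · rw [hc0 0 (Nat.zero_le _), hc0 1 hN]
    exact h.rk01

theorem PS.step {R : RG V} {k n N : ℕ} {p w : ℕ → V} (h2 : LU2) (h3 : LU3) (hk : UMin R k n)
    (h : PS R n N p w) (hN : 1 ≤ N) {b : ℕ} (hb1 : 1 ≤ b) (hb : b + 2 ≤ n) :
    ∃ p' w', PS R n (N + 2 * (n - b)) p' w' := by
  obtain ⟨w', w'', u1, v1, u2, u3, u5, v2, v3⟩ := h.two h2 h3 hk hb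
  have := h.comp hN hb1 hb u1 v1 u2 u3 u5 v2 v3
  rw [add_assoc, ← two_mul] at this
  exact ⟨_, _, this⟩

theorem PS.close {R : RG V} {k n N : ℕ} {p w : ℕ → V} (h2 : LU2) (hT : LTwo) (hk : UMin R k n)
    (h : PS R n N p w) (hN : 1 ≤ N) : HasCyc R.G (N + n) := by
  have hn := hk.three_le
  have hF0 : w 0 ∈ vs p N := by rw [h.zero]; exact mem_vs_of (Nat.zero_le _)
  have hFn : w n ∈ vs p N := by rw [h.last]; exact mem_vs_of le_rfl
  obtain ⟨y, hy1, hy2⟩ := exists_gen' R hF0
  have hsub : ({w 0, w n} : Finset V) ⊆ vs p N := by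
    intro x hx
    simp only [Finset.mem_insert, Finset.mem_singleton] at hx
    rcases hx with rfl | rfl
    · exact hF0
    · exact hFn
  obtain ⟨w', u1, u2, u3, u4, u5⟩ := h2 V R k n hk w h.up y hy1 (fun hc => hy2 (cl_mono R hsub hc))
  refine hT V R.G N n p w' hN (by omega) (by omega) h.wk u1.1 h.inj u1.2.1 (by rw [u2, h.zero])
    (by rw [u3, h.last]) ?_
  intro i j hj hj' hi he
  apply u5 _ hF0 hFn hy2 j hj hj'
  rw [← he]
  exact cl_of_mem R (mem_vs_of hi)

end B1

theorem lb1 (h2 : LU2) (h3 : LU3) (hT : LTwo) : LB1 := by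
  intro V _ R k n hk hex hcase
  obtain ⟨w, hw⟩ := hex
  have hn := hk.three_le
  have h0 : ∃ p w', B1.PS R n n p w' := ⟨w, w, B1.PS.start (by omega) hw⟩
  rcases hcase with h | ⟨h4, h5⟩ | ⟨h4, h5⟩
  · obtain ⟨p, w', h6⟩ := h0
    have := h6.close h2 hT hk (by omega)
    rwa [h, two_mul]
  · have key : ∀ s, ∃ p w', B1.PS R n (n + 2 * (s + 2)) p w' := by
      intro s
      induction s using Nat.twoStepInduction with
      | zero =>
        obtain ⟨p, w', h6⟩ := h0
        obtain ⟨p', w'', h7⟩ := h6.step h2 h3 hk (by omega) (b := n - 2) (by omega) (by omega)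
        have e : n + 2 * (n - (n - 2)) = n + 2 * (0 + 2) := by omega
        rw [e] at h7
        exact ⟨_, _, h7⟩
      | one =>
        obtain ⟨p, w', h6⟩ := h0
        obtain ⟨p', w'', h7⟩ := h6.step h2 h3 hk (by omega) (b := n - 3) (by omega) (by omega)
        have e : n + 2 * (n - (n - 3)) = n + 2 * (1 + 2) := by omega
        rw [e] at h7
        exact ⟨_, _, h7⟩
      | more s ih1 ih2 =>
        obtain ⟨p, w', h6⟩ := ih1
        obtain ⟨p', w'', h7⟩ := h6.step h2 h3 hk (by omega) (b := n - 2) (by omega) (by omega)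
        have e : n + 2 * (s + 2) + 2 * (n - (n - 2)) = n + 2 * (s + 2 + 2) := by omega
        rw [e] at h7
        exact ⟨_, _, h7⟩
    obtain ⟨s, rfl⟩ : ∃ s, k = n + 2 + s := ⟨k - (n + 2), by omega⟩
    obtain ⟨p, w', h6⟩ := key s
    have := h6.close h2 hT hk (by omega)
    have e : n + 2 * (s + 2) + n = 2 * (n + 2 + s) := by ring
    rwa [e] at this
  · subst h4
    have key : ∀ t, ∃ p w', B1.PS R 3 (3 + 4 * t) p w' := by
      intro t
      induction t with
      | zero => exact h0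
      | succ t ih =>
        obtain ⟨p, w', h6⟩ := ih
        obtain ⟨p', w'', h7⟩ := h6.step h2 h3 hk (by omega) (b := 1) (by omega) (by omega)
        exact ⟨_, _, h7⟩
    obtain ⟨t, ht⟩ := h5
    have hle := hk.le
    obtain ⟨s, rfl⟩ : ∃ s, t = s + 1 := ⟨t - 1, by omega⟩
    obtain ⟨p, w', h6⟩ := key s
    have := h6.close h2 hT hk (by omega)
    have e : 3 + 4 * s + 3 = 2 * k := by omega
    rwa [e] at this

theorem lb4 (h2 : LU2) : LB4 := by
  intro V _ R k n hk hex ℓ
  obtain ⟨w, hw⟩ := hex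
  have hn := hk.three_le
  have key : ∀ ℓ : ℕ, ∃ p : ℕ → ℕ → V, (∀ i, i < ℓ → UP R (p i) n ∧ p i 0 = w 0 ∧ p i n = w n) ∧
      ∀ i j a b, i < j → j < ℓ → 0 < a → a < n → 0 < b → b < n → p i a ≠ p j b := by
    intro ℓ
    induction ℓ with
    | zero => exact ⟨fun _ => w, fun i hi => absurd hi (by omega), fun i j a b _ hj => absurd hj (by omega)⟩
    | succ ℓ ih =>
      obtain ⟨p, hp1, hp2⟩ := ih
      set F : Finset V := {w 0, w n} ∪ (Finset.range ℓ).biUnion (fun i => vs (p i) n) with hF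
      have hF0 : w 0 ∈ F := by rw [hF]; simp
      have hFn : w n ∈ F := by rw [hF]; simp
      have hFi : ∀ i a, i < ℓ → a ≤ n → p i a ∈ F := by
        intro i a hi ha
        rw [hF]
        refine Finset.mem_union_right _ (Finset.mem_biUnion.2 ⟨i, Finset.mem_range.2 hi, mem_vs_of ha⟩)
      obtain ⟨y, hy1, hy2⟩ := exists_gen' R hF0
      have hsub : ({w 0, w n} : Finset V) ⊆ F := Finset.subset_union_left
      obtain ⟨w', u1, u2, u3, u4, u5⟩ := h2 V R k n hk w hw y hy1 (fun hc => hy2 (cl_mono R hsub hc))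
      refine ⟨fun i => if i < ℓ then p i else w', ?_, ?_⟩
      · intro i hi
        by_cases h : i < ℓ
        · simp only [h, if_true]
          exact hp1 i h
        · simp only [h, if_false]
          exact ⟨u1, u2, u3⟩
      · intro i j a b hij hj ha ha' hb hb'
        have hi : i < ℓ := by omega
        simp only [hi, if_true]
        by_cases h : j < ℓ
        · simp only [h, if_true]
          exact hp2 i j a b hij h ha ha' hb hb'
        · simp only [h, if_false]
          intro he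
          apply u5 F hF0 hFn hy2 b hb hb'
          rw [← he]
          exact cl_of_mem R (hFi i a hi ha'.le)
  obtain ⟨p, hp1, hp2⟩ := key ℓ
  have hin : ∀ i a b, i < ℓ → a ≤ n → b ≤ n → p i a = p i b → a = b := by
    intro i a b hi ha hb he
    exact (hp1 i hi).1.2.1 ha hb he
  refine ⟨w 0, w n, p, ?_, ?_, ?_, ?_⟩
  · intro he
    have := hw.2.1 (by simp : 0 ∈ Set.Iic n) (by simp : n ∈ Set.Iic n) he
    omega
  · intro i hi
    exact ⟨(hp1 i hi).2.1, (hp1 i hi).2.2, (hp1 i hi).1.1⟩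
  · intro i a hi ha ha'
    rw [← (hp1 i hi).2.1, ← (hp1 i hi).2.2]
    constructor
    · intro he
      have := hin i a 0 hi (by omega) (by omega) he
      omega
    · intro he
      have := hin i a n hi (by omega) (by omega) he
      omega
  · intro i j a b hi hj ha ha' hb hb' he
    rcases lt_trichotomy i j with h | h | h
    · exact absurd he (hp2 i j a b h hj ha ha' hb hb')
    · subst h
      exact ⟨rfl, hin i a b hi ha'.le hb'.le he⟩
    · exact absurd he.symm (hp2 j i b a h hi hb hb' ha ha')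

end Pool.Agent.H97G
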