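import Pool.Agent.H97G.LB1

/-!
# Cycles from `U`-paths of length three: (LB2)
-/

set_option autoImplicit false

namespace Pool.Agent.H97G

theorem lb2 (h1 : LU1) (h2 : LU2) (h3 : LU3) (hT : LTwo) : LB2 := by
  intro V _ R k hk hex hev
  obtain ⟨w, hw⟩ := hex
  have hm := hk.m_eq
  have key : ∀ t, ∃ p w', B1.PS R 3 (3 + 4 * t) p w' := by
    intro t
    induction t with
    | zero => exact ⟨w, w, B1.PS.start (by omega) hw⟩
    | succ t ih =>
      obtain ⟨p, w', h6⟩ := ih
      obtain ⟨p', w'', h7⟩ := h6.step h2 h3 hk (by omega) (b := 1) (by omega) (by omega)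
      exact ⟨_, _, h7⟩
  obtain ⟨r, hr⟩ := hev
  have hle := hk.le
  obtain ⟨t, rfl⟩ : ∃ t, r = 2 + t := ⟨r - 2, by omega⟩
  obtain ⟨p, w0, hP⟩ := key t
  set N : ℕ := 3 + 4 * t with hN
  obtain ⟨w', w'', u1, v1, u2, u3, u5, v2, v3⟩ := hP.two h2 h3 hk (b := 1) (by omega)
  have hC := hP.comp (by omega) le_rfl (by omega) u1 v1 u2 u3 u5 v2 v3
  obtain ⟨a1, b1, c1, d1, e1, f1, g1⟩ := h1 V R k 3 hk w'' v1
  have hw0 : w'' 0 = p 0 := (v2 0 (by omega)).trans u2
  have hw1 : w'' 1 = w' 1 := v2 1 le_rfl
  have hp0F : p 0 ∈ vs p N := mem_vs_of (Nat.zero_le _)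
  have hp1F : p 1 ∈ vs p N := mem_vs_of (by omega)
  have hadj : R.G.Adj (p 0) (p 1) := hP.wk 0 (by omega)
  have hw1F : w' 1 ∈ vs p N ∪ vs w' 3 := Finset.mem_union_right _ (mem_vs_of (by omega))
  have hFF : vs p N ⊆ vs p N ∪ vs w' 3 := Finset.subset_union_left
  -- neighbours
  have adj1 : R.G.Adj (p 0) (w' 1) := by
    have := u1.1 0 (by omega)
    rwa [u2] at this
  have adj2 : R.G.Adj (w' 1) (w'' 2) := by
    have := v1.1 1 (by omega)
    rwa [hw1] at this
  have n1 : ¬ Cl R.rk (vs p N) (w' 1) := u5 1 (by omega) (by omega)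
  have n2 : ¬ Cl R.rk (vs p N ∪ vs w' 3) (w'' 2) := v3 2 (by omega) (by omega)
  have n3 : ¬ Cl R.rk (vs p N ∪ vs w' 3) (w'' 3) := v3 3 (by omega) (by omega)
  -- the last vertex is in the closure of the others
  have c3 : Cl R.rk (vs w'' 2) (w'' 3) := by
    have e2 := v1.2.2.1
    unfold Cl
    rw [← vs_succ]
    show R.rk (vs w'' 3) = R.rk (vs w'' (3 - 1))
    omega
  have hv2 : vs w'' 2 = {p 0, w' 1, w'' 2} := by
    rw [vs_succ, vs_succ, vs_zero, hw0, hw1]
    clear * -
    ext x
    simp only [Finset.mem_insert, Finset.mem_singleton]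
    tauto
  -- `p 1` is not in the closure of the ends
  have hq : ¬ Cl R.rk {w'' 0, w'' 3} (p 1) := by
    intro hc
    have s1 : Cl R.rk (insert (w'' 2) {p 0, w' 1}) (p 1) := by
      refine cl_trans R ?_ hc
      intro x hx
      simp only [Finset.mem_insert, Finset.mem_singleton] at hx
      rcases hx with rfl | rfl
      · rw [hw0]; exact cl_of_mem R (by simp)
      · refine cl_mono R ?_ c3
        rw [hv2]
        clear * -
        intro x hx
        simp only [Finset.mem_insert, Finset.mem_singleton] at hx ⊢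
        tauto
    have s2 : Cl R.rk {p 0, w' 1} (p 1) := by
      refine indep1 R (F := vs p N ∪ vs w' 3) ?_ (by simp : w' 1 ∈ ({p 0, w' 1} : Finset V)) adj2 n2
        s1 (cl_of_mem R (hFF hp1F))
      intro x hx
      simp only [Finset.mem_insert, Finset.mem_singleton] at hx
      rcases hx with rfl | rfl
      · exact hFF hp0F
      · exact hw1F
    have s3 : Cl R.rk {p 0} (p 1) := by
      refine indep1 R (F := vs p N) ?_ (by simp : p 0 ∈ ({p 0} : Finset V)) adj1 n1 ?_
        (cl_of_mem R hp1F)
      · intro x hx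
        simp only [Finset.mem_singleton] at hx
        rw [hx]; exact hp0F
      · rw [Finset.pair_comm] at s2
        exact s2
    have s4 : R.rk {p 1, p 0} = R.rk {p 0} := s3
    have s5 := hP.rk01
    rw [Finset.pair_comm] at s5
    have s6 := R.vert (p 0)
    omega
  obtain ⟨q, t1, t2, t3, t4, t5⟩ := h2 V R k 3 hk w'' v1 (p 1) (by rw [hw0]; exact hadj) hq
  obtain ⟨a2, b2, c2, d2, e2, f2, g2⟩ := h1 V R k 3 hk q t1
  rw [hw0] at t2
  -- `w' 1` is not in the closure of `p 0, p 1, w'' 3`
  have n4 : ¬ Cl R.rk {p 0, p 1, w'' 3} (w' 1) := by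
    intro hc
    have r1 : R.rk {p 0, p 1} = R.m + 1 := hP.rk01
    have r2 : R.rk (insert (w' 1) {p 0, p 1}) = R.rk {p 0, p 1} + 1 := by
      refine rk_insert_of_adj R (by simp : p 0 ∈ ({p 0, p 1} : Finset V)) adj1 fun h => n1 ?_
      refine cl_mono R ?_ h
      intro x hx
      simp only [Finset.mem_insert, Finset.mem_singleton] at hx
      rcases hx with rfl | rfl
      · exact hp0F
      · exact hp1F
    have r3 : R.rk (insert (w' 1) {p 0, p 1}) + 1 ≤ R.rk (insert (w'' 3) (insert (w' 1) {p 0, p 1})) := by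
      rw [← not_cl_iff]
      intro h
      refine n3 (cl_mono R ?_ h)
      intro x hx
      simp only [Finset.mem_insert, Finset.mem_singleton] at hx
      rcases hx with rfl | rfl | rfl
      · exact hw1F
      · exact hFF hp0F
      · exact hFF hp1F
    have r4 : R.rk (insert (w' 1) {p 0, p 1, w'' 3}) = R.rk {p 0, p 1, w'' 3} := hc
    have r5 : R.rk {p 0, p 1, w'' 3} ≤ R.rk (vs q 3) := by
      refine R.mono _ _ fun x hx => ?_
      simp only [Finset.mem_insert, Finset.mem_singleton] at hx
      rcases hx with rfl | rfl | rfl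
      · rw [← t2]; exact mem_vs_of (by omega)
      · rw [← t4]; exact mem_vs_of (by omega)
      · rw [← t3]; exact mem_vs_of (by omega)
    have r6 : (insert (w'' 3) (insert (w' 1) {p 0, p 1}) : Finset V) =
        insert (w' 1) {p 0, p 1, w'' 3} := by
      clear * -
      ext x
      simp only [Finset.mem_insert, Finset.mem_singleton]
      tauto
    rw [r6] at r3
    omega
  have q2 : Cl R.rk {p 1, w'' 3} (q 2) := by
    have := b2 2 (by omega) (by omega)
    rwa [t4, t3] at this
  have q3 : Cl R.rk {p 0, p 1, w'' 3} (q 2) := cl_mono R (Finset.subset_insert _ _) q2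
  -- `q 2` is not in the closure of the walk and `w'`
  have n5 : ¬ Cl R.rk (vs p N ∪ vs w' 3) (q 2) := by
    intro hc
    have s1 : Cl R.rk (insert (w'' 2) {p 0, p 1, w' 1}) (q 2) := by
      refine cl_trans R ?_ q2
      intro x hx
      simp only [Finset.mem_insert, Finset.mem_singleton] at hx
      rcases hx with rfl | rfl
      · exact cl_of_mem R (by simp)
      · refine cl_mono R ?_ c3
        rw [hv2]
        clear * -
        intro x hx
        simp only [Finset.mem_insert, Finset.mem_singleton] at hx ⊢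
        tauto
    have s2 : Cl R.rk {p 0, p 1, w' 1} (q 2) := by
      refine indep1 R (F := vs p N ∪ vs w' 3) ?_ (by simp : w' 1 ∈ ({p 0, p 1, w' 1} : Finset V))
        adj2 n2 s1 hc
      intro x hx
      simp only [Finset.mem_insert, Finset.mem_singleton] at hx
      rcases hx with rfl | rfl | rfl
      · exact hFF hp0F
      · exact hFF hp1F
      · exact hw1F
    have s3 : Cl R.rk {p 0, p 1} (q 2) := by
      refine indep1 R (F := {p 0, p 1, w'' 3}) ?_ (by simp : p 0 ∈ ({p 0, p 1} : Finset V)) adj1 n4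
        ?_ q3
      · clear * -
        intro x hx
        simp only [Finset.mem_insert, Finset.mem_singleton] at hx ⊢
        tauto
      · refine cl_mono R ?_ s2
        clear * -
        intro x hx
        simp only [Finset.mem_insert, Finset.mem_singleton] at hx ⊢
        tauto
    have s4 := t1.gen.not_cl (j := 1) (by omega)
    apply s4
    rw [vs_succ, vs_zero, zero_add, t4, t2, Finset.pair_comm]
    exact s3
  have n6 : q 2 ≠ w'' 2 := by
    intro he
    apply a2 2 (by omega) (by omega)
    rw [t2, t3]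
    refine indep1 R (F := {p 0, p 1, w'' 3}) ?_ (by simp : p 0 ∈ ({p 0, w'' 3} : Finset V)) adj1 n4
      ?_ q3
    · clear * -
      intro x hx
      simp only [Finset.mem_insert, Finset.mem_singleton] at hx ⊢
      tauto
    · have := b1 2 (by omega) (by omega)
      rw [hw1, ← he] at this
      refine cl_mono R ?_ this
      clear * -
      intro x hx
      simp only [Finset.mem_insert, Finset.mem_singleton] at hx ⊢
      tauto
  have n7 : q 2 ≠ w'' 3 := by
    rw [← t3]
    intro he
    have := t1.2.1 (by simp : 2 ∈ Set.Iic 3) (by simp : 3 ∈ Set.Iic 3) he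
    omega
  -- the cycle
  set P : ℕ → V := B1.comp p w' w'' 3 N 1 with hPdef
  have hPm : ∀ i, i ≤ N + 2 + 2 → P i ∈ vs p N ∪ vs w' 3 ∨ P i = w'' 2 ∨ P i = w'' 3 := by
    intro i hi
    rw [hPdef]
    unfold B1.comp
    have e0 : p N = (fun i => w' (3 - i)) 0 := by simp [u3]
    have e1 : glue p N (fun i => w' (3 - i)) (N + (3 - 1)) = (fun i => w'' (1 + i)) 0 := by
      rw [glue_add e0]
      simp only [add_zero]
      rw [v2 1 le_rfl]
    rcases Nat.lt_or_ge (N + (3 - 1)) i with h | h
    · obtain ⟨a, rfl⟩ : ∃ a, i = N + (3 - 1) + a := ⟨i - (N + (3 - 1)), by omega⟩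
      rw [glue_add e1]
      have : a = 1 ∨ a = 2 := by omega
      rcases this with rfl | rfl
      · right; left; rfl
      · right; right; rfl
    · left
      rw [glue_le h]
      rcases Nat.lt_or_ge N i with h' | h'
      · obtain ⟨a, rfl⟩ : ∃ a, i = N + a := ⟨i - N, by omega⟩
        rw [glue_add e0]
        exact Finset.mem_union_right _ (mem_vs_of (by omega))
      · rw [glue_le h']
        exact Finset.mem_union_left _ (mem_vs_of h')
  have hP1 : P 1 = p 1 := by
    rw [hPdef]
    unfold B1.comp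
    rw [glue_le (by omega), glue_le (by omega)]
  have hlast : P (N + 2 + 2) = w'' 3 := hC.last.symm
  have hcyc : HasCyc R.G (N + 3 + 2) := by
    refine hT V R.G (N + 3) 2 (fun i => P (1 + i)) (fun i => q (1 + i)) (by omega) (by omega)
      (by omega) ?_ ?_ ?_ ?_ ?_ ?_ ?_
    · exact Wk.shift hC.wk (by omega)
    · exact Wk.shift t1.1 (by omega)
    · intro i hi j hj he
      simp only [Set.mem_Iic] at hi hj
      have := hC.inj (by simp only [Set.mem_Iic]; omega : 1 + i ∈ Set.Iic (N + (3 - 1) + (3 - 1)))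
        (by simp only [Set.mem_Iic]; omega : 1 + j ∈ Set.Iic (N + (3 - 1) + (3 - 1))) he
      omega
    · intro i hi j hj he
      simp only [Set.mem_Iic] at hi hj
      have := t1.2.1 (by simp only [Set.mem_Iic]; omega : 1 + i ∈ Set.Iic 3)
        (by simp only [Set.mem_Iic]; omega : 1 + j ∈ Set.Iic 3) he
      omega
    · show P (1 + 0) = q (1 + 0)
      rw [add_zero, hP1, t4]
    · show P (1 + (N + 3)) = q (1 + 2)
      have e : 1 + (N + 3) = N + 2 + 2 := by omega
      rw [e, hlast]
      exact t3.symm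
    · intro i j hj hj' hi he
      obtain rfl : j = 1 := by omega
      have he' : P (1 + i) = q 2 := he
      rcases hPm (1 + i) (by omega) with h | h | h
      · apply n5
        rw [← he']
        exact cl_of_mem R h
      · exact n6 (he'.symm.trans h)
      · exact n7 (he'.symm.trans h)
  have e : N + 3 + 2 = 2 * k := by omega
  rwa [e] at hcyc

end Pool.Agent.H97G
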