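import Mathlib
import Pool.Agent.H97G.Defs

set_option autoImplicit false

namespace Pool.Agent.H97G.LB3w

open Pool.Agent.H97G

section basics

variable {V : Type} [DecidableEq V] (R : RG V)

theorem cl_mem {S : Finset V} {v : V} (h : v ∈ S) : Cl R.rk S v := by
  unfold Cl; rw [Finset.insert_eq_self.mpr h]

theorem cl_iff {S : Finset V} {v : V} : Cl R.rk S v ↔ R.rk (insert v S) ≤ R.rk S := by
  unfold Cl
  constructor
  · intro h; exact h.le
  · intro h; exact le_antisymm h (R.mono _ _ (Finset.subset_insert _ _))

theorem cl_mono {S T : Finset V} {v : V} (hST : S ⊆ T) (h : Cl R.rk S v) : Cl R.rk T v := by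
  rw [cl_iff]
  have h1 := R.submod (insert v S) T
  have h2 : insert v S ∪ T = insert v T := by
    rw [Finset.insert_union, Finset.union_eq_right.mpr hST]
  have h3 : R.rk S ≤ R.rk (insert v S ∩ T) :=
    R.mono _ _ (Finset.subset_inter (Finset.subset_insert _ _) hST)
  rw [h2] at h1
  unfold Cl at h
  omega

theorem rk_union {S T : Finset V} (h : ∀ v ∈ T, Cl R.rk S v) : R.rk (S ∪ T) = R.rk S := by
  induction T using Finset.induction_on with
  | empty => simp
  | insert v T hv ih =>
    have h1 := ih fun u hu => h u (Finset.mem_insert_of_mem hu)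
    have h2 : Cl R.rk (S ∪ T) v :=
      cl_mono R Finset.subset_union_left (h v (Finset.mem_insert_self _ _))
    rw [Finset.union_insert]
    unfold Cl at h2
    omega

theorem cl_trans {S T : Finset V} {u : V} (h : ∀ v ∈ T, Cl R.rk S v) (hu : Cl R.rk T u) :
    Cl R.rk S u := by
  have h1 := rk_union R h
  have h2 : Cl R.rk (S ∪ T) u := cl_mono R Finset.subset_union_right hu
  rw [cl_iff]
  unfold Cl at h2
  have h3 : R.rk (insert u S) ≤ R.rk (insert u (S ∪ T)) :=
    R.mono _ _ (Finset.insert_subset_insert _ Finset.subset_union_left)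
  omega

/-- rank is determined by closure -/
theorem rk_le_of_cl {S T : Finset V} (h : ∀ v ∈ T, Cl R.rk S v) : R.rk T ≤ R.rk S := by
  have h1 := rk_union R h
  have h2 : R.rk T ≤ R.rk (S ∪ T) := R.mono _ _ Finset.subset_union_right
  omega

/-- (I) -/
theorem modI {S F : Finset V} {a y v : V} (hSF : S ⊆ F) (ha : a ∈ S) (hay : R.G.Adj a y)
    (hy : ¬ Cl R.rk F y) (h1 : Cl R.rk (insert y S) v) (h2 : Cl R.rk F v) : Cl R.rk S v := by
  have e1 : R.rk (insert y S) ≤ R.rk S + 1 := R.edge S a y ha hay
  have e2 : R.rk F < R.rk (insert y F) := by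
    by_contra hc
    exact hy ((cl_iff R).mpr (by omega))
  have h3 := R.submod (insert v (insert y S)) (insert v F)
  have h4 : insert v (insert y S) ∪ insert v F = insert v (insert y F) := by
    ext z
    simp only [Finset.mem_union, Finset.mem_insert]
    constructor
    · rintro ((h | h | h) | (h | h))
      · exact Or.inl h
      · exact Or.inr (Or.inl h)
      · exact Or.inr (Or.inr (hSF h))
      · exact Or.inl h
      · exact Or.inr (Or.inr h)
    · rintro (h | h | h)
      · exact Or.inl (Or.inl h)
      · exact Or.inl (Or.inr (Or.inl h))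
      · exact Or.inr (Or.inr h)
  have h5 : R.rk (insert v S) ≤ R.rk (insert v (insert y S) ∩ insert v F) := by
    apply R.mono
    apply Finset.subset_inter
    · exact Finset.insert_subset_insert _ (Finset.subset_insert _ _)
    · exact Finset.insert_subset_insert _ hSF
  have h6 : R.rk (insert y F) ≤ R.rk (insert v (insert y F)) :=
    R.mono _ _ (Finset.subset_insert _ _)
  rw [h4] at h3
  unfold Cl at h1 h2
  rw [cl_iff]
  omega

theorem mem_vs {p : ℕ → V} {n i : ℕ} (h : i ≤ n) : p i ∈ vs p n :=
  Finset.mem_image_of_mem _ (Finset.mem_range.mpr (by omega))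

theorem vs_succ (p : ℕ → V) (n : ℕ) : vs p (n + 1) = insert (p (n + 1)) (vs p n) := by
  unfold vs
  rw [Finset.range_add_one, Finset.image_insert]

theorem vs_zero (p : ℕ → V) : vs p 0 = {p 0} := by
  simp [vs]

theorem vs_mono (p : ℕ → V) {i j : ℕ} (h : i ≤ j) : vs p i ⊆ vs p j :=
  Finset.image_subset_image (Finset.range_subset_range.mpr (by omega))

theorem vs_congr {p q : ℕ → V} {n : ℕ} (h : ∀ i ≤ n, p i = q i) : vs p n = vs q n := by
  unfold vs
  apply Finset.image_congr
  intro i hi
  have : i < n + 1 := by simpa using hi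
  exact h i (by omega)

theorem rk_vs_le {p : ℕ → V} {n : ℕ} (hp : Wk R.G p n) : R.rk (vs p n) ≤ R.m + n := by
  induction n with
  | zero => rw [vs_zero]; exact R.vert _
  | succ n ih =>
    rw [vs_succ]
    have h1 := ih fun i hi => hp i (by omega)
    have h2 := R.edge (vs p n) (p n) (p (n + 1)) (mem_vs le_rfl) (hp n (by omega))
    omega

theorem rk_vs_le' {p : ℕ → V} {n i : ℕ} (hp : Wk R.G p n) (hi : i ≤ n) :
    R.rk (vs p n) ≤ R.rk (vs p i) + (n - i) := by
  induction n with
  | zero => obtain rfl : i = 0 := by omega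
            simp
  | succ n ih =>
    rcases Nat.lt_or_ge i (n + 1) with h | h
    · have h1 := ih (fun i hi => hp i (by omega)) (by omega)
      rw [vs_succ]
      have h2 := R.edge (vs p n) (p n) (p (n + 1)) (mem_vs le_rfl) (hp n (by omega))
      omega
    · obtain rfl : i = n + 1 := by omega
      simp

theorem gen_le {p : ℕ → V} {n i : ℕ} (hp : Gen R p n) (hi : i ≤ n) : Gen R p i := by
  refine ⟨fun j hj => hp.1 j (by omega), ?_⟩
  have h1 := rk_vs_le' R hp.1 hi
  have h2 : R.rk (vs p i) ≤ R.m + i := rk_vs_le R fun j hj => hp.1 j (by omega)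
  have h3 := hp.2
  omega

/-- in a generic path of length at most `k` all vertices are in the closure of the ends -/
theorem gen_cl {k : ℕ} (hA : ∀ j, 2 ≤ j → j ≤ k → ¬ AA R j) {p : ℕ → V} {n : ℕ}
    (hp : Gen R p n) (hn : n ≤ k) : ∀ i ≤ n, Cl R.rk {p 0, p n} (p i) := by
  induction n with
  | zero =>
    intro i hi
    obtain rfl : i = 0 := by omega
    exact cl_mem R (by simp)
  | succ n ih =>
    intro i hi
    rcases Nat.lt_or_ge i (n + 1) with h | h
    · have h0 : Cl R.rk {p 0, p (n + 1)} (p n) := by
        rcases Nat.eq_zero_or_pos n with h0 | h0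
        · subst h0; exact cl_mem R (by simp)
        · by_contra hc
          exact hA (n + 1) (by omega) hn ⟨p, hp, by simpa using hc⟩
      have h1 := ih (gen_le R hp (by omega)) (by omega) i (by omega)
      refine cl_trans R ?_ h1
      intro v hv
      rw [Finset.mem_insert, Finset.mem_singleton] at hv
      rcases hv with rfl | rfl
      · exact cl_mem R (by simp)
      · exact h0
    · obtain rfl : i = n + 1 := by omega
      exact cl_mem R (by simp)

theorem gen_rk {k : ℕ} (hA : ∀ j, 2 ≤ j → j ≤ k → ¬ AA R j) {p : ℕ → V} {n : ℕ}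
    (hp : Gen R p n) (hn : n ≤ k) : R.rk {p 0, p n} = R.m + n := by
  have h1 : R.rk (vs p n) ≤ R.rk {p 0, p n} := by
    apply rk_le_of_cl R
    intro v hv
    obtain ⟨i, hi, rfl⟩ := Finset.mem_image.mp hv
    exact gen_cl R hA hp hn i (by have := Finset.mem_range.mp hi; omega)
  have h2 : R.rk {p 0, p n} ≤ R.rk (vs p n) := by
    apply R.mono
    intro v hv
    rw [Finset.mem_insert, Finset.mem_singleton] at hv
    rcases hv with rfl | rfl
    · exact mem_vs (by omega)
    · exact mem_vs le_rfl
  have h3 := hp.2
  omega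

/-- the interior of the reversed sequence -/
theorem rk_Icc_le {p : ℕ → V} {n i j : ℕ} (hp : Wk R.G p n) (hij : i ≤ j) (hj : j ≤ n) :
    R.rk ((Finset.Icc i n).image p) ≤ R.rk ((Finset.Icc j n).image p) + (j - i) := by
  induction j with
  | zero => obtain rfl : i = 0 := by omega
            simp
  | succ j ih =>
    rcases Nat.lt_or_ge i (j + 1) with h | h
    · have h1 := ih (by omega) (by omega)
      have h2 : (Finset.Icc j n).image p ⊆ insert (p j) ((Finset.Icc (j + 1) n).image p) := by
        intro v hv
        obtain ⟨t, ht, rfl⟩ := Finset.mem_image.mp hv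
        rw [Finset.mem_Icc] at ht
        rcases Nat.lt_or_ge j t with h3 | h3
        · exact Finset.mem_insert_of_mem (Finset.mem_image_of_mem _ (Finset.mem_Icc.mpr ⟨h3, ht.2⟩))
        · obtain rfl : t = j := by omega
          exact Finset.mem_insert_self _ _
      have h4 := R.mono _ _ h2
      have h5 := R.edge ((Finset.Icc (j + 1) n).image p) (p (j + 1)) (p j)
        (Finset.mem_image_of_mem _ (Finset.mem_Icc.mpr ⟨le_rfl, hj⟩)) (hp j (by omega)).symm
      omega
    · obtain rfl : i = j + 1 := by omega
      simp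

end basics

section up

variable {V : Type} [DecidableEq V] (R : RG V)

theorem up_congr {p q : ℕ → V} {n : ℕ} (h : ∀ i ≤ n, p i = q i) (hp : UP R p n) : UP R q n := by
  obtain ⟨h1, h2, h3, h4⟩ := hp
  refine ⟨?_, ?_, ?_, ?_⟩
  · intro i hi
    rw [← h i (by omega), ← h (i + 1) (by omega)]
    exact h1 i hi
  · intro i hi j hj hij
    have hi' : i ≤ n := hi
    have hj' : j ≤ n := hj
    rw [← h i hi', ← h j hj'] at hij
    exact h2 hi hj hij
  · rw [← vs_congr (p := p) (q := q) fun i hi => h i (by omega)]
    exact h3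
  · rw [← h 0 (by omega), ← h n le_rfl, ← h (n - 1) (by omega)]
    exact h4

/-- the rank of the ends of a path of which the first part is generic -/
theorem up_gen {p : ℕ → V} {n : ℕ} (hp : UP R p n) : Gen R p (n - 1) :=
  ⟨fun i hi => hp.1 i (by omega), hp.2.2.1⟩

/-- the pair of `U`-paths -/
structure DP (n : ℕ) (a b : ℕ → V) : Prop where
  ua : UP R a n
  ub : UP R b n
  e0 : b 0 = a 0
  en : b n = a n
  ne : ¬ Cl R.rk (vs a n) (b 1)

variable {k n : ℕ}

theorem dp_not (l1 : LU1) (hU : UMin R k n) {a b : ℕ → V} (h : DP R n a b) :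
    ∀ i, 0 < i → i < n → ¬ Cl R.rk (vs a n) (b i) := by
  intro i hi hin hc
  have b1 := (l1 V R k n hU b h.ub).1
  have b2 := (l1 V R k n hU b h.ub).2.1
  have hsub : ({b 0, b n} : Finset V) ⊆ vs a n := by
    intro v hv
    rw [Finset.mem_insert, Finset.mem_singleton] at hv
    rcases hv with rfl | rfl
    · rw [h.e0]; exact mem_vs (by omega)
    · rw [h.en]; exact mem_vs le_rfl
  refine b1 i hi hin (modI R hsub (a := b 0) (y := b 1) (by simp) (h.ub.1 0 (by omega)) h.ne ?_ hc)
  refine cl_mono R ?_ (b2 i hi hin.le)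
  intro v hv
  simp only [Finset.mem_insert, Finset.mem_singleton] at hv ⊢
  tauto

theorem dp_exists (l2 : LU2) (hU : UMin R k n) {a : ℕ → V} (ha : UP R a n) : ∃ b, DP R n a b := by
  obtain ⟨y, hy1, hy2⟩ := R.ext (vs a n) (a 0) (mem_vs (by omega))
  have hy3 : ¬ Cl R.rk (vs a n) y := by
    unfold Cl; omega
  obtain ⟨b, h1, h2, h3, h4, -⟩ := l2 V R k n hU a ha y hy1 (fun hc => hy3 (cl_mono R (by
    intro v hv
    rw [Finset.mem_insert, Finset.mem_singleton] at hv
    rcases hv with rfl | rfl
    · exact mem_vs (by omega)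
    · exact mem_vs le_rfl) hc))
  exact ⟨b, ha, h1, h2, h3, by rw [h4]; exact hy3⟩

/-- `a (n - 1)` and `a n` are not in the closure of the rest and of `b 1` -/
theorem dp_a (l1 : LU1) (hU : UMin R k n) {a b : ℕ → V} (h : DP R n a b) :
    ∀ i, n ≤ i + 1 → i ≤ n → ¬ Cl R.rk (insert (b 1) (vs a (n - 2))) (a i) := by
  intro i hi hin hc
  have h3 := hU.three_le
  have hS : Cl R.rk (vs a (n - 2)) (a i) := by
    refine modI R (vs_mono a (show n - 2 ≤ n by omega)) (a := a 0) (y := b 1) (mem_vs (by omega)) ?_
      h.ne hc (cl_mem R (mem_vs hin))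
    rw [← h.e0]; exact h.ub.1 0 (by omega)
  rcases Nat.lt_or_ge i n with h' | h'
  · obtain rfl : i = n - 1 := by omega
    have g1 := up_gen R h.ua
    have g2 := gen_le R g1 (show n - 2 ≤ n - 1 by omega)
    have e1 : vs a (n - 1) = insert (a (n - 1)) (vs a (n - 2)) := by
      have := vs_succ a (n - 2)
      rwa [show n - 2 + 1 = n - 1 by omega] at this
    have e2 := g1.2
    have e3 := g2.2
    unfold Cl at hS
    rw [← e1] at hS
    omega
  · obtain rfl : i = n := by omega
    exact (l1 V R k i hU a h.ua).2.2.1 hS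

/-- the path around the far end -/
theorem dp_tail (l1 : LU1) (hU : UMin R k n) {a b : ℕ → V} (h : DP R n a b) (s : ℕ) (hs : 1 ≤ s)
    (hsn : s ≤ n) (hcl : Cl R.rk (insert (b 1) (vs a (n - 2))) (b s)) :
    UP R (fun t => if t + s ≤ n then b (t + s) else a (2 * n - s - t)) (n - s + 2) := by
  have h3 := hU.three_le
  have hm := hU.m_eq
  obtain ⟨a1, a2, a3, a4, a5, a6, a7⟩ := l1 V R k n hU a h.ua
  obtain ⟨b1, b2, b3, b4, b5, b6, b7⟩ := l1 V R k n hU b h.ub
  have hnot := dp_not R l1 hU h
  have e1 : ∀ t, t ≤ n - s → (if t + s ≤ n then b (t + s) else a (2 * n - s - t)) = b (t + s) := by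
    intro t ht; rw [if_pos (by omega)]
  have e2 : (if (n - s + 1) + s ≤ n then b ((n - s + 1) + s) else a (2 * n - s - (n - s + 1))) =
      a (n - 1) := by
    rw [if_neg (by omega)]; congr 1; omega
  have e3 : (if (n - s + 2) + s ≤ n then b ((n - s + 2) + s) else a (2 * n - s - (n - s + 2))) =
      a (n - 2) := by
    rw [if_neg (by omega)]; congr 1; omega
  refine ⟨?_, ?_, ?_, ?_⟩
  · intro t ht
    show R.G.Adj (if t + s ≤ n then b (t + s) else a (2 * n - s - t))
      (if (t + 1) + s ≤ n then b ((t + 1) + s) else a (2 * n - s - (t + 1)))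
    rcases lt_trichotomy t (n - s) with h' | h' | h'
    · rw [e1 t (by omega), e1 (t + 1) (by omega)]
      have := h.ub.1 (t + s) (by omega)
      rwa [show t + s + 1 = t + 1 + s by omega] at this
    · subst h'
      rw [e1 _ le_rfl, e2, show n - s + s = n by omega, h.en]
      have := h.ua.1 (n - 1) (by omega)
      rw [show n - 1 + 1 = n by omega] at this
      exact this.symm
    · obtain rfl : t = n - s + 1 := by omega
      rw [e2]
      show R.G.Adj _ (if (n - s + 2) + s ≤ n then b ((n - s + 2) + s) else a (2 * n - s - (n - s + 2)))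
      rw [e3]
      have := h.ua.1 (n - 2) (by omega)
      rw [show n - 2 + 1 = n - 1 by omega] at this
      exact this.symm
  · -- injective
    have key : ∀ i j, i < j → j ≤ n - s + 2 →
        (if i + s ≤ n then b (i + s) else a (2 * n - s - i)) ≠
        (if j + s ≤ n then b (j + s) else a (2 * n - s - j)) := by
      intro i j hij hj heq
      rcases Nat.lt_or_ge (n - s) j with h' | h'
      · have hj' : (if j + s ≤ n then b (j + s) else a (2 * n - s - j)) = a (2 * n - s - j) := by
          rw [if_neg (by omega)]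
        rw [hj'] at heq
        rcases Nat.lt_or_ge (n - s) i with h'' | h''
        · rw [if_neg (by omega)] at heq
          have := h.ua.2.1 (show (2 * n - s - i) ∈ Set.Iic n by
            show (2 * n - s - i) ≤ n
            omega) (show (2 * n - s - j) ∈ Set.Iic n by
            show (2 * n - s - j) ≤ n
            omega) heq
          omega
        · rw [e1 i h''] at heq
          rcases Nat.lt_or_ge (i + s) n with h4 | h4
          · exact hnot (i + s) (by omega) h4 (by rw [heq]; exact cl_mem R (mem_vs (by omega)))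
          · have h5 : i + s = n := by omega
            rw [h5, h.en] at heq
            have := h.ua.2.1 (show n ∈ Set.Iic n from Set.mem_Iic.mpr le_rfl) (show (2 * n - s - j) ∈ Set.Iic n by
              show (2 * n - s - j) ≤ n
              omega) heq
            omega
      · rw [e1 i (by omega), e1 j h'] at heq
        have := h.ub.2.1 (show (i + s) ∈ Set.Iic n by
          show (i + s) ≤ n
          omega) (show (j + s) ∈ Set.Iic n by
          show (j + s) ≤ n
          omega) heq
        omega
    intro i hi j hj hij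
    have hi' : i ≤ n - s + 2 := hi
    have hj' : j ≤ n - s + 2 := hj
    rcases lt_trichotomy i j with h' | h' | h'
    · exact absurd hij (key i j h' hj')
    · exact h'
    · exact absurd hij.symm (key j i h' hi')
  · -- rank
    have e4 : vs (fun t => if t + s ≤ n then b (t + s) else a (2 * n - s - t)) (n - s) =
        (Finset.Icc s n).image b := by
      ext v
      simp only [vs, Finset.mem_image, Finset.mem_range, Finset.mem_Icc]
      constructor
      · rintro ⟨t, ht, rfl⟩
        exact ⟨t + s, ⟨by omega, by omega⟩, (e1 t (by omega)).symm⟩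
      · rintro ⟨t, ht, rfl⟩
        refine ⟨t - s, by omega, ?_⟩
        rw [e1 (t - s) (by omega)]
        congr 1
        omega
    have e5 : R.rk ((Finset.Icc s n).image b) = R.m + (n - s) := by
      have hle : R.rk ((Finset.Icc s n).image b) ≤ R.m + (n - s) := by
        have := rk_vs_le R (p := fun t => b (t + s)) (n := n - s) (by
          intro t ht
          show R.G.Adj (b (t + s)) (b (t + 1 + s))
          have := h.ub.1 (t + s) (by omega)
          rwa [show t + s + 1 = t + 1 + s by omega] at this)
        have e6 : vs (fun t => b (t + s)) (n - s) = (Finset.Icc s n).image b := by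
          rw [← e4]
          exact vs_congr fun t ht => (e1 t ht).symm
        rwa [e6] at this
      have hge := rk_Icc_le R h.ub.1 hs hsn
      omega
    have e7 : ¬ Cl R.rk ((Finset.Icc s n).image b) (a (n - 1)) := by
      intro hc
      have hc' : Cl R.rk (insert (b 1) {a 0, a n}) (a (n - 1)) := by
        refine cl_trans R ?_ hc
        intro v hv
        obtain ⟨t, ht, rfl⟩ := Finset.mem_image.mp hv
        rw [Finset.mem_Icc] at ht
        refine cl_mono R ?_ (b2 t (by omega) ht.2)
        rw [h.en]
        intro v hv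
        simp only [Finset.mem_insert, Finset.mem_singleton] at hv ⊢
        tauto
      refine a1 (n - 1) (by omega) (by omega) (modI R ?_ (a := a 0) (y := b 1) (by simp) ?_
        h.ne hc' (cl_mem R (mem_vs (by omega))))
      · intro v hv
        rw [Finset.mem_insert, Finset.mem_singleton] at hv
        rcases hv with rfl | rfl
        · exact mem_vs (by omega)
        · exact mem_vs le_rfl
      · rw [← h.e0]; exact h.ub.1 0 (by omega)
    have e8 : vs (fun t => if t + s ≤ n then b (t + s) else a (2 * n - s - t)) (n - s + 2 - 1) =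
        insert (a (n - 1)) ((Finset.Icc s n).image b) := by
      rw [← e4, show n - s + 2 - 1 = n - s + 1 by omega, vs_succ, e2]
    rw [e8]
    have h8 := R.edge ((Finset.Icc s n).image b) (a n) (a (n - 1)) (by
      rw [← h.en]
      exact Finset.mem_image_of_mem _ (Finset.mem_Icc.mpr ⟨hsn, le_rfl⟩)) (by
      have := h.ua.1 (n - 1) (by omega)
      rw [show n - 1 + 1 = n by omega] at this
      exact this.symm)
    have h9 : ¬ R.rk (insert (a (n - 1)) ((Finset.Icc s n).image b)) ≤
        R.rk ((Finset.Icc s n).image b) := fun hc => e7 ((cl_iff R).mpr hc)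
    omega
  · intro hc
    simp only at hc
    rw [show n - s + 2 - 1 = n - s + 1 by omega, e2, e3, e1 0 (by omega), Nat.zero_add] at hc
    refine dp_a R l1 hU h (n - 1) (by omega) (by omega) (cl_trans R ?_ hc)
    intro v hv
    rw [Finset.mem_insert, Finset.mem_singleton] at hv
    rcases hv with rfl | rfl
    · exact hcl
    · exact cl_mem R (Finset.mem_insert_of_mem (mem_vs le_rfl))

/-- the long cycle or a coincidence -/
theorem dp_key (l1 : LU1) (l2 : LU2) (l3 : LU3) (l4 : LTwo) (hU : UMin R k n) (hk : k = n + 1)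
    (hc : ¬ HasCyc R.G (2 * k)) {a b : ℕ → V} (h : DP R n a b) :
    Cl R.rk (insert (b 1) (vs a (n - 2))) (b 2) := by
  have h3 := hU.three_le
  have hm := hU.m_eq
  obtain ⟨a1, a2, a3, a4, a5, a6, a7⟩ := l1 V R k n hU a h.ua
  obtain ⟨b1, b2, b3, b4, b5, b6, b7⟩ := l1 V R k n hU b h.ub
  have hnot := dp_not R l1 hU h
  set S := vs a (n - 2) with hS
  set F := vs a n ∪ vs b n with hF
  have hSF : S ⊆ F := (vs_mono a (show n - 2 ≤ n by omega)).trans Finset.subset_union_left
  obtain ⟨c, hc1, hc2, hc3⟩ := l3 V R k n hU a h.ua F (n - 2) (by omega) hSF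
  obtain ⟨c1, c2, c3, c4, c5, c6, c7⟩ := l1 V R k n hU c hc1
  have hSc : vs c (n - 2) = S := vs_congr hc2
  have hc0 : c 0 = a 0 := hc2 0 (by omega)
  have hcn2 : c (n - 2) = a (n - 2) := hc2 _ le_rfl
  have adjc : R.G.Adj (a (n - 2)) (c (n - 1)) := by
    have := hc1.1 (n - 2) (by omega)
    rwa [hcn2, show n - 2 + 1 = n - 1 by omega] at this
  have e1 : vs c (n - 1) = insert (c (n - 1)) S := by
    have := vs_succ c (n - 2)
    rwa [hSc, show n - 2 + 1 = n - 1 by omega] at this
  have hcn : Cl R.rk (insert (c (n - 1)) S) (c n) := by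
    have e2 := vs_succ c (n - 1)
    rw [show n - 1 + 1 = n by omega, e1] at e2
    have e3 := hc1.2.2.1
    rw [e1] at e3
    unfold Cl
    rw [← e2]
    omega
  have hnF : ¬ Cl R.rk F (c (n - 1)) := hc3 (n - 1) (by omega) (by omega)
  have memS : ∀ t ≤ n - 2, a t ∈ S := fun t ht => mem_vs ht
  have hbF : ∀ t ≤ n, b t ∈ F := fun t ht => Finset.mem_union_right _ (mem_vs ht)
  have haF : ∀ t ≤ n, a t ∈ F := fun t ht => Finset.mem_union_left _ (mem_vs ht)
  have hb1 : ¬ Cl R.rk (insert (c (n - 1)) S) (b 1) := by
    intro hcc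
    have := modI R hSF (memS (n - 2) le_rfl) adjc hnF hcc (cl_mem R (hbF 1 (by omega)))
    exact h.ne (cl_mono R (vs_mono a (show n - 2 ≤ n by omega)) this)
  have hb1' : ¬ Cl R.rk (insert (c n) (insert (c (n - 1)) S)) (b 1) := by
    intro hcc
    apply hb1
    refine cl_trans R ?_ hcc
    intro v hv
    rcases Finset.mem_insert.mp hv with rfl | hv
    · exact hcn
    · exact cl_mem R hv
  obtain ⟨d, hd1, hd2, hd3, hd4, hd5⟩ := l2 V R k n hU c hc1 (b 1) (by
    rw [hc0, ← h.e0]; exact h.ub.1 0 (by omega)) (by
    intro hcc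
    apply hb1'
    refine cl_mono R ?_ hcc
    intro v hv
    rw [Finset.mem_insert, Finset.mem_singleton] at hv
    rcases hv with rfl | rfl
    · rw [hc0]
      exact Finset.mem_insert_of_mem (Finset.mem_insert_of_mem (memS 0 (by omega)))
    · exact Finset.mem_insert_self _ _)
  obtain ⟨d1, d2, d3, d4, d5, d6, d7⟩ := l1 V R k n hU d hd1
  have hd6 : ∀ i, 0 < i → i < n → ¬ Cl R.rk (insert (c n) (insert (c (n - 1)) S)) (d i) :=
    hd5 _ (by
      rw [hc0]
      exact Finset.mem_insert_of_mem (Finset.mem_insert_of_mem (memS 0 (by omega))))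
      (Finset.mem_insert_self _ _) hb1'
  have key : ∃ i, 2 ≤ i ∧ i < n ∧ d i ∈ F := by
    by_contra hno
    push Not at hno
    apply hc
    have q1 : ∀ i, i ≤ n - 1 →
        (if i ≤ n - 1 then b (i + 1) else if i ≤ n + 1 then a (2 * n - 1 - i) else c (i - 3)) =
        b (i + 1) := by
      intro i hi; rw [if_pos hi]
    have q2 : ∀ i, n - 1 < i → i ≤ n + 1 →
        (if i ≤ n - 1 then b (i + 1) else if i ≤ n + 1 then a (2 * n - 1 - i) else c (i - 3)) =
        a (2 * n - 1 - i) := by
      intro i hi hi'; rw [if_neg (by omega), if_pos hi']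
    have q3 : ∀ i, n + 1 < i →
        (if i ≤ n - 1 then b (i + 1) else if i ≤ n + 1 then a (2 * n - 1 - i) else c (i - 3)) =
        c (i - 3) := by
      intro i hi; rw [if_neg (by omega), if_neg (by omega)]
    have qF : ∀ i, i ≤ n + 1 →
        (if i ≤ n - 1 then b (i + 1) else if i ≤ n + 1 then a (2 * n - 1 - i) else c (i - 3)) ∈
        F := by
      intro i hi
      rcases Nat.lt_or_ge (n - 1) i with h' | h'
      · rw [q2 i h' hi]; exact haF _ (by omega)
      · rw [q1 i h']; exact hbF _ (by omega)
    have qinj : ∀ i j, i < j → j ≤ n + 3 →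
        (if i ≤ n - 1 then b (i + 1) else if i ≤ n + 1 then a (2 * n - 1 - i) else c (i - 3)) ≠
        (if j ≤ n - 1 then b (j + 1) else if j ≤ n + 1 then a (2 * n - 1 - j) else c (j - 3)) := by
      intro i j hij hj heq
      rcases Nat.lt_or_ge (n + 1) j with h4 | h4
      · rcases Nat.lt_or_ge (n + 1) i with h5 | h5
        · rw [q3 i h5, q3 j h4] at heq
          have := hc1.2.1 (show (i - 3) ∈ Set.Iic n by
            show (i - 3) ≤ n
            omega) (show (j - 3) ∈ Set.Iic n by
            show (j - 3) ≤ n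
            omega) heq
          omega
        · rw [q3 j h4] at heq
          refine hc3 (j - 3) (by omega) (by omega) (cl_mem R ?_)
          rw [← heq]
          exact qF i h5
      · rcases Nat.lt_or_ge (n - 1) j with h5 | h5
        · rw [q2 j h5 h4] at heq
          rcases Nat.lt_or_ge (n - 1) i with h6 | h6
          · rw [q2 i h6 (by omega)] at heq
            have := h.ua.2.1 (show (2 * n - 1 - i) ∈ Set.Iic n by
              show (2 * n - 1 - i) ≤ n
              omega) (show (2 * n - 1 - j) ∈ Set.Iic n by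
              show (2 * n - 1 - j) ≤ n
              omega) heq
            omega
          · rw [q1 i h6] at heq
            rcases Nat.lt_or_ge (i + 1) n with h7 | h7
            · exact hnot (i + 1) (by omega) h7 (by rw [heq]; exact cl_mem R (mem_vs (by omega)))
            · have h8 : i + 1 = n := by omega
              rw [h8, h.en] at heq
              have := h.ua.2.1 (show n ∈ Set.Iic n from Set.mem_Iic.mpr le_rfl)
                (show (2 * n - 1 - j) ∈ Set.Iic n by
                show (2 * n - 1 - j) ≤ n
                omega) heq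
              omega
        · rw [q1 i (by omega), q1 j h5] at heq
          have := h.ub.2.1 (show (i + 1) ∈ Set.Iic n by
            show (i + 1) ≤ n
            omega) (show (j + 1) ∈ Set.Iic n by
            show (j + 1) ≤ n
            omega) heq
          omega
    have := l4 V R.G (n + 3) (n - 1)
      (fun i => if i ≤ n - 1 then b (i + 1) else if i ≤ n + 1 then a (2 * n - 1 - i) else c (i - 3))
      (fun i => d (i + 1)) (by omega) (by omega) (by omega) ?_ ?_ ?_ ?_ ?_ ?_ ?_
    · rwa [show n + 3 + (n - 1) = 2 * k by omega] at this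
    · intro i hi
      show R.G.Adj
        (if i ≤ n - 1 then b (i + 1) else if i ≤ n + 1 then a (2 * n - 1 - i) else c (i - 3))
        (if i + 1 ≤ n - 1 then b (i + 1 + 1) else if i + 1 ≤ n + 1 then a (2 * n - 1 - (i + 1))
          else c (i + 1 - 3))
      rcases Nat.lt_or_ge i (n - 1) with h4 | h4
      · rw [q1 i h4.le, q1 (i + 1) (by omega)]
        exact h.ub.1 (i + 1) (by omega)
      rcases Nat.lt_or_ge (n - 1) i with h5 | h5
      · rcases Nat.lt_or_ge i (n + 1) with h6 | h6
        · obtain rfl : i = n := by omega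
          rw [q2 i (by omega) (by omega), q2 (i + 1) (by omega) le_rfl]
          have := h.ua.1 (i - 2) (by omega)
          rw [show i - 2 + 1 = 2 * i - 1 - i by omega,
            show i - 2 = 2 * i - 1 - (i + 1) by omega] at this
          exact this.symm
        · rcases Nat.lt_or_ge (n + 1) i with h7 | h7
          · rw [q3 i h7, q3 (i + 1) (by omega)]
            have := hc1.1 (i - 3) (by omega)
            rwa [show i - 3 + 1 = i + 1 - 3 by omega] at this
          · obtain rfl : i = n + 1 := by omega
            rw [q2 (n + 1) (by omega) le_rfl, q3 (n + 1 + 1) (by omega),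
              show 2 * n - 1 - (n + 1) = n - 2 by omega, show n + 1 + 1 - 3 = n - 1 by omega]
            exact adjc
      · obtain rfl : i = n - 1 := by omega
        rw [q1 (n - 1) le_rfl, q2 (n - 1 + 1) (by omega) (by omega), show n - 1 + 1 = n by omega,
          h.en, show 2 * n - 1 - n = n - 1 by omega]
        have := h.ua.1 (n - 1) (by omega)
        rw [show n - 1 + 1 = n by omega] at this
        exact this.symm
    · intro i hi
      exact hd1.1 (i + 1) (by omega)
    · intro i hi j hj hij
      have hi' : i ≤ n + 3 := hi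
      have hj' : j ≤ n + 3 := hj
      rcases lt_trichotomy i j with h' | h' | h'
      · exact absurd hij (qinj i j h' hj')
      · exact h'
      · exact absurd hij.symm (qinj j i h' hi')
    · intro i hi j hj hij
      have hi' : i ≤ n - 1 := hi
      have hj' : j ≤ n - 1 := hj
      have := hd1.2.1 (show (i + 1) ∈ Set.Iic n by
        show (i + 1) ≤ n
        omega) (show (j + 1) ∈ Set.Iic n by
        show (j + 1) ≤ n
        omega) hij
      omega
    · show (if 0 ≤ n - 1 then b (0 + 1) else _) = d (0 + 1)
      rw [if_pos (by omega), Nat.zero_add, hd4]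
    · show (if n + 3 ≤ n - 1 then b (n + 3 + 1) else if n + 3 ≤ n + 1 then a (2 * n - 1 - (n + 3))
          else c (n + 3 - 3)) = d (n - 1 + 1)
      rw [q3 (n + 3) (by omega), show n + 3 - 3 = n by omega, show n - 1 + 1 = n by omega, hd3]
    · intro i j hj0 hj1 hi heq
      have heq' : (if i ≤ n - 1 then b (i + 1) else if i ≤ n + 1 then a (2 * n - 1 - i)
          else c (i - 3)) = d (j + 1) := heq
      rcases Nat.lt_or_ge (n + 1) i with h4 | h4
      · rw [q3 i h4] at heq'
        refine hd6 (j + 1) (by omega) (by omega) ?_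
        rw [← heq']
        apply cl_mem
        rcases Nat.lt_or_ge (n + 2) i with h5 | h5
        · rw [show i - 3 = n by omega]
          exact Finset.mem_insert_self _ _
        · rw [show i - 3 = n - 1 by omega]
          exact Finset.mem_insert_of_mem (Finset.mem_insert_self _ _)
      · have := qF i h4
        rw [heq'] at this
        exact hno (j + 1) (by omega) (by omega) this
  obtain ⟨i, hi2, hin, hiF⟩ := key
  have hS'F : insert (b 1) S ⊆ F := Finset.insert_subset (hbF 1 (by omega)) hSF
  have hd7 : Cl R.rk (insert (b 1) S) (d i) := by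
    refine modI R hS'F (Finset.mem_insert_of_mem (memS (n - 2) le_rfl)) adjc hnF ?_ (cl_mem R hiF)
    refine cl_trans R ?_ (d2 i (by omega) hin.le)
    intro v hv
    rw [Finset.mem_insert, Finset.mem_singleton] at hv
    rcases hv with rfl | rfl
    · rw [hd4]
      exact cl_mem R (Finset.mem_insert_of_mem (Finset.mem_insert_self _ _))
    · rw [hd3]
      exact cl_mono R (Finset.insert_subset_insert _ (Finset.subset_insert _ _)) hcn
  have hdS : ∀ v ∈ S, d i ≠ v := by
    intro v hv heq
    exact hd6 i (by omega) hin (cl_mem R (Finset.mem_insert_of_mem (Finset.mem_insert_of_mem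
      (by rw [heq]; exact hv))))
  have hna := dp_a R l1 hU h
  have hda : ∀ t ≤ n, d i ≠ a t := by
    intro t ht heq
    rcases Nat.lt_or_ge (n - 2) t with h4 | h4
    · exact hna t (by omega) ht (by rw [← heq]; exact hd7)
    · exact hdS _ (memS t h4) heq
  have hi : d i = b i := by
    rcases Finset.mem_union.mp hiF with h4 | h4
    · obtain ⟨t, ht, h5⟩ := Finset.mem_image.mp h4
      exact absurd h5.symm (hda t (by have := Finset.mem_range.mp ht; omega))
    · obtain ⟨t, ht, h5⟩ := Finset.mem_image.mp h4
      have ht' : t ≤ n := by have := Finset.mem_range.mp ht; omega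
      rcases Nat.lt_or_ge t n with h6 | h6
      · have g1 := gen_rk R hU.nonA (gen_le R (up_gen R h.ub) (show t ≤ n - 1 by omega)) (by omega)
        have g2 := gen_rk R hU.nonA (gen_le R (up_gen R hd1) (show i ≤ n - 1 by omega)) (by omega)
        rw [hd2, hc0, ← h.e0, ← h5, g1] at g2
        rw [← h5]
        congr 1
        omega
      · obtain rfl : t = n := by omega
        rw [h.en] at h5
        exact absurd h5.symm (hda t le_rfl)
  have hbi : Cl R.rk (insert (b 1) S) (b i) := by rw [← hi]; exact hd7
  have hq := dp_tail R l1 hU h i (by omega) hin.le hbi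
  have hi3 : i = 2 := by
    by_contra hne
    exact hU.nonU (n - i + 2) (by omega) (by omega) _ hq
  subst hi3
  exact hbi

/-- the shift -/
theorem dp_shift (l1 : LU1) (l2 : LU2) (l3 : LU3) (l4 : LTwo) (hU : UMin R k n) (hk : k = n + 1)
    (hc : ¬ HasCyc R.G (2 * k)) {a b : ℕ → V} (h : DP R n a b) :
    DP R n (fun t => if t = 0 then b 2 else if t = 1 then b 1 else a (t - 2))
      (fun t => if t + 2 ≤ n then b (t + 2) else a (2 * n - 2 - t)) := by
  have h3 := hU.three_le
  have hm := hU.m_eq
  have hb2 := dp_key R l1 l2 l3 l4 hU hk hc h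
  have hnot := dp_not R l1 hU h
  have ub' := dp_tail R l1 hU h 2 (by omega) (by omega) hb2
  rw [show n - 2 + 2 = n by omega] at ub'
  obtain ⟨p1, p2, p3, p4, p5, p6, p7⟩ := l1 V R k n hU _ ub'
  have hga : Gen R a (n - 2) := gen_le R (up_gen R h.ua) (by omega)
  -- the reverse of the first path
  have f1 : ∀ t, t ≤ n - 2 → (if t ≤ n - 2 then a (n - 2 - t) else b (t + 2 - n)) =
      a (n - 2 - t) := by
    intro t ht; rw [if_pos ht]
  have f2 : (if (n - 1) ≤ n - 2 then a (n - 2 - (n - 1)) else b ((n - 1) + 2 - n)) = b 1 := by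
    rw [if_neg (by omega)]; congr 1; omega
  have f3 : (if n ≤ n - 2 then a (n - 2 - n) else b (n + 2 - n)) = b 2 := by
    rw [if_neg (by omega)]; congr 1; omega
  have wr : Wk R.G (fun t => if t ≤ n - 2 then a (n - 2 - t) else b (t + 2 - n)) n := by
    intro t ht
    show R.G.Adj (if t ≤ n - 2 then a (n - 2 - t) else b (t + 2 - n))
      (if t + 1 ≤ n - 2 then a (n - 2 - (t + 1)) else b (t + 1 + 2 - n))
    rcases lt_trichotomy t (n - 2) with h' | h' | h'
    · rw [f1 t h'.le, f1 (t + 1) (by omega)]
      have := h.ua.1 (n - 2 - (t + 1)) (by omega)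
      rw [show n - 2 - (t + 1) + 1 = n - 2 - t by omega] at this
      exact this.symm
    · subst h'
      rw [f1 _ le_rfl, if_neg (by omega), Nat.sub_self, show n - 2 + 1 + 2 - n = 1 by omega,
        ← h.e0]
      exact h.ub.1 0 (by omega)
    · obtain rfl : t = n - 1 := by omega
      rw [f2, if_neg (by omega), show n - 1 + 1 + 2 - n = 2 by omega]
      exact h.ub.1 1 (by omega)
  have fv : vs (fun t => if t ≤ n - 2 then a (n - 2 - t) else b (t + 2 - n)) (n - 2) =
      vs a (n - 2) := by
    ext v
    simp only [vs, Finset.mem_image, Finset.mem_range]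
    constructor
    · rintro ⟨t, ht, rfl⟩
      exact ⟨n - 2 - t, by omega, (f1 t (by omega)).symm⟩
    · rintro ⟨t, ht, rfl⟩
      refine ⟨n - 2 - t, by omega, ?_⟩
      rw [f1 _ (by omega)]
      congr 1
      omega
  have fv1 : vs (fun t => if t ≤ n - 2 then a (n - 2 - t) else b (t + 2 - n)) (n - 1) =
      insert (b 1) (vs a (n - 2)) := by
    have := vs_succ (fun t => if t ≤ n - 2 then a (n - 2 - t) else b (t + 2 - n)) (n - 2)
    rw [show n - 2 + 1 = n - 1 by omega, fv, f2] at this
    exact this
  have hb1S : ¬ Cl R.rk (vs a (n - 2)) (b 1) := fun hcc =>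
    h.ne (cl_mono R (vs_mono a (show n - 2 ≤ n by omega)) hcc)
  have rk1 : R.rk (insert (b 1) (vs a (n - 2))) = R.m + (n - 1) := by
    have g1 := R.edge (vs a (n - 2)) (a 0) (b 1) (mem_vs (by omega)) (by
      rw [← h.e0]; exact h.ub.1 0 (by omega))
    have g2 : ¬ R.rk (insert (b 1) (vs a (n - 2))) ≤ R.rk (vs a (n - 2)) := fun hcc =>
      hb1S ((cl_iff R).mpr hcc)
    have g3 := hga.2
    omega
  have genr : Gen R (fun t => if t ≤ n - 2 then a (n - 2 - t) else b (t + 2 - n)) (n - 1) :=
    ⟨fun i hi => wr i (by omega), by rw [fv1]; exact rk1⟩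
  have rk2 := gen_rk R hU.nonA genr (by omega)
  rw [f1 0 (by omega), f2, Nat.sub_zero] at rk2
  have p5' : R.rk {b 2, a (n - 2)} = k + n - 2 := by
    have := p5
    rw [if_pos (show 0 + 2 ≤ n by omega), if_neg (show ¬ n + 2 ≤ n by omega), Nat.zero_add,
      show 2 * n - 2 - n = n - 2 by omega] at this
    exact this
  have uar : UP R (fun t => if t ≤ n - 2 then a (n - 2 - t) else b (t + 2 - n)) n := by
    refine ⟨wr, ?_, by rw [fv1]; exact rk1, ?_⟩
    · have key : ∀ i j, i < j → j ≤ n →
          (if i ≤ n - 2 then a (n - 2 - i) else b (i + 2 - n)) ≠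
          (if j ≤ n - 2 then a (n - 2 - j) else b (j + 2 - n)) := by
        intro i j hij hj heq
        rcases Nat.lt_or_ge (n - 2) j with h4 | h4
        · have hj' : (if j ≤ n - 2 then a (n - 2 - j) else b (j + 2 - n)) = b (j + 2 - n) := by
            rw [if_neg (by omega)]
          rw [hj'] at heq
          rcases Nat.lt_or_ge (n - 2) i with h5 | h5
          · rw [if_neg (by omega)] at heq
            have := h.ub.2.1 (show (i + 2 - n) ∈ Set.Iic n by
              show (i + 2 - n) ≤ n
              omega) (show (j + 2 - n) ∈ Set.Iic n by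
              show (j + 2 - n) ≤ n
              omega) heq
            omega
          · rw [f1 i h5] at heq
            exact hnot (j + 2 - n) (by omega) (by omega) (by
              rw [← heq]; exact cl_mem R (mem_vs (by omega)))
        · rw [f1 i (by omega), f1 j h4] at heq
          have := h.ua.2.1 (show (n - 2 - i) ∈ Set.Iic n by
            show (n - 2 - i) ≤ n
            omega) (show (n - 2 - j) ∈ Set.Iic n by
            show (n - 2 - j) ≤ n
            omega) heq
          omega
      intro i hi j hj hij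
      have hi' : i ≤ n := hi
      have hj' : j ≤ n := hj
      rcases lt_trichotomy i j with h' | h' | h'
      · exact absurd hij (key i j h' hj')
      · exact h'
      · exact absurd hij.symm (key j i h' hi')
    · intro hcc
      simp only at hcc
      rw [f1 0 (by omega), f2, f3, Nat.sub_zero] at hcc
      have g1 : R.rk {a (n - 2), b 1} ≤ R.rk (insert (b 1) {a (n - 2), b 2}) := by
        apply R.mono
        intro v hv
        simp only [Finset.mem_insert, Finset.mem_singleton] at hv ⊢
        tauto
      unfold Cl at hcc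
      rw [Finset.pair_comm] at p5'
      omega
  have ua' : UP R (fun t => if t = 0 then b 2 else if t = 1 then b 1 else a (t - 2)) n := by
    refine up_congr R ?_ (l1 V R k n hU _ uar).2.2.2.2.2.2
    intro t ht
    show (if n - t ≤ n - 2 then a (n - 2 - (n - t)) else b (n - t + 2 - n)) =
      (if t = 0 then b 2 else if t = 1 then b 1 else a (t - 2))
    rcases Nat.lt_or_ge t 2 with h' | h'
    · interval_cases t
      · rw [if_neg (by omega), if_pos rfl]; congr 1; omega
      · rw [if_neg (by omega), if_neg (by omega), if_pos rfl]; congr 1; omega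
    · rw [if_pos (by omega), if_neg (by omega), if_neg (by omega)]; congr 1; omega
  refine ⟨ua', ub', ?_, ?_, ?_⟩
  · show (if 0 + 2 ≤ n then b (0 + 2) else _) = (if 0 = 0 then b 2 else _)
    rw [if_pos (by omega), if_pos rfl]
  · show (if n + 2 ≤ n then b (n + 2) else a (2 * n - 2 - n)) =
      (if n = 0 then b 2 else if n = 1 then b 1 else a (n - 2))
    rw [if_neg (by omega), if_neg (by omega), if_neg (by omega)]; congr 1; omega
  · intro hcc
    have hcc' : Cl R.rk (vs (fun t => if t = 0 then b 2 else if t = 1 then b 1 else a (t - 2)) n)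
        (b 3) := by
      have := hcc
      rw [if_pos (show 1 + 2 ≤ n by omega)] at this
      exact this
    have hb3 : Cl R.rk (insert (b 1) (vs a (n - 2))) (b 3) := by
      refine cl_trans R ?_ hcc'
      intro v hv
      obtain ⟨t, ht, rfl⟩ := Finset.mem_image.mp hv
      have ht' := Finset.mem_range.mp ht
      show Cl R.rk _ (if t = 0 then b 2 else if t = 1 then b 1 else a (t - 2))
      rcases Nat.lt_or_ge t 2 with h' | h'
      · interval_cases t
        · rw [if_pos rfl]; exact hb2
        · rw [if_neg (by omega), if_pos rfl]; exact cl_mem R (Finset.mem_insert_self _ _)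
      · rw [if_neg (by omega), if_neg (by omega)]
        exact cl_mem R (Finset.mem_insert_of_mem (mem_vs (by omega)))
    exact hU.nonU (n - 3 + 2) (by omega) (by omega) _
      (dp_tail R l1 hU h 3 (by omega) (by omega) hb3)

/-- iteration of the shift -/
theorem dp_iter (l1 : LU1) (l2 : LU2) (l3 : LU3) (l4 : LTwo) (hU : UMin R k n) (hk : k = n + 1)
    (hc : ¬ HasCyc R.G (2 * k)) {a b : ℕ → V} (h : DP R n a b) (s : ℕ) (hs : 2 * s + 1 ≤ n) :
    ∃ a' b' : ℕ → V, DP R n a' b' ∧
      (∀ i ≤ n, a' i = if 2 * s ≤ i then a (i - 2 * s) else b (2 * s - i)) ∧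
      (∀ i ≤ n, b' i = if i + 2 * s ≤ n then b (i + 2 * s) else a (2 * n - 2 * s - i)) := by
  induction s with
  | zero =>
    refine ⟨a, b, h, ?_, ?_⟩
    · intro i hi
      rw [if_pos (by omega)]
      congr 1
    · intro i hi
      rw [if_pos (by omega)]
      congr 1
  | succ s ih =>
    obtain ⟨a', b', h', ha', hb'⟩ := ih (by omega)
    refine ⟨_, _, dp_shift R l1 l2 l3 l4 hU hk hc h', ?_, ?_⟩
    · intro i hi
      show (if i = 0 then b' 2 else if i = 1 then b' 1 else a' (i - 2)) = _
      rcases Nat.lt_or_ge i 2 with h4 | h4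
      · interval_cases i
        · rw [if_pos rfl, hb' 2 (by omega), if_pos (by omega), if_neg (by omega)]
          congr 1; omega
        · rw [if_neg (by omega), if_pos rfl, hb' 1 (by omega), if_pos (by omega),
            if_neg (by omega)]
          congr 1; omega
      · rw [if_neg (by omega), if_neg (by omega), ha' _ (by omega)]
        rcases Nat.lt_or_ge (i - 2) (2 * s) with h5 | h5
        · rw [if_neg (by omega), if_neg (by omega)]; congr 1; omega
        · rw [if_pos (by omega), if_pos (by omega)]; congr 1; omega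
    · intro i hi
      show (if i + 2 ≤ n then b' (i + 2) else a' (2 * n - 2 - i)) = _
      rcases Nat.lt_or_ge n (i + 2) with h4 | h4
      · rw [if_neg (by omega), ha' _ (by omega), if_pos (by omega), if_neg (by omega)]
        congr 1; omega
      · rw [if_pos h4, hb' _ h4]
        rcases Nat.lt_or_ge n (i + 2 + 2 * s) with h5 | h5
        · rw [if_neg (by omega), if_neg (by omega)]; congr 1; omega
        · rw [if_pos (by omega), if_pos (by omega)]; congr 1; omega

end up

end Pool.Agent.H97G.LB3w

namespace Pool.Agent.H97G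

open LB3w

/-- (CB3) -/
theorem lb3 (l1 : LU1) (l2 : LU2) (l3 : LU3) (l4 : LTwo) : LB3 := by
  intro V _ R k n hU hex hodd hk
  by_contra hc
  obtain ⟨a, ha⟩ := hex
  have h3 := hU.three_le
  have hm := hU.m_eq
  obtain ⟨b, h⟩ := dp_exists R l2 hU ha
  obtain ⟨s, hs⟩ := hodd
  obtain ⟨a', b', h', -, hb'⟩ := dp_iter R l1 l2 l3 l4 hU hk hc h s (by omega)
  obtain ⟨p1, p2, p3, p4, p5, p6, p7⟩ := l1 V R k n hU b' h'.ub
  have g0 : b' 0 = b (n - 1) := by
    rw [hb' 0 (by omega), if_pos (by omega)]; congr 1; omega
  have gt : ∀ t, 1 ≤ t → t ≤ n → b' t ∈ vs a n := by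
    intro t ht htn
    rw [hb' t htn]
    rcases Nat.lt_or_ge n (t + 2 * s) with h5 | h5
    · rw [if_neg (by omega)]; exact mem_vs (by omega)
    · rw [if_pos h5, show t + 2 * s = n by omega, h.en]; exact mem_vs le_rfl
  have h6 : Cl R.rk ((Finset.Icc 1 n).image b') (b' 0) := by
    rw [cl_iff, p6, ← p4]
    apply R.mono
    intro v hv
    rcases Finset.mem_insert.mp hv with rfl | hv
    · exact mem_vs (by omega)
    · obtain ⟨t, ht, rfl⟩ := Finset.mem_image.mp hv
      exact mem_vs (Finset.mem_Icc.mp ht).2
  refine dp_not R l1 hU h (n - 1) (by omega) (by omega) ?_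
  rw [← g0]
  refine cl_mono R ?_ h6
  intro v hv
  obtain ⟨t, ht, rfl⟩ := Finset.mem_image.mp hv
  exact gt t (Finset.mem_Icc.mp ht).1 (Finset.mem_Icc.mp ht).2

end Pool.Agent.H97G
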