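import Pool.Agent.H97G.LC2a

/-!
# Uniqueness of generic paths (piece LC2 of H97G, helper20)
-/

set_option autoImplicit false

namespace Pool.Agent.H97G.LC2P

open Pool.Agent.H97G

variable {V : Type} [DecidableEq V] (R : RG V)

/-- two different generic paths with the same ends -/
structure Pr (p q : ℕ → V) (j : ℕ) : Prop where
  gp : Gen R p j
  gq : Gen R q j
  e0 : p 0 = q 0
  e1 : p j = q j
  ne : ∃ i ≤ j, p i ≠ q i

variable {R}

theorem Pr.symm {p q : ℕ → V} {j : ℕ} (h : Pr R p q j) : Pr R q p j :=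
  ⟨h.gq, h.gp, h.e0.symm, h.e1.symm, by
    obtain ⟨i, hi, h1⟩ := h.ne
    exact ⟨i, hi, h1.symm⟩⟩

/-- minimality of `j` -/
def Mi (R : RG V) (j : ℕ) : Prop := ∀ i, 1 ≤ i → i < j → ∀ p q : ℕ → V, Gen R p i → Gen R q i →
  p 0 = q 0 → p i = q i → ∀ l ≤ i, p l = q l

variable {k j : ℕ}

/-- no common inner vertices -/
theorem Pr.inner (hA : ∀ j, 2 ≤ j → j ≤ k → ¬ AA R j) (hj : j ≤ k) (hm : Mi R j) {p q : ℕ → V}
    (h : Pr R p q j) {i i' : ℕ} (hi0 : 0 < i) (hi : i < j) (hi' : i' < j) : p i ≠ q i' := by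
  intro he
  have h1 := gen_lev R hA h.gp hj hi.le
  have h2 := gen_lev R hA h.gq hj hi'.le
  rw [h.e0, he, h2] at h1
  obtain rfl : i' = i := by omega
  obtain ⟨l, hl, hne⟩ := h.ne
  apply hne
  by_cases hli : l ≤ i'
  · exact hm i' hi0 hi p q (gen_prefix R h.gp hi.le) (gen_prefix R h.gq hi.le) h.e0 he l hli
  · have h3 := hm (j - i') (by omega) (by omega) (sh p i') (sh q i') (gen_sh R h.gp hi.le)
      (gen_sh R h.gq hi.le) he (by
        show p (i' + (j - i')) = q (i' + (j - i'))
        have : i' + (j - i') = j := by omega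
        rw [this]
        exact h.e1) (l - i') (by omega)
    have h4 : i' + (l - i') = l := by omega
    change p (i' + (l - i')) = q (i' + (l - i')) at h3
    rw [h4] at h3
    exact h3

/-! ### the sequence of pairs -/

/-- the state -/
structure St (R : RG V) (p q : ℕ → V) (j : ℕ) where
  P : ℕ → V
  Q : ℕ → V
  F : Finset V
  pr : Pr R P Q j
  z : P 0 = p 0
  sP : vs P j ⊆ F
  sQ : vs Q j ⊆ F

theorem step (hA : ∀ j, 2 ≤ j → j ≤ k → ¬ AA R j) (hj1 : 1 ≤ j) (hj : j ≤ k) {p q : ℕ → V}
    (h : Pr R p q j) (σ : St R p q j) : ∃ σ' : St R p q j, (∀ i < j, σ'.P i = σ.Q i) ∧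
      ¬ Cl R.rk σ.F (σ'.P j) ∧ σ.F ⊆ σ'.F ∧ R.G.Adj (σ.Q (j - 1)) (σ'.P j) := by
  obtain ⟨j, rfl⟩ : ∃ l, j = l + 1 := ⟨j - 1, by omega⟩
  rw [Nat.add_sub_cancel]
  obtain ⟨u, hu, hu1⟩ := R.ext σ.F (σ.Q j) (σ.sQ (vs_mem (by omega)))
  have huF : ¬ Cl R.rk σ.F u := by
    unfold Cl
    omega
  obtain ⟨P', hP'⟩ : ∃ P' : ℕ → V, P' = fun i => if i < j + 1 then σ.Q i else u := ⟨_, rfl⟩
  have hPl : ∀ i < j + 1, P' i = σ.Q i := fun i hi => by rw [hP']; exact if_pos hi
  have hPj : P' (j + 1) = u := by rw [hP']; exact if_neg (by omega)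
  have hvs : vs P' (j + 1) = insert u (vs σ.Q j) := by
    rw [vs_succ, hPj, vs_congr fun i hi => hPl i (by omega)]
  have gQ := gen_prefix R σ.pr.gq (Nat.le_succ j)
  have gP : Gen R P' (j + 1) := by
    refine ⟨fun i hi => ?_, ?_⟩
    · rw [hPl i hi]
      by_cases hij : i + 1 < j + 1
      · rw [hPl _ hij]
        exact σ.pr.gq.1 i hi
      · obtain rfl : i = j := by omega
        rw [hPj]
        exact hu
    · have h1 : ¬ Cl R.rk (vs σ.Q j) u := fun hc => huF
        (cl_mono R hc ((vs_mono σ.Q (Nat.le_succ j)).trans σ.sQ))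
      rw [hvs, not_cl_rk R h1 (vs_mem le_rfl) hu, gQ.2]
      rfl
  have z' : P' 0 = p 0 := by rw [hPl 0 (by omega), ← σ.pr.e0, σ.z]
  -- the isomorphism
  obtain ⟨T, hT⟩ : ∃ T, T = vs p (j + 1) ∪ vs q (j + 1) := ⟨_, rfl⟩
  have hTp : vs p (j + 1) ⊆ T := by rw [hT]; exact Finset.subset_union_left
  have hTq : vs q (j + 1) ⊆ T := by rw [hT]; exact Finset.subset_union_right
  have hTr : R.rk T = R.m + (j + 1) := by
    rw [hT, cl_rk R, h.gp.2]
    intro t ht
    obtain ⟨i, hi, rfl⟩ := mem_vs.1 ht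
    refine cl_mono R (gen_cl R hA h.gq hj i hi) ?_
    intro v hv
    rcases Finset.mem_insert.1 hv with rfl | hv
    · rw [← h.e0]
      exact vs_mem (by omega)
    · rw [Finset.mem_singleton.1 hv, ← h.e1]
      exact vs_mem le_rfl
  obtain ⟨e, he, hinj, hadj, hrk⟩ := R.homp (j + 1) p P' T h.gp.1 gP.1 (by rw [z']) h.gp.2 gP.2
    hTp hTr
  have gQ' : Gen R (e ∘ q) (j + 1) := by
    refine ⟨fun i hi => ?_, ?_⟩
    · exact hadj _ (hTq (vs_mem hi.le)) _ (hTq (vs_mem hi)) (h.gq.1 i hi)
    · have h1 : vs (e ∘ q) (j + 1) = (vs q (j + 1)).image e := by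
        unfold vs
        rw [Finset.image_image]
      rw [h1, hrk _ hTq, h.gq.2]
  have pr' : Pr R P' (e ∘ q) (j + 1) := by
    refine ⟨gP, gQ', ?_, ?_, ?_⟩
    · show P' 0 = e (q 0)
      rw [← h.e0, he 0 (by omega)]
    · show P' (j + 1) = e (q (j + 1))
      rw [← h.e1, he (j + 1) le_rfl]
    · obtain ⟨i, hi, hne⟩ := h.ne
      refine ⟨i, hi, fun heq => hne ?_⟩
      rw [← he i hi] at heq
      exact hinj (hTp (vs_mem hi)) (hTq (vs_mem hi)) heq
  refine ⟨⟨P', e ∘ q, σ.F ∪ vs P' (j + 1) ∪ vs (e ∘ q) (j + 1), pr', z', ?_, ?_⟩, hPl, ?_, ?_, ?_⟩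
  · exact Finset.subset_union_right.trans Finset.subset_union_left
  · exact Finset.subset_union_right
  · show ¬ Cl R.rk σ.F (P' (j + 1))
    rw [hPj]
    exact huF
  · show σ.F ⊆ σ.F ∪ vs P' (j + 1) ∪ vs (e ∘ q) (j + 1)
    exact Finset.subset_union_left.trans Finset.subset_union_left
  · show R.G.Adj (σ.Q j) (P' (j + 1))
    rw [hPj]
    exact hu

theorem exists_states (hA : ∀ j, 2 ≤ j → j ≤ k → ¬ AA R j) (hj1 : 1 ≤ j) (hj : j ≤ k)
    {p q : ℕ → V} (h : Pr R p q j) : ∃ s : ℕ → St R p q j, (s 0).P = p ∧ (s 0).Q = q ∧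
      ∀ t, (∀ i < j, (s (t + 1)).P i = (s t).Q i) ∧ ¬ Cl R.rk (s t).F ((s (t + 1)).P j) ∧
        (s t).F ⊆ (s (t + 1)).F ∧ R.G.Adj ((s t).Q (j - 1)) ((s (t + 1)).P j) := by
  choose f hf using step hA hj1 hj h
  obtain ⟨s₀, h0⟩ : ∃ s₀ : St R p q j, s₀.P = p ∧ s₀.Q = q :=
    ⟨⟨p, q, vs p j ∪ vs q j, h, rfl, Finset.subset_union_left, Finset.subset_union_right⟩, rfl, rfl⟩
  refine ⟨fun t => Nat.rec s₀ (fun _ σ => f σ) t, h0.1, h0.2, fun t => ?_⟩
  exact hf _

/-- **The first vertex is in the closure of the beginning and the last inner vertex of the other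
path.** -/
theorem end_closure (h2 : LTwo) (hA : ∀ j, 2 ≤ j → j ≤ k → ¬ AA R j)
    (hU : ∀ j, 2 ≤ j → j ≤ k → ∀ p, ¬ UP R p j) (hc : ¬ HasCyc R.G (2 * k)) (hj2 : 2 ≤ j)
    (hj : j < k) (hm : Mi R j) {p q : ℕ → V} (h : Pr R p q j) :
    Cl R.rk {q 0, q (j - 1)} (p 1) := by
  obtain ⟨s, hs0, hs0', hs⟩ := exists_states hA (by omega) hj.le h
  obtain ⟨x, hx⟩ : ∃ x : ℕ → V, ∀ t, x t = (s t).P (j - 1) := ⟨_, fun t => rfl⟩
  obtain ⟨u, hu⟩ : ∃ u : ℕ → V, ∀ t, u t = (s t).P j := ⟨_, fun t => rfl⟩
  have hx1 : ∀ t, x (t + 1) = (s t).Q (j - 1) := fun t => by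
    rw [hx, (hs t).1 (j - 1) (by omega)]
  have hu1 : ∀ t, u t = (s t).Q j := fun t => by rw [hu, (s t).pr.e1]
  have hz : ∀ t, (s t).P 0 = p 0 := fun t => (s t).z
  have hzq : ∀ t, (s t).Q 0 = p 0 := fun t => by rw [← (s t).pr.e0, (s t).z]
  have hF : ∀ a b, a ≤ b → (s a).F ⊆ (s b).F := by
    intro a b hab
    induction b, hab using Nat.le_induction with
    | base => exact subset_rfl
    | succ b _ ih => exact ih.trans (hs b).2.2.1
  have huF : ∀ t, ¬ Cl R.rk (s t).F (u (t + 1)) := fun t => by rw [hu]; exact (hs t).2.1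
  have memP : ∀ a i, i ≤ j → (s a).P i ∈ (s a).F := fun a i hi => (s a).sP (vs_mem hi)
  have memQ : ∀ a i, i ≤ j → (s a).Q i ∈ (s a).F := fun a i hi => (s a).sQ (vs_mem hi)
  have mu : ∀ a b, a ≤ b → u a ∈ (s b).F := fun a b hab => by
    rw [hu]
    exact hF a b hab (memP a j le_rfl)
  have mx : ∀ a b, a ≤ b + 1 → x a ∈ (s b).F := by
    intro a b hab
    rcases Nat.lt_or_ge b a with h1 | h1
    · obtain rfl : a = b + 1 := by omega
      rw [hx1]
      exact memQ b _ (by omega)
    · rw [hx]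
      exact hF a b h1 (memP a _ (by omega))
  -- the edges
  have exu : ∀ t, R.G.Adj (x t) (u t) := fun t => by
    rw [hx, hu]
    have h1 := (s t).pr.gp.1 (j - 1) (by omega)
    rwa [Nat.sub_add_cancel (by omega : 1 ≤ j)] at h1
  have eux : ∀ t, R.G.Adj (u t) (x (t + 1)) := fun t => by
    rw [hx1, hu1]
    have h1 := (s t).pr.gq.1 (j - 1) (by omega)
    rw [Nat.sub_add_cancel (by omega : 1 ≤ j)] at h1
    exact h1.symm
  -- the levels
  have lP : ∀ t i, i ≤ j → R.rk {p 0, (s t).P i} = R.m + i := fun t i hi => by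
    rw [← hz t]
    exact gen_lev R hA (s t).pr.gp hj.le hi
  have lQ : ∀ t i, i ≤ j → R.rk {p 0, (s t).Q i} = R.m + i := fun t i hi => by
    rw [← hzq t]
    exact gen_lev R hA (s t).pr.gq hj.le hi
  have lx : ∀ t, R.rk {p 0, x t} = R.m + (j - 1) := fun t => by
    rw [hx]
    exact lP t _ (by omega)
  have lu : ∀ t, R.rk {p 0, u t} = R.m + j := fun t => by
    rw [hu]
    exact lP t _ le_rfl
  have lp : ∀ i ≤ j, R.rk {p 0, p i} = R.m + i := fun i hi => gen_lev R hA h.gp hj.le hi
  -- distinct vertices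
  have du : ∀ a b, a < b → u a ≠ u b := by
    intro a b hab he
    obtain ⟨c, rfl⟩ : ∃ c, b = c + 1 := ⟨b - 1, by omega⟩
    exact huF c (by rw [← he]; exact cl_self R (mu a c (by omega)))
  have dx1 : ∀ a, x a ≠ x (a + 1) := by
    intro a
    rw [hx, hx1]
    exact (s a).pr.inner hA hj.le hm (by omega) (by omega) (by omega)
  have dx : ∀ a b, a < b → x a ≠ x b := by
    intro a b hab he
    rcases Nat.lt_or_ge (a + 1) b with h1 | h1
    · obtain ⟨c, rfl⟩ : ∃ c, b = c + 2 := ⟨b - 2, by omega⟩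
      apply hU 2 le_rfl (by omega) (fun i => if i = 0 then x (c + 1) else if i = 1 then u (c + 1)
        else x (c + 2))
      have hne1 : x (c + 1) ≠ u (c + 1) := (exu (c + 1)).ne
      have hne2 : u (c + 1) ≠ x (c + 2) := (eux (c + 1)).ne
      have hne3 : x (c + 1) ≠ x (c + 2) := dx1 (c + 1)
      refine ⟨fun i hi => ?_, fun i hi i' hi' hii => ?_, ?_, ?_⟩
      · have : i = 0 ∨ i = 1 := by omega
        rcases this with rfl | rfl
        · simpa using exu (c + 1)
        · simpa using eux (c + 1)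
      · have h3 : i = 0 ∨ i = 1 ∨ i = 2 := by
          have := Set.mem_Iic.1 hi
          omega
        have h4 : i' = 0 ∨ i' = 1 ∨ i' = 2 := by
          have := Set.mem_Iic.1 hi'
          omega
        rcases h3 with rfl | rfl | rfl <;> rcases h4 with rfl | rfl | rfl <;>
          first
          | rfl
          | (exfalso; simp only [if_true, if_false, one_ne_zero, OfNat.ofNat_ne_zero,
              OfNat.ofNat_ne_one] at hii;
             first
             | exact hne1 hii
             | exact hne1 hii.symm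
             | exact hne2 hii
             | exact hne2 hii.symm
             | exact hne3 hii
             | exact hne3 hii.symm)
      · have h3 : vs (fun i => if i = 0 then x (c + 1) else if i = 1 then u (c + 1)
            else x (c + 2)) (2 - 1) = insert (u (c + 1)) {x (c + 1)} := by
          rw [show 2 - 1 = 0 + 1 from rfl, vs_succ, vs_zero]
          simp
        rw [h3]
        have h4 := (gen_sh R (s (c + 1)).pr.gp (show j - 1 ≤ j by omega)).2
        have h5 : j - (j - 1) = 0 + 1 := by omega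
        rw [h5, vs_succ, vs_zero] at h4
        have h6 : sh (s (c + 1)).P (j - 1) (0 + 1) = u (c + 1) := by
          rw [hu]
          show (s (c + 1)).P (j - 1 + (0 + 1)) = _
          congr 1
          omega
        have h7 : sh (s (c + 1)).P (j - 1) 0 = x (c + 1) := by
          rw [hx]
          rfl
        rw [h6, h7] at h4
        exact h4
      · simp only [if_true, OfNat.ofNat_ne_zero, OfNat.ofNat_ne_one, if_false]
        intro hcl
        refine huF c (cl_mono R hcl ?_)
        intro v hv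
        rcases Finset.mem_insert.1 hv with rfl | hv
        · exact mx _ _ le_rfl
        · rw [Finset.mem_singleton.1 hv, ← he]
          exact mx _ _ (by omega)
    · obtain rfl : b = a + 1 := by omega
      exact dx1 a he
  -- the cycle
  obtain ⟨N, hN⟩ : ∃ N, N = k - j := ⟨_, rfl⟩
  have key : p 1 = (s N).Q 1 := by
    by_contra hne
    apply hc
    obtain ⟨A, hAd⟩ : ∃ A : ℕ → V, ∀ i, A i = if i < j then p i else
      if (i - j) % 2 = 0 then u ((i - j) / 2) else x ((i - j) / 2 + 1) := ⟨_, fun i => rfl⟩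
    have A1 : ∀ i < j, A i = p i := fun i hi => by rw [hAd, if_pos hi]
    have A2 : ∀ t, A (j + 2 * t) = u t := fun t => by
      rw [hAd, if_neg (by omega), if_pos (by omega)]
      congr 1
      omega
    have A3 : ∀ t, A (j + 2 * t + 1) = x (t + 1) := fun t => by
      rw [hAd, if_neg (by omega), if_neg (by omega)]
      congr 1
      omega
    have cases3 : ∀ i, i < j ∨ (∃ t, i = j + 2 * t) ∨ ∃ t, i = j + 2 * t + 1 := by
      intro i
      rcases Nat.lt_or_ge i j with h1 | h1
      · exact Or.inl h1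
      · rcases Nat.even_or_odd' (i - j) with ⟨t, ht | ht⟩
        · exact Or.inr (Or.inl ⟨t, by omega⟩)
        · exact Or.inr (Or.inr ⟨t, by omega⟩)
    have hp0 : (s 0).P = p := hs0
    have xj : x 0 = p (j - 1) := by rw [hx, hp0]
    have u0 : u 0 = p j := by rw [hu, hp0]
    have key2 : ∀ a b, a < b → A a ≠ A b := by
      intro a b hab he
      rcases cases3 a with ha | ⟨s', rfl⟩ | ⟨s', rfl⟩ <;> rcases cases3 b with hb | ⟨t, rfl⟩ | ⟨t, rfl⟩
      · rw [A1 a ha, A1 b hb] at he
        exact gen_ne R h.gp hab hb.le he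
      · rw [A1 a ha, A2] at he
        have h3 := lp a ha.le
        rw [he, lu] at h3
        omega
      · rw [A1 a ha, A3] at he
        have h3 := lp a ha.le
        rw [he, lx] at h3
        have : a = j - 1 := by omega
        rw [this, ← xj] at he
        exact dx 0 (t + 1) (by omega) he
      · omega
      · rw [A2, A2] at he
        exact du s' t (by omega) he
      · rw [A2, A3] at he
        have h3 := lu s'
        rw [he, lx] at h3
        omega
      · omega
      · rw [A2, A3] at he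
        have h3 := lu t
        rw [← he, lx] at h3
        omega
      · rw [A3, A3] at he
        exact dx (s' + 1) (t + 1) (by omega) he
    have h2k : j + 2 * N + j = 2 * k := by omega
    rw [← h2k]
    refine h2 V R.G (j + 2 * N) j A (s N).Q (by omega) (by omega) (by omega) ?_
      (s N).pr.gq.1 ?_ (gen_injOn R (s N).pr.gq) ?_ ?_ ?_
    · intro i hi
      rcases cases3 i with ha | ⟨t, rfl⟩ | ⟨t, rfl⟩
      · rcases Nat.lt_or_ge (i + 1) j with h3 | h3
        · rw [A1 i ha, A1 _ h3]
          exact h.gp.1 i ha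
        · obtain rfl : j = i + 1 := by omega
          have h4 := A2 0
          rw [Nat.mul_zero, Nat.add_zero] at h4
          rw [A1 i ha, h4, u0]
          exact h.gp.1 i ha
      · rw [A2, A3]
        exact eux t
      · have h3 : j + 2 * t + 1 + 1 = j + 2 * (t + 1) := by ring
        rw [h3, A2, A3]
        exact exu (t + 1)
    · intro a _ b _ he
      rcases lt_trichotomy a b with h3 | h3 | h3
      · exact absurd he (key2 a b h3)
      · exact h3
      · exact absurd he.symm (key2 b a h3)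
    · rw [A1 0 (by omega), hzq]
    · rw [A2, hu1]
    · intro a i hi0 hi ha he
      rcases cases3 a with ha' | ⟨t, rfl⟩ | ⟨t, rfl⟩
      · rw [A1 a ha'] at he
        have h3 := lp a ha'.le
        rw [he, lQ N i hi.le] at h3
        obtain rfl : i = a := by omega
        rcases Nat.lt_or_ge (i + 1) j with h4 | h4
        · have h5 := hm i hi0 hi p (s N).Q (gen_prefix R h.gp hi.le)
            (gen_prefix R (s N).pr.gq hi.le) (hzq N).symm he 1 hi0
          exact hne h5
        · obtain rfl : i = j - 1 := by omega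
          rw [← xj, ← hx1] at he
          exact dx 0 (N + 1) (by omega) he
      · rw [A2] at he
        have h3 := lu t
        rw [he, lQ N i hi.le] at h3
        omega
      · rw [A3] at he
        have h3 := lx (t + 1)
        rw [he, lQ N i hi.le] at h3
        obtain rfl : i = j - 1 := by omega
        rw [← hx1] at he
        exact dx (t + 1) (N + 1) (by omega) he
  -- going down
  have clQ : ∀ t i, i ≤ j → Cl R.rk {p 0, u t} ((s t).Q i) := fun t i hi => by
    rw [← hzq t, hu1]
    exact gen_cl R hA (s t).pr.gq hj.le i hi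
  have down : ∀ t, Cl R.rk {p 0, u (t + 1)} (p 1) → Cl R.rk {p 0, x (t + 1)} (p 1) := by
    intro t ht
    have hpF : p 1 ∈ (s t).F := by
      have h3 := memP 0 1 (by omega)
      rw [hs0] at h3
      exact hF 0 t (Nat.zero_le _) h3
    have h0F : p 0 ∈ (s t).F := by
      rw [← hz t]
      exact memP t 0 (Nat.zero_le _)
    refine cl_I R (F := (s t).F) (u := u (t + 1)) ?_ (huF t) ?_ ?_ (cl_self R hpF)
    · intro v hv
      rcases Finset.mem_insert.1 hv with rfl | hv
      · exact h0F
      · rw [Finset.mem_singleton.1 hv]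
        exact mx _ _ le_rfl
    · exact R.edge _ (x (t + 1)) _ (by simp) (exu (t + 1))
    · refine cl_mono R ht ?_
      intro v hv
      rcases Finset.mem_insert.1 hv with rfl | hv
      · simp
      · rw [Finset.mem_singleton.1 hv]
        simp
  have all : ∀ t, Cl R.rk {p 0, u (t + 1)} (p 1) → Cl R.rk {p 0, x 1} (p 1) := by
    intro t
    induction t with
    | zero => exact fun h3 => down 0 h3
    | succ t ih =>
      intro h3
      apply ih
      refine cl_trans R (fun v hv => ?_) (down (t + 1) h3)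
      rcases Finset.mem_insert.1 hv with rfl | hv
      · exact cl_self R (by simp)
      · rw [Finset.mem_singleton.1 hv, hx1]
        exact clQ (t + 1) _ (by omega)
  obtain ⟨N', hN'⟩ : ∃ N', N = N' + 1 := ⟨N - 1, by omega⟩
  have h3 : Cl R.rk {p 0, u (N' + 1)} (p 1) := by
    rw [key, ← hN']
    exact clQ N 1 (by omega)
  have h4 := all N' h3
  rw [hx1, hs0', h.e0] at h4
  exact h4

/-- the core: the smallest length is impossible -/
theorem core (h2 : LTwo) (hA : ∀ j, 2 ≤ j → j ≤ k → ¬ AA R j)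
    (hU : ∀ j, 2 ≤ j → j ≤ k → ∀ p, ¬ UP R p j) (hc : ¬ HasCyc R.G (2 * k)) (hj1 : 1 ≤ j)
    (hj : j ≤ k) (hm : Mi R j) {v w : ℕ → V} (h : Pr R v w j) : False := by
  -- the length is at least two
  have hj2 : 2 ≤ j := by
    by_contra hcon
    obtain rfl : j = 1 := by omega
    obtain ⟨i, hi, hne⟩ := h.ne
    have : i = 0 ∨ i = 1 := by omega
    rcases this with rfl | rfl
    · exact hne h.e0
    · exact hne h.e1
  -- the length is smaller than `k`
  have hjk : j < k := by
    by_contra hcon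
    obtain rfl : j = k := by omega
    apply hc
    rw [two_mul]
    refine h2 V R.G j j v w hj1 hj1 (by omega) h.gp.1 h.gq.1 (gen_injOn R h.gp)
      (gen_injOn R h.gq) h.e0 h.e1 ?_
    intro i i' hi0 hi' hi he
    rcases Nat.eq_zero_or_pos i with rfl | hi1
    · rw [h.e0] at he
      exact gen_ne R h.gq hi0 hi'.le he
    rcases Nat.lt_or_ge i j with h3 | h3
    · exact h.inner hA le_rfl hm hi1 h3 hi' he
    · obtain rfl : i = j := by omega
      rw [h.e1] at he
      exact gen_ne R h.gq hi' le_rfl he.symm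
  have ec : ∀ {p q : ℕ → V}, Pr R p q j → Cl R.rk {q 0, q (j - 1)} (p 1) := fun hp =>
    end_closure h2 hA hU hc hj2 hjk hm hp
  -- the other vertices are in the closure of `v 1` and `v j`
  have s1 : ∀ i, 1 ≤ i → i ≤ j → Cl R.rk {v 1, v j} (v i) := by
    intro i hi1 hi
    have h3 := gen_cl R hA (gen_sh R h.gp hj1) (by omega) (i - 1) (by omega)
    have e1 : sh v 1 0 = v 1 := rfl
    have e2 : sh v 1 (j - 1) = v j := by
      show v (1 + (j - 1)) = v j
      congr 1
      omega
    have e3 : sh v 1 (i - 1) = v i := by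
      show v (1 + (i - 1)) = v i
      congr 1
      omega
    rw [e1, e2, e3] at h3
    exact h3
  have r1 : R.rk (vs (sh v 1) (j - 1)) = R.m + (j - 1) := (gen_sh R h.gp hj1).2
  have sub1 : ({v 1, v j} : Finset V) ⊆ vs (sh v 1) (j - 1) := by
    intro x hx
    rcases Finset.mem_insert.1 hx with rfl | hx
    · exact mem_vs.2 ⟨0, Nat.zero_le _, rfl⟩
    · rw [Finset.mem_singleton.1 hx]
      refine mem_vs.2 ⟨j - 1, le_rfl, ?_⟩
      show v (1 + (j - 1)) = v j
      congr 1
      omega
  have cl1 : ∀ t ∈ vs (sh v 1) (j - 1), Cl R.rk {v 1, v j} t := by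
    intro t ht
    obtain ⟨i, hi, rfl⟩ := mem_vs.1 ht
    exact s1 (1 + i) (by omega) (by omega)
  -- `v 0` is not in the closure of the other vertices
  have n0 : ¬ Cl R.rk (vs (sh v 1) (j - 1)) (v 0) := by
    intro hcl
    have h3 : insert (v 0) (vs (sh v 1) (j - 1)) = vs v j := by
      ext x
      rw [Finset.mem_insert, mem_vs, mem_vs]
      constructor
      · rintro (rfl | ⟨i, hi, rfl⟩)
        · exact ⟨0, Nat.zero_le _, rfl⟩
        · exact ⟨1 + i, by omega, rfl⟩
      · rintro ⟨i, hi, rfl⟩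
        rcases Nat.eq_zero_or_pos i with rfl | hi0
        · exact Or.inl rfl
        · refine Or.inr ⟨i - 1, by omega, ?_⟩
          show v (1 + (i - 1)) = v i
          congr 1
          omega
    unfold Cl at hcl
    rw [h3, h.gp.2, r1] at hcl
    omega
  -- the rotated paths
  obtain ⟨a, ha⟩ : ∃ a : ℕ → V, ∀ i, a i = if i < j then v (i + 1) else w (j - 1) :=
    ⟨_, fun i => rfl⟩
  obtain ⟨b, hb⟩ : ∃ b : ℕ → V, ∀ i, b i = if i = 0 then v 1 else w (i - 1) := ⟨_, fun i => rfl⟩
  have a1 : ∀ i < j, a i = v (i + 1) := fun i hi => by rw [ha, if_pos hi]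
  have aj : a j = w (j - 1) := by rw [ha, if_neg (by omega)]
  have b0 : b 0 = v 1 := by rw [hb, if_pos rfl]
  have b1 : ∀ i, b (i + 1) = w i := fun i => by
    rw [hb, if_neg (by omega), Nat.add_sub_cancel]
  have bj : b j = w (j - 1) := by
    have := b1 (j - 1)
    rwa [Nat.sub_add_cancel hj1] at this
  have wkw : R.G.Adj (v j) (w (j - 1)) := by
    have h3 := h.gq.1 (j - 1) (by omega)
    rw [Nat.sub_add_cancel hj1, ← h.e1] at h3
    exact h3.symm
  have wka : Wk R.G a j := by
    intro i hi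
    rw [a1 i hi]
    rcases Nat.lt_or_ge (i + 1) j with h3 | h3
    · rw [a1 _ h3]
      exact h.gp.1 (i + 1) h3
    · obtain rfl : j = i + 1 := by omega
      rw [aj]
      exact wkw
  have wkb : Wk R.G b j := by
    intro i hi
    rcases Nat.eq_zero_or_pos i with rfl | hi0
    · rw [b0, b1, ← h.e0]
      exact (h.gp.1 0 (by omega)).symm
    · obtain ⟨l, rfl⟩ : ∃ l, i = l + 1 := ⟨i - 1, by omega⟩
      rw [b1, b1]
      exact h.gq.1 l (by omega)
  have vsa : vs a j = insert (w (j - 1)) (vs (sh v 1) (j - 1)) := by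
    obtain ⟨l, rfl⟩ : ∃ l, j = l + 1 := ⟨j - 1, by omega⟩
    rw [vs_succ, aj, Nat.add_sub_cancel]
    congr 1
    refine vs_congr fun i hi => ?_
    rw [a1 i (by omega)]
    show v (i + 1) = v (1 + i)
    rw [Nat.add_comm]
  by_cases hcl : Cl R.rk (vs (sh v 1) (j - 1)) (w (j - 1))
  · -- the second case
    have wne : ∀ i, 1 ≤ i → i ≤ j → v i ≠ w (j - 1) := by
      intro i hi1 hi he
      rcases Nat.lt_or_ge i j with h3 | h3
      · exact h.inner hA hj hm hi1 h3 (by omega) he
      · obtain rfl : i = j := by omega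
        rw [h.e1] at he
        exact gen_ne R h.gq (by omega : i - 1 < i) le_rfl he.symm
    have hvj : Cl R.rk {v 1, w (j - 1)} (v j) := by
      by_contra hcon
      apply hU j hj2 hj a
      refine ⟨wka, ?_, ?_, ?_⟩
      · intro i hi i' hi' he
        rw [Set.mem_Iic] at hi hi'
        rcases Nat.lt_or_ge i j with h3 | h3 <;> rcases Nat.lt_or_ge i' j with h4 | h4
        · rw [a1 i h3, a1 i' h4] at he
          have h5 := gen_injOn R h.gp (Set.mem_Iic.2 (by omega : i + 1 ≤ j))
            (Set.mem_Iic.2 (by omega : i' + 1 ≤ j)) he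
          omega
        · obtain rfl : i' = j := by omega
          rw [a1 i h3, aj] at he
          exact absurd he (wne (i + 1) (by omega) (by omega))
        · obtain rfl : i = j := by omega
          rw [a1 i' h4, aj] at he
          exact absurd he.symm (wne (i' + 1) (by omega) (by omega))
        · omega
      · have h3 : vs a (j - 1) = vs (sh v 1) (j - 1) := vs_congr fun i hi => by
          rw [a1 i (by omega)]
          show v (i + 1) = v (1 + i)
          rw [Nat.add_comm]
        rw [h3, r1]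
      · have h3 : a (j - 1) = v j := by
          rw [a1 (j - 1) (by omega), Nat.sub_add_cancel hj1]
        rw [a1 0 (by omega), aj, h3]
        exact hcon
    have hall : ∀ t ∈ insert (w (j - 1)) (vs (sh v 1) (j - 1)), Cl R.rk {v 1, w (j - 1)} t := by
      intro t ht
      rcases Finset.mem_insert.1 ht with rfl | ht
      · exact cl_self R (by simp)
      · refine cl_trans R (fun y hy => ?_) (cl1 t ht)
        rcases Finset.mem_insert.1 hy with rfl | hy
        · exact cl_self R (by simp)
        · rw [Finset.mem_singleton.1 hy]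
          exact hvj
    have r2 : R.rk {v 1, w (j - 1)} = R.m + (j - 1) := by
      have h3 := cl_rk R hall
      have h4 : {v 1, w (j - 1)} ∪ insert (w (j - 1)) (vs (sh v 1) (j - 1)) =
          insert (w (j - 1)) (vs (sh v 1) (j - 1)) := by
        apply Finset.union_eq_right.2
        intro x hx
        rcases Finset.mem_insert.1 hx with rfl | hx
        · exact Finset.mem_insert_of_mem (mem_vs.2 ⟨0, Nat.zero_le _, rfl⟩)
        · rw [Finset.mem_singleton.1 hx]
          exact Finset.mem_insert_self _ _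
      unfold Cl at hcl
      rw [h4, hcl, r1] at h3
      exact h3.symm
    have r3 : R.rk {v 0, w (j - 1)} = R.m + (j - 1) := by
      rw [h.e0]
      exact gen_lev R hA h.gq hj (by omega)
    have h5 := ec h
    rw [← h.e0] at h5
    have h6 : Cl R.rk {v 1, w (j - 1)} (v 0) := by
      unfold Cl at h5 ⊢
      have h7 : insert (v 0) {v 1, w (j - 1)} = insert (v 1) ({v 0, w (j - 1)} : Finset V) :=
        Finset.insert_comm _ _ _
      rw [h7, h5, r2, r3]
    refine n0 (cl_trans R (fun t ht => ?_) h6)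
    rcases Finset.mem_insert.1 ht with rfl | ht
    · exact cl_self R (mem_vs.2 ⟨0, Nat.zero_le _, rfl⟩)
    · rw [Finset.mem_singleton.1 ht]
      exact hcl
  · -- the first case: both rotated paths are generic
    have ga : Gen R a j := by
      refine ⟨wka, ?_⟩
      rw [vsa, not_cl_rk R hcl (mem_vs.2 ⟨j - 1, le_rfl, rfl⟩) (by
        have h3 : sh v 1 (j - 1) = v j := by
          show v (1 + (j - 1)) = v j
          congr 1
          omega
        rw [h3]
        exact wkw), r1]
      omega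
    have gb : Gen R b j := by
      refine ⟨wkb, le_antisymm (rk_walk_le R wkb) ?_⟩
      have h3 := gen_rk R hA ga hj
      rw [a1 0 (by omega), aj] at h3
      rw [← h3]
      apply R.mono
      intro x hx
      rcases Finset.mem_insert.1 hx with rfl | hx
      · exact mem_vs.2 ⟨0, Nat.zero_le _, b0⟩
      · rw [Finset.mem_singleton.1 hx]
        exact mem_vs.2 ⟨j, le_rfl, bj⟩
    have hba : Pr R b a j := by
      refine ⟨gb, ga, ?_, ?_, 1, by omega, ?_⟩
      · rw [b0, a1 0 (by omega)]
      · rw [bj, aj]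
      · rw [show (1 : ℕ) = 0 + 1 from rfl, b1, a1 (0 + 1) (by omega), ← h.e0]
        exact gen_ne R h.gp (by omega) (by omega)
    have h3 := ec hba
    rw [show (1 : ℕ) = 0 + 1 from rfl, b1, ← h.e0, a1 0 (by omega),
      a1 (j - (0 + 1)) (by omega)] at h3
    rw [show j - (0 + 1) + 1 = j by omega] at h3
    exact n0 (cl_mono R h3 sub1)

end Pool.Agent.H97G.LC2P

namespace Pool.Agent.H97G

open LC2P in
/-- **LC2.** -/
theorem lc2 (h2 : LTwo) : LC2 := by
  intro V _ R k hk hm hA hU hc p q n
  induction n using Nat.strong_induction_on generalizing p q with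
  | _ n ih =>
    intro hn1 hn hp hq h0 h1
    by_contra hcon
    push Not at hcon
    exact core h2 hA hU hc hn1 hn (fun i hi1 hi p' q' hp' hq' e0 e1 l hl =>
      ih i hi p' q' hi1 (by omega) hp' hq' e0 e1 l hl) ⟨hp, hq, h0, h1, hcon⟩

end Pool.Agent.H97G
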