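import Pool.Agent.H97G.Defs

/-!
# Uniqueness of generic paths, first part: ranks and generic paths (helper20)
-/

set_option autoImplicit false

namespace Pool.Agent.H97G.LC2P

open Pool.Agent.H97G

variable {V : Type} [DecidableEq V] (R : RG V)

theorem cl_self {S : Finset V} {v : V} (h : v ∈ S) : Cl R.rk S v := by
  unfold Cl
  rw [Finset.insert_eq_self.2 h]

theorem cl_mono {S T : Finset V} {v : V} (h : Cl R.rk S v) (hST : S ⊆ T) : Cl R.rk T v := by
  unfold Cl at *
  have h1 := R.submod (insert v S) T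
  have h2 : insert v T ⊆ insert v S ∪ T := by
    intro x hx
    rcases Finset.mem_insert.1 hx with rfl | hx
    · exact Finset.mem_union_left _ (Finset.mem_insert_self _ _)
    · exact Finset.mem_union_right _ hx
  have h3 : S ⊆ insert v S ∩ T := fun x hx =>
    Finset.mem_inter.2 ⟨Finset.mem_insert_of_mem hx, hST hx⟩
  have h4 := R.mono _ _ h2
  have h5 := R.mono _ _ h3
  have h6 := R.mono _ _ (Finset.subset_insert v T)
  omega

theorem cl_rk {S T : Finset V} (h : ∀ t ∈ T, Cl R.rk S t) : R.rk (S ∪ T) = R.rk S := by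
  induction T using Finset.induction_on with
  | empty => rw [Finset.union_empty]
  | insert a T _ ih =>
    have h1 := ih fun t ht => h t (Finset.mem_insert_of_mem ht)
    have h2 : Cl R.rk (S ∪ T) a :=
      cl_mono R (h a (Finset.mem_insert_self _ _)) Finset.subset_union_left
    unfold Cl at h2
    rw [Finset.union_insert, h2, h1]

theorem cl_trans {S T : Finset V} {v : V} (h : ∀ t ∈ T, Cl R.rk S t) (hv : Cl R.rk T v) :
    Cl R.rk S v := by
  have h1 := cl_rk R h
  have h2 := cl_mono R hv (Finset.subset_union_right (s₁ := S))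
  unfold Cl at *
  have h3 := R.mono _ _ (Finset.insert_subset_insert v (Finset.subset_union_left (s₁ := S) (s₂ := T)))
  have h4 := R.mono _ _ (Finset.subset_insert v S)
  omega

/-- the rule (I) for one vertex -/
theorem cl_I {S F : Finset V} {u v : V} (hSF : S ⊆ F) (hF : ¬ Cl R.rk F u)
    (hu : R.rk (insert u S) ≤ R.rk S + 1) (h1 : Cl R.rk (insert u S) v) (h2 : Cl R.rk F v) :
    Cl R.rk S v := by
  unfold Cl at *
  have h3 := R.submod (insert v (insert u S)) (insert v F)
  have h4 : insert u F ⊆ insert v (insert u S) ∪ insert v F := by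
    intro x hx
    rcases Finset.mem_insert.1 hx with rfl | hx
    · exact Finset.mem_union_left _ (Finset.mem_insert_of_mem (Finset.mem_insert_self _ _))
    · exact Finset.mem_union_right _ (Finset.mem_insert_of_mem hx)
  have h5 : insert v S ⊆ insert v (insert u S) ∩ insert v F := by
    intro x hx
    rcases Finset.mem_insert.1 hx with rfl | hx
    · exact Finset.mem_inter.2 ⟨Finset.mem_insert_self _ _, Finset.mem_insert_self _ _⟩
    · exact Finset.mem_inter.2 ⟨Finset.mem_insert_of_mem (Finset.mem_insert_of_mem hx),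
        Finset.mem_insert_of_mem (hSF hx)⟩
  have h6 := R.mono _ _ h4
  have h7 := R.mono _ _ h5
  have h8 := R.mono _ _ (Finset.subset_insert v S)
  have h9 := R.mono _ _ (Finset.subset_insert u F)
  omega

theorem not_cl_rk {S : Finset V} {u v : V} (h : ¬ Cl R.rk S u) (hv : v ∈ S) (ha : R.G.Adj v u) :
    R.rk (insert u S) = R.rk S + 1 := by
  have h1 := R.edge S v u hv ha
  have h2 := R.mono _ _ (Finset.subset_insert u S)
  unfold Cl at h
  omega

/-! ### walks -/

theorem mem_vs {p : ℕ → V} {n : ℕ} {v : V} : v ∈ vs p n ↔ ∃ i ≤ n, p i = v := by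
  unfold vs
  simp only [Finset.mem_image, Finset.mem_range, Nat.lt_succ_iff]

theorem vs_mem {p : ℕ → V} {n i : ℕ} (h : i ≤ n) : p i ∈ vs p n := mem_vs.2 ⟨i, h, rfl⟩

theorem vs_succ (p : ℕ → V) (n : ℕ) : vs p (n + 1) = insert (p (n + 1)) (vs p n) := by
  unfold vs
  rw [Finset.range_add_one, Finset.image_insert]

theorem vs_zero (p : ℕ → V) : vs p 0 = {p 0} := by
  unfold vs
  simp

theorem vs_congr {p q : ℕ → V} {n : ℕ} (h : ∀ i ≤ n, p i = q i) : vs p n = vs q n := by
  ext v
  rw [mem_vs, mem_vs]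
  exact exists_congr fun i => and_congr_right fun hi => by rw [h i hi]

theorem vs_mono (p : ℕ → V) {l n : ℕ} (h : l ≤ n) : vs p l ⊆ vs p n := by
  intro v hv
  obtain ⟨i, hi, rfl⟩ := mem_vs.1 hv
  exact vs_mem (hi.trans h)

/-- the walk from the vertex `i` on -/
def sh (p : ℕ → V) (i : ℕ) : ℕ → V := fun t => p (i + t)

/-- the reverse walk -/
def rv (p : ℕ → V) (n : ℕ) : ℕ → V := fun t => p (n - t)

theorem wk_sh {p : ℕ → V} {n : ℕ} (h : Wk R.G p n) (i : ℕ) : Wk R.G (sh p i) (n - i) := by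
  intro t ht
  exact h (i + t) (by omega)

theorem wk_rv {p : ℕ → V} {n : ℕ} (h : Wk R.G p n) : Wk R.G (rv p n) n := by
  intro t ht
  have h1 := h (n - (t + 1)) (by omega)
  have h2 : n - (t + 1) + 1 = n - t := by omega
  rw [h2] at h1
  exact h1.symm

theorem wk_prefix {p : ℕ → V} {n l : ℕ} (h : Wk R.G p n) (hl : l ≤ n) : Wk R.G p l :=
  fun t ht => h t (by omega)

theorem wk_congr {p q : ℕ → V} {n : ℕ} (h : ∀ i ≤ n, p i = q i) (hp : Wk R.G p n) :
    Wk R.G q n := by
  intro t ht
  rw [← h t (by omega), ← h (t + 1) (by omega)]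
  exact hp t ht

theorem vs_rv (p : ℕ → V) (n : ℕ) : vs (rv p n) n = vs p n := by
  ext v
  rw [mem_vs, mem_vs]
  constructor
  · rintro ⟨i, hi, rfl⟩
    exact ⟨n - i, by omega, rfl⟩
  · rintro ⟨i, hi, rfl⟩
    refine ⟨n - i, by omega, ?_⟩
    show p (n - (n - i)) = p i
    congr 1
    omega

theorem rk_add_walk {p : ℕ → V} {n : ℕ} (S : Finset V) (hw : Wk R.G p n) (h0 : p 0 ∈ S) :
    R.rk (S ∪ vs p n) ≤ R.rk S + n := by
  induction n with
  | zero =>
    rw [vs_zero, Finset.union_eq_left.2 (Finset.singleton_subset_iff.2 h0)]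
    exact le_rfl
  | succ n ih =>
    have h1 := ih (wk_prefix R hw (by omega))
    rw [vs_succ, Finset.union_insert]
    have h2 := R.edge (S ∪ vs p n) (p n) (p (n + 1)) (Finset.mem_union_right _ (vs_mem le_rfl))
      (hw n (by omega))
    omega

theorem rk_walk_le {p : ℕ → V} {n : ℕ} (hw : Wk R.G p n) : R.rk (vs p n) ≤ R.m + n := by
  have h1 := rk_add_walk R {p 0} hw (Finset.mem_singleton_self _)
  have h2 := R.vert (p 0)
  have h3 := R.mono _ _ (Finset.subset_union_right (s₁ := {p 0}) (s₂ := vs p n))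
  omega

theorem gen_prefix {p : ℕ → V} {n l : ℕ} (h : Gen R p n) (hl : l ≤ n) : Gen R p l := by
  refine ⟨wk_prefix R h.1 hl, ?_⟩
  have h1 := rk_walk_le R (wk_prefix R h.1 hl)
  have h2 := rk_add_walk R (vs p l) (wk_sh R h.1 l) (by
    show p (l + 0) ∈ _
    exact vs_mem le_rfl)
  have h3 : vs p n ⊆ vs p l ∪ vs (sh p l) (n - l) := by
    intro v hv
    obtain ⟨i, hi, rfl⟩ := mem_vs.1 hv
    by_cases hil : i ≤ l
    · exact Finset.mem_union_left _ (vs_mem hil)
    · refine Finset.mem_union_right _ (mem_vs.2 ⟨i - l, by omega, ?_⟩)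
      show p (l + (i - l)) = p i
      congr 1
      omega
  have h4 := R.mono _ _ h3
  have h5 := h.2
  omega

theorem gen_congr {p q : ℕ → V} {n : ℕ} (h : ∀ i ≤ n, p i = q i) (hp : Gen R p n) :
    Gen R q n := ⟨wk_congr R h hp.1, by rw [← vs_congr h]; exact hp.2⟩

theorem gen_rv {p : ℕ → V} {n : ℕ} (h : Gen R p n) : Gen R (rv p n) n :=
  ⟨wk_rv R h.1, by rw [vs_rv]; exact h.2⟩

theorem gen_sh {p : ℕ → V} {n : ℕ} (h : Gen R p n) {i : ℕ} (hi : i ≤ n) :
    Gen R (sh p i) (n - i) := by
  refine gen_congr R (fun t ht => ?_) (gen_rv R (gen_prefix R (gen_rv R h) (Nat.sub_le n i)))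
  show p (n - (n - i - t)) = p (i + t)
  congr 1
  omega

theorem gen_not_cl {p : ℕ → V} {n : ℕ} (h : Gen R p (n + 1)) : ¬ Cl R.rk (vs p n) (p (n + 1)) := by
  have h1 := h.2
  have h2 := (gen_prefix R h (Nat.le_succ n)).2
  unfold Cl
  rw [← vs_succ]
  omega

theorem gen_ne {p : ℕ → V} {n i j : ℕ} (h : Gen R p n) (hij : i < j) (hj : j ≤ n) :
    p i ≠ p j := by
  intro he
  obtain ⟨l, rfl⟩ : ∃ l, j = l + 1 := ⟨j - 1, by omega⟩
  refine gen_not_cl R (gen_prefix R h hj) (cl_self R ?_)
  rw [← he]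
  exact vs_mem (by omega)

theorem gen_injOn {p : ℕ → V} {n : ℕ} (h : Gen R p n) : Set.InjOn p (Set.Iic n) := by
  intro i hi j hj he
  rcases lt_trichotomy i j with hij | hij | hij
  · exact absurd he (gen_ne R h hij hj)
  · exact hij
  · exact absurd he.symm (gen_ne R h hij hi)

/-! ### generic paths do not move between their ends -/

variable {k : ℕ} (hA : ∀ j, 2 ≤ j → j ≤ k → ¬ AA R j)

include hA

theorem gen_cl {p : ℕ → V} {n : ℕ} (h : Gen R p n) (hn : n ≤ k) :
    ∀ i ≤ n, Cl R.rk {p 0, p n} (p i) := by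
  induction n with
  | zero =>
    intro i hi
    obtain rfl : i = 0 := by omega
    exact cl_self R (by simp)
  | succ n ih =>
    intro i hi
    rcases Nat.eq_zero_or_pos n with rfl | hn0
    · have : i = 0 ∨ i = 1 := by omega
      rcases this with rfl | rfl
      · exact cl_self R (by simp)
      · exact cl_self R (by simp)
    · have h1 : Cl R.rk {p 0, p (n + 1)} (p n) := by
        by_contra hcon
        exact hA (n + 1) (by omega) hn ⟨p, h, hcon⟩
      rcases Nat.lt_or_ge i (n + 1) with hi' | hi'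
      · refine cl_trans R (fun t ht => ?_) (ih (gen_prefix R h (by omega)) (by omega) i (by omega))
        rcases Finset.mem_insert.1 ht with rfl | ht
        · exact cl_self R (by simp)
        · rw [Finset.mem_singleton.1 ht]
          exact h1
      · obtain rfl : i = n + 1 := by omega
        exact cl_self R (by simp)

theorem gen_rk {p : ℕ → V} {n : ℕ} (h : Gen R p n) (hn : n ≤ k) : R.rk {p 0, p n} = R.m + n := by
  have h1 := cl_rk R (S := {p 0, p n}) (T := vs p n) (fun t ht => by
    obtain ⟨i, hi, rfl⟩ := mem_vs.1 ht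
    exact gen_cl R hA h hn i hi)
  have h2 : {p 0, p n} ∪ vs p n = vs p n := by
    apply Finset.union_eq_right.2
    intro v hv
    rcases Finset.mem_insert.1 hv with rfl | hv
    · exact vs_mem (by omega)
    · rw [Finset.mem_singleton.1 hv]
      exact vs_mem le_rfl
  rw [h2, h.2] at h1
  exact h1.symm

/-- the level of a vertex of a generic path -/
theorem gen_lev {p : ℕ → V} {n i : ℕ} (h : Gen R p n) (hn : n ≤ k) (hi : i ≤ n) :
    R.rk {p 0, p i} = R.m + i := gen_rk R hA (gen_prefix R h hi) (by omega)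

end Pool.Agent.H97G.LC2P
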