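import Pool.Agent.H97G.B66

/-!
# Piece LC3: paths of defect one do not move
-/

set_option autoImplicit false

namespace Pool.Agent.H97G

open Finset B66

namespace LC3x

section
variable {V : Type} [DecidableEq V] (R : RG V)

/-- a walk without turning back, of defect at most one -/
def D1 (p : ℕ → V) (n : ℕ) : Prop :=
  Wk R.G p n ∧ (∀ i, i + 2 ≤ n → p i ≠ p (i + 2)) ∧ R.m + n ≤ R.rk (vs p n) + 1

variable {R}

theorem D1.shift {p : ℕ → V} {n : ℕ} (h : D1 R p n) {i j : ℕ} (hij : i ≤ j) (hj : j ≤ n) :
    D1 R (fun t => p (i + t)) (j - i) := by
  refine ⟨wk_shift h.1 hj, fun t ht => h.2.1 (i + t) (by omega), ?_⟩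
  rw [vs_shift hij]
  have h1 := rk_sg R h.1 (Nat.zero_le i) hij hj le_rfl
  have h2 := h.2.2
  rw [vs_eq_sg] at h2
  omega

theorem D1.rev {p : ℕ → V} {n : ℕ} (h : D1 R p n) : D1 R (fun t => p (n - t)) n := by
  refine ⟨wk_rev h.1, fun t ht => ?_, by rw [vs_rev]; exact h.2.2⟩
  have h1 := h.2.1 (n - (t + 2)) (by omega)
  rw [show n - (t + 2) + 2 = n - t by omega] at h1
  exact h1.symm

theorem D1.take {p : ℕ → V} {n : ℕ} (h : D1 R p n) {j : ℕ} (hj : j ≤ n) : D1 R p j := by
  have h1 := h.shift (Nat.zero_le j) hj
  simp only [zero_add, Nat.sub_zero] at h1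
  exact h1

theorem D1.inj {k : ℕ} (hA : ∀ j, 2 ≤ j → j ≤ k → ¬ AA R j) {p : ℕ → V} {n : ℕ} (hnk : n ≤ k)
    (h : D1 R p n) : Set.InjOn p (Set.Iic n) := by
  -- no coincidences at distance `d`
  have key : ∀ d i, 0 < d → i + d ≤ n → p i ≠ p (i + d) := by
    intro d
    induction d using Nat.strong_induction_on with
    | _ d ih =>
      intro i hd hi he
      rcases Nat.lt_or_ge d 3 with h3 | h3
      · rcases (show d = 1 ∨ d = 2 by omega) with rfl | rfl
        · exact (h.1 i (by omega)).ne he
        · exact h.2.1 i (by omega) he
      · have h1 := rk_sg R h.1 (Nat.zero_le i) (show i ≤ i + d by omega) hi le_rfl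
        have h2 := h.2.2
        rw [vs_eq_sg] at h2
        have h4 : sg p i (i + d) = sg p i (i + (d - 1)) := by
          have h5 := sg_succ p (i := i) (j := i + (d - 1)) (by omega)
          rw [show i + (d - 1) + 1 = i + d by omega] at h5
          rw [h5, ← he]
          exact Finset.insert_eq_self.2 (left_mem_sg p (by omega))
        have h6 := rk_sg_le R h.1 (show i ≤ i + (d - 1) by omega) (by omega)
        have h7 : Gen R (fun t => p (i + t)) (d - 1) := by
          have h8 := wk_shift (i := i) h.1 (show i + (d - 1) ≤ n by omega)
          have h9 := vs_shift (p := p) (show i ≤ i + (d - 1) by omega)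
          rw [show i + (d - 1) - i = d - 1 by omega] at h8 h9 h6
          refine ⟨h8, ?_⟩
          rw [h9]
          rw [h4] at h1
          omega
        have h10 := gen_rk_ends R hA (by omega) h7
        simp only [add_zero] at h10
        have h11 : R.G.Adj (p i) (p (i + (d - 1))) := by
          have h12 := (h.1 (i + (d - 1)) (by omega)).symm
          rw [show i + (d - 1) + 1 = i + d by omega, ← he] at h12
          exact h12
        have h13 := R.edge {p i} (p i) (p (i + (d - 1))) (by simp) h11
        have h14 := R.vert (p i)
        rw [Finset.pair_comm] at h10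
        omega
  intro i hi j hj he
  rcases Nat.lt_trichotomy i j with hlt | hlt | hlt
  · have h1 := key (j - i) i (by omega) (by simp only [Set.mem_Iic] at hj; omega)
    rw [show i + (j - i) = j by omega] at h1
    exact absurd he h1
  · exact hlt
  · have h1 := key (i - j) j (by omega) (by simp only [Set.mem_Iic] at hi; omega)
    rw [show j + (i - j) = i by omega] at h1
    exact absurd he.symm h1

/-- the closure of the ends, from the claim for the shorter paths -/
theorem all_cl {N : ℕ} (hC : ∀ j, j ≤ N → ∀ p, D1 R p j → Cl R.rk {p 0, p j} (p (j - 1))) :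
    ∀ n, n ≤ N → ∀ p, D1 R p n → ∀ i, i ≤ n → Cl R.rk {p 0, p n} (p i) := by
  intro n
  induction n with
  | zero =>
    intro _ p _ i hi
    obtain rfl : i = 0 := by omega
    exact cl_mem R (by simp)
  | succ n ih =>
    intro hn p hp i hi
    rcases Nat.lt_or_ge n i with h | h
    · obtain rfl : i = n + 1 := by omega
      exact cl_mem R (by simp)
    have h1 := hC (n + 1) hn p hp
    rw [Nat.add_sub_cancel] at h1
    have h2 := ih (by omega) p (hp.take (by omega)) i h
    refine cl_trans R ?_ h2
    intro t ht
    rw [Finset.mem_insert, Finset.mem_singleton] at ht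
    rcases ht with rfl | rfl
    · exact cl_mem R (by simp)
    · exact h1

/-- generic walks over a vertex -/
theorem exists_walk (x a : V) : ∃ u : ℕ → V, u 0 = a ∧ ∀ i, R.G.Adj (u i) (u (i + 1)) ∧
    R.rk (insert (u (i + 1)) (insert x (vs u i))) = R.rk (insert x (vs u i)) + 1 := by
  classical
  -- lists, the last vertex first
  have hstep : ∀ q : V × Finset V, q.1 ∈ q.2 → ∃ w, R.G.Adj q.1 w ∧
      R.rk (insert w q.2) = R.rk q.2 + 1 := fun q hq => R.ext q.2 q.1 hq
  let nx : {q : V × Finset V // q.1 ∈ q.2} → {q : V × Finset V // q.1 ∈ q.2} := fun q =>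
    ⟨((hstep q.1 q.2).choose, insert (hstep q.1 q.2).choose q.1.2), Finset.mem_insert_self _ _⟩
  let s : ℕ → {q : V × Finset V // q.1 ∈ q.2} := fun i =>
    nx^[i] ⟨(a, {x, a}), by simp⟩
  have hs : ∀ i, s (i + 1) = nx (s i) := fun i => Function.iterate_succ_apply' nx i _
  have h1 : ∀ i, R.G.Adj (s i).1.1 (s (i + 1)).1.1 ∧
      R.rk (insert (s (i + 1)).1.1 (s i).1.2) = R.rk (s i).1.2 + 1 := by
    intro i
    rw [hs]
    exact (hstep (s i).1 (s i).2).choose_spec
  have h2 : ∀ i, (s (i + 1)).1.2 = insert (s (i + 1)).1.1 (s i).1.2 := by
    intro i
    rw [hs]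
  have h3 : ∀ i, (s i).1.2 = insert x (vs (fun j => (s j).1.1) i) := by
    intro i
    induction i with
    | zero =>
      have e : (s 0).1.2 = {x, (s 0).1.1} := rfl
      rw [e]
      unfold vs
      simp
    | succ i ih =>
      rw [h2, ih, Finset.insert_comm]
      congr 1
      rw [vs_eq_sg, vs_eq_sg, sg_succ _ (Nat.zero_le _)]
  refine ⟨fun i => (s i).1.1, rfl, fun i => ⟨(h1 i).1, ?_⟩⟩
  rw [← h3]
  exact (h1 i).2

end

end LC3x

open LC3x in
theorem lc3 : LC3 := by
  classical
  intro V _ R k hk hm hA hU hE
  have hC : ∀ n, n ≤ k → ∀ p, D1 R p n → Cl R.rk {p 0, p n} (p (n - 1)) := by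
    intro n
    induction n using Nat.strong_induction_on with
    | _ n ih =>
      intro hn p hp
      by_contra hc
      -- the length is at least two
      have h2 : 2 ≤ n := by
        by_contra hlt
        apply hc
        rcases (show n = 0 ∨ n = 1 by omega) with rfl | rfl <;> exact cl_mem R (by simp)
      have hcl := all_cl (R := R) (N := n - 1) (fun j hj q hq => ih j (by omega) (by omega) q hq)
      -- (a)
      have ha : ∀ i, 0 < i → i < n → ¬ Cl R.rk {p 0, p n} (p i) := by
        intro i h0 hi hci
        apply hc
        have h3 := hcl (n - i) (by omega) _ (hp.shift hi.le le_rfl) (n - 1 - i) (by omega)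
        simp only [add_zero] at h3
        rw [show i + (n - i) = n by omega, show i + (n - 1 - i) = n - 1 by omega] at h3
        refine cl_trans R ?_ h3
        intro t ht
        rw [Finset.mem_insert, Finset.mem_singleton] at ht
        rcases ht with rfl | rfl
        · exact hci
        · exact cl_mem R (by simp)
      -- (b)
      have hb : ∀ i, 0 < i → i ≤ n → Cl R.rk {p 1, p n} (p i) := by
        intro i h0 hi
        have h3 := hcl (n - 1) (by omega) _ (hp.shift (i := 1) (by omega) le_rfl) (i - 1) (by omega)
        simp only [add_zero] at h3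
        rw [show 1 + (n - 1) = n by omega, show 1 + (i - 1) = i by omega] at h3
        exact h3
      have h01 : R.G.Adj (p 0) (p 1) := hp.1 0 (by omega)
      have hs1 := step_of_not_cl R (S := {p 0, p n}) (by simp) h01 (ha 1 (by omega) (by omega))
      have hrk : R.rk (vs p n) = R.rk {p 0, p n} + 1 := by
        rw [← hs1]
        apply rk_eq_of_cl R
        · intro x hx
          rw [Finset.mem_insert, Finset.mem_insert, Finset.mem_singleton] at hx
          rw [mem_vs]
          rcases hx with rfl | rfl | rfl
          · exact ⟨1, by omega, rfl⟩
          · exact ⟨0, by omega, rfl⟩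
          · exact ⟨n, by omega, rfl⟩
        · intro t ht
          rw [mem_vs] at ht
          obtain ⟨i, hi, rfl⟩ := ht
          rcases Nat.eq_zero_or_pos i with h | h
          · subst h
            exact cl_mem R (by simp)
          · refine cl_mono R ?_ (hb i h hi)
            intro x hx
            rw [Finset.mem_insert, Finset.mem_singleton] at hx
            rcases hx with rfl | rfl <;> simp
      -- the two ends
      have hend : ∀ q : ℕ → V, D1 R q n → (¬ Cl R.rk {q 0, q n} (q (n - 1))) →
          R.rk (vs q (n - 1)) = R.m + n - 2 := by
        intro q hq hqc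
        have h3 := (hq.take (show n - 1 ≤ n by omega)).2.2
        have h4 := rk_sg_le R hq.1 (Nat.zero_le (n - 1)) (by omega)
        rw [← vs_eq_sg] at h4
        have h5 : R.rk (vs q (n - 1)) ≠ R.m + (n - 1) := fun he =>
          hU n h2 hn q ⟨hq.1, hq.inj hA hn, he, hqc⟩
        omega
      have e1 := hend p hp hc
      have e2 := hend _ hp.rev (by
        simp only [Nat.sub_self, Nat.sub_zero]
        rw [show n - (n - 1) = 1 by omega, Finset.pair_comm]
        exact ha 1 (by omega) (by omega))
      have e2' : R.rk (sg p 1 n) = R.m + n - 2 := by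
        rw [← e2]
        congr 1
        ext x
        rw [mem_sg, mem_vs]
        constructor
        · rintro ⟨t, h1, h2, rfl⟩
          exact ⟨n - t, by omega, by rw [show n - (n - t) = t by omega]⟩
        · rintro ⟨t, h1, rfl⟩
          exact ⟨n - t, by omega, by omega, rfl⟩
      have e3 : R.rk (vs p n) ≤ R.m + n - 1 := by
        have h3 := rk_sg R hp.1 (Nat.zero_le 0) (Nat.zero_le (n - 1)) (by omega) le_rfl
        rw [← vs_eq_sg, ← vs_eq_sg] at h3
        omega
      have e4 : R.rk (vs p n) = R.m + n - 1 := by
        have := hp.2.2
        omega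
      have e5 : R.rk {p 0, p n} = R.m + n - 2 := by omega
      have e6 : R.rk {p 1, p n} = R.m + n - 2 := by
        rw [← e2']
        symm
        apply rk_eq_of_cl R
        · intro x hx
          rw [Finset.mem_insert, Finset.mem_singleton] at hx
          rw [mem_sg]
          rcases hx with rfl | rfl
          · exact ⟨1, by omega, by omega, rfl⟩
          · exact ⟨n, by omega, by omega, rfl⟩
        · intro t ht
          rw [mem_sg] at ht
          obtain ⟨i, hi0, hi, rfl⟩ := ht
          exact hb i (by omega) hi
      have hx : R.m ≤ R.rk {p n} + 1 := by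
        have h3 := rk_sg R hp.1 (Nat.zero_le n) (le_refl n) le_rfl le_rfl
        rw [sg_self, ← vs_eq_sg] at h3
        omega
      -- the walk
      obtain ⟨u, hu0, hu⟩ := exists_walk (R := R) (p n) (p 0)
      have hux : ∀ i, R.rk (insert (p n) (vs u i)) = R.m + n - 2 + i := by
        intro i
        induction i with
        | zero =>
          have : insert (p n) (vs u 0) = {p 0, p n} := by
            unfold vs
            simp [hu0, Finset.pair_comm]
          rw [this, e5]
          rfl
        | succ i ih =>
          have h3 := (hu i).2
          have h4 : insert (p n) (vs u (i + 1)) = insert (u (i + 1)) (insert (p n) (vs u i)) := by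
            rw [vs_eq_sg, sg_succ u (Nat.zero_le _), ← vs_eq_sg, Finset.insert_comm]
          rw [h4, h3, ih]
          rfl
      have hgen : ∀ S : Finset V, ∀ i, S ⊆ insert (p n) (vs u i) →
          ¬ Cl R.rk S (u (i + 1)) := fun S i hS h =>
        not_cl_of_step R (hu i).2 (cl_mono R hS h)
      have hpair : ∀ i, R.rk {p n, u i} = R.m + n - 2 := by
        intro i
        induction i using Nat.strong_induction_on with
        | _ i ihi =>
          rcases Nat.lt_or_ge i 1 with h | h
          · obtain rfl : i = 0 := by omega
            rw [hu0, Finset.pair_comm, e5]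
          rcases Nat.lt_or_ge i 2 with h' | h'
          · obtain rfl : i = 1 := by omega
            have h3 : ¬ Cl R.rk {p 0, p n} (u 1) := hgen _ 0 (by
              intro x hx
              rw [Finset.mem_insert, Finset.mem_singleton] at hx
              unfold vs
              rcases hx with rfl | rfl <;> simp [hu0])
            have h4 : R.G.Adj (p 0) (u 1) := by
              have := (hu 0).1
              rwa [hu0] at this
            obtain ⟨e, he1, he2, he3, he4, he5⟩ := R.hom {p 0, p n} (insert (p 1) {p 0, p n})
              (p 0) (p 1) (u 1) (by simp) h01 h4 hs1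
              (step_of_not_cl R (S := {p 0, p n}) (by simp) h4 h3) (Finset.Subset.refl _) hs1
            have h5 := he5 {p 1, p n} (by
              intro x hx
              rw [Finset.mem_insert, Finset.mem_singleton] at hx
              rcases hx with rfl | rfl <;> simp)
            rw [Finset.image_insert, Finset.image_singleton, he2, he1 (p n) (by simp), e6,
              Finset.pair_comm] at h5
            exact h5
          · obtain ⟨j, rfl⟩ : ∃ j, i = j + 2 := ⟨i - 2, by omega⟩
            have i1 := ihi (j + 1) (by omega)
            have i0 := ihi j (by omega)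
            have h3 : R.G.Adj (u (j + 1)) (u (j + 2)) := (hu (j + 1)).1
            have h4 : R.G.Adj (u (j + 1)) (u j) := (hu j).1.symm
            have h5 : ¬ Cl R.rk {p n, u j} (u (j + 1)) := hgen _ j (by
              intro x hx
              rw [Finset.mem_insert, Finset.mem_singleton] at hx
              rcases hx with rfl | rfl
              · simp
              · exact Finset.mem_insert_of_mem (mem_vs.2 ⟨j, le_rfl, rfl⟩))
            have h6 := step_of_not_cl R (S := {p n, u j}) (a := u j) (by simp) (hu j).1 h5
            have h7 : R.rk (insert (u j) {p n, u (j + 1)}) = R.rk {p n, u (j + 1)} + 1 := by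
              have : (insert (u j) {p n, u (j + 1)} : Finset V) = insert (u (j + 1)) {p n, u j} := by
                ext x
                simp only [Finset.mem_insert, Finset.mem_singleton]
                tauto
              rw [this, h6, i0, i1]
            have h8 : ¬ Cl R.rk {p n, u (j + 1)} (u (j + 2)) := hgen _ (j + 1) (by
              intro x hx
              rw [Finset.mem_insert, Finset.mem_singleton] at hx
              rcases hx with rfl | rfl
              · simp
              · exact Finset.mem_insert_of_mem (mem_vs.2 ⟨j + 1, le_rfl, rfl⟩))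
            obtain ⟨e, he1, he2, he3, he4, he5⟩ := R.hom {p n, u (j + 1)}
              (insert (u j) {p n, u (j + 1)}) (u (j + 1)) (u j) (u (j + 2)) (by simp) h4 h3 h7
              (step_of_not_cl R (S := {p n, u (j + 1)}) (by simp) h3 h8) (Finset.Subset.refl _) h7
            have h9 := he5 {p n, u j} (by
              intro x hx
              rw [Finset.mem_insert, Finset.mem_singleton] at hx
              rcases hx with rfl | rfl <;> simp)
            rw [Finset.image_insert, Finset.image_singleton, he2, he1 (p n) (by simp), i0] at h9
            exact h9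
      -- the rank of the first vertex of the segment is not `m`
      have hfin : ∀ i, i ≤ 1 → R.rk {u i} ≠ R.m := by
        intro i hi he
        -- the segment is a generic path
        have h3 : ∀ d, R.rk (sg u i (i + d)) = R.m + d := by
          intro d
          induction d with
          | zero =>
            rw [add_zero, sg_self, he]
            rfl
          | succ d ihd =>
            have h4 : ¬ Cl R.rk (sg u i (i + d)) (u (i + d + 1)) := hgen _ (i + d) (by
              refine Finset.Subset.trans ?_ (Finset.subset_insert _ _)
              rw [vs_eq_sg]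
              exact sg_subset u (Nat.zero_le i) le_rfl)
            have h5 := step_of_not_cl R (right_mem_sg u (show i ≤ i + d by omega))
              (hu (i + d)).1 h4
            rw [← add_assoc, sg_succ u (by omega), h5, ihd]
            rfl
        have h6 : Gen R (fun t => u (i + t)) k := by
          have h7 := vs_shift (p := u) (show i ≤ i + k by omega)
          rw [show i + k - i = k by omega] at h7
          refine ⟨fun t _ => (hu (i + t)).1, ?_⟩
          rw [h7, h3 k]
        have h8 := gen_cl R hA k le_rfl _ h6
        simp only [add_zero] at h8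
        -- the rank of the segment with `x`
        have h9 : ∀ d, R.rk (insert (p n) (sg u i (i + d))) = R.m + n - 2 + d := by
          intro d
          induction d with
          | zero =>
            rw [add_zero, sg_self, hpair]
            rfl
          | succ d ihd =>
            have h4 : ¬ Cl R.rk (insert (p n) (sg u i (i + d))) (u (i + d + 1)) :=
              hgen _ (i + d) (by
                refine Finset.insert_subset_insert _ ?_
                rw [vs_eq_sg]
                exact sg_subset u (Nat.zero_le i) le_rfl)
            have h5 := step_of_not_cl R (Finset.mem_insert_of_mem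
              (right_mem_sg u (show i ≤ i + d by omega))) (hu (i + d)).1 h4
            have h10 : insert (p n) (sg u i (i + (d + 1))) =
                insert (u (i + d + 1)) (insert (p n) (sg u i (i + d))) := by
              rw [← add_assoc, sg_succ u (by omega), Finset.insert_comm]
            rw [h10, h5, ihd]
            rfl
        have h11 : R.rk (insert (p n) (sg u i (i + k))) ≤ R.rk ({p n, u i} ∪ {p n, u (i + k)}) := by
          apply rk_le_of_cl R
          intro t ht
          rw [Finset.mem_insert, mem_sg] at ht
          rcases ht with rfl | ⟨t, h1, h2, rfl⟩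
          · exact cl_mem R (by simp)
          · have h12 := h8 (t - i) (by omega)
            rw [show i + (t - i) = t by omega] at h12
            refine cl_mono R ?_ h12
            intro x hx
            rw [Finset.mem_insert, Finset.mem_singleton] at hx
            rcases hx with rfl | rfl <;> simp
        have h13 := R.submod {p n, u i} {p n, u (i + k)}
        have h14 : R.rk {p n} ≤ R.rk ({p n, u i} ∩ {p n, u (i + k)}) := R.mono _ _ (by
          rw [Finset.singleton_subset_iff]
          simp)
        rw [hpair, hpair] at h13
        rw [h9] at h11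
        omega
      have hp0 : R.rk {p 0} = k - 1 := by
        have h3 := rk_sg R hp.1 (Nat.zero_le 0) (le_refl 0) (Nat.zero_le n) le_rfl
        rw [sg_self, ← vs_eq_sg] at h3
        have h4 := R.vert (p 0)
        have h5 := hfin 0 (by omega)
        rw [hu0] at h5
        omega
      have hp1 : R.rk {p 1} = k - 1 := by
        have h3 := rk_sg R hp.1 (Nat.zero_le 1) (le_refl 1) (show 1 ≤ n by omega) le_rfl
        rw [sg_self, ← vs_eq_sg] at h3
        have h4 := R.vert (p 1)
        have h5 := hfin 1 (by omega)
        -- `u 1` has the same rank as `p 1`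
        have h6 : ¬ Cl R.rk {p 0, p n} (u 1) := hgen _ 0 (by
          intro x hx
          rw [Finset.mem_insert, Finset.mem_singleton] at hx
          unfold vs
          rcases hx with rfl | rfl <;> simp [hu0])
        have h7 : R.G.Adj (p 0) (u 1) := by
          have := (hu 0).1
          rwa [hu0] at this
        obtain ⟨e, he1, he2, he3, he4, he5⟩ := R.hom {p 0, p n} (insert (p 1) {p 0, p n})
          (p 0) (p 1) (u 1) (by simp) h01 h7 hs1
          (step_of_not_cl R (S := {p 0, p n}) (by simp) h7 h6) (Finset.Subset.refl _) hs1
        have h8 := he5 {p 1} (by simp)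
        rw [Finset.image_singleton, he2] at h8
        omega
      refine hE (p 0) (p 1) h01 hp0 hp1 ?_
      have h3 := rk_sg R hp.1 (Nat.zero_le 0) (Nat.zero_le 1) (show 1 ≤ n by omega) le_rfl
      rw [← vs_eq_sg] at h3
      have h4 : sg p 0 1 = {p 0, p 1} := by
        rw [sg_succ p (Nat.zero_le 1), sg_self, Finset.pair_comm]
      rw [h4] at h3
      have h5 := R.edge {p 0} (p 0) (p 1) (by simp) h01
      rw [Finset.pair_comm] at h5
      omega
  intro p hp1 hp2 hp3
  have hD : D1 R p k := ⟨hp1, hp2, by omega⟩
  rw [← hp3]
  symm
  apply rk_eq_of_cl R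
  · intro x hx
    rw [Finset.mem_insert, Finset.mem_singleton] at hx
    rw [mem_vs]
    rcases hx with rfl | rfl
    · exact ⟨0, by omega, rfl⟩
    · exact ⟨k, le_rfl, rfl⟩
  · intro x hx
    rw [mem_vs] at hx
    obtain ⟨t, ht, rfl⟩ := hx
    exact all_cl (R := R) (N := k) hC k le_rfl p hD t ht

end Pool.Agent.H97G
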