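import Pool.Agent.H97G.Defs

/-!
# Piece LCW: a cycle gives two walks without turning back
-/

set_option autoImplicit false

namespace Pool.Agent.H97G

namespace LCWx

section
variable {V : Type} {G : SimpleGraph V}

/-- rotation of a cycle -/
theorem rot {N : ℕ} (hN : 3 ≤ N) {c : ℕ → V} (h1 : Set.InjOn c (Set.Iio N))
    (h2 : ∀ i, i + 1 < N → G.Adj (c i) (c (i + 1))) (h3 : G.Adj (c (N - 1)) (c 0)) :
    ∃ c' : ℕ → V, c' 0 = c 1 ∧ Set.InjOn c' (Set.Iio N) ∧
      (∀ i, i + 1 < N → G.Adj (c' i) (c' (i + 1))) ∧ G.Adj (c' (N - 1)) (c' 0) := by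
  refine ⟨fun i => if i + 1 < N then c (i + 1) else c 0, ?_, ?_, ?_, ?_⟩
  · simp only
    rw [if_pos (by omega)]
  · intro i hi j hj he
    simp only [Set.mem_Iio] at hi hj he
    by_cases hi' : i + 1 < N <;> by_cases hj' : j + 1 < N
    · rw [if_pos hi', if_pos hj'] at he
      have := h1 (show i + 1 ∈ Set.Iio N from hi') (show j + 1 ∈ Set.Iio N from hj') he
      omega
    · rw [if_pos hi', if_neg hj'] at he
      have := h1 (show i + 1 ∈ Set.Iio N from hi') (show 0 ∈ Set.Iio N from by simp; omega) he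
      omega
    · rw [if_neg hi', if_pos hj'] at he
      have := h1 (show 0 ∈ Set.Iio N from by simp; omega) (show j + 1 ∈ Set.Iio N from hj') he
      omega
    · omega
  · intro i hi
    simp only
    rw [if_pos (by omega)]
    by_cases hi' : i + 1 + 1 < N
    · rw [if_pos hi']
      exact h2 (i + 1) hi'
    · rw [if_neg hi', show i + 1 = N - 1 by omega]
      exact h3
  · simp only
    rw [if_neg (by omega), if_pos (by omega)]
    exact h2 0 (by omega)

/-- a cycle which starts with a given colour -/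
theorem start {col : V → Bool} (hcol : ∀ v w, G.Adj v w → col w = !col v) {N : ℕ} (hN : 3 ≤ N)
    (h : HasCyc G N) : ∃ c : ℕ → V, col (c 0) = false ∧ Set.InjOn c (Set.Iio N) ∧
      (∀ i, i + 1 < N → G.Adj (c i) (c (i + 1))) ∧ G.Adj (c (N - 1)) (c 0) := by
  obtain ⟨c, h1, h2, h3⟩ := h
  cases hc : col (c 0)
  · exact ⟨c, hc, h1, h2, h3⟩
  · obtain ⟨c', e, h1', h2', h3'⟩ := rot hN h1 h2 h3
    refine ⟨c', ?_, h1', h2', h3'⟩
    rw [e, hcol _ _ (h2 0 (by omega)), hc]
    rfl

/-- the tail -/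
theorem tail (hinf : ∀ v, {w | G.Adj v w}.Infinite) (a a' z : V) : ∃ x : ℕ → V, x 0 = z ∧
    (∀ i, G.Adj (x i) (x (i + 1))) ∧ x 1 ≠ a ∧ x 1 ≠ a' ∧ ∀ i, x i ≠ x (i + 2) := by
  classical
  have h1 : ∀ (v : V) (F : Finset V), ∃ w, G.Adj v w ∧ w ∉ F := by
    intro v F
    obtain ⟨w, hw, hwF⟩ := ((hinf v).sdiff F.finite_toSet).nonempty
    exact ⟨w, hw, hwF⟩
  let nx : V × V → V × V := fun q => (q.2, (h1 q.2 {q.1}).choose)
  let s : ℕ → V × V := fun i => nx^[i] (z, (h1 z {a, a'}).choose)
  have hs : ∀ i, s (i + 1) = nx (s i) := fun i => Function.iterate_succ_apply' nx i _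
  have hs0 : s 0 = (z, (h1 z {a, a'}).choose) := rfl
  have e1 : ∀ i, (s (i + 1)).1 = (s i).2 := fun i => by rw [hs]
  have e2 : ∀ i, G.Adj (s i).2 (s (i + 1)).2 ∧ (s (i + 1)).2 ∉ ({(s i).1} : Finset V) := by
    intro i
    rw [hs]
    exact (h1 (s i).2 {(s i).1}).choose_spec
  have h0 := (h1 z {a, a'}).choose_spec
  refine ⟨fun i => (s i).1, rfl, ?_, ?_, ?_, ?_⟩
  · intro i
    rcases Nat.eq_zero_or_pos i with h | h
    · subst h
      show G.Adj (s 0).1 (s (0 + 1)).1
      rw [e1, hs0]
      exact h0.1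
    · obtain ⟨j, rfl⟩ : ∃ j, i = j + 1 := ⟨i - 1, by omega⟩
      show G.Adj (s (j + 1)).1 (s (j + 1 + 1)).1
      rw [e1, e1]
      exact (e2 j).1
  · show (s (0 + 1)).1 ≠ a
    rw [e1, hs0]
    intro he
    apply h0.2
    simp only at he
    rw [he]
    simp
  · show (s (0 + 1)).1 ≠ a'
    rw [e1, hs0]
    intro he
    apply h0.2
    simp only at he
    rw [he]
    simp
  · intro i he
    have he' : (s i).1 = (s (i + 1 + 1)).1 := he
    rw [e1] at he'
    apply (e2 i).2
    rw [← he']
    simp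

/-- glue a walk of length `j` and the tail -/
theorem glue {j : ℕ} (hj : 1 ≤ j) {c x : ℕ → V} (hc : ∀ i, i < j → G.Adj (c i) (c (i + 1)))
    (hc2 : ∀ i, i + 2 ≤ j → c i ≠ c (i + 2)) (hx0 : x 0 = c j) (hx : ∀ i, G.Adj (x i) (x (i + 1)))
    (hx1 : x 1 ≠ c (j - 1)) (hx2 : ∀ i, x i ≠ x (i + 2)) (k : ℕ) :
    Wk G (fun i => if i ≤ j then c i else x (i - j)) k ∧
      ∀ i, i + 2 ≤ k → (if i ≤ j then c i else x (i - j)) ≠
        (if i + 2 ≤ j then c (i + 2) else x (i + 2 - j)) := by
  constructor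
  · intro i _
    simp only
    rcases Nat.lt_trichotomy i j with h | h | h
    · rw [if_pos h.le, if_pos (show i + 1 ≤ j from h)]
      exact hc i h
    · subst h
      rw [if_pos le_rfl, if_neg (by omega), show i + 1 - i = 1 by omega, ← hx0]
      exact hx 0
    · rw [if_neg (by omega), if_neg (by omega), show i + 1 - j = (i - j) + 1 by omega]
      exact hx _
  · intro i _
    rcases Nat.lt_trichotomy (i + 1) j with h | h | h
    · rw [if_pos (by omega), if_pos (by omega)]
      exact hc2 i (by omega)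
    · rw [if_pos (by omega), if_neg (by omega), show i + 2 - j = 1 by omega,
        show i = j - 1 by omega]
      exact hx1.symm
    · rcases Nat.eq_or_lt_of_le (show j ≤ i by omega) with h' | h'
      · rw [if_pos (by omega), if_neg (by omega), show i + 2 - j = 2 by omega, ← h', ← hx0]
        exact hx2 0
      · rw [if_neg (by omega), if_neg (by omega), show i + 2 - j = (i - j) + 2 by omega]
        exact hx2 _

end

end LCWx

open LCWx in
theorem lcw : LCW := by
  intro V G col k j hcol hinf hj hjk hcyc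
  obtain ⟨c, hc0, h1, h2, h3⟩ := start hcol (show 3 ≤ 2 * j by omega) hcyc
  have hne : ∀ a b, a < 2 * j → b < 2 * j → a ≠ b → c a ≠ c b := fun a b ha hb hab he =>
    hab (h1 (show a ∈ Set.Iio (2 * j) from ha) (show b ∈ Set.Iio (2 * j) from hb) he)
  obtain ⟨x, hx0, hx, hx1, hx1', hx2⟩ := tail hinf (c (j - 1)) (c (j + 1)) (c j)
  -- the other way round
  let d : ℕ → V := fun i => if i = 0 then c 0 else c (2 * j - i)
  have hd0 : d 0 = c 0 := if_pos rfl
  have hd : ∀ i, 0 < i → d i = c (2 * j - i) := fun i hi => if_neg (by omega)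
  obtain ⟨p1, p2⟩ := glue (G := G) (show 1 ≤ j by omega) (c := c) (x := x)
    (fun i hi => h2 i (by omega)) (fun i hi => hne _ _ (by omega) (by omega) (by omega)) hx0 hx
    hx1 hx2 k
  obtain ⟨q1, q2⟩ := glue (G := G) (show 1 ≤ j by omega) (c := d) (x := x)
    (fun i hi => by
      rcases Nat.eq_zero_or_pos i with h | h
      · subst h
        rw [hd0, hd 1 (by omega)]
        exact h3.symm
      · rw [hd i h, hd (i + 1) (by omega)]
        have h4 := (h2 (2 * j - (i + 1)) (by omega)).symm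
        rw [show 2 * j - (i + 1) + 1 = 2 * j - i by omega] at h4
        exact h4)
    (fun i hi => by
      rcases Nat.eq_zero_or_pos i with h | h
      · subst h
        rw [hd0, hd _ (by omega)]
        exact hne _ _ (by omega) (by omega) (by omega)
      · rw [hd i h, hd _ (by omega)]
        exact hne _ _ (by omega) (by omega) (by omega))
    (by rw [hx0, hd j (by omega), show 2 * j - j = j by omega]) hx
    (by
      rcases Nat.eq_or_lt_of_le (show 1 ≤ j - 1 by omega) with h | h
      · rw [hd _ (by omega), show 2 * j - (j - 1) = j + 1 by omega]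
        exact hx1'
      · rw [hd _ (by omega), show 2 * j - (j - 1) = j + 1 by omega]
        exact hx1') hx2 k
  refine ⟨_, _, p1, q1, ?_, ?_, ?_, ?_, p2, q2⟩
  · rw [if_pos (by omega)]
    exact hc0
  · rw [if_pos (by omega), if_pos (by omega), hd0]
  · rcases Nat.eq_or_lt_of_le hjk with h | h
    · rw [if_pos (by omega), if_pos (by omega), hd k (by omega), show 2 * j - k = k by omega]
    · rw [if_neg (by omega), if_neg (by omega)]
  · rw [if_pos (by omega), if_pos (by omega), hd 1 (by omega)]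
    exact hne _ _ (by omega) (by omega) (by omega)

end Pool.Agent.H97G
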