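import Pool.Agent.H97F.Graph
import Pool.Agent.H97G.Defs

/-!
# (G7) The chart of the paths of length `k`
-/

set_option autoImplicit false

namespace Pool.Agent.H97G

namespace Chrt

open MvPolynomial Pool.Agent.H97F Pool.Agent.H97F.GraphPf

variable {K : Type} [Field K] {k : ℕ}

/-- the coordinates of the vertices of the path -/
noncomputable def co (A : ADG k K) {R : Type} [CommRing R] [Algebra K R]
    (a : Fin k ⊕ Fin k → R) : ℕ → Fin k → R
  | 0 => fun i => a (Sum.inl i)
  | j + 1 => sol A (!j.bodd) (if h : j < k then a (Sum.inr ⟨j, h⟩) else 0) (co A a j)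

theorem co_map (A : ADG k K) {R R' : Type} [CommRing R] [Algebra K R] [CommRing R']
    [Algebra K R'] (φ : R →ₐ[K] R') (a : Fin k ⊕ Fin k → R) (j : ℕ) :
    ∀ i, φ (co A a j i) = co A (fun v => φ (a v)) j i := by
  induction j with
  | zero => intro i; rfl
  | succ j ih =>
    intro i
    show φ (sol A _ _ (co A a j) i) = sol A _ _ (co A (fun v => φ (a v)) j) i
    rw [sol_map A φ _ _ _ i i rfl]
    have h1 : (fun j_1 => φ (co A a j j_1)) = co A (fun v => φ (a v)) j := funext ih
    rw [h1]
    congr 1
    split_ifs with h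
    · rfl
    · exact map_zero φ

theorem co_rel (A : ADG k K) {R : Type} [CommRing R] [Algebra K R]
    (a : Fin k ⊕ Fin k → R) (j : ℕ) : Rel A (!j.bodd) (co A a (j + 1)) (co A a j) :=
  sol_rel A _ _ _

theorem co_first (A : ADG k K) {R : Type} [CommRing R] [Algebra K R]
    (a : Fin k ⊕ Fin k → R) (j : ℕ) (hj : j < k) (i : Fin k) (hi : (i : ℕ) = 0) :
    co A a (j + 1) i = a (Sum.inr ⟨j, hj⟩) := by
  show sol A _ _ (co A a j) i = _
  rw [sol_zero A _ _ _ i hi, dif_pos hj]

/-- a vertex of given colour and coordinates -/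
def vtx {F : Type} (b : Bool) (x : Fin k → F) : Vx k F := if b then Sum.inr x else Sum.inl x

theorem elim_vtx {F : Type} (b : Bool) (x : Fin k → F) : Sum.elim id id (vtx b x) = x := by
  cases b <;> rfl

theorem vtx_inj {F : Type} {b : Bool} {x y : Fin k → F} (h : vtx b x = vtx b y) : x = y := by
  rw [← elim_vtx b x, h, elim_vtx]

theorem inc_rel (A : ADG k K) {F : Type} [Field F] [Algebra K F] (p l : Fin k → F) :
    (A.map (algebraMap K F)).Inc p l ↔ Rel A true l p := by
  unfold ADG.Inc GraphPf.Rel ADG.map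
  refine forall_congr' fun i => forall_congr' fun _ => ?_
  rw [add_comm]
  have : (fun v : Fin i × Bool => (if v.2 then l else p) (v.1.castLE i.isLt.le)) =
      (fun v : Fin i × Bool => if v.2 = true then l (v.1.castLE i.isLt.le)
      else p (v.1.castLE i.isLt.le)) := by
    funext v
    split_ifs <;> rfl
  rw [this, eval_map, aeval_def]

theorem adj_iff (A : ADG k K) {F : Type} [Field F] [Algebra K F] (b : Bool) (x y : Fin k → F) :
    (grph A F).Adj (vtx b x) (vtx (!b) y) ↔ Rel A (!b) y x := by
  cases b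
  · exact inc_rel A x y
  · exact (inc_rel A y x).trans ⟨fun h => rel_symm A rfl h, fun h => rel_symm A rfl h⟩

theorem adj_col (A : ADG k K) {F : Type} [Field F] [Algebra K F] (v w : Vx k F)
    (h : (grph A F).Adj v w) : w.isRight = !v.isRight := by
  rcases v with v | v <;> rcases w with w | w
  · exact h.elim
  · rfl
  · rfl
  · exact h.elim

theorem eq_vtx {F : Type} (v : Vx k F) : v = vtx v.isRight (Sum.elim id id v) := by
  rcases v with v | v <;> rfl

/-- the path -/
noncomputable def path (A : ADG k K) {F : Type} [Field F] [Algebra K F]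
    (a : Fin k ⊕ Fin k → F) (j : ℕ) : Vx k F := vtx j.bodd (co A a j)

theorem path_adj (A : ADG k K) {F : Type} [Field F] [Algebra K F]
    (a : Fin k ⊕ Fin k → F) (j : ℕ) : (grph A F).Adj (path A a j) (path A a (j + 1)) := by
  unfold path
  rw [Nat.bodd_succ, adj_iff]
  exact co_rel A a j

/-- vertices at distance two are equal if their first coordinates are equal -/
theorem path_eq_iff (A : ADG k K) {F : Type} [Field F] [Algebra K F] (hk : 0 < k)
    (a : Fin k ⊕ Fin k → F) (j : ℕ) :
    path A a j = path A a (j + 2) ↔ co A a (j + 2) ⟨0, hk⟩ - co A a j ⟨0, hk⟩ = 0 := by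
  have hb : (j + 2).bodd = j.bodd := by rw [Nat.bodd_succ, Nat.bodd_succ, Bool.not_not]
  unfold path
  rw [hb]
  constructor
  · intro h
    rw [vtx_inj h, sub_self]
  · intro h
    congr 1
    rw [sub_eq_zero] at h
    have h1 : Rel A j.bodd (co A a j) (co A a (j + 1)) :=
      rel_symm A (Bool.not_not _).symm (co_rel A a j)
    have h2 : Rel A j.bodd (co A a (j + 2)) (co A a (j + 1)) := by
      have := co_rel A a (j + 1)
      rwa [Nat.bodd_succ, Bool.not_not] at this
    rw [sol_unique A h1 (x0 := co A a j ⟨0, hk⟩) (fun i hi => by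
        congr 1
        exact Fin.ext hi),
      sol_unique A h2 (x0 := co A a j ⟨0, hk⟩) (fun i hi => by
        rw [← h]
        congr 1
        exact Fin.ext hi)]

/-- every walk which starts at a point comes from the chart -/
theorem path_surj (A : ADG k K) {F : Type} [Field F] [Algebra K F] (hk : 0 < k) (p : ℕ → Vx k F)
    (hp : Wk (grph A F) p k) (h0 : (p 0).isRight = false) :
    ∀ i, i ≤ k → path A (Sum.elim (fun i => Sum.elim id id (p 0) i)
      (fun j : Fin k => Sum.elim id id (p (j + 1)) ⟨0, hk⟩)) i = p i := by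
  intro i
  induction i with
  | zero =>
    intro _
    have h1 := eq_vtx (p 0)
    rw [h0] at h1
    exact h1.symm
  | succ j ih =>
    intro hj
    have h1 := ih (by omega)
    set a : Fin k ⊕ Fin k → F := Sum.elim (fun i => Sum.elim id id (p 0) i)
      (fun j : Fin k => Sum.elim id id (p (j + 1)) ⟨0, hk⟩) with ha
    have h2 := hp j (by omega)
    have h3 := adj_col A _ _ h2
    have h4 : (p j).isRight = j.bodd := by
      rw [← h1]
      unfold path vtx
      cases j.bodd <;> rfl
    rw [h4] at h3
    have h5 := eq_vtx (p (j + 1))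
    rw [h3] at h5
    rw [h5, ← h1] at h2
    have h6 : Rel A (!j.bodd) (Sum.elim id id (p (j + 1))) (co A a j) := (adj_iff A _ _ _).1 h2
    have h7 := sol_unique A h6 (x0 := a (Sum.inr ⟨j, by omega⟩)) (fun i hi => by
      have hi' : i = ⟨0, hk⟩ := Fin.ext hi
      rw [hi']
      rfl)
    rw [h5, h7]
    unfold path
    rw [Nat.bodd_succ]
    congr 1
    show sol A _ _ _ = _
    rw [dif_pos (by omega : j < k)]

theorem co_aeval (A : ADG k K) {F : Type} [Field F] [Algebra K F] (a : Fin k ⊕ Fin k → F) (j : ℕ)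
    (i : Fin k) : aeval a (co A (fun v => (X v : MvPolynomial (Fin k ⊕ Fin k) K)) j i) =
      co A a j i := by
  rw [co_map A (aeval a)]
  simp only [aeval_X]

end Chrt

open MvPolynomial Chrt in
/-- (G7) -/
theorem lchart : LChart := by
  intro K _ _ k hk A
  have hk0 : 0 < k := by omega
  let U : ℕ → Fin k → MvPolynomial (Fin k ⊕ Fin k) K := co A (fun v => X v)
  refine ⟨Sum.elim (fun i => X (Sum.inl i)) (fun i => U k i),
    ∏ i ∈ Finset.range (k - 1), (U (i + 2) ⟨0, hk0⟩ - U i ⟨0, hk0⟩), fun F _ _ => ?_⟩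
  refine ⟨path A, fun a => ⟨fun i _ => path_adj A a i, rfl, ?_, ?_, ?_, ?_, ?_⟩, ?_⟩
  · intro i
    simp
  · intro i
    show aeval a (U k i) = Sum.elim id id (vtx _ (co A a k)) i
    rw [elim_vtx, co_aeval]
  · rw [map_prod, Finset.prod_ne_zero_iff]
    constructor
    · intro h i hi
      have h1 := h i (Finset.mem_range.2 (by omega))
      rw [map_sub, co_aeval, co_aeval] at h1
      exact fun h2 => h1 ((path_eq_iff A hk0 a i).1 h2)
    · intro h i hi
      rw [Finset.mem_range] at hi
      rw [map_sub, co_aeval, co_aeval]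
      exact fun h2 => h i (by omega) ((path_eq_iff A hk0 a i).2 h2)
  · intro i
    show Sum.elim id id (vtx _ (co A a (i + 1))) _ = _
    rw [elim_vtx, co_first A a i i.isLt _ rfl]
  · intro j _ i
    show Sum.elim id id (vtx _ (co A a j)) _ ∈ _
    rw [elim_vtx, ← co_aeval, Algebra.adjoin_range_eq_range_aeval]
    exact ⟨_, rfl⟩
  · intro p hp h0
    exact ⟨_, path_surj A hk0 p hp h0⟩

end Pool.Agent.H97G
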