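import Mathlib
import Pool.Agent.H97G.Defs
import Pool.Agent.BezHen.Gauss
/-!
# (G0) common zeros of two polynomials without common factor
-/

set_option autoImplicit false

namespace Pool.Agent.H97G

open MvPolynomial

namespace Cop

theorem relprime {K Ω ι : Type} [Field K] [Field Ω] [Algebra K Ω] (a : ι → Ω) (k : ι)
    (hind : AlgebraicIndependent K (fun j : {j : ι // j ≠ k} => a j))
    (p q : MvPolynomial ι K) (hrel : IsRelPrime p q)
    (hp : aeval a p = 0) (hq : aeval a q = 0) : False := by
  classical
  let e : ι ≃ Option {j : ι // j ≠ k} := (Equiv.optionSubtypeNe k).symm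
  let E : MvPolynomial ι K ≃ₐ[K] Polynomial (MvPolynomial {j : ι // j ≠ k} K) :=
    (MvPolynomial.renameEquiv K e).trans (MvPolynomial.optionEquivLeft K {j : ι // j ≠ k})
  have hE : ∀ r : MvPolynomial ι K, aeval a r =
      (E r).eval₂ ((aeval (fun j : {j : ι // j ≠ k} => a j) :
        MvPolynomial {j : ι // j ≠ k} K →ₐ[K] Ω).toRingHom) (a k) := by
    intro r
    induction r using MvPolynomial.induction_on with
    | C r => simp [E]
    | add p q hp hq => rw [map_add, hp, hq, map_add, Polynomial.eval₂_add]
    | mul_X p i hp =>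
      rw [map_mul, hp, map_mul, Polynomial.eval₂_mul]
      congr 1
      rw [aeval_X]
      by_cases hi : i = k
      · subst hi
        have h1 : e i = none := by simp [e]
        simp [E, h1]
      · have h1 : e i = some ⟨i, hi⟩ := by simp [e, hi]
        simp [E, h1]
  have hrel' : IsRelPrime (E p) (E q) := by
    intro d hdp hdq
    have h1 : E.symm d ∣ p := by
      have := map_dvd E.symm hdp
      rwa [AlgEquiv.symm_apply_apply] at this
    have h2 : E.symm d ∣ q := by
      have := map_dvd E.symm hdq
      rwa [AlgEquiv.symm_apply_apply] at this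
    have h3 := (hrel h1 h2).map E
    rwa [AlgEquiv.apply_symm_apply] at h3
  refine Pool.Agent.BezHen.gauss ((aeval (fun j : {j : ι // j ≠ k} => a j) :
    MvPolynomial {j : ι // j ≠ k} K →ₐ[K] Ω).toRingHom) ?_ (a k) (E p) (E q) hrel' ?_ ?_
  · exact hind
  · rw [← hE]; exact hp
  · rw [← hE]; exact hq

/-- the rank of the values of a finite family: an independent subfamily -/
theorem exists_basis {K Ω ι : Type} [Field K] [Field Ω] [Algebra K Ω] [Fintype ι] (y : ι → Ω) :
    ∃ J : Finset ι, J.card = trk K (Set.range y) ∧ AlgebraicIndependent K (fun j : J => y j) ∧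
      ∀ i, IsAlgebraic (Algebra.adjoin K (y '' J)) (y i) := by
  classical
  obtain ⟨I, hI⟩ := (AlgebraicIndependent.matroid K Ω).exists_isBasis (Set.range y)
  have hIs : I ⊆ Set.range y := hI.subset
  have hfin : I.Finite := (Set.finite_range y).subset hIs
  choose f hf using fun x : I => hIs x.2
  have hfinj : Function.Injective f := by
    intro x x' h
    have h1 := hf x
    rw [h, hf x'] at h1
    exact Subtype.ext h1.symm
  have : Fintype I := hfin.fintype
  have hcard : (Fintype.card I : ℕ) = trk K (Set.range y) := by
    unfold trk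
    rw [← hI.encard_eq_eRk, Set.encard_eq_coe_toFinset_card, Set.toFinset_card]
    rfl
  refine ⟨Finset.univ.image f, ?_, ?_, ?_⟩
  · rw [Finset.card_image_of_injective _ hfinj, Finset.card_univ, hcard]
  · have hind : AlgebraicIndependent K (fun x : I => (x : Ω)) := by
      have := (AlgebraicIndependent.matroid_indep_iff).1 hI.indep
      exact this
    have hg : ∀ j : (Finset.univ.image f : Finset ι), ∃ x : I, f x = j := by
      rintro ⟨j, hj⟩
      obtain ⟨x, -, hx⟩ := Finset.mem_image.1 hj
      exact ⟨x, hx⟩
    choose g hg using hg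
    have hginj : Function.Injective g := by
      intro j j' h
      apply Subtype.ext
      rw [← hg j, ← hg j', h]
    have h2 := hind.comp g hginj
    convert h2 using 1
    funext j
    show y j = (g j : Ω)
    rw [← hf (g j), hg j]
  · intro i
    have h1 : y i ∈ (AlgebraicIndependent.matroid K Ω).closure I := by
      rw [hI.closure_eq_closure]
      exact (AlgebraicIndependent.matroid K Ω).mem_closure_of_mem' (Set.mem_range_self i) (by simp)
    rw [AlgebraicIndependent.matroid_closure_eq] at h1
    have h2 : I = y '' (Finset.univ.image f : Finset ι) := by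
      ext x
      constructor
      · intro hx
        exact ⟨f ⟨x, hx⟩, by simp, hf ⟨x, hx⟩⟩
      · rintro ⟨j, hj, rfl⟩
        rw [Finset.coe_image, Finset.coe_univ, Set.image_univ] at hj
        obtain ⟨x, rfl⟩ := hj
        rw [hf x]
        exact x.2
    rw [← h2]
    exact h1

end Cop

theorem lcop : LCop := by
  classical
  intro K _ Ω _ _ ι _ r g hrel y hr hg
  by_contra hcon
  obtain ⟨J, hJ, hind, -⟩ := Cop.exists_basis (K := K) y
  rw [← hJ] at hcon
  rcases isEmpty_or_nonempty ι with hι | hι
  · have h1 : ∀ s : MvPolynomial ι K, aeval y s = 0 → s = 0 := by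
      intro s hs
      rw [MvPolynomial.eq_C_of_isEmpty s] at hs ⊢
      rw [aeval_C] at hs
      have := (algebraMap K Ω).injective (hs.trans (map_zero _).symm)
      rw [this, C_0]
    have h2 : IsUnit (0 : MvPolynomial ι K) := hrel (by rw [h1 r hr]) (by rw [h1 g hg])
    exact not_isUnit_zero h2
  · obtain ⟨k, hk⟩ : ∃ k : ι, ∀ j, j ≠ k → j ∈ J := by
      by_cases hall : ∀ j, j ∈ J
      · exact ⟨Classical.arbitrary ι, fun j _ => hall j⟩
      · push Not at hall
        obtain ⟨k, hk⟩ := hall
        refine ⟨k, fun j hj => ?_⟩
        by_contra hjJ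
        have h1 : insert j (insert k J) ⊆ (Finset.univ : Finset ι) := Finset.subset_univ _
        have h2 := Finset.card_le_card h1
        rw [Finset.card_insert_of_notMem, Finset.card_insert_of_notMem hk, Finset.card_univ] at h2
        · omega
        · rw [Finset.mem_insert, not_or]
          exact ⟨hj, hjJ⟩
    refine Cop.relprime y k ?_ r g hrel hr hg
    exact hind.comp (fun j : {j : ι // j ≠ k} => (⟨j.1, hk j.1 j.2⟩ : J)) (by
      intro j j' h
      exact Subtype.ext (congrArg (fun x : J => (x : ι)) h))

end Pool.Agent.H97G
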