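import Pool.Agent.H97F.Finite2
import Pool.Agent.H97G.Defs

/-!
# (G6) Finite configurations over an extension exist over the algebraically closed ground field
-/

set_option autoImplicit false

namespace Pool.Agent.H97G

open MvPolynomial Pool.Agent.H97F Pool.Agent.H97F.Fin9

namespace Dwn

theorem exists_hom (K R : Type) [Field K] [IsAlgClosed K] [CommRing R] [Algebra K R]
    [Nontrivial R] [Algebra.FiniteType K R] : Nonempty (R →ₐ[K] K) := by
  obtain ⟨M, hM⟩ := Ideal.exists_maximal R
  let _ : Field (R ⧸ M) := Ideal.Quotient.field M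
  have h1 : Algebra.FiniteType K (R ⧸ M) :=
    Algebra.FiniteType.of_surjective (Ideal.Quotient.mkₐ K M) (Ideal.Quotient.mkₐ_surjective K M)
  have h2 : Module.Finite K (R ⧸ M) := finite_of_finite_type_of_isJacobsonRing K (R ⧸ M)
  have hb : Function.Bijective (algebraMap K (R ⧸ M)) :=
    IsAlgClosed.algebraMap_bijective_of_isIntegral
  exact ⟨(AlgEquiv.ofBijective (Algebra.ofId K (R ⧸ M)) hb).symm.toAlgHom.comp
    (Ideal.Quotient.mkₐ K M)⟩

theorem exists_lift {k : ℕ} {K Ω : Type} [Field K] [Field Ω] [Algebra K Ω] (R : Subalgebra K Ω)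
    (v : Vx k Ω) (h : ∀ i, Sum.elim id id v i ∈ R) :
    ∃ w : Vx k R, vm (k := k) (algebraMap R Ω) w = v := by
  rcases v with p | l
  · exact ⟨Sum.inl fun i => ⟨p i, h i⟩, rfl⟩
  · exact ⟨Sum.inr fun i => ⟨l i, h i⟩, rfl⟩

end Dwn

/-- (G6) -/
theorem ldown : LDown := by
  intro K _ _ Ω _ _ k A W
  classical
  -- the finite set of the coordinates
  let C : Finset Ω := W.biUnion fun v => Finset.univ.image fun i : Fin k => Sum.elim id id v i
  have hC : ∀ v ∈ W, ∀ i, Sum.elim id id v i ∈ C := by
    intro v hv i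
    exact Finset.mem_biUnion.2 ⟨v, hv, Finset.mem_image_of_mem _ (Finset.mem_univ i)⟩
  let D : Finset Ω := (C ×ˢ C).image fun z => (z.1 - z.2)⁻¹
  let R : Subalgebra K Ω := Algebra.adjoin K ((C ∪ D : Finset Ω) : Set Ω)
  have hRC : ∀ x ∈ C, x ∈ R := fun x hx =>
    Algebra.subset_adjoin (Finset.mem_coe.2 (Finset.mem_union_left _ hx))
  have hRD : ∀ x ∈ C, ∀ y ∈ C, (x - y)⁻¹ ∈ R := fun x hx y hy =>
    Algebra.subset_adjoin (Finset.mem_coe.2 (Finset.mem_union_right _
      (Finset.mem_image.2 ⟨(x, y), Finset.mem_product.2 ⟨hx, hy⟩, rfl⟩)))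
  have hFG : Algebra.FiniteType K R :=
    (Subalgebra.fg_iff_finiteType _).1 ⟨C ∪ D, rfl⟩
  obtain ⟨φ⟩ := Dwn.exists_hom K R
  have hw : ∀ v : Vx k Ω, v ∈ W → ∃ w : Vx k R, vm (k := k) (algebraMap R Ω) w = v :=
    fun v hv => Dwn.exists_lift R v fun i => hRC _ (hC v hv i)
  choose! w hw using hw
  refine ⟨fun v => vm (k := k) φ (w v), ?_, ?_⟩
  · intro x hx y hy hxy
    by_contra hne
    replace hxy : vm (k := k) φ (w x) = vm (k := k) φ (w y) := hxy
    have hwne : w x ≠ w y := fun h => hne (by rw [← hw x hx, ← hw y hy, h])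
    -- the coordinates
    have key : ∀ p p' : Fin k → R, (∀ i, (p i : Ω) ∈ C) → (∀ i, (p' i : Ω) ∈ C) → p ≠ p' →
        (fun j => φ (p j)) ≠ (fun j => φ (p' j)) := by
      intro p p' hp hp' hpp h
      obtain ⟨j, hj⟩ := Function.ne_iff.1 hpp
      have h1 : φ (p j) = φ (p' j) := congrFun h j
      have h2 : ((p j : Ω) - (p' j : Ω)) ≠ 0 := fun h0 => hj (Subtype.ext (sub_eq_zero.1 h0))
      let z : R := ⟨((p j : Ω) - (p' j : Ω))⁻¹, hRD _ (hp j) _ (hp' j)⟩
      have h3 : (p j - p' j) * z = 1 := Subtype.ext (mul_inv_cancel₀ h2)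
      have h4 := congrArg φ h3
      rw [map_mul, map_sub, h1, sub_self, zero_mul, map_one] at h4
      exact zero_ne_one h4
    have hcx : ∀ i, algebraMap R Ω (Sum.elim id id (w x) i) ∈ C := by
      intro i
      have h := hC x hx i
      have hwx := hw x hx
      generalize w x = a at hwx
      subst hwx
      rcases a with a | a
      · exact h
      · exact h
    have hcy : ∀ i, algebraMap R Ω (Sum.elim id id (w y) i) ∈ C := by
      intro i
      have h := hC y hy i
      have hwx := hw y hy
      generalize w y = a at hwx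
      subst hwx
      rcases a with a | a
      · exact h
      · exact h
    generalize w x = a at hxy hwne hcx
    generalize w y = b at hxy hwne hcy
    rcases a with a | a <;> rcases b with b | b
    · exact key a b hcx hcy (fun h => hwne (congrArg _ h)) (Sum.inl.inj hxy)
    · cases hxy
    · cases hxy
    · exact key a b hcx hcy (fun h => hwne (congrArg _ h)) (Sum.inr.inj hxy)
  · intro x hx y hy hadj
    have e1 : (A.map (algebraMap K R)).map (algebraMap R Ω) = A.map (algebraMap K Ω) := by
      unfold ADG.map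
      congr 1
      funext i
      show MvPolynomial.map _ (MvPolynomial.map _ _) = _
      rw [MvPolynomial.map_map, ← IsScalarTower.algebraMap_eq]
    have e2 : (A.map (algebraMap K R)).map (φ : R →+* K) = A := by
      unfold ADG.map
      cases A with
      | mk f =>
        congr 1
        funext i
        show MvPolynomial.map _ (MvPolynomial.map _ _) = _
        rw [MvPolynomial.map_map]
        have : (φ : R →+* K).comp (algebraMap K R) = RingHom.id K := by
          ext a
          exact φ.commutes a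
        rw [this, MvPolynomial.map_id]
    have h1 : ((A.map (algebraMap K R)).map (algebraMap R Ω)).graph.Adj
        (vm (algebraMap R Ω) (w x)) (vm (algebraMap R Ω) (w y)) := by
      rw [e1, hw x hx, hw y hy]
      exact hadj
    have h2 := adj_map_of (A.map (algebraMap K R)) (algebraMap R Ω) Subtype.val_injective _ _ h1
    have h3 := adj_map (A.map (algebraMap K R)) (φ : R →+* K) _ _ h2
    rw [e2] at h3
    exact h3

end Pool.Agent.H97G
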