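import Pool.Agent.H97F.Finite2
import Pool.Agent.H97G.Defs

/-!
# (G9) The conclusion for finite fields, for two patterns
-/

set_option autoImplicit false

namespace Pool.Agent.H97G

open MvPolynomial Pool.Agent.H97F Pool.Agent.H97F.Fin9

namespace FinP

variable {K : ℕ → Type} [∀ n, Field (K n)] {k : ℕ}

/-- a pattern in the graph over the limit field occurs for some `n`, over an extension of bounded
degree -/
theorem one {α : Type} [Finite α] (H : SimpleGraph α) {Q : Type} [Field Q] (π : BB K →+* Q)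
    (hs : Function.Surjective π)
    (hπ : ∀ x, π x = 0 ↔ ∀ᶠ n in (Filter.hyperfilter ℕ : Filter ℕ), ev K n x = 0)
    (A : ∀ n, ADG k (K n)) (Ab : ADG k (BB K))
    (hAb : ∀ n, Ab.map (ev K n) = (A n).map (algebraMap (K n) (AlgebraicClosure (K n))))
    (hc : H.IsContained (Ab.map π).graph) :
    ∃ (n : ℕ) (L : IntermediateField (K n) (AlgebraicClosure (K n))),
      FiniteDimensional (K n) L ∧ Module.finrank (K n) L ≤ n ∧
        H.IsContained ((A n).map (algebraMap (K n) L)).graph := by
  classical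
  cases nonempty_fintype α
  obtain ⟨φ⟩ := hc
  choose g hg using hs
  let ψ : α → (Fin k → BB K) ⊕ (Fin k → BB K) := fun v => vm g (φ v)
  have hψ : ∀ v, vm π (ψ v) = φ v := by
    intro v
    show vm π (vm g (φ v)) = φ v
    rcases φ v with p | l
    · exact congrArg Sum.inl (funext fun j => hg _)
    · exact congrArg Sum.inr (funext fun j => hg _)
  have e1 : ∀ᶠ n in (Filter.hyperfilter ℕ : Filter ℕ), ∀ u v : α,
      H.Adj u v → (Ab.map (ev K n)).graph.Adj (vm (ev K n) (ψ u)) (vm (ev K n) (ψ v)) := by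
    rw [Filter.eventually_all]
    intro u
    rw [Filter.eventually_all]
    intro v
    by_cases huv : H.Adj u v
    · have h1 : (Ab.map π).graph.Adj (vm π (ψ u)) (vm π (ψ v)) := by
        rw [hψ, hψ]
        exact φ.toHom.map_adj huv
      filter_upwards [adj_ev π hπ Ab _ _ h1] with n hn _
      exact hn
    · exact Filter.Eventually.of_forall fun n h3 => absurd h3 huv
  have e2 : ∀ᶠ n in (Filter.hyperfilter ℕ : Filter ℕ), ∀ u v : α, u ≠ v →
        vm (ev K n) (ψ u) ≠ vm (ev K n) (ψ v) := by
    rw [Filter.eventually_all]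
    intro u
    rw [Filter.eventually_all]
    intro v
    by_cases huv : u ≠ v
    · have h1 : vm π (ψ u) ≠ vm π (ψ v) := by
        rw [hψ, hψ]
        exact fun h => huv (φ.injective h)
      filter_upwards [ne_ev π hπ _ _ h1] with n hn _
      exact hn
    · exact Filter.Eventually.of_forall fun n h3 => absurd h3 huv
  obtain ⟨e, he⟩ := Bd.fam (K := K) (Finset.univ : Finset (α × Fin k))
    (fun i => ((cd (ψ i.1) i.2 : BB K) : ∀ n, AlgebraicClosure (K n)))
    (fun i => (cd (ψ i.1) i.2).2)
  have e3 : ∀ᶠ n in (Filter.hyperfilter ℕ : Filter ℕ), e ≤ n :=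
    Nat.hyperfilter_le_atTop (Filter.eventually_ge_atTop e)
  obtain ⟨n, ⟨hn1, hn2⟩, hn3⟩ := ((e1.and e2).and e3).exists
  obtain ⟨L, g1, g2, g3⟩ := he n
  refine ⟨n, L, g1, g2.trans hn3, ?_⟩
  -- the vertices over `L`
  have hw : ∀ v, ∃ w : (Fin k → L) ⊕ (Fin k → L),
      vm (algebraMap L (AlgebraicClosure (K n))) w = vm (ev K n) (ψ v) := by
    intro v
    have h4 : ∀ i, ev K n (cd (ψ v) i) ∈ L := fun i => g3 (v, i) (Finset.mem_univ _)
    generalize ψ v = x at h4
    rcases x with p | l
    · exact ⟨Sum.inl fun i => ⟨_, h4 i⟩, rfl⟩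
    · exact ⟨Sum.inr fun i => ⟨_, h4 i⟩, rfl⟩
  choose w hw using hw
  have hmap : ((A n).map (algebraMap (K n) L)).map (algebraMap L (AlgebraicClosure (K n))) =
      Ab.map (ev K n) := by
    rw [hAb]
    unfold ADG.map
    congr 1
    funext i
    show MvPolynomial.map _ (MvPolynomial.map _ _) = _
    rw [MvPolynomial.map_map]
    rfl
  refine ⟨⟨⟨w, fun {u v} huv => ?_⟩, fun u v huv => ?_⟩⟩
  · apply adj_map_of _ (algebraMap L (AlgebraicClosure (K n))) (algebraMap L _).injective
    rw [hmap, hw, hw]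
    exact hn1 u v huv
  · by_contra hne
    apply hn2 u v hne
    rw [← hw, ← hw]
    exact congrArg _ huv

end FinP

/-- one of the two patterns occurs over some extension of bounded degree -/
theorem fin0 (α β : Type) [Finite α] [Finite β] (H₁ : SimpleGraph α) (H₂ : SimpleGraph β)
    (k : ℕ) (hC : ∀ (K : Type) [Field K] [IsAlgClosed K] [CharZero K] (A : ADG k K),
      H₁.IsContained A.graph ∨ H₂.IsContained A.graph) (D : ℕ) :
    ∃ M : ℕ, ∀ (K : Type) [Field K] [Finite K], M ≤ ringChar K → ∀ A : ADG k K,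
      (∀ i, (A.f i).totalDegree ≤ D) →
      ∃ (L : Type) (_ : Field L) (_ : Finite L) (_ : Algebra K L), Module.finrank K L ≤ M ∧
        (H₁.IsContained (A.map (algebraMap K L)).graph ∨
          H₂.IsContained (A.map (algebraMap K L)).graph) := by
  by_contra hcon
  push Not at hcon
  choose K hfield hfin hchar A hA hno using hcon
  obtain ⟨Q, _, _, _, π, hs, hπ⟩ := exists_Q K hchar
  obtain ⟨Ab, hAb⟩ := exists_adg D A hA
  rcases hC Q (Ab.map π) with h | h
  · obtain ⟨n, L, g1, g2, g3⟩ := FinP.one H₁ π hs hπ A Ab hAb h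
    have : Finite L := Module.finite_of_finite (K n)
    exact g3.elim (hno n L inferInstance this inferInstance g2).1.false
  · obtain ⟨n, L, g1, g2, g3⟩ := FinP.one H₂ π hs hπ A Ab hAb h
    have : Finite L := Module.finite_of_finite (K n)
    exact g3.elim (hno n L inferInstance this inferInstance g2).2.false

/-- (G9) -/
theorem lfin : LFin := by
  intro α β _ _ H₁ H₂ k hC D
  obtain ⟨M₀, hM₀⟩ := fin0 α β H₁ H₂ k (fun K _ _ _ A => hC K A) D
  refine ⟨M₀.factorial, Nat.factorial_pos _, fun K _ _ hchar A hA L _ _ _ hdvd => ?_⟩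
  obtain ⟨L', _, _, _, hfin, hj⟩ := hM₀ K ((Nat.self_le_factorial M₀).trans hchar) A hA
  have hfd : Module.Finite K L' := Module.Finite.of_finite
  have hdvd' : Module.finrank K L' ∣ Module.finrank K L :=
    (Nat.dvd_factorial Module.finrank_pos hfin).trans hdvd
  have hfd2 : Module.Finite K L := Module.Finite.of_finite
  obtain ⟨φ⟩ := FiniteField.nonempty_algHom_of_finrank_dvd hdvd'
  have e : (A.map (algebraMap K L')).map (φ : L' →+* L) = A.map (algebraMap K L) := by
    unfold ADG.map
    congr 1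
    funext i
    show MvPolynomial.map _ (MvPolynomial.map _ _) = _
    rw [MvPolynomial.map_map, AlgHom.comp_algebraMap]
  rcases hj with hj | hj
  · left
    have h := contained_map _ (A.map (algebraMap K L')) (φ : L' →+* L) φ.toRingHom.injective hj
    rwa [e] at h
  · right
    have h := contained_map _ (A.map (algebraMap K L')) (φ : L' →+* L) φ.toRingHom.injective hj
    rwa [e] at h

end Pool.Agent.H97G
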