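import Mathlib
import Pool.Agent.H97G.Defs
import Pool.Agent.H97G.LCop
/-!
# (G2) purity
-/

set_option autoImplicit false

namespace Pool.Agent.H97G

open MvPolynomial

namespace Pure

theorem encard_range {α β : Type} [Fintype α] {f : α → β} (hf : Function.Injective f) :
    (Set.range f).encard = Fintype.card α := by
  rw [← Set.image_univ, hf.encard_image, Set.encard_univ, ENat.card_eq_coe_fintype_card]

theorem comp_ae {K R S ι : Type} [Field K] [CommRing R] [Algebra K R] [CommRing S] [Algebra K S]
    (ψ : R →ₐ[K] S) (a : ι → R) (p : MvPolynomial ι K) : aeval (fun i => ψ (a i)) p = ψ (aeval a p) := by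
  have : aeval (fun i => ψ (a i)) = ψ.comp (aeval a) := by
    apply MvPolynomial.algHom_ext
    intro i
    simp
  rw [this]
  rfl

section rank

variable {K Ω ι : Type} [Field K] [Field Ω] [Algebra K Ω] [Fintype ι]

theorem le_trk (a : ι → Ω) (k : ι)
    (hind : AlgebraicIndependent K (fun j : {j : ι // j ≠ k} => a j)) :
    Fintype.card ι ≤ trk K (Set.range a) + 1 := by
  classical
  have h1 : (AlgebraicIndependent.matroid K Ω).Indep (Set.range (fun j : {j : ι // j ≠ k} => a j)) :=
    AlgebraicIndependent.matroid_indep_iff.2 hind.coe_range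
  have h2 := h1.encard_le_eRk_of_subset (X := Set.range a) (by
    rintro _ ⟨j, rfl⟩
    exact ⟨j.1, rfl⟩)
  have h3 : (AlgebraicIndependent.matroid K Ω).eRk (Set.range a) ≠ ⊤ := by
    have h4 := (AlgebraicIndependent.matroid K Ω).eRk_le_encard (Set.range a)
    have h5 : (Set.range a).encard < ⊤ := (Set.finite_range a).encard_lt_top
    exact (lt_of_le_of_lt h4 h5).ne
  have h4 : (Set.range (fun j : {j : ι // j ≠ k} => a j)).encard = Fintype.card {j : ι // j ≠ k} := by
    rw [encard_range hind.injective]
  have h5 := ENat.toNat_le_toNat h2 h3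
  rw [h4, ENat.toNat_natCast] at h5
  have h6 : Fintype.card ι = Fintype.card {j : ι // j ≠ k} + 1 := by
    rw [Fintype.card_congr (Equiv.optionSubtypeNe k).symm, Fintype.card_option]
  unfold trk
  omega

theorem trk_le (a : ι → Ω) : trk K (Set.range a) ≤ Fintype.card ι := by
  obtain ⟨J, hJ, -, -⟩ := Cop.exists_basis (K := K) a
  rw [← hJ]
  exact Finset.card_le_univ J

theorem indep_of_card (a : ι → Ω) (h : Fintype.card ι ≤ trk K (Set.range a)) : AlgebraicIndependent K a := by
  classical
  obtain ⟨J, hJ, hind, -⟩ := Cop.exists_basis (K := K) a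
  rw [← hJ] at h
  have h1 : J = Finset.univ := Finset.eq_univ_of_card J (le_antisymm (Finset.card_le_univ J) h)
  exact hind.comp (fun i : ι => (⟨i, by rw [h1]; exact Finset.mem_univ i⟩ : J)) (by
    intro i j h
    exact congrArg (fun x : J => (x : ι)) h)

end rank

/-- a generic point of a hypersurface -/
theorem generic (hcop : LCop) {K Ω ι : Type} [Field K] [Field Ω] [Algebra K Ω] [Fintype ι]
    (hbig : Big K Ω) (e h : MvPolynomial ι K) (he : Irreducible e) (hv : e.vars.Nonempty) (hh : ¬ e ∣ h) :
    ∃ a : ι → Ω, aeval a e = 0 ∧ aeval a h ≠ 0 ∧ trk K (Set.range a) + 1 = Fintype.card ι := by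
  classical
  obtain ⟨k, hk⟩ := hv
  obtain ⟨t, ht⟩ := hbig.inf
  have := hbig.closed
  let f : {j : ι // j ≠ k} → ℕ := fun j => (Fintype.equivFin {j : ι // j ≠ k} j : ℕ)
  have hf : Function.Injective f := fun i j hij =>
    (Fintype.equivFin {j : ι // j ≠ k}).injective (Fin.ext hij)
  let τ : {j : ι // j ≠ k} → Ω := t ∘ f
  have hτ : AlgebraicIndependent K τ := ht.comp f hf
  let ee : ι ≃ Option {j : ι // j ≠ k} := (Equiv.optionSubtypeNe k).symm
  let E : MvPolynomial ι K ≃ₐ[K] Polynomial (MvPolynomial {j : ι // j ≠ k} K) :=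
    (MvPolynomial.renameEquiv K ee).trans (MvPolynomial.optionEquivLeft K {j : ι // j ≠ k})
  let φ : MvPolynomial {j : ι // j ≠ k} K →+* Ω := (aeval τ : MvPolynomial {j : ι // j ≠ k} K →ₐ[K] Ω).toRingHom
  have hφ : Function.Injective φ := hτ
  have hdeg : ((E e).map φ).natDegree ≠ 0 := by
    rw [Polynomial.natDegree_map_eq_of_injective hφ]
    have h1 : (E e).natDegree = (rename ee e).degreeOf none := by
      show (MvPolynomial.optionEquivLeft K {j : ι // j ≠ k} (rename ee e)).natDegree = _
      rw [natDegree_optionEquivLeft]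
    have h2 : ee k = none := by simp [ee]
    rw [h1, ← h2, degreeOf_rename_of_injective ee.injective]
    exact mem_vars_iff_degreeOf_ne_zero.1 hk
  obtain ⟨z, hz⟩ := IsAlgClosed.exists_root ((E e).map φ) (by
    intro h0
    exact hdeg (Polynomial.natDegree_eq_of_degree_eq_some h0))
  let a : ι → Ω := fun j => if hj : j = k then z else τ ⟨j, hj⟩
  have hak : a k = z := by simp [a]
  have haj : ∀ j : {j : ι // j ≠ k}, a j = τ j := by
    intro j
    simp [a, j.2]
  have hE : ∀ r : MvPolynomial ι K, aeval a r = (E r).eval₂ φ z := by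
    intro r
    induction r using MvPolynomial.induction_on with
    | C r => simp [E, φ]
    | add p q hp hq => rw [map_add, hp, hq, map_add, Polynomial.eval₂_add]
    | mul_X p i hp =>
      rw [map_mul, hp, map_mul, Polynomial.eval₂_mul]
      congr 1
      rw [aeval_X]
      by_cases hi : i = k
      · subst hi
        have h1 : ee i = none := by simp [ee]
        simp [E, h1, hak]
      · have h1 : ee i = some ⟨i, hi⟩ := by simp [ee, hi]
        have h2 := haj ⟨i, hi⟩
        simp only at h2
        simp [E, h1, h2, φ]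
  have hae : aeval a e = 0 := by
    rw [hE, ← Polynomial.eval_map]
    exact hz
  have hind : AlgebraicIndependent K (fun j : {j : ι // j ≠ k} => a j) := by
    have : (fun j : {j : ι // j ≠ k} => a j) = τ := funext haj
    rw [this]
    exact hτ
  have h1 := le_trk a k hind
  have h2 := trk_le (K := K) a
  have h3 : ¬ Fintype.card ι ≤ trk K (Set.range a) := by
    intro h4
    have h5 := indep_of_card a h4
    exact he.ne_zero (h5.eq_zero_of_aeval_eq_zero e hae)
  refine ⟨a, hae, fun h0 => ?_, by omega⟩
  have h4 := hcop K Ω ι e h ((he.isRelPrime_iff_not_dvd).2 hh) a hae h0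
  omega

/-- the generators are rational functions of the values -/
theorem rational {K Ω ι : Type} [Field K] [CharZero K] [Field Ω] [Algebra K Ω] [Fintype ι]
    (hbig : Big K Ω) (A : ι → MvPolynomial ι K) (a : ι → Ω) (ha : AlgebraicIndependent K a)
    (hA : AlgebraicIndependent K (fun i => aeval a (A i)))
    (huniq : ∀ b : ι → Ω, AlgebraicIndependent K b → (∀ i, aeval b (A i) = aeval a (A i)) → b = a) (i : ι) :
    a i ∈ IntermediateField.adjoin K (Set.range fun i => aeval a (A i)) := by
  classical
  have hcl := hbig.closed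
  obtain ⟨E, hEdef⟩ : ∃ E : IntermediateField K Ω, E = IntermediateField.adjoin K (Set.range fun i => aeval a (A i)) :=
    ⟨_, rfl⟩
  rw [← hEdef]
  -- every coordinate is algebraic over `E`
  have halg : ∀ j, IsAlgebraic E (a j) := by
    intro j
    let M := AlgebraicIndependent.matroid K Ω
    have hI : M.Indep (Set.range fun i => aeval a (A i)) := AlgebraicIndependent.matroid_indep_iff.2 hA.coe_range
    have hsub : (Set.range fun i => aeval a (A i)) ⊆ M.closure (Set.range a) := by
      rintro _ ⟨i, rfl⟩
      show aeval a (A i) ∈ M.closure (Set.range a)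
      rw [AlgebraicIndependent.matroid_closure_eq]
      have h1 : aeval a (A i) ∈ Algebra.adjoin K (Set.range a) := by
        rw [Algebra.adjoin_range_eq_range_aeval]
        exact ⟨A i, rfl⟩
      exact isAlgebraic_algebraMap (⟨_, h1⟩ : Algebra.adjoin K (Set.range a))
    have hcard : (Set.range fun i => aeval a (A i)).encard = Fintype.card ι := by
      rw [encard_range hA.injective]
    have hle : M.eRk ((Set.range fun i => aeval a (A i)) ∪ Set.range a) ≤ M.eRk (Set.range fun i => aeval a (A i)) := by
      rw [hI.eRk_eq_encard, hcard]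
      calc M.eRk ((Set.range fun i => aeval a (A i)) ∪ Set.range a) ≤ M.eRk (M.closure (Set.range a)) := by
            apply M.eRk_mono
            apply Set.union_subset hsub
            exact M.subset_closure _ (by intro x _; trivial)
        _ = M.eRk (Set.range a) := M.eRk_closure_eq _
        _ ≤ (Set.range a).encard := M.eRk_le_encard _
        _ ≤ Fintype.card ι := by
            rw [encard_range ha.injective]
    have hfin : M.IsRkFinite (Set.range fun i => aeval a (A i)) := M.isRkFinite_of_finite (Set.finite_range _)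
    have h1 := hfin.closure_eq_closure_of_subset_of_eRk_ge_eRk Set.subset_union_left hle
    have h2 : a j ∈ M.closure (Set.range fun i => aeval a (A i)) := by
      rw [h1]
      exact M.mem_closure_of_mem' (Or.inr ⟨j, rfl⟩) (by trivial)
    rw [AlgebraicIndependent.matroid_closure_eq] at h2
    have h3 : IsAlgebraic (Algebra.adjoin K (Set.range fun i => aeval a (A i))) (a j) := h2
    have hle2 : Algebra.adjoin K (Set.range fun i => aeval a (A i)) ≤ E.toSubalgebra := by
      rw [hEdef]
      exact IntermediateField.algebra_adjoin_le_adjoin K _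
    obtain ⟨p, hp0, hp⟩ := h3
    refine ⟨p.map (Subalgebra.inclusion hle2).toRingHom, ?_, ?_⟩
    · intro h0
      apply hp0
      exact (Polynomial.map_injective _ (Subalgebra.inclusion_injective hle2)) (by rw [h0, Polynomial.map_zero])
    · rw [Polynomial.aeval_def, Polynomial.eval₂_map]
      exact hp
  by_contra hi
  let F := algebraicClosure E Ω
  have : IsGalois E F := inferInstance
  have hmem : ∀ j, a j ∈ F := fun j => (mem_algebraicClosure_iff).2 (halg j)
  have hnot : (⟨a i, hmem i⟩ : F) ∉ (⊥ : IntermediateField E F) := by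
    intro h
    rw [IntermediateField.mem_bot] at h
    obtain ⟨x, hx⟩ := h
    apply hi
    have h2 : (algebraMap E F x : Ω) = a i := congrArg Subtype.val hx
    rw [← h2]
    exact x.2
  rw [InfiniteGalois.mem_bot_iff_fixed] at hnot
  push Not at hnot
  obtain ⟨σ, hσ⟩ := hnot
  let ψ : F →ₐ[K] Ω := ((F.val).comp (σ : F →ₐ[E] F)).restrictScalars K
  have hψ : Function.Injective ψ := ψ.toRingHom.injective
  let a' : ι → F := fun j => ⟨a j, hmem j⟩
  have ha' : AlgebraicIndependent K a' := by
    apply AlgebraicIndependent.of_comp (F.val.restrictScalars K)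
    exact ha
  have hb := ha'.map' hψ
  have h1 := huniq (ψ ∘ a') hb (by
    intro j
    have h2 : aeval (ψ ∘ a') (A j) = ψ (aeval a' (A j)) := comp_ae ψ a' (A j)
    have h3 : (F.val.restrictScalars K) (aeval a' (A j)) = aeval a (A j) :=
      (comp_ae (F.val.restrictScalars K) a' (A j)).symm
    have h4 : aeval a (A j) ∈ E := by
      rw [hEdef]
      exact IntermediateField.subset_adjoin K _ ⟨j, rfl⟩
    have h5 : aeval a' (A j) = algebraMap E F ⟨aeval a (A j), h4⟩ := Subtype.ext h3
    rw [h2, h5]
    show ((σ (algebraMap E F ⟨aeval a (A j), h4⟩) : F) : Ω) = _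
    rw [AlgEquiv.commutes]
    rfl)
  apply hσ
  have h2 := congrFun h1 i
  exact Subtype.ext h2

end Pure

theorem lpure : LPure := by
  classical
  intro hcop K _ _ _ Ω _ _ hbig ι _ A h ⟨a, ha, hA, huniq⟩ ⟨a₁, a₂, h1, h2, h12, hne⟩
  have haev : ∀ (b : ι → Ω) (s : MvPolynomial ι K), aeval b (bind₁ A s) = aeval (fun i => aeval b (A i)) s :=
    fun b s => aeval_bind₁ _ _ _
  have hev : ∀ (b : ι → K) (s : MvPolynomial ι K), eval b (bind₁ A s) = eval (fun i => eval b (A i)) s := by
    intro b s
    have := aeval_bind₁ b A s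
    simpa [MvPolynomial.coe_aeval_eq_eval] using this
  have hbinj : ∀ s : MvPolynomial ι K, bind₁ A s = 0 → s = 0 := by
    intro s hs
    apply hA.eq_zero_of_aeval_eq_zero
    rw [← haev, hs, map_zero]
  -- the rational functions
  have hrat : ∀ i, ∃ r g : MvPolynomial ι K, IsRelPrime r g ∧ r ≠ 0 ∧ X i * bind₁ A r = bind₁ A g := by
    intro i
    have h3 := Pure.rational hbig A a ha hA huniq i
    rw [IntermediateField.mem_adjoin_range_iff] at h3
    obtain ⟨g, r, hgr⟩ := h3
    have hr0 : aeval (fun i => aeval a (A i)) r ≠ 0 := by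
      intro h0
      rw [h0, div_zero] at hgr
      have h4 := ha.eq_zero_of_aeval_eq_zero (X i) (by rw [aeval_X, hgr])
      exact X_ne_zero i h4
    have hr : r ≠ 0 := by
      rintro rfl
      exact hr0 (map_zero _)
    have h5 : X i * bind₁ A r = bind₁ A g := by
      have h6 : aeval a (X i * bind₁ A r - bind₁ A g) = 0 := by
        rw [map_sub, map_mul, aeval_X, haev, haev, hgr, div_mul_cancel₀ _ hr0, sub_self]
      exact sub_eq_zero.1 (ha.eq_zero_of_aeval_eq_zero _ h6)
    obtain ⟨r', g', c, hrel, e1, e2⟩ := UniqueFactorizationMonoid.exists_reduced_factors r hr g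
    refine ⟨r', g', hrel, ?_, ?_⟩
    · rintro rfl
      rw [mul_zero] at e1
      exact hr e1.symm
    · have hc : bind₁ A c ≠ 0 := by
        intro h0
        have := hbinj c h0
        rw [this, zero_mul] at e1
        exact hr e1.symm
      apply mul_left_cancel₀ hc
      rw [← map_mul, e2, ← h5, ← e1, map_mul]
      ring
  obtain ⟨i, hi⟩ : ∃ i, a₁ i ≠ a₂ i := by
    by_contra hcon
    push Not at hcon
    exact hne (funext hcon)
  obtain ⟨r, g, hrel, hr, hrg⟩ := hrat i
  have hR : eval a₁ (bind₁ A r) = 0 := by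
    have e1 := congrArg (eval a₁) hrg
    have e2 := congrArg (eval a₂) hrg
    rw [map_mul, eval_X, hev a₁ r, hev a₁ g] at e1
    rw [map_mul, eval_X, hev a₂ r, hev a₂ g] at e2
    have e3 : (fun i => eval a₁ (A i)) = fun i => eval a₂ (A i) := funext h12
    rw [e3] at e1
    rw [hev, e3]
    have e4 : (a₁ i - a₂ i) * eval (fun i => eval a₂ (A i)) r = 0 := by
      rw [sub_mul, e1, e2, sub_self]
    rcases mul_eq_zero.1 e4 with h | h
    · exact absurd (sub_eq_zero.1 h) hi
    · exact h
  have hR0 : bind₁ A r ≠ 0 := fun h0 => hr (hbinj r h0)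
  obtain ⟨e, he, heR, hea⟩ : ∃ e, Irreducible e ∧ e ∣ bind₁ A r ∧ eval a₁ e = 0 := by
    obtain ⟨f, hf, hfp⟩ := WfDvdMonoid.exists_factors (bind₁ A r) hR0
    have h1 : (f.map (eval a₁)).prod = 0 := by
      rw [← map_multiset_prod]
      obtain ⟨u, hu⟩ := hfp
      have h3 : (eval a₁) (f.prod * u) = 0 := by rw [hu]; exact hR
      rw [map_mul] at h3
      rcases mul_eq_zero.mp h3 with h | h
      · exact h
      · exact absurd h (u.isUnit.map (eval a₁)).ne_zero
    obtain ⟨e, hef, he0⟩ := Multiset.mem_map.mp (Multiset.prod_eq_zero_iff.mp h1)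
    exact ⟨e, hf e hef, (Multiset.dvd_prod hef).trans hfp.dvd, he0⟩
  have heh : ¬ e ∣ h := by
    rintro ⟨q, rfl⟩
    rw [map_mul, hea, zero_mul] at h1
    exact h1 rfl
  have hev' : e.vars.Nonempty := by
    rw [Finset.nonempty_iff_ne_empty]
    intro h0
    rw [vars_eq_empty_iff_eq_C] at h0
    rw [h0, eval_C] at hea
    rw [hea, C_0] at h0
    exact he.ne_zero h0
  obtain ⟨b, hb1, hb2, hb3⟩ := Pure.generic hcop hbig e h he hev' heh
  refine ⟨b, hb2, hb3, ?_⟩
  have hRb : aeval b (bind₁ A r) = 0 := by
    obtain ⟨q, hq⟩ := heR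
    rw [hq, map_mul, hb1, zero_mul]
  refine hcop K Ω ι r g hrel (fun i => aeval b (A i)) ?_ ?_
  · rw [← haev, hRb]
  · rw [← haev, ← hrg, map_mul, hRb, mul_zero]

end Pool.Agent.H97G
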