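import Pool.Agent.H97G.Basic

/-!
# `U`-paths
-/

set_option autoImplicit false

namespace Pool.Agent.H97G

namespace UPa

section

variable {V : Type} [DecidableEq V] {R : RG V}

/-! ### generic continuation of a walk -/

/-- generic continuation -/
theorem extend (R : RG V) (w : ℕ → V) (b : ℕ) (F : Finset V) (L : ℕ) : ∃ u : ℕ → V,
    (∀ i, i ≤ b → u i = w i) ∧
      ∀ i, b ≤ i → i < b + L → R.G.Adj (u i) (u (i + 1)) ∧ ¬ Cl R.rk (F ∪ vs u i) (u (i + 1)) := by
  induction L with
  | zero => exact ⟨w, fun _ _ => rfl, fun i h1 h2 => by omega⟩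
  | succ L ih =>
    obtain ⟨u, h1, h2⟩ := ih
    obtain ⟨y, hy1, hy2⟩ := exists_gen' R (S := F ∪ vs u (b + L)) (v := u (b + L))
      (Finset.mem_union_right _ (mem_vs_of le_rfl))
    refine ⟨fun i => if i ≤ b + L then u i else y, fun i hi => ?_, fun i hi hi' => ?_⟩
    · simp only [(by omega : i ≤ b + L), if_true]
      exact h1 i hi
    · have hv : vs (fun i => if i ≤ b + L then u i else y) i = vs u i := by
        refine vs_congr fun t ht => ?_
        simp only [(by omega : t ≤ b + L), if_true]
      rw [hv]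
      rcases Nat.lt_or_ge i (b + L) with h | h
      · simp only [h.le, (by omega : i + 1 ≤ b + L), if_true]
        exact h2 i hi h
      · have : i = b + L := by omega
        subst this
        have e1 : (if b + L + 1 ≤ b + L then u (b + L + 1) else y) = y := if_neg (by omega)
        have e2 : (if b + L ≤ b + L then u (b + L) else y) = u (b + L) := if_pos le_rfl
        simp only [e1, e2]
        exact ⟨hy1, hy2⟩

/-- ranks of a generic continuation -/
theorem extend_rk {u : ℕ → V} {b L : ℕ} {F G : Finset V} (hG : G ⊆ F)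
    (h : ∀ i, b ≤ i → i < b + L → R.G.Adj (u i) (u (i + 1)) ∧
      ¬ Cl R.rk (F ∪ vs u i) (u (i + 1))) (j : ℕ) (hj : j ≤ L) :
    R.rk (G ∪ vs u (b + j)) = R.rk (G ∪ vs u b) + j := by
  induction j with
  | zero => rfl
  | succ j ih =>
    obtain ⟨h1, h2⟩ := h (b + j) (by omega) (by omega)
    have e : G ∪ vs u (b + (j + 1)) = insert (u (b + j + 1)) (G ∪ vs u (b + j)) := by
      rw [← add_assoc, vs_succ, Finset.union_insert]
    rw [e, rk_insert_of_adj R (Finset.mem_union_right _ (mem_vs_of le_rfl)) h1
      (fun hc => h2 (cl_mono R (Finset.union_subset_union_left hG) hc)), ih (by omega)]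
    omega

/-! ### the facts (a), (b), (c) -/

variable {k n : ℕ} {w : ℕ → V}

theorem inj_shift (h : UP R w n) {i j : ℕ} (hij : i + j ≤ n) :
    Set.InjOn (fun t => w (i + t)) (Set.Iic j) := by
  intro s hs t ht hst
  simp only [Set.mem_Iic] at hs ht
  have := h.2.1 (Set.mem_Iic.2 (by omega : i + s ≤ n)) (Set.mem_Iic.2 (by omega : i + t ≤ n)) hst
  omega

theorem tail_cl (hm : UMin R k n) (h : UP R w n) {i : ℕ} (hi : 0 < i) (hin : i + 2 ≤ n) :
    Cl R.rk {w i, w n} (w (n - 1)) := by
  by_contra hcon
  refine hm.nonU (n - i) (by omega) (by omega) (fun t => w (i + t))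
    ⟨h.1.shift (by omega), inj_shift h (by omega), ?_, ?_⟩
  · have h1 := (h.gen.part (a := i) (j := n - i - 1) (by omega)).2
    exact h1
  · simp only [add_zero]
    rwa [(by omega : i + (n - i) = n), (by omega : i + (n - i - 1) = n - 1)]

theorem fa (hm : UMin R k n) (h : UP R w n) (i : ℕ) (hi : 0 < i) (hin : i < n) :
    ¬ Cl R.rk {w 0, w n} (w i) := by
  intro hcon
  rcases Nat.lt_or_ge (i + 1) n with h1 | h1
  · refine h.2.2.2 (cl_trans R (T := {w i, w n}) ?_ (tail_cl hm h hi (by omega)))
    intro t ht
    simp only [Finset.mem_insert, Finset.mem_singleton] at ht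
    rcases ht with rfl | rfl
    · exact hcon
    · exact cl_of_mem R (by simp)
  · have : i = n - 1 := by omega
    subst this
    exact h.2.2.2 hcon

theorem fb (hm : UMin R k n) (h : UP R w n) (i : ℕ) (hi : 0 < i) (hin : i ≤ n) :
    Cl R.rk {w 1, w n} (w i) := by
  have h3 := hm.three_le
  have hk := hm.le
  rcases Nat.lt_or_ge i n with h1 | h1
  · have h2 := (h.gen.part (a := 1) (j := n - 2) (by omega)).cl hm.nonA (by omega) (i - 1) (by omega)
    simp only [add_zero] at h2
    rw [(by omega : 1 + (n - 2) = n - 1), (by omega : 1 + (i - 1) = i)] at h2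
    refine cl_trans R (T := {w 1, w (n - 1)}) ?_ h2
    intro t ht
    simp only [Finset.mem_insert, Finset.mem_singleton] at ht
    rcases ht with rfl | rfl
    · exact cl_of_mem R (by simp)
    · exact tail_cl hm h (by omega) (by omega)
  · have : i = n := by omega
    subst this
    exact cl_of_mem R (by simp)

theorem fc (hm : UMin R k n) (h : UP R w n) : ¬ Cl R.rk (vs w (n - 2)) (w n) := by
  have h3 := hm.three_le
  intro hcon
  refine hm.nonU 2 le_rfl (by omega) (fun t => w (n - 2 + t))
    ⟨h.1.shift (by omega), inj_shift h (by omega), ?_, ?_⟩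
  · exact (h.gen.part (a := n - 2) (j := 1) (by omega)).2
  · simp only [add_zero]
    rw [(by omega : n - 2 + 2 = n), (by omega : n - 2 + (2 - 1) = n - 2 + 1)]
    intro hc
    refine h.gen.not_cl (j := n - 2) (by omega) (cl_trans R ?_ hc)
    intro t ht
    simp only [Finset.mem_insert, Finset.mem_singleton] at ht
    rcases ht with rfl | rfl
    · exact cl_of_mem R (mem_vs_of le_rfl)
    · exact hcon

theorem frk (hm : UMin R k n) (h : UP R w n) : R.rk (vs w n) = R.m + (n - 1) := by
  have h3 := hm.three_le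
  have h1 := rk_vs_le R h.1
  have h2 := R.mono _ _ (vs_mono w (Nat.sub_le n 1))
  rw [h.2.2.1] at h2
  by_contra hcon
  exact hm.nonA n (by omega) hm.le ⟨w, ⟨h.1, by omega⟩, h.2.2.2⟩

theorem fends (hm : UMin R k n) (h : UP R w n) : R.rk {w 0, w n} = R.m + (n - 2) := by
  have h3 := hm.three_le
  have h1 : R.rk (insert (w 1) {w 0, w n}) = R.rk {w 0, w n} + 1 :=
    rk_insert_of_adj R (v := w 0) (by simp) (h.1 0 (by omega)) (fa hm h 1 (by omega) (by omega))
  have h2 : R.rk (vs w n) = R.rk (insert (w 1) {w 0, w n}) := by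
    refine rk_eq_of_cl R ?_ ?_
    · intro x hx
      simp only [Finset.mem_insert, Finset.mem_singleton] at hx
      rcases hx with rfl | rfl | rfl
      · exact mem_vs_of (by omega)
      · exact mem_vs_of (by omega)
      · exact mem_vs_of le_rfl
    · intro t ht
      obtain ⟨i, hi, rfl⟩ := mem_vs.1 ht
      rcases Nat.eq_zero_or_pos i with rfl | hi0
      · exact cl_of_mem R (by simp)
      · refine cl_mono R ?_ (fb hm h i hi0 hi)
        intro x hx
        simp only [Finset.mem_insert, Finset.mem_singleton] at hx ⊢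
        tauto
  have h4 := frk hm h
  omega

/-! ### (d) -/

/-- two generic neighbours -/
theorem swap {x a b b' : V} (hab : R.G.Adj a b) (hab' : R.G.Adj a b') (hb : ¬ Cl R.rk {x, a} b)
    (hb' : ¬ Cl R.rk {x, a} b') : R.rk {x, b'} = R.rk {x, b} := by
  have h1 := rk_insert_of_adj R (S := {x, a}) (v := a) (by simp) hab hb
  have h2 := rk_insert_of_adj R (S := {x, a}) (v := a) (by simp) hab' hb'
  obtain ⟨e, he1, he2, -, -, he5⟩ := R.hom {x, a} (insert b {x, a}) a b b' (by simp) hab hab' h1 h2
    (Finset.Subset.refl _) h1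
  have h3 := he5 {x, b} (by
    intro y hy
    simp only [Finset.mem_insert, Finset.mem_singleton] at hy ⊢
    tauto)
  rw [Finset.image_insert, Finset.image_singleton, he1 x (by simp), he2] at h3
  exact h3

theorem icc_vs (w : ℕ → V) {n : ℕ} (hn : 1 ≤ n) :
    (Finset.Icc 1 n).image w = vs (fun t => w (1 + t)) (n - 1) := by
  ext x
  simp only [Finset.mem_image, Finset.mem_Icc, mem_vs]
  constructor
  · rintro ⟨i, hi, rfl⟩
    exact ⟨i - 1, by omega, by congr 1; omega⟩
  · rintro ⟨i, hi, rfl⟩
    exact ⟨1 + i, by omega, rfl⟩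

theorem fd (hm : UMin R k n) (h : UP R w n) :
    R.rk ((Finset.Icc 1 n).image w) = R.m + (n - 1) := by
  have h3 := hm.three_le
  have hk := hm.le
  have hmk := hm.m_eq
  rw [icc_vs w (by omega)]
  have g1 := rk_vs_le R (h.1.shift (a := 1) (j := n - 1) (by omega))
  have g2 := (h.gen.part (a := 1) (j := n - 2) (by omega)).2
  have g3 := R.mono _ _ (vs_mono (fun t => w (1 + t)) (by omega : n - 2 ≤ n - 1))
  by_contra hcon
  have g4 : R.rk (vs (fun t => w (1 + t)) (n - 1)) = R.m + (n - 2) := by omega
  have g5 : R.rk {w n, w 1} = R.m + (n - 2) := by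
    rw [← g4, Finset.pair_comm]
    symm
    refine rk_eq_of_cl R ?_ ?_
    · intro x hx
      simp only [Finset.mem_insert, Finset.mem_singleton] at hx
      rcases hx with rfl | rfl
      · exact mem_vs.2 ⟨0, by omega, rfl⟩
      · exact mem_vs.2 ⟨n - 1, le_rfl, by congr 1; omega⟩
    · intro t ht
      obtain ⟨i, hi, rfl⟩ := mem_vs.1 ht
      exact fb hm h (1 + i) (by omega) (by omega)
  obtain ⟨u, hu0, hu⟩ := extend R w 0 {w n} k
  have hu00 : u 0 = w 0 := hu0 0 le_rfl
  simp only [zero_le, zero_add, true_implies] at hu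
  have hE := fends hm h
  have hends : R.rk {w n, u 0} = R.m + (n - 2) := by
    rw [hu00, Finset.pair_comm]
    exact hE
  have hsub : ∀ i, ({w n, u i} : Finset V) ⊆ {w n} ∪ vs u i := by
    intro i x hx
    simp only [Finset.mem_insert, Finset.mem_singleton, Finset.mem_union] at hx ⊢
    rcases hx with rfl | rfl
    · exact Or.inl rfl
    · exact Or.inr (mem_vs_of le_rfl)
  have hncl : ∀ i, i < k → ¬ Cl R.rk {w n, u i} (u (i + 1)) := fun i hi hc =>
    (hu i hi).2 (cl_mono R (hsub i) hc)
  have key : ∀ i, i + 1 ≤ k → R.rk {w n, u i} = R.m + (n - 2) ∧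
      R.rk {w n, u (i + 1)} = R.m + (n - 2) := by
    intro i
    induction i with
    | zero =>
      intro hi
      refine ⟨hends, ?_⟩
      rw [← g5]
      refine swap (a := w 0) (h.1 0 (by omega)) ?_ ?_ ?_
      · rw [← hu00]
        exact (hu 0 (by omega)).1
      · rw [Finset.pair_comm]
        exact fa hm h 1 (by omega) (by omega)
      · rw [← hu00]
        exact hncl 0 (by omega)
    | succ i ih =>
      intro hi
      obtain ⟨i1, i2⟩ := ih (by omega)
      refine ⟨i2, ?_⟩
      rw [← i1]
      refine swap (a := u (i + 1)) (hu i (by omega)).1.symm (hu (i + 1) (by omega)).1 ?_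
        (hncl (i + 1) (by omega))
      intro hc
      have j1 := rk_insert_of_adj R (S := {w n, u i}) (v := u i) (by simp) (hu i (by omega)).1
        (hncl i (by omega))
      have j2 : R.rk (insert (u i) {w n, u (i + 1)}) = R.rk {w n, u (i + 1)} := hc
      have j3 : (insert (u i) {w n, u (i + 1)} : Finset V) = insert (u (i + 1)) {w n, u i} := by
        ext x
        simp only [Finset.mem_insert, Finset.mem_singleton]
        tauto
      rw [j3] at j2
      omega
  have hlast : R.rk {w n, u k} = R.m + (n - 2) := by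
    have := (key (k - 1) (by omega)).2
    rwa [(by omega : k - 1 + 1 = k)] at this
  -- ranks of the generic path
  have hu' : ∀ i, 0 ≤ i → i < 0 + k → R.G.Adj (u i) (u (i + 1)) ∧
      ¬ Cl R.rk ({w n} ∪ vs u i) (u (i + 1)) := fun i _ hi => hu i (by omega)
  have r1 := extend_rk (G := ∅) (by simp) hu' k le_rfl
  have r2 := extend_rk (G := {w n}) (Finset.Subset.refl _) hu' k le_rfl
  rw [zero_add, Finset.empty_union, Finset.empty_union, vs_zero, hu00,
    h.gen.vert (by omega : 0 ≤ n - 1)] at r1
  rw [zero_add, vs_zero] at r2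
  have e1 : ({w n} ∪ {u 0} : Finset V) = {w n, u 0} := by
    ext x
    simp
  rw [e1, hends] at r2
  have hgen : Gen R u k := ⟨fun i hi => (hu i hi).1, r1⟩
  have r3 : R.rk ({w n, u 0} ∪ {w n, u k}) = R.m + (n - 2) + k := by
    rw [← r2]
    symm
    refine rk_eq_of_cl R ?_ ?_
    · intro x hx
      simp only [Finset.mem_union, Finset.mem_insert, Finset.mem_singleton] at hx ⊢
      rcases hx with (rfl | rfl) | (rfl | rfl)
      · exact Or.inl rfl
      · exact Or.inr (mem_vs_of (by omega))
      · exact Or.inl rfl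
      · exact Or.inr (mem_vs_of le_rfl)
    · intro t ht
      rcases Finset.mem_union.1 ht with ht | ht
      · rw [Finset.mem_singleton] at ht
        subst ht
        exact cl_of_mem R (by simp)
      · obtain ⟨i, hi, rfl⟩ := mem_vs.1 ht
        refine cl_mono R ?_ (hgen.cl hm.nonA le_rfl i hi)
        intro x hx
        simp only [Finset.mem_union, Finset.mem_insert, Finset.mem_singleton] at hx ⊢
        tauto
  have r4 := R.submod {w n, u 0} {w n, u k}
  have r5 : R.rk {w n} ≤ R.rk ({w n, u 0} ∩ {w n, u k}) := by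
    refine R.mono _ _ ?_
    intro x hx
    simp only [Finset.mem_inter, Finset.mem_insert, Finset.mem_singleton] at hx ⊢
    tauto
  have r6 := rk_vs_part R (a := n) (j := 0) h.1 (by omega)
  rw [vs_zero, add_zero, frk hm h] at r6
  omega

theorem frev (hm : UMin R k n) (h : UP R w n) : UP R (fun i => w (n - i)) n := by
  have h3 := hm.three_le
  refine ⟨h.1.rev, ?_, ?_, ?_⟩
  · intro i hi j hj hij
    simp only [Set.mem_Iic] at hi hj
    have := h.2.1 (Set.mem_Iic.2 (Nat.sub_le n i)) (Set.mem_Iic.2 (Nat.sub_le n j)) hij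
    omega
  · rw [← fd hm h]
    congr 1
    ext x
    simp only [mem_vs, Finset.mem_image, Finset.mem_Icc]
    constructor
    · rintro ⟨i, hi, rfl⟩
      exact ⟨n - i, by omega, rfl⟩
    · rintro ⟨i, hi, rfl⟩
      exact ⟨n - i, by omega, by congr 1; omega⟩
  · simp only [Nat.sub_zero, Nat.sub_self]
    rw [(by omega : n - (n - 1) = 1), Finset.pair_comm]
    exact fa hm h 1 (by omega) (by omega)

end

end UPa

open UPa in
/-- **(U1)** -/
theorem lu1 : LU1 := by
  intro V _ R k n hm w h
  have h3 := hm.three_le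
  have hk := hm.m_eq
  refine ⟨fa hm h, fb hm h, fc hm h, ?_, ?_, ?_, frev hm h⟩
  · rw [frk hm h]
    omega
  · rw [fends hm h]
    omega
  · rw [fd hm h]
    omega

open UPa in
/-- **(U2)** -/
theorem lu2 : LU2 := by
  intro V _ R k n hm w h y hy hcl
  have h3 := hm.three_le
  have h1 := rk_insert_of_adj R (S := {w 0, w n}) (v := w 0) (by simp) (h.1 0 (by omega))
    (fa hm h 1 (by omega) (by omega))
  have h2 := rk_insert_of_adj R (S := {w 0, w n}) (v := w 0) (by simp) hy hcl
  obtain ⟨e, he1, he2, he3, he4, he5⟩ := R.hom {w 0, w n} (vs w n) (w 0) (w 1) y (by simp)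
    (h.1 0 (by omega)) hy h1 h2 (by
      intro x hx
      simp only [Finset.mem_insert, Finset.mem_singleton] at hx
      rcases hx with rfl | rfl | rfl
      · exact mem_vs_of (by omega)
      · exact mem_vs_of (by omega)
      · exact mem_vs_of le_rfl) (by
      rw [frk hm h, fends hm h]
      omega)
  have hU : UP R (fun i => e (w i)) n := h.image (Finset.Subset.refl _) he3 he4 he5
  have e0 : e (w 0) = w 0 := he1 _ (by simp)
  have en : e (w n) = w n := he1 _ (by simp)
  refine ⟨fun i => e (w i), hU, e0, en, he2, fun F hF0 hFn hFy i hi hin hc => ?_⟩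
  have g1 := fb hm hU i hi hin.le
  simp only [he2, en] at g1
  refine fa hm hU i hi hin ?_
  simp only [e0, en]
  refine indep1 R (S := {w 0, w n}) (F := F) (a := w 0) (y := y) ?_ (by simp) hy hFy ?_ hc
  · intro x hx
    simp only [Finset.mem_insert, Finset.mem_singleton] at hx
    rcases hx with rfl | rfl
    · exact hF0
    · exact hFn
  · refine cl_mono R ?_ g1
    intro x hx
    simp only [Finset.mem_insert, Finset.mem_singleton] at hx ⊢
    tauto

open UPa in
/-- **(U3)** -/
theorem lu3 : LU3 := by
  intro V _ R k n hm w h F b hb hF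
  have h3 := hm.three_le
  obtain ⟨u, hu1, hu2⟩ := extend R w b F (n - 1 - b)
  have hvb : vs u b = vs w b := vs_congr hu1
  have hFb : F ∪ vs u b = F := by
    rw [hvb]
    exact Finset.union_eq_left.2 hF
  have r1 := extend_rk (G := ∅) (by simp) hu2 (n - 1 - b) le_rfl
  have r2 := extend_rk (G := F) (Finset.Subset.refl _) hu2 (n - 1 - b) le_rfl
  rw [Finset.empty_union, Finset.empty_union, hvb, (h.gen.init (by omega : b ≤ n - 1)).2,
    (by omega : b + (n - 1 - b) = n - 1)] at r1
  rw [hFb, (by omega : b + (n - 1 - b) = n - 1)] at r2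
  have hwk : Wk R.G u (n - 1) := by
    intro i hi
    rcases Nat.lt_or_ge i b with h1 | h1
    · rw [hu1 i h1.le, hu1 (i + 1) h1]
      exact h.1 i (by omega)
    · exact (hu2 i h1 (by omega)).1
  have hcol : R.col (w 0) = R.col (u 0) := by rw [hu1 0 (by omega)]
  obtain ⟨e, he1, he2, he3, he4⟩ := R.homp (n - 1) w u (vs w n) (h.1.mono (by omega)) hwk hcol
    h.2.2.1 (by omega) (vs_mono w (by omega)) (frk hm h)
  have hU : UP R (fun i => e (w i)) n := h.image (Finset.Subset.refl _) he2 he3 he4
  refine ⟨fun i => e (w i), hU, fun i hi => ?_, fun i hi hin => ?_⟩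
  · simp only
    rw [he1 i (by omega), hu1 i hi]
  · simp only
    rcases Nat.lt_or_ge i n with h1 | h1
    · rw [he1 i (by omega)]
      have g1 := (hu2 (i - 1) (by omega) (by omega)).2
      rw [(by omega : i - 1 + 1 = i)] at g1
      exact fun hc => g1 (cl_mono R Finset.subset_union_left hc)
    · have : i = n := by omega
      subst this
      intro hc
      -- the last vertex
      have g0 : vs (fun j => e (w j)) (i - 1) = vs u (i - 1) := vs_congr fun j hj => he1 j hj
      have g1 : Cl R.rk (vs u (i - 1)) (e (w i)) := by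
        rw [← g0]
        refine cl_of_rk_eq R (vs_mono (fun j => e (w j)) (by omega : i - 1 ≤ i)) ?_
          (mem_vs_of (p := fun j => e (w j)) le_rfl)
        rw [vs_comp, vs_comp, he4 _ (Finset.Subset.refl _), he4 _ (vs_mono w (by omega)),
          frk hm h, h.2.2.1]
      have hsub : vs w b ⊆ vs u (i - 1) := by
        rw [← hvb]
        exact vs_mono u (by omega)
      have g2 : Cl R.rk (vs w b) (e (w i)) := by
        refine indep R (S := vs w b) (F := F) (P := vs u (i - 1)) (r := i - 1 - b) hF r2 ?_ ?_ hc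
        · rw [Finset.union_eq_right.2 hsub, (h.gen.init (by omega : b ≤ i - 1)).2]
          omega
        · rw [Finset.union_eq_right.2 hsub]
          exact g1
      have g3 : Cl R.rk (vs w b) (w i) := by
        unfold Cl at g2 ⊢
        have e1 : vs w b = (vs w b).image e := by
          rw [← vs_comp]
          refine vs_congr fun j hj => ?_
          rw [he1 j (by omega), hu1 j hj]
        have e2 : insert (e (w i)) (vs w b) = (insert (w i) (vs w b)).image e := by
          rw [Finset.image_insert, ← e1]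
        have e3 : insert (w i) (vs w b) ⊆ vs w i := by
          intro x hx
          rcases Finset.mem_insert.1 hx with rfl | hx
          · exact mem_vs_of le_rfl
          · exact vs_mono w (by omega) hx
        rw [e2, he4 _ e3] at g2
        exact g2
      exact fc hm h (cl_mono R (vs_mono w (by omega)) g3)

end Pool.Agent.H97G
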