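import Pool.Agent.H97G.Trk
import Pool.Agent.H97F.Graph

/-!
# The neighbour with a given first coordinate
-/

set_option autoImplicit false

namespace Pool.Agent.H97G

open MvPolynomial Pool.Agent.H97F Pool.Agent.H97F.GraphPf

namespace Nb

variable {K : Type} [Field K] {k : ℕ}

theorem inc_map_iff (A : ADG k K) {F : Type} [Field F] [Algebra K F] (p l : Fin k → F) :
    (A.map (algebraMap K F)).Inc p l ↔ Rel A true l p := by
  unfold ADG.Inc GraphPf.Rel ADG.map
  refine forall_congr' fun i => forall_congr' fun _ => ?_
  rw [add_comm]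
  have e : eval (fun v : Fin i × Bool => (if v.2 then l else p) (v.1.castLE i.isLt.le))
      (MvPolynomial.map (algebraMap K F) (A.f i)) =
      aeval (fun v : Fin i × Bool => if v.2 = true then l (v.1.castLE i.isLt.le)
        else p (v.1.castLE i.isLt.le)) (A.f i) := by
    rw [MvPolynomial.eval_map, MvPolynomial.aeval_def]
    congr 1
    funext v
    split_ifs <;> rfl
  rw [← e]

/-- the coordinates of a vertex -/
def co {F : Type} (v : Vx k F) : Fin k → F := Sum.elim id id v

/-- the vertex of the other side with the coordinates `x` -/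
def opp {F : Type} (v : Vx k F) (x : Fin k → F) : Vx k F :=
  match v with
  | Sum.inl _ => Sum.inr x
  | Sum.inr _ => Sum.inl x

/-- the neighbour of `v` with first coordinate `c` -/
noncomputable def nb (A : ADG k K) {F : Type} [Field F] [Algebra K F] (v : Vx k F) (c : F) :
    Vx k F := opp v (sol A (!v.isRight) c (co v))

theorem nb_inl (A : ADG k K) {F : Type} [Field F] [Algebra K F] (p : Fin k → F) (c : F) :
    nb A (Sum.inl p) c = Sum.inr (sol A true c p) := rfl

theorem nb_inr (A : ADG k K) {F : Type} [Field F] [Algebra K F] (l : Fin k → F) (c : F) :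
    nb A (Sum.inr l) c = Sum.inl (sol A false c l) := rfl

variable (A : ADG k K) {F : Type} [Field F] [Algebra K F]

theorem isRight_nb (v : Vx k F) (c : F) : (nb A v c).isRight = !v.isRight := by
  rcases v with p | l <;> rfl

theorem co_nb (v : Vx k F) (c : F) : co (nb A v c) = sol A (!v.isRight) c (co v) := by
  rcases v with p | l <;> rfl

theorem co_nb_zero (v : Vx k F) (c : F) (i : Fin k) (hi : (i : ℕ) = 0) : co (nb A v c) i = c := by
  rw [co_nb]
  exact sol_zero A _ _ _ _ hi

theorem adj_nb (v : Vx k F) (c : F) : (grph A F).Adj v (nb A v c) := by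
  rcases v with p | l
  · show (A.map (algebraMap K F)).Inc p (sol A true c p)
    rw [inc_map_iff]
    exact sol_rel A true c p
  · show (A.map (algebraMap K F)).Inc (sol A false c l) l
    rw [inc_map_iff]
    exact rel_symm A (s := false) (s' := true) rfl (sol_rel A false c l)

theorem adj_iff {v w : Vx k F} {i : Fin k} (hi : (i : ℕ) = 0) :
    (grph A F).Adj v w ↔ w = nb A v (co w i) := by
  constructor
  · intro h
    rcases v with p | l <;> rcases w with p' | l'
    · exact h.elim
    · have h1 : (A.map (algebraMap K F)).Inc p l' := h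
      rw [inc_map_iff] at h1
      rw [nb_inl]
      congr 1
      refine sol_unique A h1 fun j hj => ?_
      have : j = i := Fin.ext (by omega)
      rw [this]
      rfl
    · have h1 : (A.map (algebraMap K F)).Inc p' l := h
      rw [inc_map_iff] at h1
      rw [nb_inr]
      congr 1
      refine sol_unique A (rel_symm A (s := true) (s' := false) rfl h1) fun j hj => ?_
      have : j = i := Fin.ext (by omega)
      rw [this]
      rfl
    · exact h.elim
  · intro h
    rw [h]
    exact adj_nb A v _

theorem mem_of_aeval {R : Type} [CommRing R] [Algebra K R] {σ : Type} (S : Subalgebra K R)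
    {x : σ → R} (hx : ∀ i, x i ∈ S) (p : MvPolynomial σ K) : aeval x p ∈ S := by
  induction p using MvPolynomial.induction_on with
  | C a => rw [aeval_C]; exact S.algebraMap_mem a
  | add p q hp hq => rw [map_add]; exact S.add_mem hp hq
  | mul_X p i hp => rw [map_mul, aeval_X]; exact S.mul_mem hp (hx i)

/-- the coordinates of the neighbour are polynomials -/
theorem co_nb_mem (v : Vx k F) (c : F) (X : Set F) (hc : c ∈ Algebra.adjoin K X)
    (hv : ∀ i, co v i ∈ Algebra.adjoin K X) (i : Fin k) : co (nb A v c) i ∈ Algebra.adjoin K X := by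
  rw [co_nb]
  suffices h : ∀ (n : ℕ) (i : Fin k), (i : ℕ) = n →
      sol A (!v.isRight) c (co v) i ∈ Algebra.adjoin K X from h i i rfl
  intro n
  induction n using Nat.strong_induction_on with
  | _ n ih =>
    intro i hi
    by_cases h : 0 < (i : ℕ)
    · rw [sol_pos A _ _ _ i h]
      refine Subalgebra.sub_mem _ ?_ (hv i)
      have h1 : ∀ u : Fin i × Bool, (if u.2 = (!v.isRight) then
          sol A (!v.isRight) c (co v) (u.1.castLE i.isLt.le) else
          co v (u.1.castLE i.isLt.le)) ∈ Algebra.adjoin K X := by
        intro u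
        split_ifs with h2
        · exact ih u.1 (hi ▸ u.1.isLt) _ rfl
        · exact hv _
      exact mem_of_aeval _ h1 (A.f i)
    · rw [sol_zero A _ _ _ i (by omega)]
      exact hc

/-- maps of vertices -/
def vmap {F F' : Type} (φ : F → F') : Vx k F → Vx k F' :=
  Sum.map (fun p j => φ (p j)) (fun p j => φ (p j))

omit [Field F] in
theorem co_vmap {F' : Type} (φ : F → F') (v : Vx k F) (i : Fin k) :
    co (vmap φ v) i = φ (co v i) := by
  rcases v with p | l <;> rfl

theorem vmap_nb {F' : Type} [Field F'] [Algebra K F'] (φ : F →ₐ[K] F') (v : Vx k F) (c : F) :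
    vmap φ (nb A v c) = nb A (vmap φ v) (φ c) := by
  rcases v with p | l
  · rw [nb_inl]
    show Sum.inr _ = Sum.inr _
    congr 1
    funext j
    exact sol_map A φ true c p _ j rfl
  · rw [nb_inr]
    show Sum.inl _ = Sum.inl _
    congr 1
    funext j
    exact sol_map A φ false c l _ j rfl

theorem adj_vmap {F' : Type} [Field F'] [Algebra K F'] (φ : F →ₐ[K] F') (v w : Vx k F) :
    (grph A F').Adj (vmap φ v) (vmap φ w) ↔ (grph A F).Adj v w := by
  have key : ∀ p l : Fin k → F, Rel A true (fun j => φ (l j)) (fun j => φ (p j)) ↔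
      Rel A true l p := by
    intro p l
    unfold GraphPf.Rel
    refine forall_congr' fun i => forall_congr' fun _ => ?_
    have e : aeval (fun v : Fin i × Bool => if v.2 = true then φ (l (v.1.castLE i.isLt.le))
        else φ (p (v.1.castLE i.isLt.le))) (A.f i) =
        φ (aeval (fun v : Fin i × Bool => if v.2 = true then l (v.1.castLE i.isLt.le)
        else p (v.1.castLE i.isLt.le)) (A.f i)) := by
      rw [comp_aeval_apply]
      congr 2
      funext v
      split_ifs <;> rfl
    rw [e, ← map_add]
    exact φ.injective.eq_iff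
  rcases v with p | l <;> rcases w with p' | l'
  · exact Iff.rfl
  · show (A.map (algebraMap K F')).Inc _ _ ↔ (A.map (algebraMap K F)).Inc _ _
    rw [inc_map_iff, inc_map_iff]
    exact key p l'
  · show (A.map (algebraMap K F')).Inc _ _ ↔ (A.map (algebraMap K F)).Inc _ _
    rw [inc_map_iff, inc_map_iff]
    exact key p' l
  · exact Iff.rfl

/-- neighbourhoods over an infinite field are infinite -/
theorem infinite_nbrs [Infinite F] (hk : 1 ≤ k) (v : Vx k F) :
    {w | (grph A F).Adj v w}.Infinite := by
  have h : Function.Injective (fun c : F => nb A v c) := by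
    intro c c' h
    have h1 := congrArg (fun w => co w ⟨0, hk⟩) h
    simp only at h1
    rwa [co_nb_zero A v c _ rfl, co_nb_zero A v c' _ rfl] at h1
  refine (Set.infinite_range_of_injective h).mono ?_
  rintro _ ⟨c, rfl⟩
  exact adj_nb A v c

end Nb

end Pool.Agent.H97G
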