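import Pool.Agent.H97G.Defs

/-!
# Piece LRk, part A: transcendence degree ranks and extensions of homomorphisms
-/

set_option autoImplicit false

namespace Pool.Agent.H97G

namespace Rk

open Set

variable {K Ω : Type} [Field K] [Field Ω] [Algebra K Ω]

/-! ### the rank -/

theorem coe_trk {X : Set Ω} (hX : X.Finite) :
    ((trk K X : ℕ) : ℕ∞) = (AlgebraicIndependent.matroid K Ω).eRk X := by
  unfold trk
  exact ENat.natCast_toNat (ne_top_of_le_ne_top (Set.encard_ne_top_iff.2 hX)
    (Matroid.eRk_le_encard _ X))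

theorem trk_mono {X Y : Set Ω} (hY : Y.Finite) (h : X ⊆ Y) : trk K X ≤ trk K Y := by
  have h1 := (AlgebraicIndependent.matroid K Ω).eRk_mono h
  rw [← coe_trk hY, ← coe_trk (hY.subset h)] at h1
  exact_mod_cast h1

theorem trk_submod {X Y : Set Ω} (hX : X.Finite) (hY : Y.Finite) :
    trk K (X ∩ Y) + trk K (X ∪ Y) ≤ trk K X + trk K Y := by
  have h1 := (AlgebraicIndependent.matroid K Ω).eRk_inter_add_eRk_union_le X Y
  rw [← coe_trk hX, ← coe_trk hY, ← coe_trk (hX.union hY), ← coe_trk (hX.inter_of_left Y)] at h1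
  exact_mod_cast h1

theorem trk_insert_le {X : Set Ω} (hX : X.Finite) (a : Ω) :
    trk K (insert a X) ≤ trk K X + 1 := by
  have h1 := (AlgebraicIndependent.matroid K Ω).eRk_insert_le_add_one a X
  rw [← coe_trk hX, ← coe_trk (hX.insert a)] at h1
  exact_mod_cast h1

theorem trk_le_ncard {X : Set Ω} (hX : X.Finite) : trk K X ≤ X.ncard := by
  have h1 := (AlgebraicIndependent.matroid K Ω).eRk_le_encard X
  rw [← coe_trk hX, ← hX.cast_ncard_eq] at h1
  exact_mod_cast h1

/-- the closure -/
def cl (K : Type) {Ω : Type} [Field K] [Field Ω] [Algebra K Ω] (X : Set Ω) : Set Ω :=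
  (AlgebraicIndependent.matroid K Ω).closure X

theorem mem_cl {X : Set Ω} {a : Ω} : a ∈ cl K X ↔ IsAlgebraic (Algebra.adjoin K X) a := by
  unfold cl
  rw [AlgebraicIndependent.matroid_closure_eq]
  exact Iff.rfl

theorem adjoin_sub_cl (X : Set Ω) : (Algebra.adjoin K X : Set Ω) ⊆ cl K X := by
  intro a ha
  rw [mem_cl]
  exact isAlgebraic_algebraMap (⟨a, ha⟩ : Algebra.adjoin K X)

theorem sub_cl (X : Set Ω) : X ⊆ cl K X := fun _ ha => adjoin_sub_cl X (Algebra.subset_adjoin ha)

theorem cl_mono {X Y : Set Ω} (h : X ⊆ Y) : cl K X ⊆ cl K Y :=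
  (AlgebraicIndependent.matroid K Ω).closure_subset_closure h

theorem cl_cl {X Y : Set Ω} (h : X ⊆ cl K Y) : cl K X ⊆ cl K Y :=
  (AlgebraicIndependent.matroid K Ω).closure_subset_closure_of_subset_closure h

theorem trk_le_of_sub_cl {X Y : Set Ω} (hX : X.Finite) (hY : Y.Finite) (h : X ⊆ cl K Y) :
    trk K X ≤ trk K Y := by
  have h1 := (AlgebraicIndependent.matroid K Ω).eRk_mono h
  unfold cl at h1
  rw [Matroid.eRk_closure_eq, ← coe_trk hX, ← coe_trk hY] at h1
  exact_mod_cast h1

theorem trk_insert_of_not {X : Set Ω} (hX : X.Finite) {a : Ω} (ha : a ∉ cl K X) :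
    trk K (insert a X) = trk K X + 1 := by
  have h1 := (AlgebraicIndependent.matroid K Ω).eRk_insert_eq_add_one (X := X) (e := a)
    ⟨by simp, ha⟩
  rw [← coe_trk hX, ← coe_trk (hX.insert a)] at h1
  exact_mod_cast h1

/-- same rank, same closure -/
theorem sub_cl_of_trk {X Y : Set Ω} (hY : Y.Finite) (h : X ⊆ Y) (hr : trk K Y ≤ trk K X) :
    Y ⊆ cl K X := by
  intro a ha
  by_contra hna
  have h1 := trk_insert_of_not (K := K) (hY.subset h) hna
  have h2 : trk K (insert a X) ≤ trk K Y := trk_mono hY (Set.insert_subset ha h)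
  omega

/-- a family of full rank is algebraically independent -/
theorem algInd_of_trk {n : ℕ} {ι : Type} [Fintype ι] (x : ι → Ω) (hn : Fintype.card ι = n)
    (h : n ≤ trk K (Set.range x)) : AlgebraicIndependent K x := by
  have hf : (Set.range x).Finite := Set.finite_range x
  have h1 : (Set.range x).ncard ≤ n := by
    rw [← hn, ← Nat.card_eq_fintype_card, ← Set.image_univ, ← Set.ncard_univ]
    exact Set.ncard_image_le
  have h2 := trk_le_ncard (K := K) hf
  have h3 : (Set.range x).ncard = n := by omega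
  have hinj : Function.Injective x := by
    have h4 : (x '' Set.univ).ncard = (Set.univ : Set ι).ncard := by
      rw [Set.image_univ, h3, Set.ncard_univ, Nat.card_eq_fintype_card, hn]
    exact Set.injOn_univ.1 (Set.injOn_of_ncard_image_eq h4)
  have h5 : (AlgebraicIndependent.matroid K Ω).Indep (Set.range x) := by
    rw [Matroid.indep_iff_eRk_eq_encard_of_finite hf, ← coe_trk hf, ← hf.cast_ncard_eq]
    congr 1
    omega
  rw [AlgebraicIndependent.matroid_indep_iff] at h5
  exact (algebraicIndependent_subtype_range hinj).1 h5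

theorem trk_of_algInd {ι : Type} [Fintype ι] {x : ι → Ω} (h : AlgebraicIndependent K x) :
    trk K (Set.range x) = Fintype.card ι := by
  have hf : (Set.range x).Finite := Set.finite_range x
  have h5 : (AlgebraicIndependent.matroid K Ω).Indep (Set.range x) := by
    rw [AlgebraicIndependent.matroid_indep_iff]
    exact (algebraicIndependent_subtype_range h.injective).2 h
  have h6 := h5.eRk_eq_encard
  rw [← coe_trk hf, ← hf.cast_ncard_eq] at h6
  have h7 : trk K (Set.range x) = (Set.range x).ncard := by exact_mod_cast h6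
  rw [h7, ← Set.image_univ, Set.ncard_image_of_injective _ h.injective, Set.ncard_univ,
    Nat.card_eq_fintype_card]

/-- there are elements outside of the closure of a finite set -/
theorem exists_not_cl (hB : Big K Ω) {X : Set Ω} (hX : X.Finite) : ∃ a, a ∉ cl K X := by
  by_contra hcon
  push Not at hcon
  obtain ⟨t, ht⟩ := hB.inf
  have h1 : AlgebraicIndependent K (fun i : Fin (trk K X + 1) => t i) :=
    ht.comp _ Fin.val_injective
  have h2 := trk_of_algInd h1
  rw [Fintype.card_fin] at h2
  have h3 := trk_le_of_sub_cl (K := K) (Set.finite_range (fun i : Fin (trk K X + 1) => t i)) hX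
    (fun a _ => hcon a)
  omega

/-! ### extension of homomorphisms -/

theorem ext_hom {F : Type} [Field F] [Algebra F Ω] [IsAlgClosed Ω] {ι : Type} (x x' : ι → Ω)
    (hx : AlgebraicIndependent F x) (hx' : AlgebraicIndependent F x') :
    ∃ (E : IntermediateField F Ω) (φ : E →ₐ[F] Ω), (∀ i (h : x i ∈ E), φ ⟨x i, h⟩ = x' i) ∧
      ∀ y, IsAlgebraic (IntermediateField.adjoin F (Set.range x)) y → y ∈ E := by
  obtain ⟨L, hL⟩ : ∃ L, L = IntermediateField.adjoin F (Set.range x) := ⟨_, rfl⟩
  have hxL : ∀ i, x i ∈ IntermediateField.adjoin F (Set.range x) := fun i =>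
    IntermediateField.subset_adjoin _ _ ⟨i, rfl⟩
  obtain ⟨ψ, hψ⟩ : ∃ ψ : IntermediateField.adjoin F (Set.range x) →ₐ[F] Ω,
      ∀ i, ψ ⟨x i, hxL i⟩ = x' i := by
    refine ⟨(IntermediateField.val _).comp ((hx.aevalEquivField.symm.trans
      hx'.aevalEquivField).toAlgHom), fun i => ?_⟩
    have h1 : hx.aevalEquivField (algebraMap (MvPolynomial ι F)
        (FractionRing (MvPolynomial ι F)) (MvPolynomial.X i)) = ⟨x i, hxL i⟩ := by
      apply Subtype.ext
      rw [AlgebraicIndependent.aevalEquivField_algebraMap_apply_coe]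
      simp
    have h2 : hx.aevalEquivField.symm ⟨x i, hxL i⟩ = algebraMap (MvPolynomial ι F)
        (FractionRing (MvPolynomial ι F)) (MvPolynomial.X i) := by
      rw [← h1, AlgEquiv.symm_apply_apply]
    show ((hx'.aevalEquivField (hx.aevalEquivField.symm ⟨x i, hxL i⟩) :
      IntermediateField.adjoin F (Set.range x')) : Ω) = x' i
    rw [h2, AlgebraicIndependent.aevalEquivField_algebraMap_apply_coe]
    simp
  obtain ⟨φ, hφ⟩ := IntermediateField.exists_algHom_of_splits'
    (F := F) (E := algebraicClosure (IntermediateField.adjoin F (Set.range x)) Ω) (K := Ω)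
    (L := IntermediateField.adjoin F (Set.range x)) ψ (fun s =>
      ⟨(Algebra.IsAlgebraic.isAlgebraic s).isIntegral, IsAlgClosed.splits _⟩)
  refine ⟨(algebraicClosure (IntermediateField.adjoin F (Set.range x)) Ω).restrictScalars F, φ,
    fun i h => ?_, fun y hy => ?_⟩
  · have h3 := DFunLike.congr_fun hφ ⟨x i, hxL i⟩
    rw [hψ] at h3
    exact h3
  · exact (IntermediateField.mem_restrictScalars F).2 (mem_algebraicClosure_iff.2 hy)

theorem mem_cl' {X : Set Ω} {a : Ω} :
    a ∈ cl K X ↔ IsAlgebraic (IntermediateField.adjoin K X) a := by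
  rw [mem_cl, IntermediateField.isAlgebraic_adjoin_iff]

theorem isAlg_trans {A B : Type} [CommRing A] [CommRing B] [Algebra A Ω] [Algebra B Ω]
    (ρ : A →+* B) (hρ : ∀ a, algebraMap B Ω (ρ a) = algebraMap A Ω a)
    (hinj : Function.Injective ρ) {y : Ω} (h : IsAlgebraic A y) : IsAlgebraic B y := by
  obtain ⟨p, hp, h0⟩ := h
  refine ⟨p.map ρ, (Polynomial.map_ne_zero_iff hinj).2 hp, ?_⟩
  have h1 : (algebraMap B Ω).comp ρ = algebraMap A Ω := RingHom.ext hρ
  rw [Polynomial.aeval_def, Polynomial.eval₂_map, h1, ← Polynomial.aeval_def, h0]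

/-- homogeneity of algebraically independent families -/
theorem hom_K [IsAlgClosed Ω] {ι : Type} (x x' : ι → Ω)
    (hx : AlgebraicIndependent K x) (hx' : AlgebraicIndependent K x') :
    ∃ (E : IntermediateField K Ω) (φ : E →ₐ[K] Ω), (∀ i (h : x i ∈ E), φ ⟨x i, h⟩ = x' i) ∧
      cl K (Set.range x) ⊆ E := by
  obtain ⟨E, φ, h1, h2⟩ := ext_hom x x' hx hx'
  exact ⟨E, φ, h1, fun y hy => h2 y (mem_cl'.1 hy)⟩

/-- homogeneity over a set -/
theorem hom_S [IsAlgClosed Ω] {X : Set Ω} {c c' : Ω} (hc : c ∉ cl K X) (hc' : c' ∉ cl K X) :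
    ∃ (E : IntermediateField K Ω) (φ : E →ₐ[K] Ω), (∀ y ∈ X, ∀ h : y ∈ E, φ ⟨y, h⟩ = y) ∧
      (∀ h : c ∈ E, φ ⟨c, h⟩ = c') ∧ cl K (insert c X) ⊆ E := by
  rw [mem_cl'] at hc hc'
  have h1 : AlgebraicIndependent (IntermediateField.adjoin K X) (fun _ : Unit => c) := by
    rw [algebraicIndependent_unique_type_iff]
    exact hc
  have h2 : AlgebraicIndependent (IntermediateField.adjoin K X) (fun _ : Unit => c') := by
    rw [algebraicIndependent_unique_type_iff]
    exact hc'
  obtain ⟨E, φ, h3, h4⟩ := ext_hom _ _ h1 h2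
  refine ⟨E.restrictScalars K, φ.restrictScalars K, fun y hy h => ?_, fun h => h3 () h,
    fun y hy => ?_⟩
  · have hyF : y ∈ IntermediateField.adjoin K X := IntermediateField.subset_adjoin _ _ hy
    exact φ.commutes ⟨y, hyF⟩
  · rw [SetLike.mem_coe, IntermediateField.mem_restrictScalars]
    apply h4
    rw [mem_cl] at hy
    have h5 : Algebra.adjoin K (insert c X) ≤ ((IntermediateField.adjoin
        (IntermediateField.adjoin K X) (Set.range fun _ : Unit => c)).restrictScalars
          K).toSubalgebra := by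
      rw [Algebra.adjoin_le_iff]
      intro z hz
      rcases Set.mem_insert_iff.1 hz with rfl | hz
      · exact IntermediateField.subset_adjoin _ _ ⟨(), rfl⟩
      · exact IntermediateField.algebraMap_mem (IntermediateField.adjoin
          (IntermediateField.adjoin K X) (Set.range fun _ : Unit => c))
          (⟨z, IntermediateField.subset_adjoin _ _ hz⟩ : IntermediateField.adjoin K X)
    exact isAlg_trans (Subalgebra.inclusion h5).toRingHom (fun a => rfl)
      (Subalgebra.inclusion_injective h5) hy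

/-! ### transport of ranks -/

/-- the extension of a homomorphism by the identity -/
noncomputable def tot {E : IntermediateField K Ω} (φ : E →ₐ[K] Ω) (y : Ω) : Ω :=
  open Classical in if h : y ∈ E then φ ⟨y, h⟩ else y

theorem tot_of {E : IntermediateField K Ω} (φ : E →ₐ[K] Ω) {y : Ω} (h : y ∈ E) :
    tot φ y = φ ⟨y, h⟩ := dif_pos h

theorem tot_injOn {E : IntermediateField K Ω} (φ : E →ₐ[K] Ω) : Set.InjOn (tot φ) E := by
  intro a ha b hb h
  rw [tot_of φ ha, tot_of φ hb] at h
  exact congrArg Subtype.val (φ.injective h)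

theorem indep_tot {E : IntermediateField K Ω} (φ : E →ₐ[K] Ω) {I : Set Ω} (hI : I ⊆ E) :
    (AlgebraicIndependent.matroid K Ω).Indep (tot φ '' I) ↔
      (AlgebraicIndependent.matroid K Ω).Indep I := by
  rw [AlgebraicIndependent.matroid_indep_iff, AlgebraicIndependent.matroid_indep_iff]
  have h1 : AlgebraicIndependent K (fun x : I => tot φ x) ↔
      AlgebraicIndependent K (fun x : (tot φ '' I : Set Ω) => (x : Ω)) :=
    algebraicIndependent_image ((tot_injOn φ).mono hI)
  have h2 : AlgebraicIndependent K (φ ∘ fun x : I => (⟨x, hI x.2⟩ : E)) ↔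
      AlgebraicIndependent K (fun x : I => (⟨x, hI x.2⟩ : E)) :=
    AlgHom.algebraicIndependent_iff φ φ.injective
  have h3 : AlgebraicIndependent K (E.val ∘ fun x : I => (⟨x, hI x.2⟩ : E)) ↔
      AlgebraicIndependent K (fun x : I => (⟨x, hI x.2⟩ : E)) :=
    AlgHom.algebraicIndependent_iff E.val E.val.injective
  have h4 : (fun x : I => tot φ x) = φ ∘ fun x : I => (⟨x, hI x.2⟩ : E) :=
    funext fun x => tot_of φ (hI x.2)
  rw [h4] at h1
  have h5 := h1.symm.trans (h2.trans h3.symm)
  exact h5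

theorem trk_tot {E : IntermediateField K Ω} (φ : E →ₐ[K] Ω) {X : Set Ω} (hX : X ⊆ E) :
    trk K (tot φ '' X) = trk K X := by
  unfold trk
  congr 1
  apply le_antisymm
  · rw [Matroid.eRk_le_iff]
    intro J hJ hJi
    obtain ⟨I, hI, rfl⟩ : ∃ I ⊆ X, tot φ '' I = J := by
      refine ⟨X ∩ tot φ ⁻¹' J, Set.inter_subset_left, ?_⟩
      ext y
      constructor
      · rintro ⟨x, ⟨_, h⟩, rfl⟩
        exact h
      · intro hy
        obtain ⟨x, hx, rfl⟩ := hJ hy
        exact ⟨x, ⟨hx, hy⟩, rfl⟩
    rw [(((tot_injOn φ).mono (hI.trans hX))).encard_image]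
    exact ((indep_tot φ (hI.trans hX)).1 hJi).encard_le_eRk_of_subset hI
  · rw [Matroid.eRk_le_iff]
    intro I hI hIi
    rw [← (((tot_injOn φ).mono (hI.trans hX))).encard_image]
    exact ((indep_tot φ (hI.trans hX)).2 hIi).encard_le_eRk_of_subset (Set.image_mono hI)

end Rk

/-! ### existence of big extensions -/

theorem lbig_aux (K Q : Type) [Field K] [Field Q] [Algebra K Q] (t : ℕ → Q)
    (ht : AlgebraicIndependent K t) : ∃ (Ω : Type) (_ : Field Ω) (_ : Algebra K Ω), Big K Ω := by
  refine ⟨AlgebraicClosure Q, inferInstance, inferInstance, ⟨inferInstance,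
    fun i => algebraMap Q (AlgebraicClosure Q) (t i), ?_⟩⟩
  exact ht.map' (f := IsScalarTower.toAlgHom K Q (AlgebraicClosure Q))
    (algebraMap Q (AlgebraicClosure Q)).injective

theorem lbig : LBig := by
  intro K _
  refine lbig_aux K (FractionRing (MvPolynomial ℕ K)) (fun i => algebraMap (MvPolynomial ℕ K)
    (FractionRing (MvPolynomial ℕ K)) (MvPolynomial.X i)) ?_
  exact (MvPolynomial.algebraicIndependent_X ℕ K).map'
    (f := IsScalarTower.toAlgHom K (MvPolynomial ℕ K) (FractionRing (MvPolynomial ℕ K)))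
    (IsFractionRing.injective _ _)

end Pool.Agent.H97G
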