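import Pool.Agent.H97G.RkA
import Pool.Agent.H97G.Basic
import Pool.Agent.H97F.Graph

/-!
# Piece LRk, part B: neighbours
-/

set_option autoImplicit false
set_option linter.unusedSectionVars false

namespace Pool.Agent.H97G

namespace Rk

open Set MvPolynomial Pool.Agent.H97F Pool.Agent.H97F.GraphPf

/-- the coordinates of a vertex -/
def co {k : ℕ} {F : Type} (v : Vx k F) : Fin k → F := Sum.elim id id v

section
variable {k : ℕ} {K Ω : Type} [Field K] [Field Ω] [Algebra K Ω]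

theorem cds_eq (S : Finset (Vx k Ω)) : cds S = ⋃ v ∈ S, Set.range (co v) := by
  ext x
  simp only [cds, Set.mem_ofPred_eq, Set.mem_iUnion, Set.mem_range, exists_prop]
  constructor
  · rintro ⟨v, hv, i, rfl⟩
    exact ⟨v, hv, i, rfl⟩
  · rintro ⟨v, hv, i, h⟩
    exact ⟨v, hv, i, h.symm⟩

theorem cds_finite (S : Finset (Vx k Ω)) : (cds S).Finite := by
  rw [cds_eq]
  exact S.finite_toSet.biUnion fun v _ => Set.finite_range _

theorem mem_cds {S : Finset (Vx k Ω)} {v : Vx k Ω} (hv : v ∈ S) (i : Fin k) : co v i ∈ cds S :=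
  ⟨v, hv, i, rfl⟩

theorem cds_mono {S T : Finset (Vx k Ω)} (h : S ⊆ T) : cds S ⊆ cds T := by
  rintro x ⟨v, hv, i, rfl⟩
  exact ⟨v, h hv, i, rfl⟩

theorem cds_sub_iff {S : Finset (Vx k Ω)} {X : Set Ω} :
    cds S ⊆ X ↔ ∀ v ∈ S, ∀ i, co v i ∈ X := by
  constructor
  · intro h v hv i
    exact h (mem_cds hv i)
  · rintro h x ⟨v, hv, i, rfl⟩
    exact h v hv i

theorem cds_union [DecidableEq (Vx k Ω)] (S T : Finset (Vx k Ω)) :
    cds (S ∪ T) = cds S ∪ cds T := by
  ext x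
  constructor
  · rintro ⟨v, hv, i, rfl⟩
    rcases Finset.mem_union.1 hv with h | h
    · exact Or.inl ⟨v, h, i, rfl⟩
    · exact Or.inr ⟨v, h, i, rfl⟩
  · rintro (⟨v, hv, i, rfl⟩ | ⟨v, hv, i, rfl⟩)
    · exact ⟨v, Finset.mem_union_left _ hv, i, rfl⟩
    · exact ⟨v, Finset.mem_union_right _ hv, i, rfl⟩

theorem cds_inter [DecidableEq (Vx k Ω)] (S T : Finset (Vx k Ω)) :
    cds (S ∩ T) ⊆ cds S ∩ cds T := by
  rintro x ⟨v, hv, i, rfl⟩
  exact ⟨⟨v, (Finset.mem_inter.1 hv).1, i, rfl⟩, ⟨v, (Finset.mem_inter.1 hv).2, i, rfl⟩⟩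

/-- adjacency -/
theorem adj_iff (A : ADG k K) (v w : Vx k Ω) :
    (grph A Ω).Adj v w ↔ w.isRight = !v.isRight ∧ Rel A w.isRight (co w) (co v) := by
  have key : ∀ p l : Fin k → Ω, (A.map (algebraMap K Ω)).Inc p l ↔ Rel A true l p := by
    intro p l
    unfold ADG.Inc GraphPf.Rel ADG.map
    refine forall_congr' fun i => forall_congr' fun _ => ?_
    rw [MvPolynomial.eval_map, ← MvPolynomial.aeval_def, add_comm]
    have : (fun v : Fin i × Bool => (if v.2 then l else p) (v.1.castLE i.isLt.le)) =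
        (fun v : Fin i × Bool => if v.2 = true then l (v.1.castLE i.isLt.le)
          else p (v.1.castLE i.isLt.le)) := by
      funext v
      split <;> rfl
    rw [this]
  rcases v with p | l <;> rcases w with q | m
  · simp [grph, ADG.graph]
  · simp only [grph, ADG.graph, Sum.isRight_inr, Sum.isRight_inl, Bool.not_false, true_and]
    exact key p m
  · simp only [grph, ADG.graph, Sum.isRight_inr, Sum.isRight_inl, Bool.not_true, true_and]
    rw [key q l]
    exact ⟨fun h => rel_symm A rfl h, fun h => rel_symm A rfl h⟩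
  · simp [grph, ADG.graph]

/-- a vertex with given colour and coordinates -/
def mk (c : Bool) (x : Fin k → Ω) : Vx k Ω := if c then Sum.inr x else Sum.inl x

theorem co_mk (c : Bool) (x : Fin k → Ω) : co (mk c x) = x := by
  unfold mk co
  cases c <;> rfl

theorem isRight_mk (c : Bool) (x : Fin k → Ω) : (mk c x).isRight = c := by
  unfold mk
  cases c <;> rfl

theorem vx_ext {v w : Vx k Ω} (h1 : v.isRight = w.isRight) (h2 : co v = co w) : v = w := by
  rcases v with v | v <;> rcases w with w | w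
  · exact congrArg Sum.inl h2
  · simp at h1
  · simp at h1
  · exact congrArg Sum.inr h2

/-- the neighbour with given first coordinate -/
noncomputable def nbr (A : ADG k K) (v : Vx k Ω) (c : Ω) : Vx k Ω :=
  mk (!v.isRight) (sol A (!v.isRight) c (co v))

theorem adj_nbr (A : ADG k K) (v : Vx k Ω) (c : Ω) : (grph A Ω).Adj v (nbr A v c) := by
  rw [adj_iff]
  unfold nbr
  rw [isRight_mk, co_mk]
  exact ⟨rfl, sol_rel A _ _ _⟩

theorem eq_nbr (hk : 0 < k) {A : ADG k K} {v w : Vx k Ω} (h : (grph A Ω).Adj v w) :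
    w = nbr A v (co w ⟨0, hk⟩) := by
  rw [adj_iff] at h
  obtain ⟨h1, h2⟩ := h
  unfold nbr
  apply vx_ext
  · rw [isRight_mk, h1]
  · rw [co_mk, ← h1]
    exact sol_unique A h2 (fun i hi => by
      have : i = ⟨0, hk⟩ := Fin.ext hi
      rw [this])

theorem co_nbr_zero (hk : 0 < k) (A : ADG k K) (v : Vx k Ω) (c : Ω) :
    co (nbr A v c) ⟨0, hk⟩ = c := by
  unfold nbr
  rw [co_mk]
  exact sol_zero A _ _ _ _ rfl

/-- the coordinates of a neighbour -/
theorem nbr_mem (A : ADG k K) (v : Vx k Ω) (c : Ω) {X : Set Ω} (hc : c ∈ X)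
    (hX : ∀ i, co v i ∈ X) (i : Fin k) : co (nbr A v c) i ∈ Algebra.adjoin K X := by
  unfold nbr
  rw [co_mk]
  have h1 := sol_map A (Algebra.adjoin K X).val (!v.isRight)
    (⟨c, Algebra.subset_adjoin hc⟩ : Algebra.adjoin K X)
    (fun j => ⟨co v j, Algebra.subset_adjoin (hX j)⟩) i i rfl
  have h2 : sol A (!v.isRight) c (co v) i = (Algebra.adjoin K X).val
      (sol A (!v.isRight) (⟨c, Algebra.subset_adjoin hc⟩ : Algebra.adjoin K X)
        (fun j => ⟨co v j, Algebra.subset_adjoin (hX j)⟩) i) := h1.symm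
  rw [h2]
  exact Subtype.mem _

/-- the vertex map of a homomorphism -/
noncomputable def vmap {E : IntermediateField K Ω} (φ : E →ₐ[K] Ω) (v : Vx k Ω) : Vx k Ω :=
  mk v.isRight (fun i => tot φ (co v i))

theorem isRight_vmap {E : IntermediateField K Ω} (φ : E →ₐ[K] Ω) (v : Vx k Ω) :
    (vmap φ v).isRight = v.isRight := isRight_mk _ _

theorem co_vmap {E : IntermediateField K Ω} (φ : E →ₐ[K] Ω) (v : Vx k Ω) (i : Fin k) :
    co (vmap φ v) i = tot φ (co v i) := by
  unfold vmap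
  rw [co_mk]

theorem vmap_inj {E : IntermediateField K Ω} (φ : E →ₐ[K] Ω) {v w : Vx k Ω}
    (hv : ∀ i, co v i ∈ E) (hw : ∀ i, co w i ∈ E) (h : vmap φ v = vmap φ w) : v = w := by
  apply vx_ext
  · rw [← isRight_vmap φ v, h, isRight_vmap]
  · funext i
    apply tot_injOn φ (hv i) (hw i)
    rw [← co_vmap, ← co_vmap, h]

theorem vmap_nbr {E : IntermediateField K Ω} (φ : E →ₐ[K] Ω) (A : ADG k K) (v : Vx k Ω) (c : Ω)
    (hv : ∀ i, co v i ∈ E) (hc : c ∈ E) : vmap φ (nbr A v c) = nbr A (vmap φ v) (tot φ c) := by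
  apply vx_ext
  · rw [isRight_vmap]
    unfold nbr
    rw [isRight_mk, isRight_mk, isRight_vmap]
  · funext i
    rw [co_vmap]
    unfold nbr
    rw [co_mk, co_mk, isRight_vmap]
    have h1 := sol_map A E.val (!v.isRight) (⟨c, hc⟩ : E) (fun j => ⟨co v j, hv j⟩) i i rfl
    have h2 := sol_map A φ (!v.isRight) (⟨c, hc⟩ : E) (fun j => ⟨co v j, hv j⟩) i i rfl
    have h3 : sol A (!v.isRight) c (co v) i =
        ((sol A (!v.isRight) (⟨c, hc⟩ : E) (fun j => ⟨co v j, hv j⟩) i : E) : Ω) := h1.symm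
    have h4 : sol A (!v.isRight) c (co v) i ∈ E := by
      rw [h3]
      exact Subtype.mem _
    rw [tot_of φ h4, tot_of φ hc]
    have h5 : (⟨sol A (!v.isRight) c (co v) i, h4⟩ : E) =
        sol A (!v.isRight) (⟨c, hc⟩ : E) (fun j => ⟨co v j, hv j⟩) i := Subtype.ext h3
    rw [h5, h2]
    congr 1
    funext j
    rw [co_vmap, tot_of φ (hv j)]

theorem vmap_adj (hk : 0 < k) {E : IntermediateField K Ω} (φ : E →ₐ[K] Ω) (A : ADG k K)
    {v w : Vx k Ω} (hv : ∀ i, co v i ∈ E) (hw : ∀ i, co w i ∈ E) (h : (grph A Ω).Adj v w) :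
    (grph A Ω).Adj (vmap φ v) (vmap φ w) := by
  rw [eq_nbr hk h, vmap_nbr φ A v _ hv (hw _)]
  exact adj_nbr _ _ _

theorem cds_vmap [DecidableEq (Vx k Ω)] {E : IntermediateField K Ω} (φ : E →ₐ[K] Ω)
    (W : Finset (Vx k Ω)) : cds (W.image (vmap φ)) = tot φ '' cds W := by
  ext x
  constructor
  · rintro ⟨v, hv, i, rfl⟩
    obtain ⟨w, hw, rfl⟩ := Finset.mem_image.1 hv
    exact ⟨co w i, mem_cds hw i, (co_vmap φ w i).symm⟩
  · rintro ⟨y, ⟨v, hv, i, rfl⟩, rfl⟩
    exact ⟨vmap φ v, Finset.mem_image_of_mem _ hv, i, (co_vmap φ v i).symm⟩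

end

end Rk

end Pool.Agent.H97G
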