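import Pool.Agent.H97G.Basic

/-!
# The rank of finite sets of elements of a field
-/

set_option autoImplicit false

namespace Pool.Agent.H97G

open MvPolynomial AlgebraicIndependent

namespace Trk

variable {K Ω : Type} [Field K] [Field Ω] [Algebra K Ω]

theorem mem_cl {X : Set Ω} {a : Ω} : a ∈ (matroid K Ω).closure X ↔
    IsAlgebraic (Algebra.adjoin K X) a := by
  rw [matroid_closure_eq]
  rfl

theorem subset_cl (X : Set Ω) : X ⊆ (matroid K Ω).closure X :=
  (matroid K Ω).subset_closure X (Set.subset_univ _)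

theorem adjoin_cl {X : Set Ω} {a : Ω} (h : a ∈ Algebra.adjoin K X) :
    a ∈ (matroid K Ω).closure X := by
  rw [mem_cl]
  exact isAlgebraic_algebraMap (⟨a, h⟩ : Algebra.adjoin K X)

theorem eRk_ne_top {X : Set Ω} (hX : X.Finite) : (matroid K Ω).eRk X ≠ ⊤ := by
  refine ne_top_of_le_ne_top ?_ ((matroid K Ω).eRk_le_encard X)
  rw [Set.encard_ne_top_iff]
  exact hX

theorem coe_trk {X : Set Ω} (hX : X.Finite) : ((trk K X : ℕ) : ℕ∞) = (matroid K Ω).eRk X := by
  unfold trk
  exact ENat.natCast_toNat (eRk_ne_top hX)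

theorem trk_le_of {X Y : Set Ω} (hY : Y.Finite) (h : (matroid K Ω).eRk X ≤ (matroid K Ω).eRk Y) :
    trk K X ≤ trk K Y := by
  unfold trk
  exact ENat.toNat_le_toNat h (eRk_ne_top hY)

theorem trk_mono {X Y : Set Ω} (hY : Y.Finite) (h : X ⊆ Y) : trk K X ≤ trk K Y :=
  trk_le_of hY ((matroid K Ω).eRk_mono h)

/-- monotone with respect to the closure -/
theorem trk_mono_cl {X Y : Set Ω} (hY : Y.Finite) (h : X ⊆ (matroid K Ω).closure Y) :
    trk K X ≤ trk K Y := by
  refine trk_le_of hY ?_
  rw [← (matroid K Ω).eRk_closure_eq Y]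
  exact (matroid K Ω).eRk_mono h

theorem trk_mono_adjoin {X Y : Set Ω} (hY : Y.Finite) (h : ∀ x ∈ X, x ∈ Algebra.adjoin K Y) :
    trk K X ≤ trk K Y := trk_mono_cl hY fun x hx => adjoin_cl (h x hx)

theorem trk_congr_cl {X Y : Set Ω} (hX : X.Finite) (hY : Y.Finite)
    (h : X ⊆ (matroid K Ω).closure Y) (h' : Y ⊆ (matroid K Ω).closure X) : trk K X = trk K Y :=
  le_antisymm (trk_mono_cl hY h) (trk_mono_cl hX h')

theorem trk_submod {X Y : Set Ω} (hX : X.Finite) (hY : Y.Finite) :
    trk K (X ∪ Y) + trk K (X ∩ Y) ≤ trk K X + trk K Y := by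
  have h := (matroid K Ω).eRk_inter_add_eRk_union_le X Y
  rw [← coe_trk hX, ← coe_trk hY, ← coe_trk (hX.union hY), ← coe_trk (hX.inter_of_left Y)] at h
  have h' : trk K (X ∩ Y) + trk K (X ∪ Y) ≤ trk K X + trk K Y := by exact_mod_cast h
  omega

theorem trk_insert_le {X : Set Ω} (hX : X.Finite) (a : Ω) : trk K (insert a X) ≤ trk K X + 1 := by
  have h := (matroid K Ω).eRk_insert_le_add_one a X
  rw [← coe_trk hX, ← coe_trk (hX.insert a)] at h
  exact_mod_cast h

theorem trk_insert_of_not {X : Set Ω} (hX : X.Finite) {a : Ω}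
    (ha : a ∉ (matroid K Ω).closure X) : trk K (insert a X) = trk K X + 1 := by
  have h := Matroid.eRk_insert_eq_add_one (M := matroid K Ω) (e := a) (X := X) ⟨Set.mem_univ _, ha⟩
  rw [← coe_trk hX, ← coe_trk (hX.insert a)] at h
  exact_mod_cast h

theorem trk_insert_of_mem {X : Set Ω} {a : Ω}
    (ha : a ∈ (matroid K Ω).closure X) : trk K (insert a X) = trk K X := by
  unfold trk
  congr 1
  rw [← (matroid K Ω).eRk_closure_eq (insert a X), Matroid.closure_insert_eq_of_mem_closure ha,
    (matroid K Ω).eRk_closure_eq X]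

theorem trk_insert_iff {X : Set Ω} (hX : X.Finite) {a : Ω} :
    trk K (insert a X) = trk K X ↔ a ∈ (matroid K Ω).closure X := by
  constructor
  · intro h
    by_contra ha
    have := trk_insert_of_not hX ha
    omega
  · exact trk_insert_of_mem

theorem subset_cl_of_trk_le {X Y : Set Ω} (hY : Y.Finite) (hXY : X ⊆ Y)
    (h : trk K Y ≤ trk K X) : Y ⊆ (matroid K Ω).closure X := by
  intro a ha
  rw [← trk_insert_iff (hY.subset hXY)]
  refine le_antisymm ?_ (trk_mono ((hY.subset hXY).insert a) (Set.subset_insert _ _))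
  refine (trk_mono hY (Set.insert_subset ha hXY)).trans h

theorem trk_le_card {ι : Type} [Fintype ι] (a : ι → Ω) : trk K (Set.range a) ≤ Fintype.card ι := by
  have h1 : (matroid K Ω).eRk (Set.range a) ≤ (Fintype.card ι : ℕ∞) := by
    refine ((matroid K Ω).eRk_le_encard _).trans ?_
    rw [← Set.image_univ]
    refine (Set.encard_image_le _ _).trans ?_
    rw [Set.encard_univ, ENat.card_eq_coe_fintype_card]
  rw [← coe_trk (Set.finite_range a)] at h1
  exact_mod_cast h1

theorem trk_range_of_indep {ι : Type} [Fintype ι] {a : ι → Ω} (h : AlgebraicIndependent K a) :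
    trk K (Set.range a) = Fintype.card ι := by
  have h1 : (matroid K Ω).Indep (Set.range a) := by
    rw [matroid_indep_iff]
    exact h.to_subtype_range
  have h2 := h1.eRk_eq_encard
  have h3 : (Set.range a).encard = Fintype.card ι := by
    rw [← Set.image_univ, h.injective.encard_image, Set.encard_univ,
      ENat.card_eq_coe_fintype_card]
  rw [h3, ← coe_trk (Set.finite_range a)] at h2
  exact_mod_cast h2

theorem indep_of_trk_range {ι : Type} [Fintype ι] {a : ι → Ω}
    (h : Fintype.card ι ≤ trk K (Set.range a)) : AlgebraicIndependent K a := by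
  have h0 : (Fintype.card ι : ℕ∞) ≤ (matroid K Ω).eRk (Set.range a) := by
    rw [← coe_trk (Set.finite_range a)]
    exact_mod_cast h
  have h1 : (Set.range a).encard ≤ Fintype.card ι := by
    rw [← Set.image_univ]
    refine (Set.encard_image_le _ _).trans ?_
    rw [Set.encard_univ, ENat.card_eq_coe_fintype_card]
  have h2 : (matroid K Ω).Indep (Set.range a) := by
    rw [Matroid.indep_iff_eRk_eq_encard_of_finite (Set.finite_range a)]
    exact le_antisymm ((matroid K Ω).eRk_le_encard _) (h1.trans h0)
  have h3 : Function.Injective a := by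
    have h4 : (Fintype.card ι : ℕ∞) ≤ (Set.range a).encard :=
      h0.trans ((matroid K Ω).eRk_le_encard _)
    rw [← Set.injOn_univ]
    refine Set.Finite.injOn_of_encard_image_eq Set.finite_univ ?_
    rw [Set.image_univ, Set.encard_univ, ENat.card_eq_coe_fintype_card]
    exact le_antisymm h1 h4
  rw [matroid_indep_iff] at h2
  exact (algebraicIndependent_subtype_range h3).1 h2

theorem indep_iff {ι : Type} [Fintype ι] {a : ι → Ω} :
    AlgebraicIndependent K a ↔ trk K (Set.range a) = Fintype.card ι :=
  ⟨trk_range_of_indep, fun h => indep_of_trk_range h.ge⟩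

/-- algebra homomorphisms preserve the rank -/
theorem matroid_comap {F : Type} [Field F] [Algebra K F] (i : F →ₐ[K] Ω) :
    (matroid K Ω).comap i = matroid K F := by
  refine Matroid.ext_indep (by simp) ?_
  intro I _
  rw [Matroid.comap_indep_iff, matroid_indep_iff, matroid_indep_iff]
  constructor
  · rintro ⟨h1, _⟩
    have h2 : AlgebraicIndependent K (fun x : I => i (x : F)) := by
      have := h1.comp (fun x : I => (⟨i x, Set.mem_image_of_mem _ x.2⟩ : i '' I)) ?_
      · exact this
      · intro x y hxy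
        exact Subtype.ext (i.injective (congrArg Subtype.val hxy))
    exact (AlgHom.algebraicIndependent_iff i i.injective).1 h2
  · intro h
    refine ⟨?_, i.injective.injOn⟩
    have h2 : AlgebraicIndependent K (fun x : I => i (x : F)) :=
      (AlgHom.algebraicIndependent_iff i i.injective).2 h
    have h3 := h2.to_subtype_range
    have h4 : Set.range (fun x : I => i (x : F)) = i '' I := by
      ext y; simp
    rw [h4] at h3
    exact h3

theorem trk_image {F : Type} [Field F] [Algebra K F] (i : F →ₐ[K] Ω) (X : Set F) :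
    trk K (i '' X) = trk K X := by
  unfold trk
  rw [← matroid_comap i, Matroid.eRk_comap]

end Trk

end Pool.Agent.H97G
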