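import Pool.Agent.H97G.Nb

/-!
# Project H97G, piece LTwin, part A (helper86): the polynomials in the normal form
-/

set_option autoImplicit false

namespace Pool.Agent.H97G.Twin

open MvPolynomial Pool.Agent.H97F Pool.Agent.H97F.GraphPf

variable {K : Type} [Field K] {k : ℕ} (A : ADG k K) (s : Bool)

section

variable {R : Type} [CommRing R] [Algebra K R]

theorem sol_congr (b : Bool) (x0 : R) {y y' : Fin k → R} (n : ℕ)
    (h : ∀ j : Fin k, (j : ℕ) ≤ n → y j = y' j) :
    ∀ i : Fin k, (i : ℕ) ≤ n → sol A b x0 y i = sol A b x0 y' i := by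
  suffices hh : ∀ (r : ℕ) (i : Fin k), (i : ℕ) = r → r ≤ n → sol A b x0 y i = sol A b x0 y' i from
    fun i hi => hh i i rfl hi
  intro r
  induction r using Nat.strong_induction_on with
  | _ r ih =>
    intro i hi hr
    by_cases hp : 0 < (i : ℕ)
    · rw [sol_pos A b x0 y i hp, sol_pos A b x0 y' i hp, h i (by omega)]
      congr 2
      congr 1
      funext v
      have hv1 : (v.1 : ℕ) < r := hi ▸ v.1.isLt
      by_cases hv : v.2 = b
      · rw [if_pos hv, if_pos hv]
        exact ih v.1 hv1 _ rfl (by omega)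
      · rw [if_neg hv, if_neg hv]
        exact h _ (show (v.1 : ℕ) ≤ n by omega)
    · rw [sol_zero A b x0 y i (by omega), sol_zero A b x0 y' i (by omega)]

/-- the vertex with first coordinate `0` -/
def ml (q : Fin k → R) : Fin k → R := fun j => if (j : ℕ) = 0 then 0 else - q j

/-- the neighbour of `ml q` with first coordinate `x` -/
noncomputable def Yv (x : R) (q : Fin k → R) : Fin k → R := sol A (!s) x (ml q)

/-- the neighbour of `Yv x q` with first coordinate `t` -/
noncomputable def Xv (x t : R) (q : Fin k → R) : Fin k → R := sol A s t (Yv A s x q)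

/-- the polynomials in the normal form -/
noncomputable def gv (x t : R) (q : Fin k → R) (i : Fin k) : R := Xv A s x t q i + q i

theorem gv_eq (x t : R) (q : Fin k → R) (i : Fin k) (hi : 0 < (i : ℕ)) :
    gv A s x t q i =
      aeval (fun u : Fin i × Bool => if u.2 = s then Xv A s x t q (u.1.castLE i.isLt.le)
        else Yv A s x q (u.1.castLE i.isLt.le)) (A.f i) -
      aeval (fun u : Fin i × Bool => if u.2 = s then ml q (u.1.castLE i.isLt.le)
        else Yv A s x q (u.1.castLE i.isLt.le)) (A.f i) := by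
  have h1 := sol_rel A s t (Yv A s x q) i hi
  have h2 := rel_symm A (s := !s) (s' := s) (by simp) (sol_rel A (!s) x (ml q)) i hi
  have h3 : ml q i = - q i := by
    unfold ml
    rw [if_neg (by omega)]
  rw [h3] at h2
  unfold gv
  change Xv A s x t q i + Yv A s x q i = aeval (fun u : Fin i × Bool => if u.2 = s then
    Xv A s x t q (u.1.castLE i.isLt.le) else Yv A s x q (u.1.castLE i.isLt.le)) (A.f i) at h1
  change - q i + Yv A s x q i = aeval (fun u : Fin i × Bool => if u.2 = s then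
    ml q (u.1.castLE i.isLt.le) else Yv A s x q (u.1.castLE i.isLt.le)) (A.f i) at h2
  rw [← h1, ← h2]
  ring

theorem Yv_congr (x : R) {q q' : Fin k → R} (n : ℕ)
    (h : ∀ j : Fin k, 0 < (j : ℕ) → (j : ℕ) ≤ n → q j = q' j) (i : Fin k) (hi : (i : ℕ) ≤ n) :
    Yv A s x q i = Yv A s x q' i := by
  refine sol_congr A _ x n (fun j hj => ?_) i hi
  unfold ml
  split_ifs with h0
  · rfl
  · rw [h j (by omega) hj]

theorem Xv_congr (x t : R) {q q' : Fin k → R} (n : ℕ)
    (h : ∀ j : Fin k, 0 < (j : ℕ) → (j : ℕ) ≤ n → q j = q' j) (i : Fin k) (hi : (i : ℕ) ≤ n) :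
    Xv A s x t q i = Xv A s x t q' i :=
  sol_congr A _ t n (fun j hj => Yv_congr A s x n h j hj) i hi

theorem gv_congr (x t : R) {q q' : Fin k → R} (i : Fin k) (hi : 0 < (i : ℕ))
    (h : ∀ j : Fin k, 0 < (j : ℕ) → (j : ℕ) < i → q j = q' j) :
    gv A s x t q i = gv A s x t q' i := by
  have h' : ∀ j : Fin k, 0 < (j : ℕ) → (j : ℕ) ≤ (i : ℕ) - 1 → q j = q' j := fun j h1 h2 =>
    h j h1 (by omega)
  have e1 : ∀ u : Fin i, Xv A s x t q (u.castLE i.isLt.le) = Xv A s x t q' (u.castLE i.isLt.le) :=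
    fun u => Xv_congr A s x t _ h' _ (by
      have := u.isLt
      show (u : ℕ) ≤ _
      omega)
  have e2 : ∀ u : Fin i, Yv A s x q (u.castLE i.isLt.le) = Yv A s x q' (u.castLE i.isLt.le) :=
    fun u => Yv_congr A s x _ h' _ (by
      have := u.isLt
      show (u : ℕ) ≤ _
      omega)
  have e3 : ∀ u : Fin i, ml q (u.castLE i.isLt.le) = ml q' (u.castLE i.isLt.le) := by
    intro u
    unfold ml
    split_ifs with h0
    · rfl
    · rw [h _ (Nat.pos_of_ne_zero h0) u.isLt]
  rw [gv_eq A s x t q i hi, gv_eq A s x t q' i hi]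
  simp only [e1, e2, e3]

theorem ml_map {R' : Type} [CommRing R'] [Algebra K R'] (φ : R →ₐ[K] R') (q : Fin k → R) :
    (fun j => φ (ml q j)) = ml fun j => φ (q j) := by
  funext j
  unfold ml
  split_ifs
  · rw [map_zero]
  · rw [map_neg]

theorem Yv_map {R' : Type} [CommRing R'] [Algebra K R'] (φ : R →ₐ[K] R') (x : R)
    (q : Fin k → R) (i : Fin k) : φ (Yv A s x q i) = Yv A s (φ x) (fun j => φ (q j)) i := by
  unfold Yv
  rw [sol_map A φ _ _ _ i i rfl, ml_map]

theorem Xv_map {R' : Type} [CommRing R'] [Algebra K R'] (φ : R →ₐ[K] R') (x t : R)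
    (q : Fin k → R) (i : Fin k) : φ (Xv A s x t q i) = Xv A s (φ x) (φ t) (fun j => φ (q j)) i := by
  unfold Xv
  rw [sol_map A φ _ _ _ i i rfl]
  congr 1
  funext j
  exact Yv_map A s φ x q j

theorem gv_map {R' : Type} [CommRing R'] [Algebra K R'] (φ : R →ₐ[K] R') (x t : R)
    (q : Fin k → R) (i : Fin k) : φ (gv A s x t q i) = gv A s (φ x) (φ t) (fun j => φ (q j)) i := by
  unfold gv
  rw [map_add, Xv_map]

/-- the first polynomial -/
noncomputable def f1v (hk : 2 ≤ k) (a b : R) : R :=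
  aeval (fun u : Fin 1 × Bool => if u.2 = s then b else a) (A.f ⟨1, hk⟩)

theorem gv_one (hk : 2 ≤ k) (x t : R) (q : Fin k → R) :
    gv A s x t q ⟨1, hk⟩ = f1v A s hk x t - f1v A s hk x 0 := by
  rw [gv_eq A s x t q ⟨1, hk⟩ Nat.one_pos]
  have e0 : ∀ u : Fin 1, ((u.castLE (⟨1, hk⟩ : Fin k).isLt.le : Fin k) : ℕ) = 0 := by
    intro u
    have := u.isLt
    show (u : ℕ) = 0
    omega
  unfold f1v
  congr 2
  · congr 1
    funext u
    split_ifs
    · exact sol_zero A _ _ _ _ (e0 u.1)
    · exact sol_zero A _ _ _ _ (e0 u.1)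
  · congr 1
    funext u
    split_ifs
    · unfold ml
      rw [if_pos (e0 u.1)]
    · exact sol_zero A _ _ _ _ (e0 u.1)

theorem ml_sol (y : Fin k → R) : ml (fun j => - sol A s 0 y j) = sol A s 0 y := by
  funext j
  unfold ml
  split_ifs with h
  · exact (sol_zero A s 0 y j h).symm
  · rw [neg_neg]

theorem Yv_sol (y : Fin k → R) (z : Fin k) (hz : (z : ℕ) = 0) :
    Yv A s (y z) (fun j => - sol A s 0 y j) = y := by
  unfold Yv
  rw [ml_sol]
  symm
  refine sol_unique A (rel_symm A rfl (sol_rel A s 0 y)) fun i hi => ?_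
  rw [Fin.ext (hi.trans hz.symm)]

end

end Pool.Agent.H97G.Twin
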