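import Pool.Agent.H97G.TwinA

/-!
# Project H97G, piece LTwin, part B (helper86): the measure
-/

set_option autoImplicit false

namespace Pool.Agent.H97G.Twin

open Polynomial Pool.Agent.H97F Pool.Agent.H97F.GraphPf

variable {K : Type} [Field K] {k : ℕ}

theorem f1v_map (A : ADG k K) (s : Bool) (hk : 2 ≤ k) {R R' : Type} [CommRing R] [Algebra K R]
    [CommRing R'] [Algebra K R'] (φ : R →ₐ[K] R') (a b : R) :
    φ (f1v A s hk a b) = f1v A s hk (φ a) (φ b) := by
  unfold f1v
  rw [MvPolynomial.comp_aeval_apply]
  congr 2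
  funext u
  split_ifs <;> rfl

theorem f1v_not (A : ADG k K) (s : Bool) (hk : 2 ≤ k) {R : Type} [CommRing R] [Algebra K R]
    (a b : R) : f1v A (!s) hk a b = f1v A s hk b a := by
  unfold f1v
  congr 2
  funext u
  rcases u with ⟨u, c⟩
  cases c <;> cases s <;> rfl

/-- the first polynomial as a polynomial in two variables -/
noncomputable def U (A : ADG k K) (s : Bool) (hk : 2 ≤ k) : K[X][X] :=
  f1v A s hk (C X) X

theorem ev_U (A : ADG k K) (s : Bool) (hk : 2 ≤ k) {R : Type} [CommRing R] [Algebra K R] (a b : R) :
    aevalAeval a b (U A s hk) = f1v A s hk a b := by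
  unfold U
  rw [f1v_map]
  congr 1
  · exact aevalAeval_X a b
  · exact aevalAeval_Y a b

/-- evaluation of the inner variable at `0` -/
noncomputable def in0 : K[X][X] →ₐ[K] K[X][X] := aevalAeval 0 X

theorem in0_eq (P : K[X][X]) : in0 P = P.map ((C : K →+* K[X]).comp (evalRingHom 0)) := by
  have h : (in0 : K[X][X] →ₐ[K] K[X][X]).toRingHom =
      mapRingHom ((C : K →+* K[X]).comp (evalRingHom 0)) := by
    apply Polynomial.ringHom_ext
    · intro a
      show aevalAeval 0 X (C a) = _
      rw [aevalAeval_C, coe_mapRingHom, map_C]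
      induction a using Polynomial.induction_on' with
      | add p q hp hq => rw [map_add, map_add, C_add, hp, hq]
      | monomial n a =>
        rcases Nat.eq_zero_or_pos n with rfl | hn
        · simp
        · simp [hn.ne']
    · show aevalAeval 0 X X = _
      rw [aevalAeval_Y, coe_mapRingHom, map_X]
  exact congrArg (fun f => f P) h

theorem in0_coeff (P : K[X][X]) (j : ℕ) : (in0 P).coeff j = C (eval 0 (P.coeff j)) := by
  rw [in0_eq, coeff_map]
  rfl

/-- the part which depends on the inner variable -/
noncomputable def nc (P : K[X][X]) : K[X][X] := P - in0 P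

theorem nc_coeff (P : K[X][X]) (j : ℕ) : (nc P).coeff j = P.coeff j - C (eval 0 (P.coeff j)) := by
  rw [nc, coeff_sub, in0_coeff]

/-- the measure -/
noncomputable def mu (hk : 2 ≤ k) (A : ADG k K) : ℕ :=
  (nc (U A true hk)).natDegree + (nc (U A false hk)).natDegree

theorem mu_eq (hk : 2 ≤ k) (A : ADG k K) (s : Bool) :
    mu hk A = (nc (U A s hk)).natDegree + (nc (U A (!s) hk)).natDegree := by
  cases s
  · exact add_comm _ _
  · rfl

/-- the first polynomial is a sum of polynomials in one variable -/
def Split (A : ADG k K) (s : Bool) (hk : 2 ≤ k) : Prop :=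
  ∃ u w : K[X], ∀ (R : Type) [CommRing R] [Algebra K R] (a b : R),
    f1v A s hk a b = aeval a u + aeval b w

theorem split_of_coeff (A : ADG k K) (s : Bool) (hk : 2 ≤ k)
    (h : ∀ j, 1 ≤ j → ((U A s hk).coeff j).natDegree = 0) : Split A s hk := by
  set P := U A s hk with hP
  refine ⟨P.coeff 0, P.map (evalRingHom 0) - C (eval 0 (P.coeff 0)), fun R _ _ a b => ?_⟩
  have h1 : P = C (P.coeff 0) + (P.map (evalRingHom 0) - C (eval 0 (P.coeff 0))).map C := by
    ext1 j
    rw [coeff_add, coeff_map, coeff_sub, coeff_map]
    rcases Nat.eq_zero_or_pos j with rfl | hj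
    · rw [coeff_C_zero, coeff_C_zero]
      show _ = P.coeff 0 + C (eval 0 (P.coeff 0) - eval 0 (P.coeff 0))
      rw [sub_self, C_0, add_zero]
    · rw [coeff_C_of_ne_zero hj.ne', coeff_C_of_ne_zero hj.ne', zero_add, sub_zero]
      obtain ⟨c, hc⟩ := natDegree_eq_zero.1 (h j hj)
      rw [← hc]
      show C c = C (eval 0 (C c))
      rw [eval_C]
  rw [← ev_U, ← hP]
  conv_lhs => rw [h1]
  rw [map_add, aevalAeval_C]
  congr 1
  have h2 : ∀ w : K[X], aevalAeval a b (w.map C) = aeval b w := by
    intro w
    induction w using Polynomial.induction_on' with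
    | add p q hp hq => rw [Polynomial.map_add, map_add, map_add, hp, hq]
    | monomial n c => simp
  exact h2 _

theorem split_of_nc (A : ADG k K) (s : Bool) (hk : 2 ≤ k)
    (h : (nc (U A (!s) hk)).natDegree = 0) : Split A s hk := by
  set P := U A (!s) hk with hP
  obtain ⟨v, hv⟩ := natDegree_eq_zero.1 h
  refine ⟨P.map (evalRingHom 0), v, fun R _ _ a b => ?_⟩
  have h1 : P = C v + (P.map (evalRingHom 0)).map C := by
    rw [hv, nc, in0_eq, Polynomial.map_map]
    ring
  have e : f1v A s hk a b = aevalAeval b a P := by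
    rw [hP, ev_U, f1v_not]
  rw [e]
  conv_lhs => rw [h1]
  rw [map_add, aevalAeval_C, add_comm]
  congr 1
  have h2 : ∀ w : K[X], aevalAeval b a (w.map C) = aeval a w := by
    intro w
    induction w using Polynomial.induction_on' with
    | add p q hp hq => rw [Polynomial.map_add, map_add, map_add, hp, hq]
    | monomial n c => simp
  exact h2 _

theorem ev_comp (P : K[X][X]) (h : K[X][X]) : aevalAeval (C X) h P = P.comp h := by
  have h1 : (aevalAeval (C X) h : K[X][X] →ₐ[K] K[X][X]).toRingHom = compRingHom h := by
    apply Polynomial.ringHom_ext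
    · intro a
      show aevalAeval (C X) h (C a) = (C a).comp h
      rw [aevalAeval_C, C_comp]
      induction a using Polynomial.induction_on' with
      | add p q hp hq => rw [map_add, C_add, hp, hq]
      | monomial n a =>
        rw [← C_mul_X_pow_eq_monomial]
        simp
    · show aevalAeval (C X) h X = X.comp h
      rw [aevalAeval_Y, X_comp]
  exact congrArg (fun f => f P) h1

theorem ev_mapcomp (P : K[X][X]) (h : K[X]) :
    aevalAeval (C h) X P = P.map (compRingHom h) := by
  have h1 : (aevalAeval (C h) X : K[X][X] →ₐ[K] K[X][X]).toRingHom =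
      mapRingHom (compRingHom h) := by
    apply Polynomial.ringHom_ext
    · intro a
      show aevalAeval (C h) X (C a) = _
      rw [aevalAeval_C, coe_mapRingHom, map_C]
      show _ = C (a.comp h)
      induction a using Polynomial.induction_on' with
      | add p q hp hq => rw [map_add, add_comp, C_add, hp, hq]
      | monomial n a =>
        rw [← C_mul_X_pow_eq_monomial]
        simp
    · show aevalAeval (C h) X X = _
      rw [aevalAeval_Y, coe_mapRingHom, map_X]
  exact congrArg (fun f => f P) h1

theorem C_eq_aeval (h : K[X]) : (C h : K[X][X]) = aeval (C X : K[X][X]) h := by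
  induction h using Polynomial.induction_on' with
  | add p q hp hq => rw [map_add, map_add, hp, hq]
  | monomial n a =>
    rw [← C_mul_X_pow_eq_monomial]
    simp

theorem aeval_X_eq (h : K[X]) : aeval (X : K[X][X]) h = h.map C := by
  induction h using Polynomial.induction_on' with
  | add p q hp hq => rw [map_add, Polynomial.map_add, hp, hq]
  | monomial n a =>
    rw [← C_mul_X_pow_eq_monomial]
    simp

/-- the measure decreases -/
theorem mu_lt (hk : 2 ≤ k) (A A' : ADG k K) (s : Bool) (h : K[X]) (hh : 2 ≤ h.natDegree)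
    (hns : ¬ Split A s hk)
    (hrel : ∀ (R : Type) [CommRing R] [Algebra K R] (a b : R),
      f1v A' s hk (aeval a h) b = f1v A s hk a b - f1v A s hk a 0) : mu hk A' < mu hk A := by
  rw [mu_eq hk A' s, mu_eq hk A s]
  refine add_lt_add_of_le_of_lt ?_ ?_
  · -- the outer variable is `b`
    have e1 : (U A' s hk).map (compRingHom h) = U A s hk - C ((U A s hk).coeff 0) := by
      rw [← ev_mapcomp, ev_U]
      have e2 : (C h : K[X][X]) = aeval (C X : K[X][X]) h := C_eq_aeval h
      rw [e2, hrel]
      congr 1
      rw [← ev_U]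
      have e3 : ∀ P : K[X][X], aevalAeval (C X : K[X][X]) 0 P = C (P.coeff 0) := by
        intro P
        rw [ev_comp, comp_zero, ← coeff_zero_eq_eval_zero]
      exact e3 _
    rw [natDegree_le_iff_coeff_eq_zero]
    intro N hN
    have h1 : (nc (U A s hk)).coeff N = 0 := coeff_eq_zero_of_natDegree_lt hN
    rw [nc_coeff, sub_eq_zero] at h1
    have h2 := congrArg (fun P => coeff P N) e1
    simp only [coeff_map, coeff_sub] at h2
    rw [coeff_C_of_ne_zero (by omega), sub_zero, h1] at h2
    have h3 : ((U A' s hk).coeff N).natDegree * h.natDegree = 0 := by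
      rw [← natDegree_comp]
      have : ((U A' s hk).coeff N).comp h = C (eval 0 ((U A s hk).coeff N)) := h2
      rw [this, natDegree_C]
    have h4 : ((U A' s hk).coeff N).natDegree = 0 := by
      rcases Nat.mul_eq_zero.1 h3 with h | h
      · exact h
      · omega
    obtain ⟨c, hc⟩ := natDegree_eq_zero.1 h4
    rw [nc_coeff, ← hc, eval_C, sub_self]
  · -- the outer variable is `a`
    set ht : K[X][X] := aeval (X : K[X][X]) h with hht
    have hdeg : ht.natDegree = h.natDegree := by
      have e2 : ht = h.map C := aeval_X_eq h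
      rw [e2]
      exact natDegree_map_eq_of_injective C_injective h
    have e1 : (U A' (!s) hk).comp ht = nc (U A (!s) hk) := by
      rw [← ev_comp, ev_U, f1v_not, hht, hrel, nc, in0]
      rw [ev_U, U, f1v_not, f1v_not]
    have e3 : in0 (U A' (!s) hk) = 0 := by
      have e4 : (in0 (U A' (!s) hk)).comp ht = 0 := by
        rw [← ev_comp, in0, ev_U, f1v_map, f1v_not, map_zero]
        have e5 : (aevalAeval (C X) ht : K[X][X] →ₐ[K] K[X][X]) X = ht := aevalAeval_Y _ _
        rw [e5, hht, hrel, sub_self]
      rcases comp_eq_zero_iff.1 e4 with h | ⟨-, h⟩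
      · exact h
      · rw [h, natDegree_C] at hdeg
        omega
    have h1 : (nc (U A (!s) hk)).natDegree = (U A' (!s) hk).natDegree * h.natDegree := by
      rw [← e1, natDegree_comp, hdeg]
    have h2 : nc (U A' (!s) hk) = U A' (!s) hk := by
      rw [nc, e3, sub_zero]
    have h3 : (nc (U A (!s) hk)).natDegree ≠ 0 := fun h => hns (split_of_nc A s hk h)
    rw [h1] at h3 ⊢
    rw [h2]
    have h4 : 0 < (U A' (!s) hk).natDegree := by
      by_contra h0
      rw [Nat.eq_zero_of_not_pos h0, zero_mul] at h3
      exact h3 rfl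
    nlinarith

end Pool.Agent.H97G.Twin
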