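import Pool.Agent.H97G.TwinB

/-!
# Project H97G, piece LTwin, part C (helper86): the smaller system
-/

set_option autoImplicit false

namespace Pool.Agent.H97G.Twin

open MvPolynomial Pool.Agent.H97F Pool.Agent.H97F.GraphPf

variable {K : Type} [Field K] {k : ℕ}

/-- the polynomials of the normal form, as polynomials -/
noncomputable def Gp (A : ADG k K) (s : Bool) (z : Fin k) (i : Fin k) :
    MvPolynomial (Option (Fin k)) K :=
  gv A s (X none) (X (some z)) (fun j => X (some j)) i

theorem aeval_Gp (A : ADG k K) (s : Bool) (z : Fin k) (i : Fin k) {R : Type} [CommRing R]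
    [Algebra K R] (e : Option (Fin k) → R) :
    aeval e (Gp A s z i) = gv A s (e none) (e (some z)) (fun j => e (some j)) i := by
  unfold Gp
  rw [gv_map]
  simp only [aeval_X]

/-- substitution of `h` for the first variable -/
noncomputable def sbh (k : ℕ) (h : Polynomial K) :
    MvPolynomial (Option (Fin k)) K →ₐ[K] MvPolynomial (Option (Fin k)) K :=
  aeval fun o => o.elim (Polynomial.aeval (X none) h) fun j => X (some j)

theorem aeval_sbh (h : Polynomial K) {R : Type} [CommRing R] [Algebra K R]
    (e : Option (Fin k) → R) (p : MvPolynomial (Option (Fin k)) K) :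
    aeval e (sbh k h p) =
      aeval (fun o : Option (Fin k) => o.elim (Polynomial.aeval (e none) h) fun j => e (some j))
        p := by
  unfold sbh
  rw [comp_aeval_apply]
  congr 2
  funext o
  rcases o with _ | j
  · show aeval e (Polynomial.aeval (X none) h) = Polynomial.aeval (e none) h
    rw [← Polynomial.aeval_algHom_apply, aeval_X]
  · show aeval e (X (some j)) = e (some j)
    rw [aeval_X]

/-- the substitution of the variables -/
noncomputable def sg (s : Bool) (i : Fin k) (hi : 0 < (i : ℕ)) :
    Option (Fin k) → MvPolynomial (Fin i × Bool) K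
  | none => X (⟨0, hi⟩, !s)
  | some j => if (j : ℕ) = 0 then X (⟨0, hi⟩, s) else
      if hj : (j : ℕ) < i then X (⟨j, hj⟩, !s) else 0

/-- the new system -/
noncomputable def newA (s : Bool) (G' : Fin k → MvPolynomial (Option (Fin k)) K) : ADG k K where
  f i := if hi : 0 < (i : ℕ) then aeval (sg s i hi) (G' i) else 0

theorem new_val (A : ADG k K) (s : Bool) (z : Fin k) (hz : (z : ℕ) = 0) (h : Polynomial K)
    (G' : Fin k → MvPolynomial (Option (Fin k)) K)
    (hG : ∀ i : Fin k, 0 < (i : ℕ) → sbh k h (G' i) = Gp A s z i)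
    {R : Type} [CommRing R] [Algebra K R] (x y : Fin k → R) (a : R)
    (ha : y z = Polynomial.aeval a h) (i : Fin k) (hi : 0 < (i : ℕ)) :
    aeval (fun v : Fin i × Bool => if v.2 = s then x (v.1.castLE i.isLt.le)
      else y (v.1.castLE i.isLt.le)) ((newA s G').f i) = gv A s a (x z) y i := by
  have hz' : ∀ h0 : (0 : ℕ) < i, (Fin.castLE i.isLt.le (⟨0, h0⟩ : Fin i)) = z := fun h0 =>
    Fin.ext hz.symm
  let es : Option (Fin k) → R := fun o => o.elim a fun j =>
    if (j : ℕ) = 0 then x z else if (j : ℕ) < i then y j else 0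
  have e1 : aeval (fun v : Fin i × Bool => if v.2 = s then x (v.1.castLE i.isLt.le)
      else y (v.1.castLE i.isLt.le)) ((newA s G').f i) = aeval es (sbh k h (G' i)) := by
    rw [aeval_sbh]
    show aeval _ (if hi : 0 < (i : ℕ) then aeval (sg s i hi) (G' i) else 0) = _
    rw [dif_pos hi, comp_aeval_apply]
    congr 2
    funext o
    rcases o with _ | j
    · show aeval _ (X (⟨0, hi⟩, !s) : MvPolynomial (Fin i × Bool) K) = Polynomial.aeval a h
      rw [aeval_X, if_neg (by cases s <;> simp), ← ha]
      exact congrArg y (hz' hi)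
    · show aeval _ (if (j : ℕ) = 0 then X (⟨0, hi⟩, s) else
        if hj : (j : ℕ) < i then X (⟨j, hj⟩, !s) else (0 : MvPolynomial (Fin i × Bool) K)) =
        if (j : ℕ) = 0 then x z else if (j : ℕ) < i then y j else 0
      split_ifs with h1 h2
      · rw [aeval_X, if_pos rfl]
        exact congrArg x (hz' hi)
      · rw [aeval_X, if_neg (by cases s <;> simp)]
        rfl
      · rw [map_zero]
  rw [e1, hG i hi, aeval_Gp]
  have e2 : es (some z) = x z := if_pos hz
  rw [e2]
  refine gv_congr A s a (x z) i hi fun j hj0 hji => ?_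
  show (if (j : ℕ) = 0 then x z else if (j : ℕ) < i then y j else 0) = y j
  rw [if_neg (by omega), if_pos hji]

theorem new_f1v (A : ADG k K) (s : Bool) (hk : 2 ≤ k) (z : Fin k) (hz : (z : ℕ) = 0)
    (h : Polynomial K) (G' : Fin k → MvPolynomial (Option (Fin k)) K)
    (hG : ∀ i : Fin k, 0 < (i : ℕ) → sbh k h (G' i) = Gp A s z i)
    (R : Type) [CommRing R] [Algebra K R] (a b : R) :
    f1v (newA s G') s hk (Polynomial.aeval a h) b = f1v A s hk a b - f1v A s hk a 0 := by
  have h1 := new_val A s z hz h G' hG (fun _ => b) (fun _ => Polynomial.aeval a h) a rfl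
    ⟨1, hk⟩ Nat.one_pos
  rw [gv_one] at h1
  exact h1

theorem inc_iff (A : ADG k K) (p l : Fin k → K) : A.Inc p l ↔ Rel A true l p := by
  unfold ADG.Inc GraphPf.Rel
  refine forall_congr' fun i => forall_congr' fun _ => ?_
  rw [add_comm]
  have e : eval (fun v : Fin i × Bool => (if v.2 then l else p) (v.1.castLE i.isLt.le)) (A.f i) =
      aeval (fun v : Fin i × Bool => if v.2 = true then l (v.1.castLE i.isLt.le)
        else p (v.1.castLE i.isLt.le)) (A.f i) := by
    rw [← aeval_eq_eval]
    congr 2
    funext v
    split_ifs <;> rfl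
  rw [← e]

/-- a root of `h - c` -/
theorem exists_root' [IsAlgClosed K] (h : Polynomial K) (hh : 0 < h.natDegree) (c : K) :
    ∃ a : K, Polynomial.aeval a h = c := by
  obtain ⟨a, ha⟩ := IsAlgClosed.exists_root (h - Polynomial.C c) (by
    rw [Polynomial.degree_sub_C (Polynomial.natDegree_pos_iff_degree_pos.1 hh)]
    exact (Polynomial.natDegree_pos_iff_degree_pos.1 hh).ne')
  refine ⟨a, ?_⟩
  rw [Polynomial.IsRoot.def, Polynomial.eval_sub, Polynomial.eval_C, sub_eq_zero] at ha
  rw [Polynomial.coe_aeval_eq_eval]
  exact ha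

theorem contained [IsAlgClosed K] (A : ADG k K) (s : Bool) (z : Fin k) (hz : (z : ℕ) = 0)
    (h : Polynomial K) (hh : 0 < h.natDegree) (G' : Fin k → MvPolynomial (Option (Fin k)) K)
    (hG : ∀ i : Fin k, 0 < (i : ℕ) → sbh k h (G' i) = Gp A s z i) :
    (newA s G').graph.IsContained A.graph := by
  choose r hr using exists_root' h hh
  let φ : (Fin k → K) → (Fin k → K) := fun y => Yv A s (r (y z)) y
  have hφ : Function.Injective φ := by
    intro y y' hyy
    have h0 : r (y z) = r (y' z) := by
      have h1 := congrFun hyy z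
      change Yv A s (r (y z)) y z = Yv A s (r (y' z)) y' z at h1
      unfold Yv at h1
      rwa [sol_zero A _ _ _ z hz, sol_zero A _ _ _ z hz] at h1
    have hm : ∀ (c : K) (q : Fin k → K), ml q = sol A s 0 (Yv A s c q) := by
      intro c q
      refine sol_unique A (rel_symm A (s := !s) (s' := s) (by simp) (sol_rel A (!s) c (ml q)))
        fun i hi => ?_
      unfold ml
      rw [if_pos hi]
    have h1 : ml y = ml y' := by
      rw [hm (r (y z)) y, hm (r (y' z)) y']
      exact congrArg (sol A s 0) hyy
    funext j
    by_cases hj : (j : ℕ) = 0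
    · have : j = z := Fin.ext (hj.trans hz.symm)
      rw [this, ← hr (y z), ← hr (y' z), h0]
    · have h2 := congrFun h1 j
      unfold ml at h2
      rw [if_neg hj, if_neg hj] at h2
      exact neg_injective h2
  have hrel : ∀ x y : Fin k → K, Rel (newA s G') s x y → Rel A s x (φ y) := by
    intro x y hxy
    have h1 : x = Xv A s (r (y z)) (x z) y := by
      funext i
      by_cases hi : 0 < (i : ℕ)
      · have h2 := hxy i hi
        rw [new_val A s z hz h G' hG x y (r (y z)) (hr (y z)).symm i hi] at h2
        unfold gv at h2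
        exact add_right_cancel h2
      · have : i = z := Fin.ext (by omega)
        rw [this]
        exact (sol_zero A _ _ _ z hz).symm
    rw [h1]
    exact sol_rel A s _ _
  let e : Vx k K → Vx k K := fun v => if v.isRight = s then v else Sum.map φ φ v
  have he : Function.Injective e := by
    intro v w hvw
    have h3 : ∀ v : Vx k K, (e v).isRight = v.isRight := by
      intro v
      show (if v.isRight = s then v else Sum.map φ φ v).isRight = v.isRight
      split_ifs
      · rfl
      · rcases v with v | v <;> rfl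
    have h4 : v.isRight = w.isRight := by rw [← h3 v, ← h3 w, hvw]
    change (if v.isRight = s then v else Sum.map φ φ v) =
      (if w.isRight = s then w else Sum.map φ φ w) at hvw
    rw [h4] at hvw
    split_ifs at hvw
    · exact hvw
    · exact Sum.map_injective.2 ⟨hφ, hφ⟩ hvw
  have hadj : ∀ p l : Fin k → K, (newA s G').Inc p l →
      A.graph.Adj (e (Sum.inl p)) (e (Sum.inr l)) := by
    intro p l h1
    rw [inc_iff] at h1
    cases s
    · have e1 : e (Sum.inl p) = Sum.inl p := if_pos rfl
      have e2 : e (Sum.inr l) = Sum.inr (φ l) := if_neg (by simp)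
      rw [e1, e2]
      show A.Inc p (φ l)
      rw [inc_iff]
      exact rel_symm A (s := false) (s' := true) rfl
        (hrel p l (rel_symm _ (s := true) (s' := false) rfl h1))
    · have e1 : e (Sum.inl p) = Sum.inl (φ p) := if_neg (by simp)
      have e2 : e (Sum.inr l) = Sum.inr l := if_pos rfl
      rw [e1, e2]
      show A.Inc (φ p) l
      rw [inc_iff]
      exact hrel l p h1
  refine ⟨⟨⟨e, ?_⟩, he⟩⟩
  intro v w hvw
  rcases v with p | l <;> rcases w with p' | l'
  · exact hvw.elim
  · exact hadj p l' hvw
  · exact (hadj p' l hvw).symm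
  · exact hvw.elim

end Pool.Agent.H97G.Twin
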