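import Pool.Agent.H97G.TwinC

/-!
# Project H97G, piece LTwin, part D (helper86): twins give a smaller system
-/

set_option autoImplicit false

namespace Pool.Agent.H97G.Twin

open MvPolynomial Pool.Agent.H97F Pool.Agent.H97F.GraphPf

variable {K Ω : Type} [Field K] [Field Ω] [Algebra K Ω] {k : ℕ}

/-- equality of the neighbours for a transcendental value gives equality for the value `0` -/
theorem twin_sol (A : ADG k K) (s : Bool) (y y' : Fin k → Ω) (c : Ω)
    (hc : Transcendental (Algebra.adjoin K (Set.range y ∪ Set.range y')) c)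
    (h : sol A s c y = sol A s c y') : sol A s 0 y = sol A s 0 y' := by
  set S := Algebra.adjoin K (Set.range y ∪ Set.range y') with hS
  let w : Fin k → S := fun j => ⟨y j, Algebra.subset_adjoin (Or.inl ⟨j, rfl⟩)⟩
  let w' : Fin k → S := fun j => ⟨y' j, Algebra.subset_adjoin (Or.inr ⟨j, rfl⟩)⟩
  let φ : Ω → (Polynomial S →ₐ[K] Ω) := fun c =>
    (Polynomial.aeval c : Polynomial S →ₐ[S] Ω).restrictScalars K
  have h1 : ∀ (c : Ω) (v : Fin k → S) (j : Fin k),
      φ c (sol A s Polynomial.X (fun j => Polynomial.C (v j)) j) =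
        sol A s c (fun j => (v j : Ω)) j := by
    intro c v j
    rw [sol_map A (φ c) s _ _ j j rfl]
    have e1 : φ c Polynomial.X = c := Polynomial.aeval_X c
    have e2 : (fun j => φ c (Polynomial.C (v j))) = fun j => (v j : Ω) := by
      funext j
      exact Polynomial.aeval_C c (v j)
    rw [e1, e2]
  funext j
  have h2 : sol A s Polynomial.X (fun j => Polynomial.C (w j)) j =
      sol A s Polynomial.X (fun j => Polynomial.C (w' j)) j := by
    rw [← sub_eq_zero]
    refine transcendental_iff.1 hc _ ?_
    have h3 := h1 c w j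
    have h4 := h1 c w' j
    have h5 := congrFun h j
    rw [map_sub, sub_eq_zero]
    exact h3.trans (h5.trans h4.symm)
  have h3 := h1 0 w j
  have h4 := h1 0 w' j
  rw [h2, h4] at h3
  exact h3.symm

/-- the same for a polynomial in two variables -/
theorem twin_coeff (S : Subalgebra K Ω) (x x' c : Ω) (hx : x ∈ S) (hx' : x' ∈ S)
    (hc : Transcendental S c) (V : Polynomial (Polynomial K))
    (h : Polynomial.aevalAeval x c V = Polynomial.aevalAeval x' c V) (j : ℕ) :
    Polynomial.aeval x (V.coeff j) = Polynomial.aeval x' (V.coeff j) := by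
  have h1 : ∀ (w : S) (V : Polynomial (Polynomial K)), Polynomial.aeval c
      (V.map ((Polynomial.aeval w : Polynomial K →ₐ[K] S) : Polynomial K →+* S)) =
      Polynomial.aevalAeval (w : Ω) c V := by
    intro w V
    induction V using Polynomial.induction_on' with
    | add p q hp hq => rw [Polynomial.map_add, map_add, map_add, hp, hq]
    | monomial n a =>
      rw [← Polynomial.C_mul_X_pow_eq_monomial]
      simp
  have h2 : V.map ((Polynomial.aeval (⟨x, hx⟩ : S) : Polynomial K →ₐ[K] S) : Polynomial K →+* S) =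
      V.map ((Polynomial.aeval (⟨x', hx'⟩ : S) : Polynomial K →ₐ[K] S) : Polynomial K →+* S) := by
    rw [← sub_eq_zero]
    refine transcendental_iff.1 hc _ ?_
    rw [map_sub, h1, h1, sub_eq_zero]
    exact h
  have h3 := congrArg (fun P => ((P.coeff j : S) : Ω)) h2
  simp only [Polynomial.coeff_map] at h3
  have h4 : ∀ w : S, (((Polynomial.aeval w : Polynomial K →ₐ[K] S) (V.coeff j) : S) : Ω) =
      Polynomial.aeval (w : Ω) (V.coeff j) := by
    intro w
    exact (Polynomial.aeval_algebraMap_apply Ω w (V.coeff j)).symm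
  exact (h4 _).symm.trans (h3.trans (h4 _))

theorem Yv_mem (A : ADG k K) (s : Bool) (S : Subalgebra K Ω) (x : Ω) (hx : x ∈ S) (q : Fin k → Ω)
    (hq : ∀ j : Fin k, 0 < (j : ℕ) → q j ∈ S) (j : Fin k) : Yv A s x q j ∈ S := by
  let q' : Fin k → S := fun j => if hj : 0 < (j : ℕ) then ⟨q j, hq j hj⟩ else 0
  have h1 : Yv A s x q j = Yv A s x (fun j => (q' j : Ω)) j := by
    refine Yv_congr A s x j (fun i hi _ => ?_) j le_rfl
    show q i = ((if hj : 0 < (i : ℕ) then ⟨q i, hq i hj⟩ else 0 : S) : Ω)
    rw [dif_pos hi]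
  rw [h1]
  have h2 := Yv_map A s S.val ⟨x, hx⟩ q' j
  have h3 : Yv A s x (fun j => (q' j : Ω)) j = S.val (Yv A s ⟨x, hx⟩ q' j) := h2.symm
  rw [h3]
  exact (Yv A s ⟨x, hx⟩ q' j).2

/-- the family `x, q, c` -/
noncomputable def fam (x c : Ω) (q : Fin k → Ω) : Option (Fin k) → Ω :=
  fun o => o.elim x fun j => if (j : ℕ) = 0 then c else q j

theorem indep_fam (A : ADG k K) (s : Bool) (z : Fin k) (hz : (z : ℕ) = 0) (y : Fin k → Ω)
    (c : Ω) (hy : AlgebraicIndependent K y)
    (hc : c ∉ (AlgebraicIndependent.matroid K Ω).closure (Set.range y)) :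
    AlgebraicIndependent K (fam (y z) c (fun j => - sol A s 0 y j)) := by
  set q : Fin k → Ω := fun j => - sol A s 0 y j with hq
  apply Trk.indep_of_trk_range
  rw [Fintype.card_option, Fintype.card_fin]
  have h1 := Trk.trk_insert_of_not (Set.finite_range y) hc
  rw [Trk.trk_range_of_indep hy, Fintype.card_fin] at h1
  rw [← h1]
  refine Trk.trk_mono_adjoin (Set.finite_range _) fun a ha => ?_
  have hm : ∀ o, fam (y z) c q o ∈ Algebra.adjoin K (Set.range (fam (y z) c q)) := fun o =>
    Algebra.subset_adjoin ⟨o, rfl⟩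
  rcases ha with rfl | ⟨j, rfl⟩
  · have h2 := hm (some z)
    have h3 : fam (y z) a q (some z) = a := if_pos hz
    rwa [h3] at h2
  · have h2 := Yv_sol A s y z hz
    have h3 : y j = Yv A s (y z) q j := by
      rw [hq, h2]
    rw [h3]
    refine Yv_mem A s _ _ (hm none) q (fun i hi => ?_) j
    have h4 := hm (some i)
    have h5 : fam (y z) c q (some i) = q i := if_neg (by omega)
    rwa [h5] at h4

theorem ev_opt (Γ : MvPolynomial (Option (Fin k)) K) (x : Ω) (e : Fin k → Ω) :
    eval₂ ((Polynomial.aeval x : Polynomial K →ₐ[K] Ω) : Polynomial K →+* Ω) e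
      (optionEquivRight K (Fin k) Γ) = aeval (fun o : Option (Fin k) => o.elim x e) Γ := by
  induction Γ using MvPolynomial.induction_on with
  | C a =>
    rw [optionEquivRight_C, eval₂_C, aeval_C]
    exact Polynomial.aeval_C x a
  | add p q hp hq => rw [map_add, eval₂_add, map_add, hp, hq]
  | mul_X p o hp =>
    rw [map_mul, eval₂_mul, map_mul, hp, aeval_X]
    congr 1
    rcases o with _ | j
    · rw [optionEquivRight_X_none, eval₂_C]
      exact Polynomial.aeval_X x
    · rw [optionEquivRight_X_some, eval₂_X]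
      rfl

/-- agreement of the coefficients -/
theorem coeff_eq (x x' : Ω) (hx' : IsAlgebraic (Algebra.adjoin K {x}) x') (e : Fin k → Ω)
    (he : AlgebraicIndependent K (fun o : Option (Fin k) => o.elim x e))
    (Γ : MvPolynomial (Option (Fin k)) K)
    (h : aeval (fun o : Option (Fin k) => o.elim x e) Γ =
      aeval (fun o : Option (Fin k) => o.elim x' e) Γ) (m : Fin k →₀ ℕ) :
    Polynomial.aeval x (coeff m (optionEquivRight K (Fin k) Γ)) =
      Polynomial.aeval x' (coeff m (optionEquivRight K (Fin k) Γ)) := by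
  have h1 : AlgebraicIndependent K (Sum.elim e (fun _ : Unit => x)) := by
    refine (algebraicIndependent_equiv' (Equiv.optionEquivSumPUnit (Fin k)) ?_).1 he
    funext o
    rcases o with _ | j
    · simp
    · simp
  obtain ⟨-, h2⟩ := AlgebraicIndependent.sumElim_iff.1 h1
  rw [Set.range_const] at h2
  set S := Algebra.adjoin K ({x} : Set Ω) with hS
  set F := Subalgebra.algebraicClosure S Ω with hF
  have h3 : AlgebraicIndependent F e := h2.subalgebraAlgebraicClosure
  have hxF : x ∈ F := by
    show IsAlgebraic S x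
    exact isAlgebraic_algebraMap (⟨x, Algebra.subset_adjoin rfl⟩ : S)
  have hxF' : x' ∈ F := hx'
  have hmem : ∀ w : Ω, w ∈ F → ∀ p : Polynomial K,
      ((Polynomial.aeval w : Polynomial K →ₐ[K] Ω) : Polynomial K →+* Ω) p ∈ F := by
    intro w hw p
    have h4 : Algebra.adjoin K {w} ≤ F.restrictScalars K :=
      Algebra.adjoin_le (Set.singleton_subset_iff.2 hw)
    exact h4 (Polynomial.aeval_mem_adjoin_singleton K w)
  let ρ : ∀ w : Ω, w ∈ F → (Polynomial K →+* F) := fun w hw =>
    ((Polynomial.aeval w : Polynomial K →ₐ[K] Ω) : Polynomial K →+* Ω).codRestrict F (hmem w hw)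
  have h4 : ∀ (w : Ω) (hw : w ∈ F), aeval e (MvPolynomial.map (ρ w hw)
      (optionEquivRight K (Fin k) Γ)) = aeval (fun o : Option (Fin k) => o.elim w e) Γ := by
    intro w hw
    rw [aeval_def, eval₂_map, ← ev_opt]
    congr 1
  have h5 : MvPolynomial.map (ρ x hxF) (optionEquivRight K (Fin k) Γ) =
      MvPolynomial.map (ρ x' hxF') (optionEquivRight K (Fin k) Γ) := by
    apply h3
    exact (h4 x hxF).trans (h.trans (h4 x' hxF').symm)
  have h6 := congrArg (fun P => ((coeff m P : F) : Ω)) h5
  simp only [coeff_map] at h6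
  exact h6

theorem oer_sbh (h : Polynomial K) (p : MvPolynomial (Option (Fin k)) K) :
    optionEquivRight K (Fin k) (sbh k h p) =
      MvPolynomial.map (Polynomial.compRingHom h) (optionEquivRight K (Fin k) p) := by
  induction p using MvPolynomial.induction_on with
  | C a =>
    have h1 : sbh k h (C a) = C a := by
      unfold sbh
      rw [aeval_C]
      rfl
    rw [h1, optionEquivRight_C, map_C]
    show _ = C ((Polynomial.C a).comp h)
    rw [Polynomial.C_comp]
  | add p q hp hq => rw [map_add, map_add, map_add, map_add, hp, hq]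
  | mul_X p o hp =>
    rw [map_mul, map_mul, hp, map_mul, map_mul]
    congr 1
    rcases o with _ | j
    · have h1 : sbh k h (X none) = Polynomial.aeval (X none) h := by
        unfold sbh
        rw [aeval_X]
        rfl
      rw [h1, optionEquivRight_X_none, map_C]
      have h2 : optionEquivRight K (Fin k) (Polynomial.aeval (X none) h) =
          Polynomial.aeval (C Polynomial.X : MvPolynomial (Fin k) (Polynomial K)) h := by
        rw [← optionEquivRight_X_none]
        exact (Polynomial.aeval_algHom_apply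
          (optionEquivRight K (Fin k)).toAlgHom (X none) h).symm
      rw [h2]
      show _ = C (Polynomial.X.comp h)
      rw [Polynomial.X_comp]
      have h3 : ∀ g : Polynomial K,
          Polynomial.aeval (C Polynomial.X : MvPolynomial (Fin k) (Polynomial K)) g = C g := by
        intro g
        induction g using Polynomial.induction_on' with
        | add p q hp hq => rw [map_add, map_add, hp, hq]
        | monomial n a =>
          rw [← Polynomial.C_mul_X_pow_eq_monomial]
          simp
      exact h3 h
    · have h1 : sbh k h (X (some j)) = X (some j) := by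
        unfold sbh
        rw [aeval_X]
        rfl
      rw [h1, optionEquivRight_X_some, map_X]

theorem exists_sbh (h : Polynomial K) (Γ : MvPolynomial (Option (Fin k)) K)
    (hc : ∀ m, ∃ g : Polynomial K, coeff m (optionEquivRight K (Fin k) Γ) = g.comp h) :
    ∃ G, sbh k h G = Γ := by
  have h1 : optionEquivRight K (Fin k) Γ ∈
      Set.range (MvPolynomial.map (σ := Fin k) (Polynomial.compRingHom h)) := by
    rw [mem_range_map_iff_coeffs_subset]
    intro l hl
    obtain ⟨m, -, rfl⟩ := mem_coeffs_iff.1 (Finset.mem_coe.1 hl)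
    obtain ⟨g, hg⟩ := hc m
    exact ⟨g, hg.symm⟩
  obtain ⟨P, hP⟩ := h1
  refine ⟨(optionEquivRight K (Fin k)).symm P, ?_⟩
  apply (optionEquivRight K (Fin k)).injective
  rw [oer_sbh, AlgEquiv.apply_symm_apply, hP]

end Pool.Agent.H97G.Twin
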